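import Pool.Agent.TuringBaire.Defs

/-!
# M1 : Turing equivalence satisfies the axioms `Ctx`
-/

namespace TuringBaire
open Set

/-- The characteristic function of a point of Cantor space, as a partial function. -/
def ch (x : X) : ℕ →. ℕ := fun n => Part.some (if x n then 1 else 0)

/-- Codes for oracle programs. -/
inductive OC : Type
  | zero : OC
  | succ : OC
  | left : OC
  | right : OC
  | oracle : OC
  | pair : OC → OC → OC
  | comp : OC → OC → OC
  | prec : OC → OC → OC
  | rfind : OC → OC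

namespace OC

/-- injective numbering of codes -/
def num : OC → ℕ
  | zero => Nat.pair 0 0
  | succ => Nat.pair 1 0
  | left => Nat.pair 2 0
  | right => Nat.pair 3 0
  | oracle => Nat.pair 4 0
  | pair a b => Nat.pair 5 (Nat.pair a.num b.num)
  | comp a b => Nat.pair 6 (Nat.pair a.num b.num)
  | prec a b => Nat.pair 7 (Nat.pair a.num b.num)
  | rfind a => Nat.pair 8 a.num

theorem num_inj : ∀ a b : OC, a.num = b.num → a = b := by
  intro a
  induction a with
  | zero => intro b h; cases b <;> simp_all [num, Nat.pair_eq_pair]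
  | succ => intro b h; cases b <;> simp_all [num, Nat.pair_eq_pair]
  | left => intro b h; cases b <;> simp_all [num, Nat.pair_eq_pair]
  | right => intro b h; cases b <;> simp_all [num, Nat.pair_eq_pair]
  | oracle => intro b h; cases b <;> simp_all [num, Nat.pair_eq_pair]
  | pair a1 a2 h1 h2 =>
    intro b h
    cases b <;> simp [num, Nat.pair_eq_pair] at h
    rw [h1 _ h.1, h2 _ h.2]
  | comp a1 a2 h1 h2 =>
    intro b h
    cases b <;> simp [num, Nat.pair_eq_pair] at h
    rw [h1 _ h.1, h2 _ h.2]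
  | prec a1 a2 h1 h2 =>
    intro b h
    cases b <;> simp [num, Nat.pair_eq_pair] at h
    rw [h1 _ h.1, h2 _ h.2]
  | rfind a1 h1 =>
    intro b h
    cases b <;> simp [num, Nat.pair_eq_pair] at h
    rw [h1 _ h]

instance : Countable OC := ⟨⟨num, fun a b h => num_inj a b h⟩⟩

instance : Nonempty OC := ⟨zero⟩

/-- substitute `a` for the oracle in a code -/
def sub (a : OC) : OC → OC
  | zero => zero
  | succ => succ
  | left => left
  | right => right
  | oracle => a
  | pair b c => pair (sub a b) (sub a c)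
  | comp b c => comp (sub a b) (sub a c)
  | prec b c => prec (sub a b) (sub a c)
  | rfind b => rfind (sub a b)

end OC

/-- Evaluation of an oracle program with a (possibly partial) oracle. -/
def ev (o : ℕ →. ℕ) : OC → ℕ →. ℕ
  | .zero => fun _ => 0
  | .succ => Nat.succ
  | .left => fun n => (Nat.unpair n).1
  | .right => fun n => (Nat.unpair n).2
  | .oracle => o
  | .pair f h => fun n => (Nat.pair <$> ev o f n <*> ev o h n)
  | .comp f h => fun n => ev o h n >>= ev o f
  | .prec f h => fun p =>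
        let (a, n) := Nat.unpair p
        n.rec (ev o f a) fun y IH => do
          let i ← IH
          ev o h (Nat.pair a (Nat.pair y i))
  | .rfind f => fun a => Nat.rfind fun n => (fun m => m = 0) <$> ev o f (Nat.pair a n)

theorem ev_recursiveIn (o : ℕ →. ℕ) (c : OC) : Nat.RecursiveIn {o} (ev o c) := by
  induction c with
  | zero => exact .zero
  | succ => exact .succ
  | left => exact .left
  | right => exact .right
  | oracle => exact .oracle _ rfl
  | pair a b ha hb => exact .pair ha hb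
  | comp a b ha hb => exact .comp ha hb
  | prec a b ha hb => exact .prec ha hb
  | rfind a ha => exact .rfind ha

theorem exists_code {o f : ℕ →. ℕ} (hf : Nat.RecursiveIn {o} f) : ∃ c, ev o c = f := by
  induction hf with
  | zero => exact ⟨.zero, rfl⟩
  | succ => exact ⟨.succ, rfl⟩
  | left => exact ⟨.left, rfl⟩
  | right => exact ⟨.right, rfl⟩
  | oracle g hg => exact ⟨.oracle, by rw [mem_singleton_iff.1 hg]; rfl⟩
  | pair _ _ h1 h2 =>
    obtain ⟨a, rfl⟩ := h1
    obtain ⟨b, rfl⟩ := h2
    exact ⟨.pair a b, rfl⟩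
  | comp _ _ h1 h2 =>
    obtain ⟨a, rfl⟩ := h1
    obtain ⟨b, rfl⟩ := h2
    exact ⟨.comp a b, rfl⟩
  | prec _ _ h1 h2 =>
    obtain ⟨a, rfl⟩ := h1
    obtain ⟨b, rfl⟩ := h2
    exact ⟨.prec a b, rfl⟩
  | rfind _ h1 =>
    obtain ⟨a, rfl⟩ := h1
    exact ⟨.rfind a, rfl⟩

/-- a partial recursive function has a code that works for all oracles -/
theorem exists_code_partrec {f : ℕ →. ℕ} (hf : Nat.Partrec f) : ∃ c, ∀ o, ev o c = f := by
  induction hf with
  | zero => exact ⟨.zero, fun _ => rfl⟩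
  | succ => exact ⟨.succ, fun _ => rfl⟩
  | left => exact ⟨.left, fun _ => rfl⟩
  | right => exact ⟨.right, fun _ => rfl⟩
  | pair _ _ h1 h2 =>
    obtain ⟨a, ha⟩ := h1
    obtain ⟨b, hb⟩ := h2
    exact ⟨.pair a b, fun o => by simp only [ev, ha, hb] <;> rfl⟩
  | comp _ _ h1 h2 =>
    obtain ⟨a, ha⟩ := h1
    obtain ⟨b, hb⟩ := h2
    exact ⟨.comp a b, fun o => by simp only [ev, ha, hb] <;> rfl⟩
  | prec _ _ h1 h2 =>
    obtain ⟨a, ha⟩ := h1
    obtain ⟨b, hb⟩ := h2
    exact ⟨.prec a b, fun o => by simp only [ev, ha, hb] <;> rfl⟩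
  | rfind _ h1 =>
    obtain ⟨a, ha⟩ := h1
    exact ⟨.rfind a, fun o => by simp only [ev, ha] <;> rfl⟩

theorem ev_sub (o : ℕ →. ℕ) (a b : OC) : ev o (a.sub b) = ev (ev o a) b := by
  induction b with
  | zero => rfl
  | succ => rfl
  | left => rfl
  | right => rfl
  | oracle => rfl
  | pair b c hb hc => simp only [ev, OC.sub, hb, hc] <;> rfl
  | comp b c hb hc => simp only [ev, OC.sub, hb, hc] <;> rfl
  | prec b c hb hc => simp only [ev, OC.sub, hb, hc] <;> rfl
  | rfind b hb => simp only [ev, OC.sub, hb] <;> rfl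

theorem mem_ev_pair {o : ℕ →. ℕ} {a b : OC} {n v : ℕ} :
    v ∈ ev o (.pair a b) n ↔ ∃ u ∈ ev o a n, ∃ w ∈ ev o b n, v = Nat.pair u w := by
  simp [ev, Seq.seq, eq_comm]

theorem mem_ev_comp {o : ℕ →. ℕ} {a b : OC} {n v : ℕ} :
    v ∈ ev o (.comp a b) n ↔ ∃ u ∈ ev o b n, v ∈ ev o a u :=
  Part.mem_bind_iff

theorem ev_prec_zero {o : ℕ →. ℕ} {a b : OC} {x : ℕ} :
    ev o (.prec a b) (Nat.pair x 0) = ev o a x := by
  simp [ev]

theorem ev_prec_succ {o : ℕ →. ℕ} {a b : OC} {x n : ℕ} :
    ev o (.prec a b) (Nat.pair x (n + 1)) =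
      (ev o (.prec a b) (Nat.pair x n)).bind fun i => ev o b (Nat.pair x (Nat.pair n i)) := by
  simp [ev]

theorem mem_ev_rfind {o : ℕ →. ℕ} {a : OC} {n v : ℕ} :
    v ∈ ev o (.rfind a) n ↔ 0 ∈ ev o a (Nat.pair n v) ∧
      ∀ m < v, ∃ w, w ∈ ev o a (Nat.pair n m) ∧ w ≠ 0 := by
  refine (Nat.mem_rfind
    (p := fun k => (ev o a (Nat.pair n k)).map fun m => decide (m = 0))).trans ?_
  constructor
  · rintro ⟨h1, h2⟩
    constructor
    · obtain ⟨w, hw, hw'⟩ := (Part.mem_map_iff _).1 h1
      rw [decide_eq_true_eq] at hw'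
      rwa [hw'] at hw
    · intro m hm
      obtain ⟨w, hw, hw'⟩ := (Part.mem_map_iff _).1 (h2 hm)
      exact ⟨w, hw, of_decide_eq_false hw'⟩
  · rintro ⟨h1, h2⟩
    constructor
    · exact (Part.mem_map_iff _).2 ⟨0, h1, rfl⟩
    · intro m hm
      obtain ⟨w, hw, hw'⟩ := h2 m hm
      exact (Part.mem_map_iff _).2 ⟨w, hw, decide_eq_false hw'⟩

/-- monotonicity in the oracle -/
theorem ev_mono {o o' : ℕ →. ℕ} (h : ∀ n v, v ∈ o n → v ∈ o' n) (c : OC) :
    ∀ n v, v ∈ ev o c n → v ∈ ev o' c n := by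
  induction c with
  | zero => intro n v hv; exact hv
  | succ => intro n v hv; exact hv
  | left => intro n v hv; exact hv
  | right => intro n v hv; exact hv
  | oracle => exact h
  | pair a b ha hb =>
    intro n v hv
    rw [mem_ev_pair] at hv ⊢
    obtain ⟨u, hu, w, hw, rfl⟩ := hv
    exact ⟨u, ha _ _ hu, w, hb _ _ hw, rfl⟩
  | comp a b ha hb =>
    intro n v hv
    rw [mem_ev_comp] at hv ⊢
    obtain ⟨u, hu, hw⟩ := hv
    exact ⟨u, hb _ _ hu, ha _ _ hw⟩
  | prec a b ha hb =>
    intro p v hv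
    obtain ⟨x, n, rfl⟩ : ∃ x n, p = Nat.pair x n :=
      ⟨p.unpair.1, p.unpair.2, (Nat.pair_unpair p).symm⟩
    induction n generalizing v with
    | zero =>
      rw [ev_prec_zero] at hv ⊢
      exact ha _ _ hv
    | succ n ih =>
      rw [ev_prec_succ] at hv ⊢
      rw [Part.mem_bind_iff] at hv ⊢
      obtain ⟨i, hi, hv⟩ := hv
      exact ⟨i, ih _ hi, hb _ _ hv⟩
  | rfind a ha =>
    intro n v hv
    rw [mem_ev_rfind] at hv ⊢
    refine ⟨ha _ _ hv.1, fun m hm => ?_⟩
    obtain ⟨w, hw, hw0⟩ := hv.2 m hm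
    exact ⟨w, ha _ _ hw, hw0⟩

/-- compactness: the value for a directed union of oracles is reached at a finite stage -/
theorem ev_compact {o : ℕ → ℕ →. ℕ} {O : ℕ →. ℕ}
    (hm : ∀ j k, j ≤ k → ∀ n v, v ∈ o j n → v ∈ o k n)
    (hO : ∀ n v, v ∈ O n → ∃ k, v ∈ o k n) (c : OC) :
    ∀ n v, v ∈ ev O c n → ∃ k, v ∈ ev (o k) c n := by
  have M : ∀ (c : OC) j k, j ≤ k → ∀ n v, v ∈ ev (o j) c n → v ∈ ev (o k) c n :=
    fun c j k hjk => ev_mono (hm j k hjk) c
  induction c with
  | zero => intro n v hv; exact ⟨0, hv⟩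
  | succ => intro n v hv; exact ⟨0, hv⟩
  | left => intro n v hv; exact ⟨0, hv⟩
  | right => intro n v hv; exact ⟨0, hv⟩
  | oracle => exact hO
  | pair a b ha hb =>
    intro n v hv
    rw [mem_ev_pair] at hv
    obtain ⟨u, hu, w, hw, rfl⟩ := hv
    obtain ⟨k1, h1⟩ := ha _ _ hu
    obtain ⟨k2, h2⟩ := hb _ _ hw
    refine ⟨max k1 k2, ?_⟩
    rw [mem_ev_pair]
    exact ⟨u, M _ _ _ (le_max_left _ _) _ _ h1, w, M _ _ _ (le_max_right _ _) _ _ h2, rfl⟩
  | comp a b ha hb =>
    intro n v hv
    rw [mem_ev_comp] at hv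
    obtain ⟨u, hu, hw⟩ := hv
    obtain ⟨k1, h1⟩ := hb _ _ hu
    obtain ⟨k2, h2⟩ := ha _ _ hw
    refine ⟨max k1 k2, ?_⟩
    rw [mem_ev_comp]
    exact ⟨u, M _ _ _ (le_max_left _ _) _ _ h1, M _ _ _ (le_max_right _ _) _ _ h2⟩
  | prec a b ha hb =>
    intro p v hv
    obtain ⟨x, n, rfl⟩ : ∃ x n, p = Nat.pair x n :=
      ⟨p.unpair.1, p.unpair.2, (Nat.pair_unpair p).symm⟩
    induction n generalizing v with
    | zero =>
      rw [ev_prec_zero] at hv
      obtain ⟨k, hk⟩ := ha _ _ hv
      exact ⟨k, by rw [ev_prec_zero]; exact hk⟩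
    | succ n ih =>
      rw [ev_prec_succ, Part.mem_bind_iff] at hv
      obtain ⟨i, hi, hv⟩ := hv
      obtain ⟨k1, h1⟩ := ih _ hi
      obtain ⟨k2, h2⟩ := hb _ _ hv
      refine ⟨max k1 k2, ?_⟩
      rw [ev_prec_succ, Part.mem_bind_iff]
      exact ⟨i, M _ _ _ (le_max_left _ _) _ _ h1, M _ _ _ (le_max_right _ _) _ _ h2⟩
  | rfind a ha =>
    intro n v hv
    rw [mem_ev_rfind] at hv
    obtain ⟨k0, h0⟩ := ha _ _ hv.1
    have h2 : ∀ m, ∃ k, m < v → ∃ w, w ∈ ev (o k) a (Nat.pair n m) ∧ w ≠ 0 := by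
      intro m
      by_cases hmv : m < v
      · obtain ⟨w, hw, hw0⟩ := hv.2 m hmv
        obtain ⟨k, hk⟩ := ha _ _ hw
        exact ⟨k, fun _ => ⟨w, hk, hw0⟩⟩
      · exact ⟨0, fun h => absurd h hmv⟩
    choose K hK using h2
    refine ⟨max k0 ((Finset.range v).sup K), ?_⟩
    rw [mem_ev_rfind]
    refine ⟨M _ _ _ (le_max_left _ _) _ _ h0, fun m hmv => ?_⟩
    obtain ⟨w, hw, hw0⟩ := hK m hmv
    refine ⟨w, M _ _ _ ?_ _ _ hw, hw0⟩
    exact (Finset.le_sup (f := K) (Finset.mem_range.2 hmv)).trans (le_max_right _ _)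

/-! ### Finite approximations and topology -/

/-- restriction of the oracle `x` to arguments `< k` -/
def fin (x : X) (k : ℕ) : ℕ →. ℕ := fun m =>
  if m < k then Part.some (if x m then 1 else 0) else Part.none

theorem mem_fin {x : X} {k m v : ℕ} : v ∈ fin x k m ↔ m < k ∧ v = if x m then 1 else 0 := by
  unfold fin
  by_cases h : m < k
  · simp [h]
  · simp [h]

theorem mem_ch {x : X} {m v : ℕ} : v ∈ ch x m ↔ v = if x m then 1 else 0 := by
  simp [ch]

theorem ev_fin {x : X} {c : OC} {n v : ℕ} (h : v ∈ ev (ch x) c n) : ∃ k, v ∈ ev (fin x k) c n := by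
  refine ev_compact (o := fin x) (O := ch x) ?_ ?_ c n v h
  · intro j k hjk m w hw
    rw [mem_fin] at hw ⊢
    exact ⟨hw.1.trans_le hjk, hw.2⟩
  · intro m w hw
    rw [mem_ch] at hw
    exact ⟨m + 1, mem_fin.2 ⟨Nat.lt_succ_self m, hw⟩⟩

theorem isOpen_agreeX (x : X) (k : ℕ) : IsOpen {y : X | ∀ m < k, y m = x m} := by
  have : {y : X | ∀ m < k, y m = x m} = ⋂ m ∈ {m | m < k}, (fun y : X => y m) ⁻¹' {x m} := by
    ext y; simp
  rw [this]
  exact (Set.finite_lt_nat k).isOpen_biInter fun m _ =>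
    (isOpen_discrete _).preimage (continuous_apply m)

theorem isOpen_ev (c : OC) (n v : ℕ) : IsOpen {x : X | v ∈ ev (ch x) c n} := by
  rw [isOpen_iff_forall_mem_open]
  intro x hx
  obtain ⟨k, hk⟩ := ev_fin hx
  refine ⟨{y : X | ∀ m < k, y m = x m}, ?_, isOpen_agreeX x k, fun m _ => rfl⟩
  intro y hy
  refine ev_mono ?_ c n v hk
  intro m w hw
  rw [mem_fin] at hw
  rw [mem_ch, hy m hw.1]
  exact hw.2

theorem ch_inj {x y : X} (h : ch x = ch y) : x = y := by
  funext n
  have h1 := congrFun h n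
  have h2 : (if x n then 1 else 0 : ℕ) ∈ ch y n := by
    rw [← h1]; exact mem_ch.2 rfl
  rw [mem_ch] at h2
  cases hx : x n <;> cases hy : y n <;> simp [hx, hy] at h2 ⊢

/-- the total function computed by a code -/
noncomputable def Fn (a : OC) (x : X) : X := fun n => @decide (1 ∈ ev (ch x) a n) (Classical.dec _)

theorem Fn_true_iff {a : OC} {x : X} {n : ℕ} : Fn a x n = true ↔ 1 ∈ ev (ch x) a n := by
  unfold Fn
  exact @decide_eq_true_iff _ (Classical.dec _)

theorem Fn_eq {a : OC} {x y : X} (h : ev (ch x) a = ch y) : Fn a x = y := by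
  funext n
  unfold Fn
  rw [h]
  cases hy : y n
  · simp [mem_ch, hy]
  · simp [mem_ch, hy]

/-- computable embeddings with computable inverse -/
def RR : Set (X → X) := {r | ∃ a b : OC, ∀ x, ev (ch x) a = ch (r x) ∧ ev (ch (r x)) b = ch x}

theorem RR_countable : RR.Countable := by
  refine (countable_range Fn).mono ?_
  rintro r ⟨a, b, h⟩
  exact ⟨a, funext fun x => Fn_eq (h x).1⟩

theorem RR_cont {r : X → X} (hr : r ∈ RR) : Continuous r := by
  obtain ⟨a, b, h⟩ := hr
  refine continuous_pi fun n => continuous_discrete_rng.2 fun v => ?_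
  have : (fun x => r x n) ⁻¹' {v} = {x : X | (if v then 1 else 0) ∈ ev (ch x) a n} := by
    ext x
    rw [Set.mem_ofPred_eq, (h x).1, mem_ch]
    cases v <;> cases hx : r x n <;> simp [hx]
  rw [this]
  exact isOpen_ev _ _ _

theorem RR_inj {r : X → X} (hr : r ∈ RR) : Function.Injective r := by
  obtain ⟨a, b, h⟩ := hr
  intro x y hxy
  apply ch_inj
  rw [← (h x).2, ← (h y).2, hxy]

theorem RR_comp {f g : X → X} (hf : f ∈ RR) (hg : g ∈ RR) : f ∘ g ∈ RR := by
  obtain ⟨a, b, h⟩ := hf
  obtain ⟨a', b', h'⟩ := hg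
  refine ⟨OC.sub a' a, OC.sub b b', fun x => ⟨?_, ?_⟩⟩
  · rw [ev_sub, (h' x).1, (h (g x)).1]; rfl
  · rw [ev_sub, Function.comp_apply, (h (g x)).2, (h' x).2]

theorem RR_div {f g : X → X} (hf : f ∈ RR) (hg : g ∈ RR) (hfg : range g ⊆ range f) :
    ∃ k ∈ RR, g = f ∘ k := by
  obtain ⟨a, b, h⟩ := hf
  obtain ⟨a', b', h'⟩ := hg
  have : ∀ x, ∃ y, f y = g x := fun x => hfg ⟨x, rfl⟩
  choose k hk using this
  refine ⟨k, ⟨OC.sub a' b, OC.sub a b', fun x => ⟨?_, ?_⟩⟩, funext fun x => (hk x).symm⟩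
  · rw [ev_sub, (h' x).1, ← hk x, (h (k x)).2]
  · rw [ev_sub, (h (k x)).1, hk x, (h' x).2]

/-- Turing equivalence of points of Cantor space -/
def TE (x y : X) : Prop := TuringEquivalent (ch x) (ch y)

theorem te_of_codes {x y : X} {a b : OC} (h : ev (ch x) a = ch y) (h' : ev (ch y) b = ch x) :
    TE x y := by
  refine ⟨?_, ?_⟩
  · refine RecursiveIn.iff_nat.2 ?_
    rw [← h']
    exact ev_recursiveIn _ _
  · refine RecursiveIn.iff_nat.2 ?_
    rw [← h]
    exact ev_recursiveIn _ _

theorem codes_of_te {x y : X} (h : TE x y) : ∃ a b : OC, ev (ch x) a = ch y ∧ ev (ch y) b = ch x := by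
  obtain ⟨b, hb⟩ := exists_code (RecursiveIn.iff_nat.1 h.1)
  obtain ⟨a, ha⟩ := exists_code (RecursiveIn.iff_nat.1 h.2)
  exact ⟨a, b, ha, hb⟩

theorem te_equiv : Equivalence TE where
  refl _ := TuringEquivalent.refl _
  symm h := TuringEquivalent.symm h
  trans h h' := TuringEquivalent.trans _ _ _ h h'

theorem RR_E {r : X → X} (hr : r ∈ RR) (x : X) : TE x (r x) := by
  obtain ⟨a, b, h⟩ := hr
  exact te_of_codes (h x).1 (h x).2

/-- the domain of the partial injection given by a pair of codes -/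
def Dom (a b : OC) : Set X := {x | ∃ y, ev (ch x) a = ch y ∧ ev (ch y) b = ch x}

theorem mem_Dom {a b : OC} {x : X} (h : x ∈ Dom a b) :
    ev (ch x) a = ch (Fn a x) ∧ ev (ch (Fn a x)) b = ch x := by
  obtain ⟨y, hy, hy'⟩ := h
  rw [Fn_eq hy]
  exact ⟨hy, hy'⟩

theorem Dom_eq (a b : OC) : Dom a b =
    ⋂ n, ({x : X | 0 ∈ ev (ch x) a n} ∪ {x : X | 1 ∈ ev (ch x) a n}) ∩
      {x : X | (if x n then 1 else 0) ∈ ev (ch x) (OC.sub a b) n} := by
  ext x
  simp only [mem_iInter, mem_inter_iff, mem_union, Set.mem_ofPred_eq]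
  constructor
  · rintro ⟨y, hy, hy'⟩ n
    rw [ev_sub, hy, hy']
    refine ⟨?_, mem_ch.2 rfl⟩
    cases hyn : y n
    · left; exact mem_ch.2 (by simp [hyn])
    · right; exact mem_ch.2 (by simp [hyn])
  · intro h
    have h1 : ev (ch x) a = ch (Fn a x) := by
      funext n
      rcases (h n).1 with h0 | h0
      · have h2 : Fn a x n = false := by
          rw [← Bool.not_eq_true, Fn_true_iff]
          intro h3
          exact absurd (Part.mem_unique h0 h3) (by norm_num)
        have h3 : (0 : ℕ) ∈ ch (Fn a x) n := mem_ch.2 (by simp [h2])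
        rw [Part.eq_some_iff.2 h0, Part.eq_some_iff.2 h3]
      · have h2 : Fn a x n = true := Fn_true_iff.2 h0
        have h3 : (1 : ℕ) ∈ ch (Fn a x) n := mem_ch.2 (by simp [h2])
        rw [Part.eq_some_iff.2 h0, Part.eq_some_iff.2 h3]
    refine ⟨Fn a x, h1, ?_⟩
    funext n
    have h2 := (h n).2
    rw [ev_sub, h1] at h2
    rw [Part.eq_some_iff.2 h2]
    rfl

theorem isOpen_bit (c : OC) (n : ℕ) :
    IsOpen {x : X | (if x n then 1 else 0) ∈ ev (ch x) c n} := by
  have : {x : X | (if x n then 1 else 0) ∈ ev (ch x) c n} =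
      ((fun x : X => x n) ⁻¹' {true} ∩ {x : X | 1 ∈ ev (ch x) c n}) ∪
      ((fun x : X => x n) ⁻¹' {false} ∩ {x : X | 0 ∈ ev (ch x) c n}) := by
    ext x
    cases hx : x n <;> simp [hx]
  rw [this]
  exact (((isOpen_discrete _).preimage (continuous_apply n)).inter (isOpen_ev _ _ _)).union
    (((isOpen_discrete _).preimage (continuous_apply n)).inter (isOpen_ev _ _ _))

theorem isGδ_Dom (a b : OC) : IsGδ (Dom a b) := by
  rw [Dom_eq]
  exact IsGδ.iInter_of_isOpen fun n =>
    ((isOpen_ev _ _ _).union (isOpen_ev _ _ _)).inter (isOpen_bit _ _)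

theorem continuousOn_Fn (a b : OC) : ContinuousOn (Fn a) (Dom a b) := by
  refine continuousOn_pi.2 fun n x hx => ?_
  have h1 : (if Fn a x n then 1 else 0) ∈ ev (ch x) a n := by
    rw [(mem_Dom hx).1]; exact mem_ch.2 rfl
  have h2 : ∀ᶠ y in nhdsWithin x (Dom a b), Fn a y n = Fn a x n := by
    have h3 : {y : X | (if Fn a x n then 1 else 0) ∈ ev (ch y) a n} ∈ nhdsWithin x (Dom a b) :=
      mem_nhdsWithin_of_mem_nhds ((isOpen_ev _ _ _).mem_nhds h1)
    filter_upwards [h3, self_mem_nhdsWithin] with y hy hyD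
    change (if Fn a x n then 1 else 0) ∈ ev (ch y) a n at hy
    rw [(mem_Dom hyD).1, mem_ch] at hy
    cases h5 : Fn a x n <;> cases h6 : Fn a y n <;> simp [h5, h6] at hy ⊢
  exact (tendsto_const_nhds (x := Fn a x n)).congr' (h2.mono fun y hy => hy.symm)

/-! ### Machines reading one bit of the oracle at each step -/

section machine
variable {S : Type} [Primcodable S]

/-- run of a machine: state `s`, reads the bit number `H s`, next state `G s bit` -/
def run (s0 : S) (G : S → Bool → S) (H : S → ℕ) (z : X) : ℕ → S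
  | 0 => s0
  | n + 1 => G (run s0 G H z n) (z (H (run s0 G H z n)))

/-- identity code -/
def idc : OC := .pair .left .right

theorem mem_ev_idc {o : ℕ →. ℕ} {n v : ℕ} : v ∈ ev o idc n ↔ v = n := by
  unfold idc
  rw [mem_ev_pair]
  constructor
  · rintro ⟨u, hu, w, hw, rfl⟩
    have h1 : u = n.unpair.1 := Part.mem_some_iff.1 hu
    have h2 : w = n.unpair.2 := Part.mem_some_iff.1 hw
    rw [h1, h2, Nat.pair_unpair]
  · rintro rfl
    exact ⟨_, Part.mem_some _, _, Part.mem_some _, (Nat.pair_unpair v).symm⟩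

theorem mem_ev_zero {o : ℕ →. ℕ} {n v : ℕ} : v ∈ ev o .zero n ↔ v = 0 :=
  Part.mem_some_iff

theorem mem_ev_succ {o : ℕ →. ℕ} {n v : ℕ} : v ∈ ev o .succ n ↔ v = n + 1 :=
  Part.mem_some_iff

theorem exists_run_code (s0 : S) {G : S → Bool → S} {H : S → ℕ} (hG : Computable₂ G)
    (hH : Computable H) :
    ∃ c : OC, ∀ (z : X) (n : ℕ), Encodable.encode (run s0 G H z n) ∈ ev (ch z) c n := by
  obtain ⟨cA, hA⟩ := exists_code_partrec (f := fun _ => Part.some (Encodable.encode s0))
    (Partrec.nat_iff.1 (Computable.const (Encodable.encode s0)).partrec)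
  -- reading position
  have pH : Nat.Partrec (fun q : ℕ =>
      ((Encodable.decode (α := S) q.unpair.2.unpair.2 : Option S) : Part S).bind
        fun s => Part.some (H s)) := by
    refine Partrec.nat_iff.1 (Partrec.bind (Computable.ofOption ?_) ?_)
    · exact Computable.decode.comp (Computable.snd.comp (Computable.unpair.comp
        (Computable.snd.comp Computable.unpair)))
    · exact (hH.comp Computable.snd).partrec.to₂
  obtain ⟨cH, hcH⟩ := exists_code_partrec pH
  -- next state
  have pG : Nat.Partrec (fun q : ℕ =>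
      ((Encodable.decode (α := S) q.unpair.2.unpair.2.unpair.2 : Option S) : Part S).bind
        fun s => Part.some (Encodable.encode (G s (decide (q.unpair.1 = 1))))) := by
    refine Partrec.nat_iff.1 (Partrec.bind (Computable.ofOption ?_) ?_)
    · exact Computable.decode.comp (Computable.snd.comp (Computable.unpair.comp
        (Computable.snd.comp (Computable.unpair.comp (Computable.snd.comp Computable.unpair)))))
    · have h1 : Computable fun q : ℕ × S => decide (q.1.unpair.1 = 1) :=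
        (Primrec.eq.decide.comp (Primrec.fst.comp (Primrec.unpair.comp Primrec.fst))
          (Primrec.const 1)).to_comp
      exact (Computable.encode.comp (hG.comp Computable.snd h1)).partrec.to₂
  obtain ⟨cG, hcG⟩ := exists_code_partrec pG
  set cB : OC := .comp cG (.pair (.comp .oracle cH) idc) with hcB
  have key : ∀ (z : X) (n : ℕ),
      Encodable.encode (run s0 G H z n) ∈ ev (ch z) (.prec cA cB) (Nat.pair 0 n) := by
    intro z n
    induction n with
    | zero =>
      rw [ev_prec_zero, hA]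
      exact Part.mem_some _
    | succ n ih =>
      rw [ev_prec_succ, Part.mem_bind_iff]
      refine ⟨_, ih, ?_⟩
      rw [hcB, mem_ev_comp]
      refine ⟨Nat.pair (if z (H (run s0 G H z n)) then 1 else 0)
        (Nat.pair 0 (Nat.pair n (Encodable.encode (run s0 G H z n)))), ?_, ?_⟩
      · rw [mem_ev_pair]
        refine ⟨_, ?_, _, mem_ev_idc.2 rfl, rfl⟩
        rw [mem_ev_comp]
        refine ⟨H (run s0 G H z n), ?_, mem_ch.2 rfl⟩
        rw [hcH]
        simp
      · rw [hcG]
        simp [run]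
  refine ⟨.comp (.prec cA cB) (.pair .zero idc), fun z n => ?_⟩
  rw [mem_ev_comp]
  exact ⟨Nat.pair 0 n, mem_ev_pair.2 ⟨0, mem_ev_zero.2 rfl, n, mem_ev_idc.2 rfl, rfl⟩, key z n⟩

/-- output computed from the next state -/
theorem exists_out_code (s0 : S) {G : S → Bool → S} {H : S → ℕ} (hG : Computable₂ G)
    (hH : Computable H) {F : ℕ → S → ℕ} (hF : Computable₂ F) :
    ∃ c : OC, ∀ (z : X) (n : ℕ), F n (run s0 G H z (n + 1)) ∈ ev (ch z) c n := by
  obtain ⟨c, hc⟩ := exists_run_code s0 hG hH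
  have pF : Nat.Partrec (fun q : ℕ =>
      ((Encodable.decode (α := S) q.unpair.2 : Option S) : Part S).bind
        fun s => Part.some (F q.unpair.1 s)) := by
    refine Partrec.nat_iff.1 (Partrec.bind (Computable.ofOption ?_) ?_)
    · exact Computable.decode.comp (Computable.snd.comp Computable.unpair)
    · exact (hF.comp (Computable.fst.comp (Computable.unpair.comp Computable.fst))
        Computable.snd).partrec.to₂
  obtain ⟨cF, hcF⟩ := exists_code_partrec pF
  refine ⟨.comp cF (.pair idc (.comp c .succ)), fun z n => ?_⟩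
  rw [mem_ev_comp]
  refine ⟨Nat.pair n (Encodable.encode (run s0 G H z (n + 1))), ?_, ?_⟩
  · rw [mem_ev_pair]
    refine ⟨n, mem_ev_idc.2 rfl, _, ?_, rfl⟩
    rw [mem_ev_comp]
    exact ⟨n + 1, mem_ev_succ.2 rfl, hc z (n + 1)⟩
  · rw [hcF]
    simp

/-- output read from the oracle at a position computed from the state -/
theorem exists_read_code (s0 : S) {G : S → Bool → S} {H : S → ℕ} (hG : Computable₂ G)
    (hH : Computable H) :
    ∃ c : OC, ∀ (z : X) (n : ℕ),
      (if z (H (run s0 G H z n)) then 1 else 0) ∈ ev (ch z) c n := by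
  obtain ⟨c, hc⟩ := exists_run_code s0 hG hH
  have pH : Nat.Partrec (fun q : ℕ =>
      ((Encodable.decode (α := S) q : Option S) : Part S).bind
        fun s => Part.some (H s)) := by
    refine Partrec.nat_iff.1 (Partrec.bind (Computable.ofOption ?_) ?_)
    · exact Computable.decode
    · exact (hH.comp Computable.snd).partrec.to₂
  obtain ⟨cH, hcH⟩ := exists_code_partrec pH
  refine ⟨.comp .oracle (.comp cH c), fun z n => ?_⟩
  rw [mem_ev_comp]
  refine ⟨H (run s0 G H z n), ?_, mem_ch.2 rfl⟩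
  rw [mem_ev_comp]
  refine ⟨_, hc z n, ?_⟩
  rw [hcH]
  simp

end machine

/-- `ev` is everywhere given by its values -/
theorem ev_eq_ch {z y : X} {c : OC} (h : ∀ n, (if y n then 1 else 0) ∈ ev (ch z) c n) :
    ev (ch z) c = ch y := by
  funext n
  rw [Part.eq_some_iff.2 (h n)]
  rfl

theorem RR_id : (id : X → X) ∈ RR := ⟨.oracle, .oracle, fun _ => ⟨rfl, rfl⟩⟩

/-- prepending one bit -/
def pre1 (b : Bool) (x : X) : X := fun n => Nat.casesOn n b x

theorem RR_pre1 (b : Bool) : pre1 b ∈ RR := by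
  -- state: (position, output bit)
  have hG : Computable₂ (fun (s : ℕ × Bool) (c : Bool) =>
      ((s.1 + 1, if s.1 = 0 then b else c) : ℕ × Bool)) := by
    refine Primrec.to_comp ?_
    exact (Primrec.succ.comp (Primrec.fst.comp Primrec.fst)).pair
      (Primrec.ite (Primrec.eq.comp (Primrec.fst.comp Primrec.fst) (Primrec.const 0))
        (Primrec.const b) Primrec.snd)
  have hH : Computable (fun s : ℕ × Bool => s.1 - 1) :=
    (Primrec.pred.comp Primrec.fst).to_comp
  have hF : Computable₂ (fun (_ : ℕ) (s : ℕ × Bool) => if s.2 = true then 1 else 0) := by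
    refine Primrec.to_comp ?_
    exact Primrec.ite (Primrec.eq.comp (Primrec.snd.comp Primrec.snd) (Primrec.const true))
      (Primrec.const 1) (Primrec.const 0)
  obtain ⟨c, hc⟩ := exists_out_code ((0, b) : ℕ × Bool) hG hH hF
  refine ⟨c, .comp .oracle .succ, fun x => ⟨ev_eq_ch fun n => ?_, ev_eq_ch fun n => ?_⟩⟩
  · have h1 : ∀ m, (run ((0, b) : ℕ × Bool) (fun (s : ℕ × Bool) (c : Bool) =>
      ((s.1 + 1, if s.1 = 0 then b else c) : ℕ × Bool)) (fun s => s.1 - 1) x m).1 = m := by
      intro m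
      induction m with
      | zero => rfl
      | succ m ih => simp only [run, ih]
    have h2 := hc x n
    have h3 : (run ((0, b) : ℕ × Bool) (fun (s : ℕ × Bool) (c : Bool) =>
      ((s.1 + 1, if s.1 = 0 then b else c) : ℕ × Bool)) (fun s => s.1 - 1) x (n + 1)).2 =
        pre1 b x n := by
      simp only [run, h1]
      cases n with
      | zero => rfl
      | succ n => simp [pre1]
    rw [h3] at h2
    exact h2
  · rw [mem_ev_comp]
    exact ⟨n + 1, mem_ev_succ.2 rfl, mem_ch.2 rfl⟩

theorem RR_pre (s : List Bool) : pre s ∈ RR := by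
  induction s with
  | nil =>
    have : pre [] = id := funext fun x => rfl
    rw [this]; exact RR_id
  | cons b s ih =>
    have : pre (b :: s) = pre1 b ∘ pre s := funext fun x => rfl
    rw [this]; exact RR_comp (RR_pre1 b) ih

/-! ### Finite strings as oracles -/

/-- the value of a bit -/
def bit (b : Bool) : ℕ := if b then 1 else 0

/-- finite string as a partial oracle -/
def os (s : List Bool) : ℕ →. ℕ := fun m => ((s[m]?.map bit : Option ℕ) : Part ℕ)

theorem mem_os {s : List Bool} {m v : ℕ} : v ∈ os s m ↔ ∃ b, s[m]? = some b ∧ v = bit b := by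
  simp [os, eq_comm]

theorem os_partrec (c : OC) : Partrec fun p : List Bool × ℕ => ev (os p.1) c p.2 := by
  induction c with
  | zero => exact (Computable.const 0).partrec
  | succ => exact (Computable.succ.comp Computable.snd).partrec
  | left => exact (Computable.fst.comp (Computable.unpair.comp Computable.snd)).partrec
  | right => exact (Computable.snd.comp (Computable.unpair.comp Computable.snd)).partrec
  | oracle =>
    refine Computable.ofOption (f := fun p : List Bool × ℕ => p.1[p.2]?.map bit) ?_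
    refine Primrec.to_comp (Primrec.option_map (Primrec.list_getElem?.comp Primrec.fst
      Primrec.snd) ?_)
    exact Primrec.ite (Primrec.eq.comp Primrec.snd (Primrec.const true))
      (Primrec.const 1) (Primrec.const 0)
  | pair a b ha hb =>
    have h : Partrec fun p : List Bool × ℕ => (ev (os p.1) a p.2).bind fun u =>
        (ev (os p.1) b p.2).map fun w => Nat.pair u w := by
      refine Partrec.bind ha (Partrec.map (hb.comp Computable.fst) ?_)
      exact (Primrec₂.natPair.comp (Primrec.snd.comp Primrec.fst) Primrec.snd).to_comp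
    refine h.of_eq fun p => Part.ext fun v => ?_
    rw [mem_ev_pair]
    simp [eq_comm]
  | comp a b ha hb =>
    have h : Partrec fun p : List Bool × ℕ => (ev (os p.1) b p.2).bind fun u =>
        ev (os p.1) a u := by
      refine Partrec.bind hb ?_
      exact ha.comp ((Computable.fst.comp Computable.fst).pair Computable.snd)
    exact h
  | prec a b ha hb =>
    have h := Partrec.nat_rec (f := fun p : List Bool × ℕ => p.2.unpair.2)
      (g := fun p : List Bool × ℕ => ev (os p.1) a p.2.unpair.1)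
      (h := fun (p : List Bool × ℕ) (q : ℕ × ℕ) =>
        ev (os p.1) b (Nat.pair p.2.unpair.1 (Nat.pair q.1 q.2)))
      (Computable.snd.comp (Computable.unpair.comp Computable.snd))
      (ha.comp (Computable.fst.pair (Computable.fst.comp (Computable.unpair.comp
        Computable.snd))))
      (hb.comp ((Computable.fst.comp Computable.fst).pair
        ((Primrec₂.natPair.comp (Primrec.fst.comp (Primrec.unpair.comp (Primrec.snd.comp
          Primrec.fst))) (Primrec₂.natPair.comp (Primrec.fst.comp Primrec.snd)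
          (Primrec.snd.comp Primrec.snd))).to_comp)))
    exact h
  | rfind a ha =>
    have h : Partrec fun p : List Bool × ℕ => Nat.rfind fun n =>
        (ev (os p.1) a (Nat.pair p.2 n)).map fun m => decide (m = 0) := by
      refine Partrec.rfind ?_
      refine Partrec.map (ha.comp ((Computable.fst.comp Computable.fst).pair
        (Primrec₂.natPair.comp (Primrec.snd.comp Primrec.fst) Primrec.snd).to_comp)) ?_
      exact (Primrec.eq.decide.comp Primrec.snd (Primrec.const 0)).to_comp
    exact h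

/-- the first `k` bits of `x` -/
def tk (x : X) (k : ℕ) : List Bool := (List.range k).map x

theorem tk_getElem? (x : X) (k i : ℕ) : (tk x k)[i]? = if i < k then some (x i) else none := by
  unfold tk
  by_cases h : i < k
  · simp [h]
  · simp [h]

theorem fin_le_os (x : X) (k n v : ℕ) (h : v ∈ fin x k n) : v ∈ os (tk x k) n := by
  rw [mem_fin] at h
  rw [mem_os]
  exact ⟨x n, by rw [tk_getElem?, if_pos h.1], h.2⟩

theorem os_le_os {s t : List Bool} (h : s <+: t) (n v : ℕ) (hv : v ∈ os s n) : v ∈ os t n := by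
  rw [mem_os] at hv ⊢
  obtain ⟨b, hb, hv⟩ := hv
  refine ⟨b, ?_, hv⟩
  obtain ⟨u, rfl⟩ := h
  have h1 : n < s.length := by
    rw [List.getElem?_eq_some_iff] at hb
    exact hb.1
  rw [List.getElem?_append_left h1]
  exact hb

theorem tk_pre (s : List Bool) (x : X) (j : ℕ) : tk (pre s x) (s.length + j) = s ++ tk x j := by
  induction s with
  | nil => simp [pre]
  | cons b s ih =>
    have h1 : (b :: s).length + j = (s.length + j) + 1 := by simp; ring
    rw [h1]
    unfold tk at ih ⊢
    rw [List.range_succ_eq_map, List.map_cons, List.map_map, List.cons_append]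
    rw [← ih]
    rfl

/-- a computation with oracle extending `s` uses a finite string extending `s` -/
theorem exists_string {c : OC} {s : List Bool} {x : X} {n v : ℕ} (h : v ∈ ev (ch (pre s x)) c n) :
    ∃ u, v ∈ ev (os (s ++ u)) c n := by
  obtain ⟨k, hk⟩ := ev_fin h
  refine ⟨tk x k, ?_⟩
  rw [← tk_pre]
  refine ev_mono ?_ c n v hk
  intro m w hw
  refine fin_le_os _ _ _ _ ?_
  rw [mem_fin] at hw ⊢
  exact ⟨hw.1.trans_le (Nat.le_add_left _ _), hw.2⟩

/-- the search for an extension making a computation converge -/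
theorem exists_ext {c : OC} (h : ∀ (s : List Bool) (n : ℕ), ∃ u, (ev (os (s ++ u)) c n).Dom) :
    ∃ e : List Bool × ℕ → List Bool, Computable e ∧
      ∀ s n, s <+: e (s, n) ∧ (ev (os (e (s, n))) c n).Dom := by
  obtain ⟨d, hd⟩ := Nat.Partrec.Code.exists_code.1 (os_partrec c)
  set f : List Bool × ℕ → ℕ → Option (List Bool) := fun p m =>
    (Encodable.decode (α := ℕ × List Bool) m).bind fun ku =>
      (Nat.Partrec.Code.evaln ku.1 d (Encodable.encode (p.1 ++ ku.2, p.2))).map
        fun _ => p.1 ++ ku.2 with hf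
  have hfc : Computable₂ f := by
    refine Primrec.to_comp ?_
    refine Primrec.option_bind (Primrec.decode.comp Primrec.snd) ?_
    have happ : Primrec fun q : ((List Bool × ℕ) × ℕ) × (ℕ × List Bool) =>
        q.1.1.1 ++ q.2.2 :=
      Primrec.list_append.comp (Primrec.fst.comp (Primrec.fst.comp Primrec.fst))
        (Primrec.snd.comp Primrec.snd)
    refine Primrec.option_map (Nat.Partrec.Code.primrec_evaln.comp
      (((Primrec.fst.comp Primrec.snd).pair (Primrec.const d)).pair
        (Primrec.encode.comp (happ.pair (Primrec.snd.comp (Primrec.fst.comp Primrec.fst)))))) ?_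
    exact happ.comp Primrec.fst
  have hdom : ∀ p, (Nat.rfindOpt (f p)).Dom := by
    rintro ⟨s, n⟩
    rw [Nat.rfindOpt_dom]
    obtain ⟨u, hu⟩ := h s n
    obtain ⟨v, hv⟩ := Part.dom_iff_mem.1 hu
    have h1 : v ∈ Nat.Partrec.Code.eval d (Encodable.encode (s ++ u, n)) := by
      rw [hd]
      simp only [Encodable.encodek, Part.coe_some, Part.bind_some]
      rw [Part.mem_map_iff]
      exact ⟨v, hv, rfl⟩
    obtain ⟨k, hk⟩ := Nat.Partrec.Code.evaln_complete.1 h1
    refine ⟨Encodable.encode (k, u), s ++ u, ?_⟩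
    rw [hf]
    simp only [Encodable.encodek, Option.bind_some]
    rw [Option.mem_def.1 hk]
    rfl
  refine ⟨fun p => (Nat.rfindOpt (f p)).get (hdom p), ?_, ?_⟩
  · refine (Partrec.rfindOpt hfc).of_eq fun p => ?_
    exact (Part.some_get (hdom p)).symm
  · intro s n
    obtain ⟨m, hm⟩ := Nat.rfindOpt_spec (Part.get_mem (hdom (s, n)))
    beta_reduce
    generalize (Nat.rfindOpt (f (s, n))).get (hdom (s, n)) = t at hm ⊢
    rw [hf] at hm
    simp only [Option.mem_def, Option.bind_eq_some_iff, Option.map_eq_some_iff] at hm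
    obtain ⟨⟨k, u⟩, _, v, hv, hvu⟩ := hm
    dsimp only at hv hvu ⊢
    rw [← hvu]
    refine ⟨⟨u, rfl⟩, ?_⟩
    have h1 := Nat.Partrec.Code.evaln_sound (Option.mem_def.2 hv)
    rw [hd] at h1
    simp only [Encodable.encodek, Part.coe_some, Part.bind_some] at h1
    rw [Part.mem_map_iff] at h1
    obtain ⟨w, hw, _⟩ := h1
    exact Part.dom_iff_mem.2 ⟨w, hw⟩

/-! ### The dichotomy -/

theorem dichotomy (c : OC) :
    (∃ (s : List Bool) (n : ℕ), ∀ x : X, ¬ (ev (ch (pre s x)) c n).Dom) ∨
      ∃ p ∈ RR, ∀ (x : X) (n : ℕ), (ev (ch (p x)) c n).Dom := by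
  by_cases hcase : ∃ (s : List Bool) (n : ℕ), ∀ x : X, ¬ (ev (ch (pre s x)) c n).Dom
  · exact Or.inl hcase
  right
  have h : ∀ (s : List Bool) (n : ℕ), ∃ u, (ev (os (s ++ u)) c n).Dom := by
    intro s n
    by_contra hno
    apply hcase
    refine ⟨s, n, fun x hx => hno ?_⟩
    obtain ⟨v, hv⟩ := Part.dom_iff_mem.1 hx
    obtain ⟨u, hu⟩ := exists_string hv
    exact ⟨u, Part.dom_iff_mem.2 ⟨v, hu⟩⟩
  obtain ⟨e, he, hes⟩ := exists_ext h
  -- the machine
  set G : ℕ × List Bool → Bool → ℕ × List Bool := fun s b => (s.1 + 1, e (s.2 ++ [b], s.1))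
    with hGdef
  have hG : Computable₂ G := by
    have happ : Computable fun q : (ℕ × List Bool) × Bool => q.1.2 ++ [q.2] := by
      refine Primrec.to_comp (Primrec.list_append.comp (Primrec.snd.comp Primrec.fst) ?_)
      exact Primrec.list_cons.comp Primrec.snd (Primrec.const [])
    exact (Computable.succ.comp (Computable.fst.comp Computable.fst)).pair
      (he.comp (happ.pair (Computable.fst.comp Computable.fst)))
  set H1 : ℕ × List Bool → ℕ := fun s => s.1 with hH1
  set H2 : ℕ × List Bool → ℕ := fun s => s.2.length with hH2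
  have cH1 : Computable H1 := Computable.fst
  have cH2 : Computable H2 := Computable.list_length.comp Computable.snd
  set R1 : X → ℕ → ℕ × List Bool := fun x n => run ((0, []) : ℕ × List Bool) G H1 x n with hR1
  have fst_run : ∀ x n, (R1 x n).1 = n := by
    intro x n
    induction n with
    | zero => rfl
    | succ n ih =>
      simp only [hR1, run, hGdef] at ih ⊢
      rw [ih]
  set τ : X → ℕ → List Bool := fun x n => (R1 x n).2 with hτ
  have τ_succ : ∀ x n, τ x (n + 1) = e (τ x n ++ [x n], n) := by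
    intro x n
    have h1 := fst_run x n
    simp only [hτ, hR1] at h1 ⊢
    rw [run]
    simp only [hGdef, hH1] at h1 ⊢
    rw [h1]
  have τ_app : ∀ x n, ∃ u, τ x (n + 1) = τ x n ++ x n :: u := by
    intro x n
    obtain ⟨u, hu⟩ := (hes (τ x n ++ [x n]) n).1
    refine ⟨u, ?_⟩
    rw [τ_succ, ← hu, List.append_assoc]
    rfl
  have τ_pre : ∀ x n m, n ≤ m → τ x n <+: τ x m := by
    intro x n m hnm
    induction m, hnm using Nat.le_induction with
    | base => exact List.prefix_refl _
    | succ m _ ih =>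
      obtain ⟨u, hu⟩ := τ_app x m
      exact ih.trans ⟨_, hu.symm⟩
  have τ_len : ∀ x n, n ≤ (τ x n).length := by
    intro x n
    induction n with
    | zero => exact Nat.zero_le _
    | succ n ih =>
      obtain ⟨u, hu⟩ := τ_app x n
      rw [hu, List.length_append, List.length_cons]
      omega
  set p : X → X := fun x m => (τ x (m + 1)).getD m false with hp
  -- `p x` extends all `τ x n`
  have τ_ext : ∀ x n i, i < (τ x n).length → (τ x n)[i]? = some (p x i) := by
    intro x n i hi
    have h1 : i < (τ x (i + 1)).length := τ_len x (i + 1)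
    have h2 : (τ x n)[i]? = (τ x (i + 1))[i]? := by
      rcases le_total n (i + 1) with hle | hle
      · obtain ⟨u, hu⟩ := τ_pre x _ _ hle
        rw [← hu, List.getElem?_append_left hi]
      · obtain ⟨u, hu⟩ := τ_pre x _ _ hle
        rw [← hu, List.getElem?_append_left h1]
    rw [h2]
    simp only [hp]
    rw [List.getD_eq_getElem?_getD, List.getElem?_eq_getElem h1]
    rfl
  have os_ch : ∀ x n m v, v ∈ os (τ x n) m → v ∈ ch (p x) m := by
    intro x n m v hv
    rw [mem_os] at hv
    obtain ⟨b, hb, rfl⟩ := hv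
    have h1 : m < (τ x n).length := by
      rw [List.getElem?_eq_some_iff] at hb
      exact hb.1
    rw [τ_ext x n m h1, Option.some_inj] at hb
    rw [mem_ch, hb]
    rfl
  have read : ∀ x n, p x (τ x n).length = x n := by
    intro x n
    obtain ⟨u, hu⟩ := τ_app x n
    have h1 : (τ x n).length < (τ x (n + 1)).length := by
      rw [hu, List.length_append, List.length_cons]
      omega
    have h2 := τ_ext x (n + 1) _ h1
    rw [hu] at h2
    simp only [List.getElem?_append_right le_rfl, Nat.sub_self, List.getElem?_cons_zero,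
      Option.some_inj] at h2
    exact h2.symm
  -- codes
  have hF : Computable₂ (fun (n : ℕ) (s : ℕ × List Bool) =>
      if s.2.getD n false = true then 1 else 0) := by
    refine Primrec.to_comp ?_
    exact Primrec.ite (Primrec.eq.comp ((Primrec.list_getD false).comp
      (Primrec.snd.comp Primrec.snd) Primrec.fst) (Primrec.const true))
      (Primrec.const 1) (Primrec.const 0)
  obtain ⟨a, ha⟩ := exists_out_code ((0, []) : ℕ × List Bool) hG cH1 hF
  obtain ⟨b, hb⟩ := exists_read_code ((0, []) : ℕ × List Bool) hG cH2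
  have same : ∀ x n, run ((0, []) : ℕ × List Bool) G H2 (p x) n = R1 x n := by
    intro x n
    induction n with
    | zero => rfl
    | succ n ih =>
      rw [run, ih]
      simp only [hR1]
      rw [run]
      have h1 : p x (H2 (R1 x n)) = x n := read x n
      have h2 : H1 (R1 x n) = n := fst_run x n
      simp only [hR1] at h1 h2
      rw [h1, h2]
  refine ⟨p, ⟨a, b, fun x => ⟨ev_eq_ch fun n => ?_, ev_eq_ch fun n => ?_⟩⟩, fun x n => ?_⟩
  · exact ha x n
  · have h1 := hb (p x) n
    rw [same] at h1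
    have h2 : p x (H2 (R1 x n)) = x n := read x n
    rw [h2] at h1
    exact h1
  · obtain ⟨v, hv⟩ := Part.dom_iff_mem.1 (hes (τ x n ++ [x n]) n).2
    rw [← τ_succ] at hv
    exact Part.dom_iff_mem.2 ⟨v, ev_mono (os_ch x (n + 1)) c n v hv⟩

theorem RR_h {g : X → X} (hg : g ∈ RR) (a b : OC) : ∃ p ∈ RR, (∀ x, g (p x) ∉ Dom a b) ∨
    ((∀ x, g (p x) ∈ Dom a b) ∧ Fn a ∘ g ∘ p ∈ RR) := by
  obtain ⟨ga, gb, hgc⟩ := hg
  -- test program
  have pT : Nat.Partrec (fun q : ℕ =>
      (((if q.unpair.1 ≤ 1 ∧ q.unpair.2.unpair.1 = q.unpair.2.unpair.2 then some 0 else none :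
        Option ℕ)) : Part ℕ)) := by
    refine Partrec.nat_iff.1 (Computable.ofOption (Primrec.to_comp ?_))
    refine Primrec.ite (PrimrecPred.and ?_ ?_) (Primrec.const _) (Primrec.const _)
    · exact Primrec.nat_le.comp (Primrec.fst.comp Primrec.unpair) (Primrec.const 1)
    · exact Primrec.eq.comp (Primrec.fst.comp (Primrec.unpair.comp (Primrec.snd.comp
        Primrec.unpair))) (Primrec.snd.comp (Primrec.unpair.comp (Primrec.snd.comp
        Primrec.unpair)))
  obtain ⟨cT, hcT⟩ := exists_code_partrec pT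
  set c : OC := .comp cT (.pair (OC.sub ga a) (.pair (OC.sub ga (OC.sub a b)) ga)) with hc
  have hdom : ∀ y : X, g y ∈ Dom a b ↔ ∀ n, (ev (ch y) c n).Dom := by
    intro y
    rw [Dom_eq]
    simp only [mem_iInter, mem_inter_iff, mem_union, Set.mem_ofPred_eq]
    refine forall_congr' fun n => ?_
    rw [Part.dom_iff_mem]
    constructor
    · rintro ⟨h1, h2⟩
      have h3 : ∃ u, u ≤ 1 ∧ u ∈ ev (ch (g y)) a n := by
        rcases h1 with h1 | h1
        · exact ⟨0, Nat.zero_le _, h1⟩
        · exact ⟨1, le_rfl, h1⟩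
      obtain ⟨u, hu1, hu⟩ := h3
      refine ⟨0, ?_⟩
      rw [hc, mem_ev_comp]
      refine ⟨Nat.pair u (Nat.pair (if g y n then 1 else 0) (if g y n then 1 else 0)), ?_, ?_⟩
      · rw [mem_ev_pair]
        refine ⟨u, ?_, _, ?_, rfl⟩
        · rw [ev_sub, (hgc y).1]; exact hu
        · rw [mem_ev_pair]
          refine ⟨_, ?_, _, ?_, rfl⟩
          · rw [ev_sub, (hgc y).1]; exact h2
          · rw [(hgc y).1]; exact mem_ch.2 rfl
      · rw [hcT]
        simp [hu1]
    · rintro ⟨v, hv⟩
      rw [hc, mem_ev_comp] at hv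
      obtain ⟨q, hq, hv⟩ := hv
      rw [mem_ev_pair] at hq
      obtain ⟨u, hu, q2, hq2, rfl⟩ := hq
      rw [mem_ev_pair] at hq2
      obtain ⟨w, hw, t, ht, rfl⟩ := hq2
      rw [ev_sub, (hgc y).1] at hu hw
      rw [(hgc y).1, mem_ch] at ht
      rw [hcT] at hv
      simp only [Nat.unpair_pair] at hv
      by_cases h5 : u ≤ 1 ∧ w = t
      · refine ⟨?_, ?_⟩
        · rcases Nat.le_one_iff_eq_zero_or_eq_one.1 h5.1 with h6 | h6
          · left; rw [← h6]; exact hu
          · right; rw [← h6]; exact hu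
        · rw [← ht, ← h5.2]; exact hw
      · rw [if_neg h5] at hv
        simp at hv
  rcases dichotomy c with ⟨s, n, hs⟩ | ⟨p, hp, hpc⟩
  · exact ⟨pre s, RR_pre s, Or.inl fun x hx => hs x ((hdom _).1 hx n)⟩
  · refine ⟨p, hp, Or.inr ⟨fun x => (hdom _).2 (hpc x), ?_⟩⟩
    obtain ⟨α, β, h⟩ := RR_comp (⟨ga, gb, hgc⟩ : g ∈ RR) hp
    refine ⟨OC.sub α a, OC.sub b β, fun x => ?_⟩
    have h1 := mem_Dom ((hdom (p x)).2 (hpc x))
    refine ⟨?_, ?_⟩
    · rw [ev_sub, (h x).1]; exact h1.1
    · rw [ev_sub]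
      change ev (ev (ch (Fn a (g (p x)))) b) β = ch x
      rw [h1.2]
      exact (h x).2

/-- **M1** : Turing equivalence is a `Ctx`. -/
theorem exists_ctx_turing : ∃ C : Ctx, ∀ x y : X, C.E x y ↔ TuringEquivalent (ch x) (ch y) := by
  obtain ⟨f, hf⟩ := exists_surjective_nat (OC × OC)
  refine ⟨{
    E := TE
    equiv := te_equiv
    R := RR
    R_countable := RR_countable
    R_cont := fun r hr => RR_cont hr
    R_inj := fun r hr => RR_inj hr
    R_E := fun r hr x => RR_E hr x
    R_comp := fun f hf g hg => RR_comp hf hg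
    R_pre := RR_pre
    R_div := fun f hf g hg h => RR_div hf hg h
    D := fun e => Dom (f e).1 (f e).2
    h := fun e => Fn (f e).1
    D_Gδ := fun e => isGδ_Dom _ _
    h_cont := fun e => continuousOn_Fn _ _
    h_E := fun e x hx => te_of_codes (mem_Dom hx).1 (mem_Dom hx).2
    h_cover := ?_
    h_inv := ?_
    R_h := fun g hg e => RR_h hg _ _ }, fun x y => Iff.rfl⟩
  · intro x y hxy
    obtain ⟨a, b, h1, h2⟩ := codes_of_te hxy
    obtain ⟨e, he⟩ := hf (a, b)
    refine ⟨e, ?_, ?_⟩
    · rw [he]; exact ⟨y, h1, h2⟩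
    · rw [he]; exact Fn_eq h1
  · intro e
    obtain ⟨e', he'⟩ := hf ((f e).2, (f e).1)
    refine ⟨e', fun x hx => ?_, fun y hy => ?_⟩
    · have h1 := mem_Dom hx
      rw [he']
      exact ⟨⟨x, h1.2, h1.1⟩, Fn_eq h1.2⟩
    · rw [he'] at hy ⊢
      have h1 := mem_Dom hy
      exact ⟨⟨y, h1.2, h1.1⟩, Fn_eq h1.2⟩

end TuringBaire
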