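import Pool.Agent.TuringBaire.Defs

/-!
# Basic facts on prefixes, the countable family `Q`, Boolean combinations, shrinking
-/

namespace TuringBaire.Con

open Set Topology

/-! ### prefixes -/

theorem pre_nil (x : X) : pre [] x = x := rfl

theorem pre_cons_zero (b : Bool) (s : List Bool) (x : X) : pre (b :: s) x 0 = b := rfl

theorem pre_cons_succ (b : Bool) (s : List Bool) (x : X) (n : ℕ) :
    pre (b :: s) x (n + 1) = pre s x n := rfl

theorem pre_append (s t : List Bool) : pre (s ++ t) = pre s ∘ pre t := by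
  induction s with
  | nil => rfl
  | cons b s ih =>
    funext x n
    cases n with
    | zero => rfl
    | succ n => simp only [List.cons_append, pre_cons_succ, ih, Function.comp]

theorem pre_lt : ∀ (s : List Bool) (x : X) (i : ℕ) (h : i < s.length), pre s x i = s[i]
  | [], _, i, h => by simp at h
  | b :: s, x, 0, h => rfl
  | b :: s, x, i + 1, h => by
    rw [pre_cons_succ, pre_lt s x i (by simpa using h)]
    rfl

theorem pre_add : ∀ (s : List Bool) (x : X) (i : ℕ), pre s x (s.length + i) = x i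
  | [], x, i => by simp [pre]
  | b :: s, x, i => by
    have : (b :: s).length + i = (s.length + i) + 1 := by simp; omega
    rw [this, pre_cons_succ, pre_add s x i]

theorem pre_ge (s : List Bool) (x : X) (i : ℕ) (h : s.length ≤ i) :
    pre s x i = x (i - s.length) := by
  obtain ⟨j, rfl⟩ := Nat.exists_eq_add_of_le h
  rw [pre_add]; simp

theorem mem_cyl {s : List Bool} {x : X} : x ∈ cyl s ↔ ∀ (i : ℕ) (h : i < s.length), x i = s[i] := by
  constructor
  · rintro ⟨y, rfl⟩ i h
    exact pre_lt s y i h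
  · intro h
    refine ⟨fun n => x (s.length + n), ?_⟩
    funext i
    by_cases hi : i < s.length
    · rw [pre_lt s _ i hi, h i hi]
    · rw [pre_ge s _ i (by omega)]
      congr 1; omega

/-- the restriction of `x` to its first `k` bits -/
def tk (x : X) (k : ℕ) : List Bool := (List.range k).map x

@[simp] theorem length_tk (x : X) (k : ℕ) : (tk x k).length = k := by simp [tk]

theorem mem_cyl_tk {x y : X} {k : ℕ} : y ∈ cyl (tk x k) ↔ ∀ i < k, y i = x i := by
  rw [mem_cyl]
  constructor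
  · intro h i hi
    have := h i (by simpa using hi)
    simpa [tk] using this
  · intro h i hi
    have := h i (by simpa using hi)
    simpa [tk] using this

theorem self_mem_cyl_tk (x : X) (k : ℕ) : x ∈ cyl (tk x k) := mem_cyl_tk.2 fun _ _ => rfl

theorem isClosed_cyl (s : List Bool) : IsClosed (cyl s) := by
  have : cyl s = ⋂ (i : ℕ) (h : i < s.length), (fun x : X => x i) ⁻¹' {s[i]} := by
    ext x; simp [mem_cyl]
  rw [this]
  exact isClosed_iInter fun i => isClosed_iInter fun h =>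
    (isClosed_discrete _).preimage (continuous_apply i)

theorem isOpen_cyl (s : List Bool) : IsOpen (cyl s) := by
  have : cyl s = ⋂ i : Fin s.length, (fun x : X => x i) ⁻¹' {s[i]} := by
    ext x; simp only [mem_cyl, mem_iInter, mem_preimage, mem_singleton_iff]
    exact ⟨fun h i => h i i.2, fun h i hi => h ⟨i, hi⟩⟩
  rw [this]
  exact isOpen_iInter_of_finite fun i => (isOpen_discrete _).preimage (continuous_apply _)

theorem cyl_nil : cyl [] = univ := by
  ext x; simp [mem_cyl]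

theorem exists_cyl_subset {O : Set X} {x : X} (h : O ∈ 𝓝 x) : ∃ k, cyl (tk x k) ⊆ O := by
  rw [nhds_pi, Filter.mem_pi] at h
  obtain ⟨I, hI, t, ht, hsub⟩ := h
  obtain ⟨k, hk⟩ := hI.bddAbove
  refine ⟨k + 1, fun y hy => hsub ?_⟩
  intro i hi
  have h1 : y i = x i := mem_cyl_tk.1 hy i (Nat.lt_succ_of_le (hk hi))
  rw [h1]
  exact mem_of_mem_nhds (ht i)

theorem cyl_mem_nhds (x : X) (k : ℕ) : cyl (tk x k) ∈ 𝓝 x :=
  (isOpen_cyl _).mem_nhds (self_mem_cyl_tk x k)

theorem isOpen_iff_cyl {O : Set X} : IsOpen O ↔ ∀ x ∈ O, ∃ k, cyl (tk x k) ⊆ O := by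
  constructor
  · intro h x hx
    exact exists_cyl_subset (h.mem_nhds hx)
  · intro h
    rw [isOpen_iff_mem_nhds]
    intro x hx
    obtain ⟨k, hk⟩ := h x hx
    exact Filter.mem_of_superset (cyl_mem_nhds x k) hk

theorem pre_mem_cyl (s : List Bool) (x : X) : pre s x ∈ cyl s := ⟨x, rfl⟩

/-- a nonempty open set contains a cylinder -/
theorem exists_pre_subset {O : Set X} (hO : IsOpen O) {x : X} (hx : x ∈ O) :
    ∃ s, ∀ y, pre s y ∈ O := by
  obtain ⟨k, hk⟩ := exists_cyl_subset (hO.mem_nhds hx)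
  exact ⟨tk x k, fun y => hk (pre_mem_cyl _ y)⟩

/-- every punctured neighbourhood contains a cylinder -/
theorem exists_cyl_punctured {O : Set X} {x : X} (h : O ∈ 𝓝 x) :
    ∃ s, cyl s ⊆ O ∧ x ∉ cyl s := by
  obtain ⟨k, hk⟩ := exists_cyl_subset h
  refine ⟨tk x k ++ [!(x k)], ?_, ?_⟩
  · intro y hy
    apply hk
    rw [mem_cyl_tk]
    rw [mem_cyl] at hy
    intro i hi
    have := hy i (by simp; omega)
    rw [this, List.getElem_append_left (by simpa using hi)]
    simp [tk]
  · intro hx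
    rw [mem_cyl] at hx
    have := hx k (by simp)
    rw [List.getElem_append_right (by simp)] at this
    simp at this

/-- the zero sequence -/
def oo : X := fun _ => false

/-- sequences starting with at least `k` zeros -/
def N0 (k : ℕ) : Set X := {x | ∀ i < k, x i = false}

theorem N0_eq_cyl (k : ℕ) : N0 k = cyl (tk oo k) := by
  ext x; rw [mem_cyl_tk]; rfl

theorem isOpen_N0 (k : ℕ) : IsOpen (N0 k) := by rw [N0_eq_cyl]; exact isOpen_cyl _
theorem isClosed_N0 (k : ℕ) : IsClosed (N0 k) := by rw [N0_eq_cyl]; exact isClosed_cyl _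

theorem oo_mem_N0 (k : ℕ) : oo ∈ N0 k := fun _ _ => rfl

theorem N0_anti {k l : ℕ} (h : k ≤ l) : N0 l ⊆ N0 k := fun _ hx i hi => hx i (by omega)

theorem eq_oo_of_mem {x : X} (h : ∀ k, x ∈ N0 k) : x = oo := by
  funext i
  exact h (i + 1) i (by omega)

/-- the cylinder of `0^m 1` -/
def ann (m : ℕ) : List Bool := tk oo m ++ [true]

theorem mem_ann {m : ℕ} {x : X} : x ∈ cyl (ann m) ↔ x ∈ N0 m ∧ x m = true := by
  rw [mem_cyl]
  constructor
  · intro h
    constructor
    · intro i hi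
      have := h i (by simp [ann]; omega)
      simp only [ann] at this
      rw [List.getElem_append_left (by simpa using hi)] at this
      simpa [tk, oo] using this
    · have := h m (by simp [ann])
      simp only [ann] at this
      rw [List.getElem_append_right (by simp)] at this
      simpa using this
  · rintro ⟨h1, h2⟩ i hi
    simp only [ann, List.length_append, length_tk, List.length_singleton] at hi
    by_cases him : i < m
    · simp only [ann]
      rw [List.getElem_append_left (by simpa using him), h1 i him]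
      simp [tk, oo]
    · have : i = m := by omega
      subst this
      simp only [ann]
      rw [List.getElem_append_right (by simp), h2]
      simp

theorem exists_N0_subset {O : Set X} (h : O ∈ 𝓝 oo) : ∃ k, N0 k ⊆ O := by
  obtain ⟨k, hk⟩ := exists_cyl_subset h
  exact ⟨k, by rwa [N0_eq_cyl]⟩

/-! ### the countable family `Q` -/

/-- Closure properties of the countable family of closed sets used in the construction. -/
structure QFam (C : Ctx) (Q : ℕ → Set X) : Prop where
  closed : ∀ i, IsClosed (Q i)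
  cyl : ∀ s, ∃ i, Q i = cyl s
  pt : ∃ i, Q i = {oo}
  dom : ∀ e, ∃ k : ℕ → ℕ, (C.D e)ᶜ = ⋃ n, Q (k n)
  img : ∀ r ∈ C.R, ∀ i, ∃ j, Q j = r '' Q i
  pimg : ∀ r ∈ C.R, ∀ i, ∃ j, Q j = r ⁻¹' Q i
  clo : ∀ e i, ∃ j, Q j = closure (C.h e ⁻¹' Q i ∩ C.D e)

/-- iterates of a countable family of operations -/
def gen {α : Type*} (S : Set α) (ops : Set (α → α)) : ℕ → Set α
  | 0 => S
  | n + 1 => gen S ops n ∪ ⋃ f ∈ ops, f '' gen S ops n

theorem gen_countable {α : Type*} {S : Set α} {ops : Set (α → α)} (hS : S.Countable)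
    (hops : ops.Countable) (n : ℕ) : (gen S ops n).Countable := by
  induction n with
  | zero => exact hS
  | succ n ih => exact ih.union (hops.biUnion fun f _ => ih.image f)

theorem exists_closed_family {α : Type*} (S : Set α) (ops : Set (α → α)) (hS : S.Countable)
    (hops : ops.Countable) (hne : S.Nonempty) (P : α → Prop) (hP : ∀ s ∈ S, P s)
    (hPo : ∀ f ∈ ops, ∀ a, P a → P (f a)) :
    ∃ Q : ℕ → α, (∀ i, P (Q i)) ∧ (∀ s ∈ S, ∃ i, Q i = s) ∧ ∀ f ∈ ops, ∀ i, ∃ j, Q j = f (Q i) := by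
  have hT : (⋃ n, gen S ops n).Countable := countable_iUnion fun n => gen_countable hS hops n
  obtain ⟨s0, hs0⟩ := hne
  obtain ⟨Q, hQ⟩ := hT.exists_eq_range ⟨s0, mem_iUnion.2 ⟨0, hs0⟩⟩
  have hPn : ∀ n, ∀ a ∈ gen S ops n, P a := by
    intro n
    induction n with
    | zero => exact hP
    | succ n ih =>
      rintro a (ha | ha)
      · exact ih a ha
      · simp only [mem_iUnion, mem_image] at ha
        obtain ⟨f, hf, b, hb, rfl⟩ := ha
        exact hPo f hf b (ih b hb)
  refine ⟨Q, ?_, ?_, ?_⟩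
  · intro i
    have : Q i ∈ ⋃ n, gen S ops n := by rw [hQ]; exact mem_range_self i
    obtain ⟨n, hn⟩ := mem_iUnion.1 this
    exact hPn n _ hn
  · intro s hs
    have : s ∈ ⋃ n, gen S ops n := mem_iUnion.2 ⟨0, hs⟩
    rw [hQ] at this
    exact this
  · intro f hf i
    have : Q i ∈ ⋃ n, gen S ops n := by rw [hQ]; exact mem_range_self i
    obtain ⟨n, hn⟩ := mem_iUnion.1 this
    have h2 : f (Q i) ∈ ⋃ n, gen S ops n := by
      refine mem_iUnion.2 ⟨n + 1, Or.inr ?_⟩
      simp only [mem_iUnion, mem_image]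
      exact ⟨f, hf, Q i, hn, rfl⟩
    rw [hQ] at h2
    exact h2

theorem exists_qfam (C : Ctx) : ∃ Q : ℕ → Set X, QFam C Q := by
  classical
  have hO : ∀ e, ∃ O : ℕ → Set X, (∀ n, IsOpen (O n)) ∧ C.D e = ⋂ n, O n := by
    intro e
    exact (isGδ_iff_eq_iInter_nat.1 (C.D_Gδ e))
  choose O hO1 hO2 using hO
  let S : Set (Set X) := range cyl ∪ {{oo}} ∪ range (fun p : ℕ × ℕ => (O p.1 p.2)ᶜ)
  let ops : Set (Set X → Set X) :=
    (fun r : X → X => fun s : Set X => r '' s) '' C.R ∪
    (fun r : X → X => fun s : Set X => r ⁻¹' s) '' C.R ∪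
    range (fun e : ℕ => fun s : Set X => closure (C.h e ⁻¹' s ∩ C.D e))
  have hS : S.Countable := ((countable_range _).union (countable_singleton _)).union
    (countable_range _)
  have hops : ops.Countable := ((C.R_countable.image _).union (C.R_countable.image _)).union
    (countable_range _)
  have hne : S.Nonempty := ⟨{oo}, Or.inl (Or.inr rfl)⟩
  obtain ⟨Q, h1, h2, h3⟩ := exists_closed_family S ops hS hops hne IsClosed
    (by
      rintro s ((⟨t, rfl⟩ | hs) | ⟨p, rfl⟩)
      · exact isClosed_cyl t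
      · rw [mem_singleton_iff.1 hs]; exact isClosed_singleton
      · exact (hO1 _ _).isClosed_compl)
    (by
      rintro f ((⟨r, hr, rfl⟩ | ⟨r, hr, rfl⟩) | ⟨e, rfl⟩) s hs
      · exact (hs.isCompact.image (C.R_cont r hr)).isClosed
      · exact hs.preimage (C.R_cont r hr)
      · exact isClosed_closure)
  refine ⟨Q, h1, fun s => h2 _ (Or.inl (Or.inl ⟨s, rfl⟩)), h2 _ (Or.inl (Or.inr rfl)), ?_, ?_, ?_,
    ?_⟩
  · intro e
    have : ∀ n, ∃ i, Q i = (O e n)ᶜ := fun n => h2 _ (Or.inr ⟨(e, n), rfl⟩)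
    choose k hk using this
    refine ⟨k, ?_⟩
    rw [hO2 e, compl_iInter]
    exact iUnion_congr fun n => (hk n).symm
  · intro r hr i
    exact h3 _ (Or.inl (Or.inl ⟨r, hr, rfl⟩)) i
  · intro r hr i
    exact h3 _ (Or.inl (Or.inr ⟨r, hr, rfl⟩)) i
  · intro e i
    exact h3 _ (Or.inr ⟨e, rfl⟩) i

/-! ### Boolean combinations -/

/-- Boolean combinations of the sets `Q i` -/
inductive BA (Q : ℕ → Set X) : Set X → Prop
  | base (i : ℕ) : BA Q (Q i)
  | compl {S : Set X} : BA Q S → BA Q Sᶜ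
  | inter {S T : Set X} : BA Q S → BA Q T → BA Q (S ∩ T)

namespace BA

variable {C : Ctx} {Q : ℕ → Set X}

theorem union {S T : Set X} (hS : BA Q S) (hT : BA Q T) : BA Q (S ∪ T) := by
  have := (hS.compl.inter hT.compl).compl
  rwa [← compl_union, compl_compl] at this

theorem diff {S T : Set X} (hS : BA Q S) (hT : BA Q T) : BA Q (S \ T) := by
  rw [sdiff_eq]; exact hS.inter hT.compl

theorem ofCyl (hQ : QFam C Q) (s : List Bool) : BA Q (cyl s) := by
  obtain ⟨i, hi⟩ := hQ.cyl s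
  rw [← hi]; exact base i

theorem univ (hQ : QFam C Q) : BA Q univ := by rw [← cyl_nil]; exact ofCyl hQ []

theorem empty (hQ : QFam C Q) : BA Q (∅ : Set X) := by
  have := (univ hQ).compl
  rwa [compl_univ] at this

theorem ofN0 (hQ : QFam C Q) (k : ℕ) : BA Q (N0 k) := by rw [N0_eq_cyl]; exact ofCyl hQ _

theorem pt (hQ : QFam C Q) : BA Q {oo} := by
  obtain ⟨i, hi⟩ := hQ.pt
  rw [← hi]; exact base i

theorem img (hQ : QFam C Q) {S : Set X} (hS : BA Q S) : ∀ r ∈ C.R, BA Q (r '' S) := by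
  induction hS with
  | base i =>
    intro r hr
    obtain ⟨j, hj⟩ := hQ.img r hr i
    rw [← hj]; exact base j
  | @compl S hS ih =>
    intro r hr
    have h0 : BA Q (r '' Set.univ) := by
      obtain ⟨i, hi⟩ := hQ.cyl []
      obtain ⟨j, hj⟩ := hQ.img r hr i
      rw [← cyl_nil, ← hi, ← hj]; exact base j
    have := h0.diff (ih r hr)
    rwa [← image_sdiff (C.R_inj r hr), ← compl_eq_univ_sdiff] at this
  | @inter S T hS hT ihS ihT =>
    intro r hr
    rw [image_inter (C.R_inj r hr)]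
    exact (ihS r hr).inter (ihT r hr)

theorem pimg (hQ : QFam C Q) {S : Set X} (hS : BA Q S) : ∀ r ∈ C.R, BA Q (r ⁻¹' S) := by
  induction hS with
  | base i =>
    intro r hr
    obtain ⟨j, hj⟩ := hQ.pimg r hr i
    rw [← hj]; exact base j
  | @compl S hS ih =>
    intro r hr
    exact (ih r hr).compl
  | @inter S T hS hT ihS ihT =>
    intro r hr
    exact (ihS r hr).inter (ihT r hr)

theorem ofRange (hQ : QFam C Q) {r : X → X} (hr : r ∈ C.R) : BA Q (range r) := by
  rw [← image_univ]; exact img hQ (univ hQ) r hr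

theorem finUnion (hQ : QFam C Q) {ι : Type*} {s : Set ι} (hs : s.Finite) (F : ι → Set X)
    (h : ∀ i ∈ s, BA Q (F i)) : BA Q (⋃ i ∈ s, F i) := by
  induction s, hs using Set.Finite.induction_on with
  | empty => simpa using empty hQ
  | @insert a s _ _ ih =>
    rw [biUnion_insert]
    exact (h a (mem_insert _ _)).union (ih fun i hi => h i (mem_insert_of_mem _ hi))

end BA

/-! ### shrinking -/

/-- hereditary and dense properties of embeddings -/
structure HD (C : Ctx) (P : (X → X) → Prop) : Prop where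
  her : ∀ p ∈ C.R, P p → ∀ q ∈ C.R, P (p ∘ q)
  dense : ∀ p ∈ C.R, ∃ q ∈ C.R, P (p ∘ q)

theorem _root_.TuringBaire.Ctx.R_id (C : Ctx) : (id : X → X) ∈ C.R := by
  have := C.R_pre []
  have h : pre [] = (id : X → X) := rfl
  rwa [h] at this

namespace HD

variable {C : Ctx}

theorem and {P P' : (X → X) → Prop} (h : HD C P) (h' : HD C P') : HD C fun p => P p ∧ P' p where
  her p hp hh q hq := ⟨h.her p hp hh.1 q hq, h'.her p hp hh.2 q hq⟩
  dense p hp := by
    obtain ⟨q, hq, h1⟩ := h.dense p hp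
    obtain ⟨q', hq', h2⟩ := h'.dense (p ∘ q) (C.R_comp p hp q hq)
    exact ⟨q ∘ q', C.R_comp q hq q' hq', h.her _ (C.R_comp p hp q hq) h1 q' hq', h2⟩

theorem triv : HD C fun _ => True where
  her _ _ _ _ _ := trivial
  dense _ _ := ⟨id, C.R_id, trivial⟩

theorem ball {ι : Type*} {s : Set ι} (hs : s.Finite) {P : ι → (X → X) → Prop}
    (h : ∀ i ∈ s, HD C (P i)) : HD C fun p => ∀ i ∈ s, P i p := by
  induction s, hs using Set.Finite.induction_on with
  | empty => simpa using (HD.triv : HD C fun _ => True)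
  | @insert a s _ _ ih =>
    have h1 := (h a (mem_insert _ _)).and (ih fun i hi => h i (mem_insert_of_mem _ hi))
    have h2 : (fun p => ∀ i ∈ insert a s, P i p) = fun p => P a p ∧ ∀ i ∈ s, P i p := by
      funext p; simp
    rw [h2]; exact h1

theorem imp {P P' : (X → X) → Prop} (h : HD C P) (h' : ∀ p ∈ C.R, P p → P' p)
    (her : ∀ p ∈ C.R, P' p → ∀ q ∈ C.R, P' (p ∘ q)) : HD C P' where
  her := her
  dense p hp := by
    obtain ⟨q, hq, h1⟩ := h.dense p hp
    exact ⟨q, hq, h' _ (C.R_comp p hp q hq) h1⟩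

/-- Boolean combinations are decided -/
theorem dec {Q : ℕ → Set X} (hQ : QFam C Q) {S : Set X} (hS : BA Q S) :
    ∀ g ∈ C.R, ∃ s, (∀ x, g (pre s x) ∈ S) ∨ (∀ x, g (pre s x) ∉ S) := by
  induction hS with
  | base i =>
    intro g hg
    by_cases h : ∀ x, g x ∈ Q i
    · exact ⟨[], Or.inl fun x => h _⟩
    · push Not at h
      obtain ⟨x, hx⟩ := h
      obtain ⟨s, hs⟩ := exists_pre_subset
        (((hQ.closed i).isOpen_compl).preimage (C.R_cont g hg)) (x := x) hx
      exact ⟨s, Or.inr hs⟩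
  | @compl S hS ih =>
    intro g hg
    obtain ⟨s, hs⟩ := ih g hg
    refine ⟨s, ?_⟩
    rcases hs with hs | hs
    · exact Or.inr fun x hx => hx (hs x)
    · exact Or.inl hs
  | @inter S T hS hT ihS ihT =>
    intro g hg
    obtain ⟨s, hs⟩ := ihS g hg
    rcases hs with hs | hs
    · obtain ⟨t, ht⟩ := ihT (g ∘ pre s) (C.R_comp g hg _ (C.R_pre s))
      refine ⟨s ++ t, ?_⟩
      rw [pre_append]
      rcases ht with ht | ht
      · exact Or.inl fun x => ⟨hs _, ht x⟩
      · exact Or.inr fun x hx => ht x hx.2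
    · exact ⟨s, Or.inr fun x hx => hs x hx.1⟩

theorem decAt {Q : ℕ → Set X} (hQ : QFam C Q) {S : Set X} (hS : BA Q S) {g : X → X}
    (hg : g ∈ C.R) : HD C fun p => range (g ∘ p) ⊆ S ∨ Disjoint (range (g ∘ p)) S where
  her p _ h q _ := by
    have hsub : range (g ∘ (p ∘ q)) ⊆ range (g ∘ p) := by
      rintro _ ⟨x, rfl⟩; exact ⟨q x, rfl⟩
    rcases h with h | h
    · exact Or.inl (hsub.trans h)
    · exact Or.inr (h.mono_left hsub)
  dense p hp := by
    obtain ⟨s, hs⟩ := dec hQ hS (g ∘ p) (C.R_comp g hg p hp)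
    refine ⟨pre s, C.R_pre s, ?_⟩
    rcases hs with hs | hs
    · left; rintro _ ⟨x, rfl⟩; exact hs x
    · right
      rw [Set.disjoint_left]
      rintro _ ⟨x, rfl⟩; exact hs x

theorem eqOrDisj {g g' : X → X} (hg : g ∈ C.R) (hg' : g' ∈ C.R) :
    HD C fun p => g ∘ p = g' ∘ p ∨ Disjoint (range (g ∘ p)) (range (g' ∘ p)) where
  her p _ h q _ := by
    rcases h with h | h
    · left
      have : (g ∘ p) ∘ q = (g' ∘ p) ∘ q := by rw [h]
      exact this
    · right
      refine h.mono ?_ ?_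
      · rintro _ ⟨x, rfl⟩; exact ⟨q x, rfl⟩
      · rintro _ ⟨x, rfl⟩; exact ⟨q x, rfl⟩
  dense p hp := by
    by_cases h : g ∘ p = g' ∘ p
    · exact ⟨id, C.R_id, Or.inl h⟩
    · obtain ⟨x, hx⟩ := Function.ne_iff.1 h
      have hc1 := C.R_cont _ (C.R_comp g hg p hp)
      have hc2 := C.R_cont _ (C.R_comp g' hg' p hp)
      obtain ⟨U, V, hU, hV, hxU, hxV, hUV⟩ := t2_separation hx
      obtain ⟨s, hs⟩ := exists_pre_subset ((hU.preimage hc1).inter (hV.preimage hc2))
        (x := x) ⟨hxU, hxV⟩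
      refine ⟨pre s, C.R_pre s, Or.inr ?_⟩
      refine hUV.mono ?_ ?_
      · rintro _ ⟨y, rfl⟩; exact (hs y).1
      · rintro _ ⟨y, rfl⟩; exact (hs y).2

theorem avoid {g : X → X} (hg : g ∈ C.R) (z : X) : HD C fun p => z ∉ range (g ∘ p) where
  her p _ h q _ := by
    rintro ⟨x, hx⟩; exact h ⟨q x, hx⟩
  dense p hp := by
    by_cases h : z ∈ range (g ∘ (p ∘ pre [false]))
    · refine ⟨pre [true], C.R_pre _, ?_⟩
      rintro ⟨y, hy⟩
      obtain ⟨x, hx⟩ := h
      have := C.R_inj _ (C.R_comp g hg p hp) (hx.trans hy.symm)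
      have h0 := congrFun this 0
      simp [pre_cons_zero] at h0
    · exact ⟨pre [false], C.R_pre _, h⟩

theorem small {g : X → X} (hg : g ∈ C.R) (n : ℕ) :
    HD C fun p => ∀ x y, ∀ i < n, g (p x) i = g (p y) i where
  her p _ h q _ := fun x y => h (q x) (q y)
  dense p hp := by
    have hc1 := C.R_cont _ (C.R_comp g hg p hp)
    obtain ⟨s, hs⟩ := exists_pre_subset ((isOpen_cyl (tk ((g ∘ p) oo) n)).preimage hc1)
      (x := oo) (self_mem_cyl_tk _ _)
    refine ⟨pre s, C.R_pre s, fun x y i hi => ?_⟩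
    have h1 := mem_cyl_tk.1 (hs x) i hi
    have h2 := mem_cyl_tk.1 (hs y) i hi
    exact h1.trans h2.symm

end HD

/-- Phase 2 lemma: simultaneous shrinking of finitely many embeddings. -/
theorem exists_shrink {C : Ctx} {Q : ℕ → Set X} (hQ : QFam C Q) (G : Set (X → X)) (hG : G.Finite)
    (hGR : G ⊆ C.R) (Pr : Set X) (hPr : Pr.Finite) (n : ℕ) :
    ∃ p ∈ C.R, (∀ g ∈ G, ∀ g' ∈ G, g ∘ p = g' ∘ p ∨ Disjoint (range (g ∘ p)) (range (g' ∘ p))) ∧
      (∀ g ∈ G, ∀ i < n, range (g ∘ p) ⊆ Q i ∨ Disjoint (range (g ∘ p)) (Q i)) ∧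
      (∀ g ∈ G, ∀ z ∈ Pr, z ∉ range (g ∘ p)) ∧
      (∀ g ∈ G, ∀ x y, ∀ i < n, g (p x) i = g (p y) i) := by
  have h1 : HD C fun p => ∀ g ∈ G, ∀ g' ∈ G,
      g ∘ p = g' ∘ p ∨ Disjoint (range (g ∘ p)) (range (g' ∘ p)) :=
    HD.ball hG fun g hg => HD.ball hG fun g' hg' => HD.eqOrDisj (hGR hg) (hGR hg')
  have h2 : HD C fun p => ∀ g ∈ G, ∀ i ∈ Set.Iio n,
      range (g ∘ p) ⊆ Q i ∨ Disjoint (range (g ∘ p)) (Q i) :=
    HD.ball hG fun g hg => HD.ball (Set.finite_Iio n) fun i _ =>
      HD.decAt hQ (BA.base i) (hGR hg)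
  have h3 : HD C fun p => ∀ g ∈ G, ∀ z ∈ Pr, z ∉ range (g ∘ p) :=
    HD.ball hG fun g hg => HD.ball hPr fun z _ => HD.avoid (hGR hg) z
  have h4 : HD C fun p => ∀ g ∈ G, ∀ x y, ∀ i < n, g (p x) i = g (p y) i :=
    HD.ball hG fun g hg => HD.small (hGR hg) n
  obtain ⟨p, hp, hh⟩ := (h1.and (h2.and (h3.and h4))).dense id C.R_id
  exact ⟨p, hp, hh⟩

end TuringBaire.Con
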