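import Pool.Agent.TuringBaire.Steps

/-!
# Carving new pieces which form one new class
-/

namespace TuringBaire.Con

open Set Topology

/-- a family of new pieces `u ∘ w` with base points `u y`, `u ∈ M` -/
structure Fam where
  k : Option ℕ
  B : Set X
  M : Set (X → X)
  y : X
  w : X → X

/-- admissible families -/
structure FamOK (C : Ctx) (S : St) (φ : Fam) : Prop where
  cls : (φ.B, φ.M) ∈ S.Cl φ.k
  y_mem : φ.y ∈ φ.B
  w_R : φ.w ∈ C.R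
  loc : ∀ u ∈ φ.M, ∃ k B M, (B, M) ∈ S.Cl k ∧ u ∈ M ∧ M ⊆ φ.M ∧ range φ.w ⊆ B

/-- the pieces of a set of families -/
def pcs (Φ : Set Fam) : Set Pc := {p | ∃ φ ∈ Φ, ∃ u ∈ φ.M, p = (u ∘ φ.w, u φ.y)}

/-- the union of the pieces -/
def WW (N : Set Pc) : Set X := ⋃ p ∈ N, range p.1

theorem mem_WW {N : Set Pc} {x : X} : x ∈ WW N ↔ ∃ p ∈ N, x ∈ range p.1 := by
  simp [WW]

/-- carving a class -/
def carveC (N : Set Pc) (c : Cls) : Cls := ({y ∈ c.1 | ∀ u ∈ c.2, u y ∉ WW N}, c.2)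

/-- the carved state -/
def St.carve (S : St) (n : ℕ) (N : Set Pc) : St where
  Cl k := match k with
    | none => carveC N '' S.Cl none ∪ {(univ, Prod.fst '' N)}
    | some i => carveC N '' S.Cl (some i)
  hist := Function.update S.hist n N
  lvl := S.lvl
  pend := Prod.fst '' N

theorem carve_none (S : St) (n : ℕ) (N : Set Pc) : (S.carve n N).Cl none =
  carveC N '' S.Cl none ∪ {(univ, Prod.fst '' N)} := rfl
theorem carve_some (S : St) (n : ℕ) (N : Set Pc) (i : ℕ) : (S.carve n N).Cl (some i) =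
  carveC N '' S.Cl (some i) := rfl

theorem carve_mem {S : St} {n : ℕ} {N : Set Pc} {k : Option ℕ} {B : Set X} {M : Set (X → X)}
    (h : (B, M) ∈ S.Cl k) :
    ({y ∈ B | ∀ u ∈ M, u y ∉ WW N}, M) ∈ (S.carve n N).Cl k := by
  cases k with
  | none => rw [carve_none]; exact Or.inl ⟨(B, M), h, rfl⟩
  | some i => rw [carve_some]; exact ⟨(B, M), h, rfl⟩

theorem carve_src {S : St} {n : ℕ} {N : Set Pc} {k : Option ℕ} {B : Set X} {M : Set (X → X)}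
    (h : (B, M) ∈ (S.carve n N).Cl k) :
    (k = none ∧ B = univ ∧ M = Prod.fst '' N) ∨
      ∃ B0, (B0, M) ∈ S.Cl k ∧ B = {y ∈ B0 | ∀ u ∈ M, u y ∉ WW N} := by
  cases k with
  | none =>
    rw [carve_none] at h
    rcases h with ⟨⟨B0, M0⟩, h0, h1⟩ | h
    · rw [carveC, Prod.mk.injEq] at h1
      obtain ⟨h1, rfl⟩ := h1
      exact Or.inr ⟨B0, h0, h1.symm⟩
    · rw [mem_singleton_iff, Prod.mk.injEq] at h
      exact Or.inl ⟨rfl, h.1, h.2⟩
  | some i =>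
    rw [carve_some] at h
    obtain ⟨⟨B0, M0⟩, h0, h1⟩ := h
    rw [carveC, Prod.mk.injEq] at h1
    obtain ⟨h1, rfl⟩ := h1
    exact Or.inr ⟨B0, h0, h1.symm⟩

section

variable {C : Ctx} {Q : ℕ → Set X} {n s : ℕ} {S : St} {Φ : Set Fam}

theorem pcs_loc (hI : Inv C Q n s S) (hΦ : ∀ φ ∈ Φ, FamOK C S φ) {k : Option ℕ} {B : Set X}
    {M : Set (X → X)} {u : X → X} {y x : X} (hL : Loc S k B M u y x) {p : Pc} (hp : p ∈ pcs Φ)
    (hx : x ∈ range p.1) :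
    ∃ φ ∈ Φ, u ∈ φ.M ∧ M ⊆ φ.M ∧ p = (u ∘ φ.w, u φ.y) ∧ ∃ x1, y = φ.w x1 := by
  obtain ⟨φ, hφ, v, hv, rfl⟩ := hp
  obtain ⟨x1, hx1⟩ := hx
  obtain ⟨k', B', M', h1, h2, h3, h4⟩ := (hΦ φ hφ).loc v hv
  obtain ⟨rfl, rfl, rfl, rfl, rfl⟩ := hI.uniq x k B M u y k' B' M' v (φ.w x1) hL
    ⟨h1, h2, h4 (mem_range_self _), hx1⟩
  exact ⟨φ, hφ, hv, h3, rfl, x1, rfl⟩

theorem pcs_inv (hI : Inv C Q n s S) (hΦ : ∀ φ ∈ Φ, FamOK C S φ) {k : Option ℕ} {B : Set X}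
    {M : Set (X → X)} (hc : (B, M) ∈ S.Cl k) {u u' : X → X} (hu : u ∈ M) (hu' : u' ∈ M) {y : X}
    (hy : y ∈ B) (h : u y ∈ WW (pcs Φ)) : u' y ∈ WW (pcs Φ) := by
  obtain ⟨p, hp, hx⟩ := mem_WW.1 h
  obtain ⟨φ, hφ, h1, h2, rfl, x1, rfl⟩ := pcs_loc hI hΦ ⟨hc, hu, hy, rfl⟩ hp hx
  exact mem_WW.2 ⟨(u' ∘ φ.w, u' φ.y), ⟨φ, hφ, u', h2 hu', rfl⟩, x1, rfl⟩

theorem pcs_finite (hI : Inv C Q n s S) (hΦ : ∀ φ ∈ Φ, FamOK C S φ) (hf : Φ.Finite) :
    (pcs Φ).Finite := by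
  have : pcs Φ = ⋃ φ ∈ Φ, (fun u : X → X => ((u ∘ φ.w, u φ.y) : Pc)) '' φ.M := by
    ext p
    simp only [pcs, mem_ofPred_eq, mem_iUnion, mem_image, exists_prop]
    constructor
    · rintro ⟨φ, hφ, u, hu, rfl⟩; exact ⟨φ, hφ, u, hu, rfl⟩
    · rintro ⟨φ, hφ, u, hu, rfl⟩; exact ⟨φ, hφ, u, hu, rfl⟩
  rw [this]
  exact hf.biUnion fun φ hφ => (hI.finM _ _ _ (hΦ φ hφ).cls).image _

theorem pcs_R (hI : Inv C Q n s S) (hΦ : ∀ φ ∈ Φ, FamOK C S φ) {p : Pc} (hp : p ∈ pcs Φ) :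
    p.1 ∈ C.R := by
  obtain ⟨φ, hφ, u, hu, rfl⟩ := hp
  exact C.R_comp _ (hI.subR _ _ _ (hΦ φ hφ).cls hu) _ (hΦ φ hφ).w_R

theorem isClosed_range_R {C : Ctx} {r : X → X} (hr : r ∈ C.R) : IsClosed (range r) :=
  (isCompact_range (C.R_cont r hr)).isClosed

theorem isClosed_pull {C : Ctx} {N : Set Pc} (hf : N.Finite) (hR : ∀ p ∈ N, p.1 ∈ C.R)
    {M : Set (X → X)} (hM : M.Finite) (hMR : M ⊆ C.R) : IsClosed {y | ∃ u ∈ M, u y ∈ WW N} := by
  have hW : IsClosed (WW N) := hf.isClosed_biUnion fun p hp => isClosed_range_R (hR p hp)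
  have : {y | ∃ u ∈ M, u y ∈ WW N} = ⋃ u ∈ M, u ⁻¹' WW N := by
    ext y; simp
  rw [this]
  exact hM.isClosed_biUnion fun u hu => hW.preimage (C.R_cont u (hMR hu))

theorem carve_set_eq {N : Set Pc} {M : Set (X → X)} (B : Set X) :
    {y ∈ B | ∀ u ∈ M, u y ∉ WW N} = B \ {y | ∃ u ∈ M, u y ∈ WW N} := by
  ext y; simp

theorem BA_WW (hQ : QFam C Q) {N : Set Pc} (hf : N.Finite) (hR : ∀ p ∈ N, p.1 ∈ C.R) :
    BA Q (WW N) := BA.finUnion hQ hf _ fun p hp => BA.ofRange hQ (hR p hp)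

theorem BA_pull (hQ : QFam C Q) {N : Set Pc} (hf : N.Finite) (hR : ∀ p ∈ N, p.1 ∈ C.R)
    {M : Set (X → X)} (hM : M.Finite) (hMR : M ⊆ C.R) : BA Q {y | ∃ u ∈ M, u y ∈ WW N} := by
  have : {y | ∃ u ∈ M, u y ∈ WW N} = ⋃ u ∈ M, u ⁻¹' WW N := by
    ext y; simp
  rw [this]
  exact BA.finUnion hQ hM _ fun u hu => BA.pimg hQ (BA_WW hQ hf hR) u (hMR hu)

theorem range_not_sub_singleton {w : X → X} (hw : Function.Injective w) (z : X) :
    ¬ range w ⊆ {z} := by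
  intro h
  obtain ⟨x, hx⟩ := oo_ne_true
  have h1 : w x = z := h (mem_range_self _)
  have h2 : w oo = z := h (mem_range_self _)
  exact hx (hw (h1.trans h2.symm))

theorem inv_carve (hQ : QFam C Q) (hI : Inv C Q n s S) (hΦ : ∀ φ ∈ Φ, FamOK C S φ)
    (hf : Φ.Finite)
    (hd : ∀ p ∈ pcs Φ, ∀ q ∈ pcs Φ, p ≠ q → Disjoint (range p.1) (range q.1)) :
    Inv C Q (n + 1) s (S.carve n (pcs Φ)) := by
  have hNf := pcs_finite hI hΦ hf
  have hNR : ∀ p ∈ pcs Φ, p.1 ∈ C.R := fun p hp => pcs_R hI hΦ hp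
  refine
  { fin := ?_, finM := ?_, subR := ?_, emp := ?_, endU := ?_, cover := ?_, uniq := ?_, ba := ?_,
    nbr := ?_, endp := ?_, lvl0 := hI.lvl0, histfin := ?_, old := ?_ }
  · intro k
    cases k with
    | none => rw [carve_none]; exact ((hI.fin _).image _).union (finite_singleton _)
    | some i => rw [carve_some]; exact (hI.fin _).image _
  · intro k B M h
    rcases carve_src h with ⟨_, _, rfl⟩ | ⟨B0, h0, _⟩
    · exact hNf.image _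
    · exact hI.finM _ _ _ h0
  · intro k B M h
    rcases carve_src h with ⟨_, _, rfl⟩ | ⟨B0, h0, _⟩
    · rintro _ ⟨p, hp, rfl⟩; exact hNR p hp
    · exact hI.subR _ _ _ h0
  · intro i hi
    rw [carve_some, hI.emp i hi, image_empty]
  · intro i hi
    obtain ⟨c, hc⟩ := hI.endU i hi
    exact ⟨carveC (pcs Φ) c, by rw [carve_some, hc, image_singleton]⟩
  · intro x
    by_cases hx : x ∈ WW (pcs Φ)
    · obtain ⟨p, hp, x0, hx0⟩ := mem_WW.1 hx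
      refine ⟨none, univ, Prod.fst '' pcs Φ, p.1, x0, ?_, ⟨p, hp, rfl⟩, trivial, hx0⟩
      rw [carve_none]; exact Or.inr rfl
    · obtain ⟨k, B, M, u, y, h1, h2, h3, h4⟩ := hI.cover x
      refine ⟨k, _, M, u, y, carve_mem h1, h2, ⟨h3, ?_⟩, h4⟩
      intro u' hu' hW
      apply hx
      rw [← h4]
      exact pcs_inv hI hΦ h1 hu' h2 h3 hW
  · rintro x k B M u y k' B' M' u' y' ⟨h1, h2, h3, h4⟩ ⟨h1', h2', h3', h4'⟩
    rcases carve_src h1 with ⟨rfl, rfl, rfl⟩ | ⟨B0, h0, rfl⟩ <;>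
      rcases carve_src h1' with ⟨rfl, rfl, rfl⟩ | ⟨B0', h0', rfl⟩
    · obtain ⟨p, hp, rfl⟩ := h2
      obtain ⟨q, hq, rfl⟩ := h2'
      by_cases hpq : p = q
      · subst hpq
        exact ⟨rfl, rfl, rfl, rfl, C.R_inj _ (hNR p hp) (h4.trans h4'.symm)⟩
      · exact absurd (Set.disjoint_left.1 (hd p hp q hq hpq) ⟨y, h4⟩ ⟨y', h4'⟩) id
    · obtain ⟨p, hp, rfl⟩ := h2
      exact absurd (mem_WW.2 ⟨p, hp, y, h4.trans h4'.symm⟩) (h3'.2 _ h2')
    · obtain ⟨p, hp, rfl⟩ := h2'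
      exact absurd (mem_WW.2 ⟨p, hp, y', h4'.trans h4.symm⟩) (h3.2 _ h2)
    · obtain ⟨rfl, rfl, rfl, rfl, rfl⟩ := hI.uniq x k B0 M u y k' B0' M' u' y'
        ⟨h0, h2, h3.1, h4⟩ ⟨h0', h2', h3'.1, h4'⟩
      exact ⟨rfl, rfl, rfl, rfl, rfl⟩
  · intro k B M h
    rcases carve_src h with ⟨_, rfl, _⟩ | ⟨B0, h0, rfl⟩
    · exact BA.univ hQ
    · rw [carve_set_eq]
      exact (hI.ba _ _ _ h0).diff (BA_pull hQ hNf hNR (hI.finM _ _ _ h0) (hI.subR _ _ _ h0))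
  · intro k B M h u hu y hy
    rcases carve_src h with ⟨rfl, rfl, rfl⟩ | ⟨B0, h0, rfl⟩
    · refine ⟨none, univ, _, h, hu, subset_rfl, ?_⟩
      rw [univ_union]; exact Filter.univ_mem
    · obtain ⟨k', B', M', h1, h2, h3, h4⟩ := hI.nbr _ _ _ h0 u hu y hy.1
      refine ⟨k', _, M', carve_mem h1, h2, h3, ?_⟩
      have hcl := isClosed_pull hNf hNR (hI.finM _ _ _ h1) (hI.subR _ _ _ h1)
      have hy2 : y ∈ {y | ∃ u ∈ M', u y ∈ WW (pcs Φ)}ᶜ := by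
        rintro ⟨v, hv, hvy⟩
        exact hy.2 v (h3 hv) hvy
      refine Filter.mem_of_superset (Filter.inter_mem h4 (hcl.isOpen_compl.mem_nhds hy2)) ?_
      rintro z ⟨hz1, hz2⟩
      rcases hz1 with hz1 | hz1
      · exact Or.inl ⟨hz1, fun v hv hvz => hz2 ⟨v, hv, hvz⟩⟩
      · exact Or.inr hz1
  · intro i B M h
    rcases carve_src h with ⟨hi, _, _⟩ | ⟨B0, h0, rfl⟩
    · exact absurd hi (by simp)
    · obtain ⟨a1, a2, a3, a4, Ms, a5, a6⟩ := hI.endp i B0 M h0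
      have hcl := isClosed_pull hNf hNR (hI.finM _ _ _ h0) (hI.subR _ _ _ h0)
      have hoo : ∀ u ∈ Ms, u oo ∉ WW (pcs Φ) := by
        intro u hu hW
        obtain ⟨p, hp, hx⟩ := mem_WW.1 hW
        obtain ⟨φ, hφ, v, hv, rfl⟩ := hp
        obtain ⟨x1, hx1⟩ := hx
        obtain ⟨k', B', M', b1, b2, b3, b4⟩ := (hΦ φ hφ).loc v hv
        obtain ⟨-, rfl, -, -, -⟩ := hI.uniq (u oo) none {oo} Ms u oo k' B' M' v (φ.w x1)
          ⟨a5, hu, rfl, rfl⟩ ⟨b1, b2, b4 (mem_range_self _), hx1⟩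
        exact range_not_sub_singleton (C.R_inj _ (hΦ φ hφ).w_R) oo b4
      have hoo2 : oo ∈ {y | ∃ u ∈ M, u y ∈ WW (pcs Φ)}ᶜ := by
        rintro ⟨v, hv, hvy⟩
        exact hoo v (a6 hv) hvy
      refine ⟨?_, fun h => a2 h.1, ?_, fun y hy => a4 hy.1, Ms, ?_, a6⟩
      · rw [carve_set_eq]; exact a1.sdiff hcl
      · refine Filter.mem_of_superset (Filter.inter_mem a3 (hcl.isOpen_compl.mem_nhds hoo2)) ?_
        rintro z ⟨hz1, hz2⟩
        rcases hz1 with hz1 | hz1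
        · exact Or.inl ⟨hz1, fun v hv hvz => hz2 ⟨v, hv, hvz⟩⟩
        · exact Or.inr hz1
      · have := carve_mem (n := n) (N := pcs Φ) a5
        have he : {y ∈ ({oo} : Set X) | ∀ u ∈ Ms, u y ∉ WW (pcs Φ)} = {oo} := by
          ext y
          constructor
          · rintro ⟨h, _⟩; exact h
          · intro h
            rw [mem_singleton_iff] at h
            subst h
            exact ⟨rfl, hoo⟩
        rwa [he] at this
  · intro m
    change (Function.update S.hist n (pcs Φ) m).Finite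
    by_cases hm : m = n
    · subst hm; rw [Function.update_self]; exact hNf
    · rw [Function.update_of_ne hm]; exact hI.histfin m
  · intro m hm p hp k B M h u hu
    change p ∈ Function.update S.hist n (pcs Φ) m at hp
    by_cases hmn : m = n
    · subst hmn
      rw [Function.update_self] at hp
      rcases carve_src h with ⟨rfl, rfl, rfl⟩ | ⟨B0, h0, rfl⟩
      · obtain ⟨q, hq, rfl⟩ := hu
        by_cases hqp : q = p
        · subst hqp; exact Or.inl subset_rfl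
        · right; rw [image_univ]; exact hd q hq p hp hqp
      · right
        rw [Set.disjoint_left]
        rintro _ ⟨y, hy, rfl⟩ hW
        exact hy.2 u hu (mem_WW.2 ⟨p, hp, hW⟩)
    · rw [Function.update_of_ne hmn] at hp
      have hm' : m < n := by omega
      rcases carve_src h with ⟨rfl, rfl, rfl⟩ | ⟨B0, h0, rfl⟩
      · obtain ⟨q, hq, rfl⟩ := hu
        obtain ⟨φ, hφ, v, hv, rfl⟩ := hq
        obtain ⟨k', B', M', b1, b2, b3, b4⟩ := (hΦ φ hφ).loc v hv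
        rcases hI.old m hm' p hp _ _ _ b1 v b2 with h | h
        · left
          rintro _ ⟨x, rfl⟩
          exact h (mem_range_self _)
        · right
          refine h.mono_left ?_
          rintro _ ⟨x, _, rfl⟩
          exact ⟨φ.w x, b4 (mem_range_self _), rfl⟩
      · rcases hI.old m hm' p hp _ _ _ h0 u hu with h | h
        · exact Or.inl h
        · exact Or.inr (h.mono_left (image_mono fun y hy => hy.1))

/-- the carve step: the remaining numerical conditions are given as hypotheses -/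
theorem step_carve (hI : Inv C Q n s S) (hΦ : ∀ φ ∈ Φ, FamOK C S φ)
    (hf : Φ.Finite)
    (hd : ∀ p ∈ pcs Φ, ∀ q ∈ pcs Φ, p ≠ q → Disjoint (range p.1) (range q.1))
    {No : Set Pc} (hNo : No ⊆ pcs Φ)
    (base0 : ∀ p ∈ pcs Φ, ∀ q ∈ pcs Φ, p.2 ∉ range q.1)
    (baseOld : ∀ m < n, ∀ p ∈ S.hist m, ∀ q ∈ pcs Φ, p.2 ∉ range q.1)
    (close : ∀ p ∈ pcs Φ, ∀ x, ∀ i < n, p.1 x i = p.2 i)
    (dec1 : ∀ p ∈ pcs Φ, ∀ i < n, p.2 ∉ Q i → Disjoint (range p.1) (Q i))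
    (dec2 : ∀ p ∈ pcs Φ, p ∉ No → ∀ i < n, p.2 ∈ Q i → range p.1 ⊆ Q i) :
    Step C Q n S (S.carve n (pcs Φ)) (pcs Φ) No where
  hist := rfl
  No_sub := hNo
  N_fin := pcs_finite hI hΦ hf
  N_R p hp := pcs_R hI hΦ hp
  disj := hd
  base0 := base0
  baseOld := baseOld
  lam := by
    rintro m hm p hp q ⟨φ, hφ, v, hv, rfl⟩
    obtain ⟨k', B', M', b1, b2, b3, b4⟩ := (hΦ φ hφ).loc v hv
    by_cases hsub : range v ⊆ range p.1
    · left
      refine ⟨?_, hsub (mem_range_self _)⟩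
      rintro _ ⟨x, rfl⟩
      exact hsub (mem_range_self _)
    · right
      constructor
      · rcases hI.old m hm p hp _ _ _ b1 v b2 with h | h
        · exact absurd h hsub
        · refine h.mono_left ?_
          rintro _ ⟨x, rfl⟩
          exact ⟨φ.w x, b4 (mem_range_self _), rfl⟩
      · rcases hI.old m hm p hp _ _ _ (hΦ φ hφ).cls v hv with h | h
        · exact absurd h hsub
        · exact fun hz => Set.disjoint_left.1 h ⟨φ.y, (hΦ φ hφ).y_mem, rfl⟩ hz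
  close := close
  dec1 := dec1
  dec2 := dec2
  st1 := by
    intro k B M h u hu u' hu' y hy x hx
    by_cases hxW : x ∈ WW (pcs Φ)
    · obtain ⟨p, hp, x1, hx1⟩ := mem_WW.1 hxW
      rw [rho_of_mem hd hp ⟨x1, hx1⟩] at hx
      obtain ⟨φ, hφ, v, hv, rfl⟩ := hp
      obtain ⟨rfl, rfl, rfl, rfl, rfl⟩ := hI.uniq (u y) k B M u y φ.k φ.B φ.M v φ.y
        ⟨h, hu, hy, rfl⟩ ⟨(hΦ φ hφ).cls, hv, (hΦ φ hφ).y_mem, hx⟩
      refine ⟨none, univ, Prod.fst '' pcs Φ, φ.w, x1, ?_, ⟨_, ⟨φ, hφ, u, hu, rfl⟩, rfl⟩,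
        ⟨_, ⟨φ, hφ, u', hu', rfl⟩, rfl⟩, trivial, hx1.symm, ?_⟩
      · rw [carve_none]; exact Or.inr rfl
      · exact rho_of_mem hd (p := (u' ∘ φ.w, u' φ.y)) ⟨φ, hφ, u', hu', rfl⟩ ⟨x1, rfl⟩
    · rw [rho_of_notMem (fun p hp hxp => hxW (mem_WW.2 ⟨p, hp, hxp⟩))] at hx
      have hall : ∀ v ∈ M, v y ∉ WW (pcs Φ) := by
        intro v hv hW
        apply hxW
        rw [hx]
        exact pcs_inv hI hΦ h hv hu hy hW
      refine ⟨k, _, M, id, y, carve_mem h, hu, hu', ⟨hy, hall⟩, hx, ?_⟩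
      exact rho_of_notMem (fun p hp hxp => hall u' hu' (mem_WW.2 ⟨p, hp, hxp⟩))
  lvlmono i := le_rfl

end

end TuringBaire.Con
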