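import Pool.Agent.TuringBaire.Defs

/-!
# MP_a48249_lc, module M3: making countably many closed subsets of Cantor space clopen.
-/

namespace TuringBaire

open Set Topology

/-- Cantor space with the topology obtained from the usual one by making the sets `C i` clopen -/
def CT (_C : ℕ → Set X) : Type := X

instance (C : ℕ → Set X) : TopologicalSpace (CT C) :=
  TopologicalSpace.generateFrom ({S | ∃ i, S = C i ∨ S = (C i)ᶜ} ∪ {S | ∃ s, S = cyl s})

theorem isOpen_coord {α : Type*} [TopologicalSpace α] [DiscreteTopology α] (n : ℕ) (S : Set α) :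
    IsOpen {v : ℕ → α | v n ∈ S} :=
  (isOpen_discrete S).preimage (continuous_apply n)

/-! ### cylinders -/

theorem pre_lt (s : List Bool) (x : X) (n : ℕ) (hn : n < s.length) :
    pre s x n = s[n] := by
  induction s generalizing n with
  | nil => simp at hn
  | cons b s ih =>
    cases n with
    | zero => rfl
    | succ n =>
      have hn' : n < s.length := by simpa using hn
      simpa [pre] using ih n hn'

theorem pre_add (s : List Bool) (x : X) (n : ℕ) : pre s x (s.length + n) = x n := by
  induction s with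
  | nil => simp [pre]
  | cons b s ih =>
    have : (b :: s).length + n = (s.length + n) + 1 := by simp; omega
    rw [this]
    simpa [pre] using ih

theorem mem_cyl_iff (s : List Bool) (x : X) :
    x ∈ cyl s ↔ ∀ n, ∀ hn : n < s.length, x n = s[n] := by
  constructor
  · rintro ⟨y, rfl⟩ n hn
    exact pre_lt s y n hn
  · intro h
    refine ⟨fun n => x (s.length + n), funext fun n => ?_⟩
    by_cases hn : n < s.length
    · rw [pre_lt s _ n hn, h n hn]
    · obtain ⟨m, rfl⟩ := Nat.exists_eq_add_of_le (not_lt.1 hn)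
      rw [pre_add]

theorem isClopen_cyl (s : List Bool) : IsClopen (cyl s) := by
  have : cyl s = ⋂ n : Fin s.length, {x : X | x n = s[n]} := by
    ext x
    rw [mem_cyl_iff]
    simp only [mem_iInter, mem_ofPred_eq]
    exact ⟨fun h n => h n n.2, fun h n hn => h ⟨n, hn⟩⟩
  rw [this]
  refine isClopen_iInter_of_finite fun n => ?_
  exact (isClopen_discrete {s[n]}).preimage (continuous_apply (n : ℕ))

/-- the initial segment of length `k` -/
def seg (x : X) (k : ℕ) : List Bool := (List.range k).map x

theorem mem_cyl_seg (x y : X) (k : ℕ) : y ∈ cyl (seg x k) ↔ ∀ n < k, y n = x n := by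
  rw [mem_cyl_iff]
  simp only [seg, List.length_map, List.length_range, List.getElem_map, List.getElem_range]

theorem exists_seg_disjoint {C : Set X} (hC : IsClosed C) {x : X} (hx : x ∉ C) :
    ∃ k, Disjoint (cyl (seg x k)) C := by
  have hO : IsOpen Cᶜ := hC.isOpen_compl
  rw [isOpen_pi_iff] at hO
  obtain ⟨I, u, hu, hsub⟩ := hO x hx
  obtain ⟨k, hk⟩ : ∃ k, ∀ i ∈ I, i < k := ⟨I.sup id + 1, fun i hi =>
    Nat.lt_succ_of_le (Finset.le_sup (f := id) hi)⟩
  refine ⟨k, Set.disjoint_left.2 fun y hy hyC => ?_⟩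
  rw [mem_cyl_seg] at hy
  refine hsub (fun i hi => ?_) hyC
  rw [hy i (hk i hi)]
  exact (hu i hi).2

/-! ### the code -/

open Classical in
/-- `0` on `C`, otherwise one plus the least `k` such that the cylinder `x|k` misses `C` -/
noncomputable def code (C : Set X) (x : X) : ℕ :=
  if h : x ∉ C ∧ ∃ k, Disjoint (cyl (seg x k)) C then Nat.find h.2 + 1 else 0

theorem code_eq_zero {C : Set X} (hC : IsClosed C) {x : X} : code C x = 0 ↔ x ∈ C := by
  unfold code
  split_ifs with h
  · simp [h.1]
  · simp only [true_iff]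
    by_contra hx
    exact h ⟨hx, exists_seg_disjoint hC hx⟩

theorem code_eq_succ {C : Set X} (_hC : IsClosed C) {x : X} {k : ℕ} :
    code C x = k + 1 ↔ Disjoint (cyl (seg x k)) C ∧ ∀ j < k, ¬ Disjoint (cyl (seg x j)) C := by
  classical
  have hself : ∀ k, x ∈ cyl (seg x k) := fun k => (mem_cyl_seg x x k).2 fun _ _ => rfl
  unfold code
  split_ifs with h
  · constructor
    · intro hk
      have hk' : Nat.find h.2 = k := by omega
      rw [Nat.find_eq_iff] at hk'
      exact hk'
    · rintro hk
      have : Nat.find h.2 = k := by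
        rw [Nat.find_eq_iff]
        exact hk
      omega
  · constructor
    · intro hk
      exact hk.elim
    · rintro ⟨h1, h2⟩
      exfalso
      refine h ⟨fun hx => Set.disjoint_left.1 h1 (hself k) hx, ⟨k, h1⟩⟩

theorem code_congr {C : Set X} (hC : IsClosed C) {x y : X} {k : ℕ}
    (hx : code C x = k + 1) (hxy : ∀ n < k, y n = x n) : code C y = k + 1 := by
  have hseg : ∀ j ≤ k, seg y j = seg x j := by
    intro j hj
    unfold seg
    refine List.map_congr_left fun n hn => ?_
    rw [List.mem_range] at hn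
    exact hxy n (lt_of_lt_of_le hn hj)
  rw [code_eq_succ hC] at hx ⊢
  rw [hseg k le_rfl]
  refine ⟨hx.1, fun j hj => ?_⟩
  rw [hseg j hj.le]
  exact hx.2 j hj

/-- the coding map -/
noncomputable def cmap (C : ℕ → Set X) (x : X) (n : ℕ) : ℕ :=
  Nat.pair (if x n then 1 else 0) (code (C n) x)

/-- the coding map on the refined space -/
noncomputable def cmap' (C : ℕ → Set X) (x : CT C) : ℕ → ℕ := cmap C x

theorem ct_isOpen_cyl (C : ℕ → Set X) (s : List Bool) : @IsOpen (CT C) _ (cyl s) :=
  TopologicalSpace.isOpen_generateFrom_of_mem (Or.inr ⟨s, rfl⟩)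

theorem ct_isOpen_C (C : ℕ → Set X) (i : ℕ) : @IsOpen (CT C) _ (C i) :=
  TopologicalSpace.isOpen_generateFrom_of_mem (Or.inl ⟨i, Or.inl rfl⟩)

theorem ct_isOpen_Cc (C : ℕ → Set X) (i : ℕ) : @IsOpen (CT C) _ (C i)ᶜ :=
  TopologicalSpace.isOpen_generateFrom_of_mem (Or.inl ⟨i, Or.inr rfl⟩)

theorem ct_seg_nhds (C : ℕ → Set X) (x : CT C) (k : ℕ) :
    cyl (seg x k) ∈ @nhds (CT C) _ x :=
  (ct_isOpen_cyl C _).mem_nhds ((mem_cyl_seg x x k).2 fun _ _ => rfl)

theorem continuous_cmap (C : ℕ → Set X) (hC : ∀ i, IsClosed (C i)) :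
    Continuous (cmap' C) := by
  refine continuous_pi fun n => ?_
  -- locally constant
  rw [continuous_iff_continuousAt]
  intro x
  have key : ∀ᶠ y in @nhds (CT C) _ x, cmap' C y n = cmap' C x n := by
    have h1 : ∀ᶠ y in @nhds (CT C) _ x, (show X from y) n = (show X from x) n := by
      filter_upwards [ct_seg_nhds C x (n + 1)] with y hy
      exact (mem_cyl_seg x y (n + 1)).1 hy n (Nat.lt_succ_self n)
    have h2 : ∀ᶠ y in @nhds (CT C) _ x, code (C n) y = code (C n) x := by
      rcases hk : code (C n) x with _ | k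
      · have hx : x ∈ C n := (code_eq_zero (hC n)).1 hk
        filter_upwards [(ct_isOpen_C C n).mem_nhds hx] with y hy
        exact (code_eq_zero (hC n)).2 hy
      · filter_upwards [ct_seg_nhds C x k] with y hy
        exact code_congr (hC n) hk ((mem_cyl_seg x y k).1 hy)
    filter_upwards [h1, h2] with y hy1 hy2
    change cmap C y n = cmap C x n
    unfold cmap
    rw [hy1, hy2]
  exact (Filter.tendsto_pure.2 key).mono_right (pure_le_nhds _)

theorem cmap_bit {C : ℕ → Set X} {x y : X} {n : ℕ} (h : cmap C x n = cmap C y n) :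
    x n = y n := by
  unfold cmap at h
  rw [Nat.pair_eq_pair] at h
  have h1 := h.1
  by_cases hx : x n = true <;> by_cases hy : y n = true
  · rw [hx, hy]
  · simp [hx, hy] at h1
  · simp [hx, hy] at h1
  · rw [Bool.not_eq_true] at hx hy
    rw [hx, hy]

theorem cmap_injective (C : ℕ → Set X) : Function.Injective (cmap' C) := by
  intro x y h
  exact funext fun n => cmap_bit (congrFun h n)

theorem isOpen_agree (u : ℕ → ℕ) (k : ℕ) : IsOpen {v : ℕ → ℕ | ∀ i < k, v i = u i} := by
  have : {v : ℕ → ℕ | ∀ i < k, v i = u i} = ⋂ i : Fin k, {v : ℕ → ℕ | v i = u i} := by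
    ext v
    simp only [mem_iInter, mem_ofPred_eq]
    exact ⟨fun h n => h n n.2, fun h n hn => h ⟨n, hn⟩⟩
  rw [this]
  refine isOpen_iInter_of_finite fun n => ?_
  exact isOpen_coord (n : ℕ) {u n}

theorem isInducing_cmap (C : ℕ → Set X) (hC : ∀ i, IsClosed (C i)) :
    IsInducing (cmap' C) := by
  refine ⟨le_antisymm (continuous_cmap C hC).le_induced ?_⟩
  refine le_generateFrom ?_
  rintro S (⟨i, hS⟩ | ⟨s, rfl⟩)
  · have hz : IsOpen[TopologicalSpace.induced (cmap' C) inferInstance]
        (cmap' C ⁻¹' {v | (Nat.unpair (v i)).2 = 0}) := by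
      refine isOpen_induced ?_
      exact isOpen_coord i {m : ℕ | (Nat.unpair m).2 = 0}
    have hz' : IsOpen[TopologicalSpace.induced (cmap' C) inferInstance]
        (cmap' C ⁻¹' {v | (Nat.unpair (v i)).2 ≠ 0}) := by
      refine isOpen_induced ?_
      exact isOpen_coord i {m : ℕ | (Nat.unpair m).2 ≠ 0}
    rcases hS with rfl | rfl
    · have : cmap' C ⁻¹' {v | (Nat.unpair (v i)).2 = 0} = C i := by
        ext x
        change (Nat.unpair (cmap C x i)).2 = 0 ↔ x ∈ C i
        simp only [cmap, Nat.unpair_pair]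
        exact code_eq_zero (hC i)
      rw [this] at hz
      exact hz
    · have : cmap' C ⁻¹' {v | (Nat.unpair (v i)).2 ≠ 0} = (C i)ᶜ := by
        ext x
        change (Nat.unpair (cmap C x i)).2 ≠ 0 ↔ x ∉ C i
        simp only [cmap, Nat.unpair_pair]
        exact not_congr (code_eq_zero (hC i))
      rw [this] at hz'
      exact hz'
  · have hz : IsOpen[TopologicalSpace.induced (cmap' C) inferInstance]
        (cmap' C ⁻¹' (⋂ n : Fin s.length,
          {v : ℕ → ℕ | (Nat.unpair (v n)).1 = if s[n] then 1 else 0})) := by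
      refine isOpen_induced ?_
      refine isOpen_iInter_of_finite fun n => ?_
      exact isOpen_coord (n : ℕ) {m : ℕ | (Nat.unpair m).1 = if s[n] then 1 else 0}
    have hcyl : cmap' C ⁻¹' (⋂ n : Fin s.length,
          {v : ℕ → ℕ | (Nat.unpair (v n)).1 = if s[n] then 1 else 0}) = cyl s := by
      refine Set.ext fun (x : X) => ?_
      have h0 : (cmap C x ∈ ⋂ n : Fin s.length,
          {v : ℕ → ℕ | (Nat.unpair (v n)).1 = if s[n] then 1 else 0}) ↔
          (∀ n : Fin s.length, (Nat.unpair (cmap C x n)).1 = if s[n] then 1 else 0) := by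
        rw [mem_iInter]
        rfl
      refine h0.trans (Iff.trans ?_ (mem_cyl_iff s x).symm)
      simp only [cmap, Nat.unpair_pair]
      constructor
      · intro h n hn
        have := h ⟨n, hn⟩
        by_cases hx : x n = true <;> by_cases hy : s[n] = true
        · rw [hx, hy]
        · simp [hx, hy] at this
        · simp [hx, hy] at this
        · rw [Bool.not_eq_true] at hx hy
          rw [hx, hy]
      · intro h n
        rw [h n n.2]
        rfl
    rw [hcyl] at hz
    exact hz

theorem isClosed_range_cmap (C : ℕ → Set X) (hC : ∀ i, IsClosed (C i)) :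
    IsClosed (range (cmap' C)) := by
  rw [← isSeqClosed_iff_isClosed]
  intro u v hu huv
  choose x hx using hu
  replace hx : ∀ m, cmap C (x m) = u m := hx
  -- the limit point
  have hev : ∀ n, ∀ᶠ m in Filter.atTop, u m n = v n := by
    intro n
    have := (tendsto_pi_nhds.1 huv) n
    rw [nhds_discrete, Filter.tendsto_pure] at this
    exact this
  have hevk : ∀ k, ∀ᶠ m in Filter.atTop, ∀ n < k, u m n = v n := by
    intro k
    exact (Filter.eventually_all_finite (Set.finite_lt_nat k)).2 fun n _ => hev n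
  let y : X := fun n => decide ((Nat.unpair (v n)).1 = 1)
  have hy : ∀ m n, u m n = v n → (show X from x m) n = y n := by
    intro m n h
    have h1 : (Nat.unpair (v n)).1 = if (show X from x m) n then 1 else 0 := by
      rw [← h, ← hx m]
      simp [cmap]
    by_cases hb : (show X from x m) n = true
    · simp [y, h1, hb]
    · rw [Bool.not_eq_true] at hb
      simp [y, h1, hb]
  refine ⟨y, funext fun n => ?_⟩
  -- code
  have hcode : code (C n) y = (Nat.unpair (v n)).2 := by
    rcases hk : (Nat.unpair (v n)).2 with _ | k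
    · rw [code_eq_zero (hC n)]
      by_contra hyC
      obtain ⟨k, hk'⟩ := exists_seg_disjoint (hC n) hyC
      obtain ⟨m, hm⟩ := ((hevk k).and (hev n)).exists
      have h1 : code (C n) (x m) = 0 := by
        have : (Nat.unpair (u m n)).2 = code (C n) (x m) := by
          rw [← hx m]
          simp [cmap]
        rw [← this, hm.2, hk]
      replace h1 : (show X from x m) ∈ C n := (code_eq_zero (hC n)).1 h1
      refine Set.disjoint_left.1 hk' ((mem_cyl_seg y _ k).2 fun i hi => ?_) h1
      exact hy m i (hm.1 i hi)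
    · obtain ⟨m, hm⟩ := ((hevk k).and (hev n)).exists
      have h1 : code (C n) (x m) = k + 1 := by
        have : (Nat.unpair (u m n)).2 = code (C n) (x m) := by
          rw [← hx m]
          simp [cmap]
        rw [← this, hm.2, hk]
      refine code_congr (hC n) h1 fun i hi => ?_
      exact (hy m i (hm.1 i hi)).symm
  obtain ⟨m, hm⟩ := (hev n).exists
  have h1 : (Nat.unpair (v n)).1 = if y n then 1 else 0 := by
    rw [← hy m n hm, ← hm, ← hx m]
    simp [cmap]
  change Nat.pair (if y n then 1 else 0) (code (C n) y) = v n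
  rw [hcode, ← h1, Nat.pair_unpair]

theorem cmap_closedEmbedding (C : ℕ → Set X) (hC : ∀ i, IsClosed (C i)) :
    IsClosedEmbedding (cmap' C) :=
  ⟨⟨isInducing_cmap C hC, cmap_injective C⟩, isClosed_range_cmap C hC⟩

theorem ct_closedEmbedding (C : ℕ → Set X) (hC : ∀ i, IsClosed (C i)) :
    ∃ c : CT C → ℕ → ℕ, Topology.IsClosedEmbedding c :=
  ⟨cmap' C, cmap_closedEmbedding C hC⟩

/-! ### open sets are `F_σ` -/

theorem fsig_iff (S : Set X) : Fsig S ↔ IsGδ Sᶜ := by
  rw [isGδ_iff_eq_iInter_nat]
  constructor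
  · rintro ⟨F, hF, rfl⟩
    exact ⟨fun n => (F n)ᶜ, fun n => (hF n).isOpen_compl, by rw [compl_iUnion]⟩
  · rintro ⟨f, hf, h⟩
    refine ⟨fun n => (f n)ᶜ, fun n => (hf n).isClosed_compl, ?_⟩
    rw [← compl_compl S, h, compl_iInter]

theorem fsig_iUnion {ι : Sort*} [Countable ι] {S : ι → Set X} (h : ∀ i, Fsig (S i)) :
    Fsig (⋃ i, S i) := by
  rw [fsig_iff, compl_iUnion]
  exact IsGδ.iInter fun i => (fsig_iff _).1 (h i)

theorem fsig_inter {S T : Set X} (hS : Fsig S) (hT : Fsig T) : Fsig (S ∩ T) := by
  rw [fsig_iff, compl_inter]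
  exact ((fsig_iff _).1 hS).union ((fsig_iff _).1 hT)

theorem fsig_of_isOpen {S : Set X} (h : IsOpen S) : Fsig S := by
  rw [fsig_iff]
  exact h.isClosed_compl.isGδ

theorem fsig_of_isClosed {S : Set X} (h : IsClosed S) : Fsig S := by
  rw [fsig_iff]
  exact h.isOpen_compl.isGδ

theorem fsig_cmap_eq (C : ℕ → Set X) (hC : ∀ i, IsClosed (C i)) (n m : ℕ) :
    Fsig {x : X | cmap C x n = m} := by
  have h1 : {x : X | cmap C x n = m} =
      {x : X | (if x n then 1 else 0) = (Nat.unpair m).1} ∩
        {x : X | code (C n) x = (Nat.unpair m).2} := by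
    ext x
    simp only [mem_inter_iff, mem_ofPred_eq, cmap]
    constructor
    · intro h
      rw [← h]
      simp
    · rintro ⟨h1, h2⟩
      rw [h1, h2, Nat.pair_unpair]
  rw [h1]
  refine fsig_inter (fsig_of_isOpen ?_) ?_
  · exact isOpen_coord n {b : Bool | (if b then 1 else 0) = (Nat.unpair m).1}
  · rcases (Nat.unpair m).2 with _ | k
    · have : {x : X | code (C n) x = 0} = C n := by
        ext x
        exact code_eq_zero (hC n)
      rw [this]
      exact fsig_of_isClosed (hC n)
    · refine fsig_of_isOpen ?_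
      rw [isOpen_iff_mem_nhds]
      intro x hx
      filter_upwards [(isClopen_cyl (seg x k)).isOpen.mem_nhds
        ((mem_cyl_seg x x k).2 fun _ _ => rfl)] with y hy
      exact code_congr (hC n) hx ((mem_cyl_seg x y k).1 hy)

theorem fsig_agree (C : ℕ → Set X) (hC : ∀ i, IsClosed (C i)) (s : List ℕ) :
    Fsig {x : X | ∀ i, ∀ hi : i < s.length, cmap C x i = s[i]} := by
  induction s using List.reverseRecOn with
  | nil =>
    have : {x : X | ∀ i, ∀ hi : i < ([] : List ℕ).length, cmap C x i = ([] : List ℕ)[i]} =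
        univ := by
      ext x
      simp
    rw [this]
    exact fsig_of_isOpen isOpen_univ
  | append_singleton s m ih =>
    have : {x : X | ∀ i, ∀ hi : i < (s ++ [m]).length, cmap C x i = (s ++ [m])[i]} =
        {x : X | ∀ i, ∀ hi : i < s.length, cmap C x i = s[i]} ∩
          {x : X | cmap C x s.length = m} := by
      ext x
      simp only [mem_inter_iff, mem_ofPred_eq]
      constructor
      · intro h
        refine ⟨fun i hi => ?_, ?_⟩
        · have := h i (by simp; omega)
          rw [this, List.getElem_append_left hi]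
        · have := h s.length (by simp)
          rw [this]
          simp
      · rintro ⟨h1, h2⟩ i hi
        by_cases hi' : i < s.length
        · rw [List.getElem_append_left hi']
          exact h1 i hi'
        · have : i = s.length := by
            simp at hi
            omega
          subst this
          simpa using h2
    rw [this]
    exact fsig_inter ih (fsig_cmap_eq C hC _ _)

/-- basic neighbourhoods in the Baire space -/
theorem exists_agree_subset {V : Set (ℕ → ℕ)} (hV : IsOpen V) {u : ℕ → ℕ} (hu : u ∈ V) :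
    ∃ k, ∀ v : ℕ → ℕ, (∀ i < k, v i = u i) → v ∈ V := by
  rw [isOpen_pi_iff] at hV
  obtain ⟨I, w, hw, hsub⟩ := hV u hu
  refine ⟨I.sup id + 1, fun v hv => hsub fun i hi => ?_⟩
  rw [hv i (Nat.lt_succ_of_le (Finset.le_sup (f := id) hi))]
  exact (hw i hi).2

theorem ct_open_Fsig (C : ℕ → Set X) (hC : ∀ i, IsClosed (C i)) (U : Set (CT C))
    (hU : IsOpen U) : Fsig (U : Set X) := by
  obtain ⟨V, hV, rfl⟩ := (isInducing_cmap C hC).isOpen_iff.1 hU
  have : {x : X | cmap C x ∈ V} = ⋃ s : {s : List ℕ //
      ∀ v : ℕ → ℕ, (∀ i, ∀ hi : i < s.length, v i = s[i]) → v ∈ V},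
        {x : X | ∀ i, ∀ hi : i < s.1.length, cmap C x i = s.1[i]} := by
    ext x
    simp only [mem_iUnion, mem_ofPred_eq]
    constructor
    · intro hx
      obtain ⟨k, hk⟩ := exists_agree_subset hV hx
      refine ⟨⟨(List.range k).map (cmap C x), fun v hv => hk v fun i hi => ?_⟩, fun i hi => ?_⟩
      · have := hv i (by simpa using hi)
        simpa using this
      · simp
    · rintro ⟨s, hs⟩
      exact s.2 _ hs
  change Fsig {x : X | cmap C x ∈ V}
  rw [this]
  exact fsig_iUnion fun s => fsig_agree C hC s.1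

/-- a countable clopen base given by finite agreement patterns -/
theorem ct_base (C : ℕ → Set X) (hC : ∀ i, IsClosed (C i)) :
    ∃ U : ℕ → Set (CT C), (∀ i, IsClopen (U i)) ∧ ∀ (O : Set (CT C)) (y : CT C), IsOpen O → y ∈ O →
      ∃ k : ℕ, ∀ z, (∀ i < k, (z ∈ U i ↔ y ∈ U i)) → z ∈ O := by
  refine ⟨fun n => {z | cmap' C z (Nat.unpair n).1 = (Nat.unpair n).2}, fun n => ?_, ?_⟩
  · exact (isClopen_discrete {(Nat.unpair n).2}).preimage
      ((continuous_apply (Nat.unpair n).1).comp (continuous_cmap C hC))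
  · intro O y hO hy
    obtain ⟨V, hV, rfl⟩ := (isInducing_cmap C hC).isOpen_iff.1 hO
    obtain ⟨k, hk⟩ := exists_agree_subset hV hy
    refine ⟨(Finset.range k).sup (fun i => Nat.pair i (cmap' C y i)) + 1, fun z hz => ?_⟩
    refine hk _ fun i hi => ?_
    have h1 := hz (Nat.pair i (cmap' C y i)) (Nat.lt_succ_of_le
      (Finset.le_sup (f := fun i => Nat.pair i (cmap' C y i)) (Finset.mem_range.2 hi)))
    simp only [mem_ofPred_eq, Nat.unpair_pair, iff_true] at h1
    exact h1

end TuringBaire
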