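import Mathlib

/-!
# MP_a48249_lc : common definitions

`Ctx` is the abstract list of properties of Turing equivalence that the topological
construction uses.  `X` is Cantor space with its usual topology.
-/

namespace TuringBaire

open Set

/-- Cantor space (usual product topology). -/
abbrev X := ℕ → Bool

/-- prepend a finite string -/
def pre : List Bool → X → X
  | [], x => x
  | b :: s, x => fun n => Nat.casesOn n b (pre s x)

/-- The cylinder of a finite string. -/
def cyl (s : List Bool) : Set X := range (pre s)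

/-- Abstract properties of Turing equivalence used in the construction. -/
structure Ctx where
  E : X → X → Prop
  equiv : Equivalence E
  /-- computable embeddings `X → X` with computable inverse -/
  R : Set (X → X)
  R_countable : R.Countable
  R_cont : ∀ r ∈ R, Continuous r
  R_inj : ∀ r ∈ R, Function.Injective r
  R_E : ∀ r ∈ R, ∀ x, E x (r x)
  R_comp : ∀ f ∈ R, ∀ g ∈ R, f ∘ g ∈ R
  R_pre : ∀ s : List Bool, pre s ∈ R
  R_div : ∀ f ∈ R, ∀ g ∈ R, range g ⊆ range f → ∃ k ∈ R, g = f ∘ k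
  /-- the partial injections generating `E` -/
  D : ℕ → Set X
  h : ℕ → X → X
  D_Gδ : ∀ e, IsGδ (D e)
  h_cont : ∀ e, ContinuousOn (h e) (D e)
  h_E : ∀ e, ∀ x ∈ D e, E x (h e x)
  h_cover : ∀ x y, E x y → ∃ e, x ∈ D e ∧ h e x = y
  h_inv : ∀ e, ∃ e', (∀ x ∈ D e, h e x ∈ D e' ∧ h e' (h e x) = x) ∧
    (∀ y ∈ D e', h e' y ∈ D e ∧ h e (h e' y) = y)
  R_h : ∀ g ∈ R, ∀ e, ∃ p ∈ R, (∀ x, g (p x) ∉ D e) ∨
    ((∀ x, g (p x) ∈ D e) ∧ h e ∘ g ∘ p ∈ R)

/-- A set is `F_σ` for the usual topology. -/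
def Fsig (S : Set X) : Prop := ∃ F : ℕ → Set X, (∀ n, IsClosed (F n)) ∧ S = ⋃ n, F n

end TuringBaire
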