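import Pool.Agent.TuringBaire.Carve

/-!
# The E-step: cloning all ordinary classes into an end
-/

namespace TuringBaire.Con

open Set Topology

/-- the clones of the charts in `M` -/
def clo (Mj : Set (X → X)) (f : X → X) (M : Set (X → X)) : Set (X → X) :=
  {g | ∃ a ∈ Mj, ∃ v ∈ M, g = a ∘ f ∘ v}

theorem clo_mono {Mj : Set (X → X)} {f : X → X} {M M' : Set (X → X)} (h : M ⊆ M') :
    clo Mj f M ⊆ clo Mj f M' := by
  rintro g ⟨a, ha, v, hv, rfl⟩
  exact ⟨a, ha, v, h hv, rfl⟩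

theorem clo_finite {Mj : Set (X → X)} {f : X → X} {M : Set (X → X)} (h1 : Mj.Finite)
    (h2 : M.Finite) : (clo Mj f M).Finite := by
  have : clo Mj f M = ⋃ a ∈ Mj, (fun v : X → X => a ∘ f ∘ v) '' M := by
    ext g
    simp only [clo, mem_ofPred_eq, mem_iUnion, mem_image, exists_prop]
    constructor
    · rintro ⟨a, ha, v, hv, rfl⟩; exact ⟨a, ha, v, hv, rfl⟩
    · rintro ⟨a, ha, v, hv, rfl⟩; exact ⟨a, ha, v, hv, rfl⟩
  rw [this]
  exact h1.biUnion fun a _ => h2.image _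

/-- the new pieces -/
def eN (Mj : Set (X → X)) (f : X → X) (zf : X) : Set Pc := (fun u : X → X => ((u ∘ f, u zf) : Pc)) '' Mj

/-- the new state -/
def St.est (S : St) (n j : ℕ) (Bj : Set X) (Mj : Set (X → X)) (f : X → X) (zf : X) (m : ℕ) :
    St where
  Cl k := match k with
    | none => (fun c : Cls => ((c.1, c.2 ∪ clo Mj f c.2) : Cls)) '' S.Cl none ∪
        (fun c : Cls => ((c.1, clo Mj f c.2) : Cls)) '' (⋃ i, S.Cl (some i)) ∪
        {((Bj \ N0 (m + 1)) \ range f, Mj)}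
    | some i => if i = j then {(Bj ∩ N0 (m + 1), Mj)} else S.Cl (some i)
  hist := Function.update S.hist n (eN Mj f zf)
  lvl := Function.update S.lvl j (m + 1)
  pend := S.pend ∪ clo Mj f S.pend

section

variable {C : Ctx} {Q : ℕ → Set X} {n s j m : ℕ} {S : St} {Bj : Set X} {Mj : Set (X → X)}
  {f : X → X} {zf : X}

theorem est_none : (S.est n j Bj Mj f zf m).Cl none =
    (fun c : Cls => ((c.1, c.2 ∪ clo Mj f c.2) : Cls)) '' S.Cl none ∪
        (fun c : Cls => ((c.1, clo Mj f c.2) : Cls)) '' (⋃ i, S.Cl (some i)) ∪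
        {((Bj \ N0 (m + 1)) \ range f, Mj)} := rfl

theorem est_self : (S.est n j Bj Mj f zf m).Cl (some j) = {(Bj ∩ N0 (m + 1), Mj)} := if_pos rfl
theorem est_ne {i : ℕ} (h : i ≠ j) : (S.est n j Bj Mj f zf m).Cl (some i) = S.Cl (some i) :=
  if_neg h

theorem est_mem_a {B : Set X} {M : Set (X → X)} (h : (B, M) ∈ S.Cl none) :
    (B, M ∪ clo Mj f M) ∈ (S.est n j Bj Mj f zf m).Cl none := by
  rw [est_none]; exact Or.inl (Or.inl ⟨(B, M), h, rfl⟩)

theorem est_mem_b {B : Set X} {M : Set (X → X)} {i : ℕ} (h : (B, M) ∈ S.Cl (some i)) :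
    (B, clo Mj f M) ∈ (S.est n j Bj Mj f zf m).Cl none := by
  rw [est_none]; exact Or.inl (Or.inr ⟨(B, M), mem_iUnion.2 ⟨i, h⟩, rfl⟩)

theorem est_mem_c :
    ((Bj \ N0 (m + 1)) \ range f, Mj) ∈ (S.est n j Bj Mj f zf m).Cl none := by
  rw [est_none]; exact Or.inr rfl

theorem est_mem_d : (Bj ∩ N0 (m + 1), Mj) ∈ (S.est n j Bj Mj f zf m).Cl (some j) := by
  rw [est_self]; rfl

theorem est_src {k : Option ℕ} {B : Set X} {M : Set (X → X)}
    (h : (B, M) ∈ (S.est n j Bj Mj f zf m).Cl k) :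
    (k = none ∧ ∃ M0, (B, M0) ∈ S.Cl none ∧ M = M0 ∪ clo Mj f M0) ∨
    (k = none ∧ ∃ i M0, (B, M0) ∈ S.Cl (some i) ∧ M = clo Mj f M0) ∨
    (k = none ∧ B = (Bj \ N0 (m + 1)) \ range f ∧ M = Mj) ∨
    (k = some j ∧ B = Bj ∩ N0 (m + 1) ∧ M = Mj) ∨
    (∃ i, i ≠ j ∧ k = some i ∧ (B, M) ∈ S.Cl (some i)) := by
  cases k with
  | none =>
    rw [est_none] at h
    rcases h with (⟨⟨B0, M0⟩, h0, h1⟩ | ⟨⟨B0, M0⟩, h0, h1⟩) | h
    · rw [Prod.mk.injEq] at h1
      obtain ⟨rfl, rfl⟩ := h1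
      exact Or.inl ⟨rfl, M0, h0, rfl⟩
    · rw [Prod.mk.injEq] at h1
      obtain ⟨rfl, rfl⟩ := h1
      obtain ⟨i, hi⟩ := mem_iUnion.1 h0
      exact Or.inr (Or.inl ⟨rfl, i, M0, hi, rfl⟩)
    · rw [mem_singleton_iff, Prod.mk.injEq] at h
      exact Or.inr (Or.inr (Or.inl ⟨rfl, h.1, h.2⟩))
  | some i =>
    by_cases hi : i = j
    · subst hi
      rw [est_self, mem_singleton_iff, Prod.mk.injEq] at h
      exact Or.inr (Or.inr (Or.inr (Or.inl ⟨rfl, h.1, h.2⟩)))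
    · rw [est_ne hi] at h
      exact Or.inr (Or.inr (Or.inr (Or.inr ⟨i, hi, rfl, h⟩)))

open Classical in
/-- the class of an old chart in the new system -/
noncomputable def Fold (Bj : Set X) (Mj : Set (X → X)) (f : X → X) (j m : ℕ) (k : Option ℕ)
    (B : Set X) (M : Set (X → X)) (y : X) : Option ℕ × Cls :=
  match k with
  | none => (none, B, M ∪ clo Mj f M)
  | some i => if i = j then
      (if y ∈ N0 (m + 1) then (some j, Bj ∩ N0 (m + 1), Mj)
        else (none, (Bj \ N0 (m + 1)) \ range f, Mj))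
      else (some i, B, M)

/-- the class of a cloned chart -/
def Fcl (Mj : Set (X → X)) (f : X → X) (k : Option ℕ) (B : Set X) (M : Set (X → X)) :
    Option ℕ × Cls :=
  match k with
  | none => (none, B, M ∪ clo Mj f M)
  | some _ => (none, B, clo Mj f M)

/-- hypotheses of the E-step -/
structure EHyp (C : Ctx) (S : St) (n j : ℕ) (Bj : Set X) (Mj : Set (X → X)) (f : X → X)
    (zf : X) (m : ℕ) : Prop where
  cls : S.Cl (some j) = {(Bj, Mj)}
  fR : f ∈ C.R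
  rf : range f ⊆ cyl (ann m)
  rB : range f ⊆ Bj
  zB : zf ∈ Bj
  zf_ne : zf ∉ range f

theorem EHyp.loc (H : EHyp C S n j Bj Mj f zf m) {a : X → X} (ha : a ∈ Mj) (x : X) :
    Loc S (some j) Bj Mj a (f x) (a (f x)) :=
  ⟨by rw [H.cls]; rfl, ha, H.rB (mem_range_self _), rfl⟩

theorem mem_WW_eN {x : X} : x ∈ WW (eN Mj f zf) ↔ ∃ a ∈ Mj, ∃ x0, a (f x0) = x := by
  rw [mem_WW]
  constructor
  · rintro ⟨p, ⟨a, ha, rfl⟩, x0, hx0⟩
    exact ⟨a, ha, x0, hx0⟩
  · rintro ⟨a, ha, x0, hx0⟩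
    exact ⟨_, ⟨a, ha, rfl⟩, x0, hx0⟩

theorem eN_disj (hI : Inv C Q n s S) (H : EHyp C S n j Bj Mj f zf m) :
    ∀ p ∈ eN Mj f zf, ∀ q ∈ eN Mj f zf, p ≠ q → Disjoint (range p.1) (range q.1) := by
  rintro _ ⟨a, ha, rfl⟩ _ ⟨b, hb, rfl⟩ hpq
  rw [Set.disjoint_left]
  rintro x ⟨x0, hx0⟩ ⟨x1, hx1⟩
  have h1 := H.loc ha x0
  have h2 := H.loc hb x1
  have hx0' : a (f x0) = x := hx0
  have hx1' : b (f x1) = x := hx1
  rw [hx0'] at h1
  rw [hx1'] at h2
  obtain ⟨-, -, -, rfl, -⟩ := hI.uniq _ _ _ _ _ _ _ _ _ _ _ h1 h2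
  exact hpq rfl

/-- location in the new system, old charts -/
theorem est_loc_old (hI : Inv C Q n s S) (H : EHyp C S n j Bj Mj f zf m) {k : Option ℕ}
    {B : Set X} {M : Set (X → X)} {u : X → X} {y x : X} (h : Loc S k B M u y x)
    (hx : x ∉ WW (eN Mj f zf)) :
    Loc (S.est n j Bj Mj f zf m) (Fold Bj Mj f j m k B M y).1 (Fold Bj Mj f j m k B M y).2.1
      (Fold Bj Mj f j m k B M y).2.2 u y x := by
  obtain ⟨h1, h2, h3, h4⟩ := h
  cases k with
  | none => exact ⟨est_mem_a h1, Or.inl h2, h3, h4⟩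
  | some i =>
    by_cases hi : i = j
    · subst hi
      rw [H.cls, mem_singleton_iff, Prod.mk.injEq] at h1
      obtain ⟨rfl, rfl⟩ := h1
      by_cases hy : y ∈ N0 (m + 1)
      · simp only [Fold, if_pos hy, if_true]
        exact ⟨est_mem_d, h2, ⟨h3, hy⟩, h4⟩
      · simp only [Fold, if_neg hy, if_true]
        refine ⟨est_mem_c, h2, ⟨⟨h3, hy⟩, ?_⟩, h4⟩
        rintro ⟨x0, rfl⟩
        exact hx (mem_WW_eN.2 ⟨u, h2, x0, h4⟩)
    · simp only [Fold, if_neg hi]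
      refine ⟨?_, h2, h3, h4⟩
      rw [est_ne hi]; exact h1

theorem est_loc_cl {k : Option ℕ}
    {B : Set X} {M : Set (X → X)} {a v : X → X} {y : X} (h1 : (B, M) ∈ S.Cl k) (h2 : v ∈ M)
    (h3 : y ∈ B) (ha : a ∈ Mj) :
    Loc (S.est n j Bj Mj f zf m) (Fcl Mj f k B M).1 (Fcl Mj f k B M).2.1
      (Fcl Mj f k B M).2.2 (a ∘ f ∘ v) y (a (f (v y))) := by
  cases k with
  | none => exact ⟨est_mem_a h1, Or.inr ⟨a, ha, v, h2, rfl⟩, h3, rfl⟩
  | some i => exact ⟨est_mem_b h1, ⟨a, ha, v, h2, rfl⟩, h3, rfl⟩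

theorem est_loc_inv (hI : Inv C Q n s S) (H : EHyp C S n j Bj Mj f zf m) {k : Option ℕ}
    {B : Set X} {M : Set (X → X)} {u : X → X} {y x : X}
    (h : Loc (S.est n j Bj Mj f zf m) k B M u y x) :
    (∃ k0 B0 M0, Loc S k0 B0 M0 u y x ∧ x ∉ WW (eN Mj f zf) ∧
      (k, B, M) = Fold Bj Mj f j m k0 B0 M0 y) ∨
    (∃ k0 B0 M0 v a, (B0, M0) ∈ S.Cl k0 ∧ v ∈ M0 ∧ y ∈ B0 ∧ a ∈ Mj ∧ u = a ∘ f ∘ v ∧
      (k, B, M) = Fcl Mj f k0 B0 M0) := by
  obtain ⟨h1, h2, h3, h4⟩ := h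
  -- a location which is not in end `j` is not in the new pieces
  have hW : ∀ k0 B0 M0, k0 ≠ some j → Loc S k0 B0 M0 u y x → x ∉ WW (eN Mj f zf) := by
    intro k0 B0 M0 hk hL hx
    obtain ⟨a, ha, x0, hx0⟩ := mem_WW_eN.1 hx
    have hl := H.loc ha x0
    rw [hx0] at hl
    exact hk (hI.uniq _ _ _ _ _ _ _ _ _ _ _ hL hl).1
  have hWj : Loc S (some j) Bj Mj u y x → y ∉ range f → x ∉ WW (eN Mj f zf) := by
    intro hL hy hx
    obtain ⟨a, ha, x0, hx0⟩ := mem_WW_eN.1 hx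
    have hl := H.loc ha x0
    rw [hx0] at hl
    exact hy ⟨x0, (hI.uniq _ _ _ _ _ _ _ _ _ _ _ hL hl).2.2.2.2.symm⟩
  rcases est_src h1 with ⟨rfl, M0, h5, rfl⟩ | ⟨rfl, i, M0, h5, rfl⟩ | ⟨rfl, rfl, rfl⟩ |
    ⟨rfl, rfl, rfl⟩ | ⟨i, hi, rfl, h5⟩
  · rcases h2 with h2 | ⟨a, ha, v, hv, rfl⟩
    · exact Or.inl ⟨none, B, M0, ⟨h5, h2, h3, h4⟩, hW _ _ _ (by simp) ⟨h5, h2, h3, h4⟩, rfl⟩
    · exact Or.inr ⟨none, B, M0, v, a, h5, hv, h3, ha, rfl, rfl⟩
  · obtain ⟨a, ha, v, hv, rfl⟩ := h2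
    exact Or.inr ⟨some i, B, M0, v, a, h5, hv, h3, ha, rfl, rfl⟩
  · have hL : Loc S (some j) Bj M u y x := ⟨by rw [H.cls]; rfl, h2, h3.1.1, h4⟩
    refine Or.inl ⟨some j, Bj, M, hL, hWj hL h3.2, ?_⟩
    simp only [Fold, if_neg h3.1.2, if_true]
  · have hL : Loc S (some j) Bj M u y x := ⟨by rw [H.cls]; rfl, h2, h3.1, h4⟩
    refine Or.inl ⟨some j, Bj, M, hL, hWj hL ?_, ?_⟩
    · rintro hy
      have h6 := (mem_ann.1 (H.rf hy)).2
      have h7 := h3.2 m (by omega)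
      rw [h6] at h7
      exact absurd h7 (by simp)
    · simp only [Fold, if_pos h3.2, if_true]
  · refine Or.inl ⟨some i, B, M, ⟨h5, h2, h3, h4⟩, hW _ _ _ (by simpa using hi)
      ⟨h5, h2, h3, h4⟩, ?_⟩
    simp only [Fold, if_neg hi]

theorem inv_est (hQ : QFam C Q) (hI : Inv C Q n s S) (hj : j < s)
    (H : EHyp C S n j Bj Mj f zf m) :
    Inv C Q (n + 1) s (S.est n j Bj Mj f zf m) := by
  have hcj : (Bj, Mj) ∈ S.Cl (some j) := by rw [H.cls]; rfl
  have hMjf := hI.finM _ _ _ hcj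
  have hMjR := hI.subR _ _ _ hcj
  obtain ⟨e1, e2, e3, e4, Msj, e5, e6⟩ := hI.endp j Bj Mj hcj
  have hopc : IsOpen ((Bj \ N0 (m + 1)) \ range f) :=
    (e1.sdiff (isClosed_N0 _)).sdiff (isClosed_range_R H.fR)
  refine
  { fin := ?_, finM := ?_, subR := ?_, emp := ?_, endU := ?_, cover := ?_, uniq := ?_, ba := ?_,
    nbr := ?_, endp := ?_, lvl0 := ?_, histfin := ?_, old := ?_ }
  · intro k
    cases k with
    | none =>
      rw [est_none]
      refine (((hI.fin _).image _).union (Set.Finite.image _ ?_)).union (finite_singleton _)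
      have : (⋃ i, S.Cl (some i)) ⊆ ⋃ i ∈ Set.Iio s, S.Cl (some i) := by
        intro c hc
        obtain ⟨i, hi⟩ := mem_iUnion.1 hc
        simp only [mem_iUnion]
        refine ⟨i, ?_, hi⟩
        by_contra hcon
        rw [hI.emp i (not_lt.1 hcon)] at hi
        exact notMem_empty _ hi
      exact ((Set.finite_Iio s).biUnion fun i _ => hI.fin _).subset this
    | some i =>
      by_cases hi : i = j
      · subst hi; rw [est_self]; exact finite_singleton _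
      · rw [est_ne hi]; exact hI.fin _
  · intro k B M h
    rcases est_src h with ⟨_, M0, h5, rfl⟩ | ⟨_, i, M0, h5, rfl⟩ | ⟨_, _, rfl⟩ |
      ⟨_, _, rfl⟩ | ⟨i, hi, _, h5⟩
    · exact (hI.finM _ _ _ h5).union (clo_finite hMjf (hI.finM _ _ _ h5))
    · exact clo_finite hMjf (hI.finM _ _ _ h5)
    · exact hMjf
    · exact hMjf
    · exact hI.finM _ _ _ h5
  · have hcl : ∀ M0, M0 ⊆ C.R → clo Mj f M0 ⊆ C.R := by
      rintro M0 h g ⟨a, ha, v, hv, rfl⟩
      exact C.R_comp _ (hMjR ha) _ (C.R_comp _ H.fR _ (h hv))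
    intro k B M h
    rcases est_src h with ⟨_, M0, h5, rfl⟩ | ⟨_, i, M0, h5, rfl⟩ | ⟨_, _, rfl⟩ |
      ⟨_, _, rfl⟩ | ⟨i, hi, _, h5⟩
    · exact union_subset (hI.subR _ _ _ h5) (hcl _ (hI.subR _ _ _ h5))
    · exact hcl _ (hI.subR _ _ _ h5)
    · exact hMjR
    · exact hMjR
    · exact hI.subR _ _ _ h5
  · intro i hi
    rw [est_ne (by omega)]; exact hI.emp i hi
  · intro i hi
    by_cases hij : i = j
    · subst hij; exact ⟨_, est_self⟩
    · rw [est_ne hij]; exact hI.endU i hi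
  · intro x
    by_cases hx : x ∈ WW (eN Mj f zf)
    · obtain ⟨a, ha, x0, hx0⟩ := mem_WW_eN.1 hx
      obtain ⟨k, B, M, v, y, h1, h2, h3, h4⟩ := hI.cover x0
      have := est_loc_cl (S := S) (n := n) (j := j) (Bj := Bj) (Mj := Mj) (f := f) (zf := zf)
        (m := m) h1 h2 h3 ha
      rw [h4, hx0] at this
      exact ⟨_, _, _, _, _, this⟩
    · obtain ⟨k, B, M, u, y, h⟩ := hI.cover x
      exact ⟨_, _, _, _, _, est_loc_old hI H h hx⟩
  · intro x k B M u y k' B' M' u' y' h h'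
    rcases est_loc_inv hI H h with ⟨k0, B0, M0, a1, a2, a3⟩ |
        ⟨k0, B0, M0, v, a, a1, a2, a3, a4, rfl, a5⟩ <;>
      rcases est_loc_inv hI H h' with ⟨k0', B0', M0', b1, b2, b3⟩ |
        ⟨k0', B0', M0', v', a', b1, b2, b3, b4, rfl, b5⟩
    · obtain ⟨rfl, rfl, rfl, rfl, rfl⟩ := hI.uniq _ _ _ _ _ _ _ _ _ _ _ a1 b1
      have := a3.trans b3.symm
      rw [Prod.mk.injEq, Prod.mk.injEq] at this
      exact ⟨this.1, this.2.1, this.2.2, rfl, rfl⟩
    · exact absurd (mem_WW_eN.2 ⟨a', b4, v' y', h'.2.2.2⟩) a2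
    · exact absurd (mem_WW_eN.2 ⟨a, a4, v y, h.2.2.2⟩) b2
    · have hx1 : a (f (v y)) = x := h.2.2.2
      have hx2 : a' (f (v' y')) = x := h'.2.2.2
      have l1 := H.loc a4 (v y)
      have l2 := H.loc b4 (v' y')
      rw [hx1] at l1
      rw [hx2] at l2
      obtain ⟨-, -, -, rfl, hff⟩ := hI.uniq _ _ _ _ _ _ _ _ _ _ _ l1 l2
      have hvv := C.R_inj f H.fR hff
      obtain ⟨rfl, rfl, rfl, rfl, rfl⟩ := hI.uniq (v y) _ _ _ _ _ _ _ _ _ _
        ⟨a1, a2, a3, rfl⟩ ⟨b1, b2, b3, hvv.symm⟩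
      have := a5.trans b5.symm
      rw [Prod.mk.injEq, Prod.mk.injEq] at this
      exact ⟨this.1, this.2.1, this.2.2, rfl, rfl⟩
  · intro k B M h
    rcases est_src h with ⟨_, M0, h5, rfl⟩ | ⟨_, i, M0, h5, rfl⟩ | ⟨_, rfl, rfl⟩ |
      ⟨_, rfl, rfl⟩ | ⟨i, hi, _, h5⟩
    · exact hI.ba _ _ _ h5
    · exact hI.ba _ _ _ h5
    · exact ((hI.ba _ _ _ hcj).diff (BA.ofN0 hQ _)).diff (BA.ofRange hQ H.fR)
    · exact (hI.ba _ _ _ hcj).inter (BA.ofN0 hQ _)
    · exact hI.ba _ _ _ h5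
  · intro k B M h u hu y hy
    have hopen : IsOpen B → ∃ k' B' M', (B', M') ∈ (S.est n j Bj Mj f zf m).Cl k' ∧ u ∈ M' ∧
        M' ⊆ M ∧ B' ∪ {y} ∈ 𝓝 y := fun ho => ⟨k, B, M, h, hu, subset_rfl,
          Filter.mem_of_superset (ho.mem_nhds hy) subset_union_left⟩
    rcases est_src h with ⟨rfl, M0, h5, rfl⟩ | ⟨rfl, i, M0, h5, rfl⟩ | ⟨rfl, rfl, rfl⟩ |
      ⟨rfl, rfl, rfl⟩ | ⟨i, hi, rfl, h5⟩
    · rcases hu with hu | ⟨a, ha, v, hv, rfl⟩
      · obtain ⟨k', B', M', h1, h2, h3, h4⟩ := hI.nbr _ _ _ h5 u hu y hy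
        cases k' with
        | none => exact ⟨none, B', _, est_mem_a h1, Or.inl h2,
            union_subset_union h3 (clo_mono h3), h4⟩
        | some i =>
          by_cases hi : i = j
          · subst hi
            rw [H.cls, mem_singleton_iff, Prod.mk.injEq] at h1
            obtain ⟨rfl, rfl⟩ := h1
            have hyB : y ∉ B' := by
              intro hyB
              have := (hI.uniq (u y) _ _ _ _ _ _ _ _ _ _ ⟨h5, hu, hy, rfl⟩
                ⟨hcj, h2, hyB, rfl⟩).1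
              exact absurd this (by simp)
            by_cases hyN : y ∈ N0 (m + 1)
            · refine ⟨some i, _, _, est_mem_d, h2, h3.trans subset_union_left, ?_⟩
              refine Filter.mem_of_superset
                (Filter.inter_mem h4 ((isOpen_N0 (m + 1)).mem_nhds hyN)) ?_
              rintro z ⟨hz1 | hz1, hz2⟩
              · exact Or.inl ⟨hz1, hz2⟩
              · exact Or.inr hz1
            · refine ⟨none, _, _, est_mem_c, h2, h3.trans subset_union_left, ?_⟩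
              refine Filter.mem_of_superset
                (Filter.inter_mem h4 (Filter.inter_mem
                  ((isClosed_N0 (m + 1)).isOpen_compl.mem_nhds hyN)
                  ((isClosed_range_R H.fR).isOpen_compl.mem_nhds (fun hr => hyB (H.rB hr))))) ?_
              rintro z ⟨hz1 | hz1, hz2, hz3⟩
              · exact Or.inl ⟨⟨hz1, hz2⟩, hz3⟩
              · exact Or.inr hz1
          · refine ⟨some i, B', M', ?_, h2, h3.trans subset_union_left, h4⟩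
            rw [est_ne hi]; exact h1
      · obtain ⟨k', B', M', h1, h2, h3, h4⟩ := hI.nbr _ _ _ h5 v hv y hy
        cases k' with
        | none => exact ⟨none, B', _, est_mem_a h1, Or.inr ⟨a, ha, v, h2, rfl⟩,
            union_subset_union h3 (clo_mono h3), h4⟩
        | some i => exact ⟨none, B', _, est_mem_b h1, ⟨a, ha, v, h2, rfl⟩,
            (clo_mono h3).trans subset_union_right, h4⟩
    · exact hopen (hI.endp _ _ _ h5).1
    · exact hopen hopc
    · exact hopen (e1.inter (isOpen_N0 _))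
    · exact hopen (hI.endp _ _ _ h5).1
  · intro i B M h
    rcases est_src h with ⟨hk, _⟩ | ⟨hk, _⟩ | ⟨hk, _⟩ |
      ⟨hk, rfl, rfl⟩ | ⟨i', hi, hk, h5⟩
    · exact absurd hk (by simp)
    · exact absurd hk (by simp)
    · exact absurd hk (by simp)
    · rw [Option.some.injEq] at hk
      subst hk
      refine ⟨e1.inter (isOpen_N0 _), fun h => e2 h.1, ?_, ?_, _, est_mem_a e5,
        e6.trans subset_union_left⟩
      · refine Filter.mem_of_superset
          (Filter.inter_mem e3 ((isOpen_N0 (m + 1)).mem_nhds (oo_mem_N0 _))) ?_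
        rintro z ⟨hz1 | hz1, hz2⟩
        · exact Or.inl ⟨hz1, hz2⟩
        · exact Or.inr hz1
      · change _ ⊆ N0 (Function.update S.lvl i (m + 1) i)
        rw [Function.update_self]
        exact inter_subset_right
    · rw [Option.some.injEq] at hk
      subst hk
      obtain ⟨a1, a2, a3, a4, Ms, a5, a6⟩ := hI.endp i B M h5
      refine ⟨a1, a2, a3, ?_, _, est_mem_a a5, a6.trans subset_union_left⟩
      change _ ⊆ N0 (Function.update S.lvl j (m + 1) i)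
      rw [Function.update_of_ne hi]
      exact a4
  · intro i hi
    change Function.update S.lvl j (m + 1) i = 0
    rw [Function.update_of_ne (by omega)]
    exact hI.lvl0 i hi
  · intro m'
    change (Function.update S.hist n (eN Mj f zf) m').Finite
    by_cases hm : m' = n
    · subst hm; rw [Function.update_self]; exact hMjf.image _
    · rw [Function.update_of_ne hm]; exact hI.histfin m'
  · intro m' hm p hp k B M h u hu
    change p ∈ Function.update S.hist n (eN Mj f zf) m' at hp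
    by_cases hmn : m' = n
    · subst hmn
      rw [Function.update_self] at hp
      obtain ⟨b, hb, rfl⟩ := hp
      by_cases hsub : range u ⊆ range (b ∘ f)
      · exact Or.inl hsub
      · right
        rw [Set.disjoint_left]
        rintro _ ⟨y, hy, rfl⟩ ⟨x0, hx0⟩
        rcases est_loc_inv hI H ⟨h, hu, hy, rfl⟩ with ⟨k0, B0, M0, a1, a2, a3⟩ |
          ⟨k0, B0, M0, v, a, a1, a2, a3, a4, rfl, a5⟩
        · exact a2 (mem_WW_eN.2 ⟨b, hb, x0, hx0⟩)
        · have l1 := H.loc a4 (v y)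
          have l2 := H.loc hb x0
          have hx0' : b (f x0) = a (f (v y)) := hx0
          rw [hx0'] at l2
          obtain ⟨-, -, -, rfl, -⟩ := hI.uniq _ _ _ _ _ _ _ _ _ _ _ l1 l2
          apply hsub
          rintro _ ⟨x, rfl⟩
          exact ⟨v x, rfl⟩
    · rw [Function.update_of_ne hmn] at hp
      have hm' : m' < n := by omega
      have hclo : ∀ M0, u ∈ clo Mj f M0 →
          range u ⊆ range p.1 ∨ Disjoint (u '' B) (range p.1) := by
        rintro M0 ⟨a, ha, v, hv, rfl⟩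
        rcases hI.old m' hm' p hp _ _ _ hcj a ha with h | h
        · left
          rintro _ ⟨x, rfl⟩
          exact h (mem_range_self _)
        · right
          refine h.mono_left ?_
          rintro _ ⟨x, _, rfl⟩
          exact ⟨f (v x), H.rB (mem_range_self _), rfl⟩
      rcases est_src h with ⟨rfl, M0, h5, rfl⟩ | ⟨rfl, i, M0, h5, rfl⟩ | ⟨rfl, rfl, rfl⟩ |
        ⟨rfl, rfl, rfl⟩ | ⟨i, hi, rfl, h5⟩
      · rcases hu with hu | hu
        · exact hI.old m' hm' p hp _ _ _ h5 u hu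
        · exact hclo _ hu
      · exact hclo _ hu
      · rcases hI.old m' hm' p hp _ _ _ hcj u hu with h | h
        · exact Or.inl h
        · exact Or.inr (h.mono_left (image_mono fun y hy => hy.1.1))
      · rcases hI.old m' hm' p hp _ _ _ hcj u hu with h | h
        · exact Or.inl h
        · exact Or.inr (h.mono_left (image_mono fun y hy => hy.1))
      · exact hI.old m' hm' p hp _ _ _ h5 u hu

theorem st1_est (hI : Inv C Q n s S) (H : EHyp C S n j Bj Mj f zf m) :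
    ∀ k B M, (B, M) ∈ S.Cl k → ∀ u ∈ M, ∀ u' ∈ M, ∀ y ∈ B, ∀ x, rho (eN Mj f zf) x = u y →
    ∃ k' B' M' w y', (B', M') ∈ (S.est n j Bj Mj f zf m).Cl k' ∧ u ∘ w ∈ M' ∧ u' ∘ w ∈ M' ∧
      y' ∈ B' ∧ x = u (w y') ∧ rho (eN Mj f zf) (u' (w y')) = u' y := by
  intro k B M h u hu u' hu' y hy x hx
  have hd := eN_disj (zf := zf) hI H
  by_cases hxW : x ∈ WW (eN Mj f zf)
  · obtain ⟨a, ha, x0, hx0⟩ := mem_WW_eN.1 hxW
    rw [rho_of_mem hd (p := (a ∘ f, a zf)) ⟨a, ha, rfl⟩ ⟨x0, hx0⟩] at hx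
    have hx' : a zf = u y := hx
    obtain ⟨rfl, rfl, rfl, rfl, rfl⟩ := hI.uniq (u y) _ _ _ _ _ _ _ _ _ _ ⟨h, hu, hy, rfl⟩
      ⟨(by rw [H.cls]; rfl : (Bj, Mj) ∈ S.Cl (some j)), ha, H.zB, hx'⟩
    obtain ⟨k, B0, M0, v, y0, h1, h2, h3, h4⟩ := hI.cover x0
    have l1 := est_loc_cl (S := S) (n := n) (j := j) (Bj := B) (Mj := M) (f := f) (zf := y)
      (m := m) h1 h2 h3 hu
    have l2 := est_loc_cl (S := S) (n := n) (j := j) (Bj := B) (Mj := M) (f := f) (zf := y)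
      (m := m) h1 h2 h3 hu'
    refine ⟨_, _, _, f ∘ v, y0, l1.1, l1.2.1, l2.2.1, l1.2.2.1, ?_, ?_⟩
    · change x = u (f (v y0))
      rw [h4, hx0]
    · exact rho_of_mem hd (p := (u' ∘ f, u' y)) ⟨u', hu', rfl⟩ ⟨v y0, rfl⟩
  · rw [rho_of_notMem (fun p hp hxp => hxW (mem_WW.2 ⟨p, hp, hxp⟩))] at hx
    have hW' : u' y ∉ WW (eN Mj f zf) := by
      intro hW
      obtain ⟨a, ha, x0, hx0⟩ := mem_WW_eN.1 hW
      have hl := H.loc ha x0
      rw [hx0] at hl
      obtain ⟨rfl, rfl, rfl, rfl, rfl⟩ := hI.uniq _ _ _ _ _ _ _ _ _ _ _ ⟨h, hu', hy, rfl⟩ hl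
      exact hxW (mem_WW_eN.2 ⟨u, hu, x0, hx.symm⟩)
    have l1 := est_loc_old hI H (⟨h, hu, hy, hx.symm⟩ : Loc S k B M u y x) hxW
    have l2 := est_loc_old hI H (⟨h, hu', hy, rfl⟩ : Loc S k B M u' y (u' y)) hW'
    refine ⟨_, _, _, id, y, l1.1, l1.2.1, l2.2.1, l1.2.2.1, hx, ?_⟩
    exact rho_of_notMem (fun p hp hxp => hW' (mem_WW.2 ⟨p, hp, hxp⟩))

/-- existence and properties of the E-step -/
theorem exists_E (hQ : QFam C Q) (hI : Inv C Q n s S) (hj : j < s) :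
    ∃ (Bj : Set X) (Mj : Set (X → X)) (f : X → X) (zf : X) (m : ℕ),
      EHyp C S n j Bj Mj f zf m ∧ S.lvl j ≤ m ∧ zf ∈ cyl (ann m) ∧
      Step C Q n S (S.est n j Bj Mj f zf m) (eN Mj f zf) ∅ ∧
      Inv C Q (n + 1) s (S.est n j Bj Mj f zf m) := by
  obtain ⟨⟨Bj, Mj⟩, hc⟩ := hI.endU j hj
  have hcj : (Bj, Mj) ∈ S.Cl (some j) := by rw [hc]; rfl
  have hMjf := hI.finM _ _ _ hcj
  have hMjR := hI.subR _ _ _ hcj
  obtain ⟨e1, e2, e3, e4, Msj, e5, e6⟩ := hI.endp j Bj Mj hcj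
  obtain ⟨K, hK⟩ := exists_N0_subset e3
  set m := max K (S.lvl j) with hm
  have hann : cyl (ann m) ⊆ Bj := by
    intro x hx
    rw [mem_ann] at hx
    rcases hK (N0_anti (le_max_left _ _) hx.1) with h | h
    · exact h
    · rw [mem_singleton_iff] at h
      subst h
      have := hx.2
      simp [oo] at this
  set G : Set (X → X) := (fun u : X → X => u ∘ pre (ann m)) '' Mj with hG
  have hGR : G ⊆ C.R := by
    rintro _ ⟨u, hu, rfl⟩
    exact C.R_comp _ (hMjR hu) _ (C.R_pre _)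
  set Pr : Set X := ⋃ m' ∈ Set.Iio n, Prod.snd '' S.hist m' with hPr
  have hPrf : Pr.Finite := (Set.finite_Iio n).biUnion fun m' _ => (hI.histfin m').image _
  obtain ⟨p, hp, hE, hDec, hAv, hSm⟩ := exists_shrink hQ G (hMjf.image _) hGR Pr hPrf n
  set f : X → X := pre (ann m) ∘ p ∘ pre [false] with hf
  set zf : X := pre (ann m) (p (pre [true] oo)) with hzf
  have hGu : ∀ u ∈ Mj, u ∘ pre (ann m) ∈ G := fun u hu => ⟨u, hu, rfl⟩
  have hfR : f ∈ C.R := C.R_comp _ (C.R_pre _) _ (C.R_comp _ hp _ (C.R_pre _))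
  have hrf : range f ⊆ cyl (ann m) := by
    rintro _ ⟨x, rfl⟩; exact pre_mem_cyl _ _
  have hzf_ne : zf ∉ range f := by
    rintro ⟨x, hx⟩
    have h1 := C.R_inj _ (C.R_pre _) hx
    have h2 := C.R_inj _ hp h1
    have h0 := congrFun h2 0
    simp [pre_cons_zero] at h0
  have H : EHyp C S n j Bj Mj f zf m := ⟨hc, hfR, hrf, hrf.trans hann, hann (pre_mem_cyl _ _),
    hzf_ne⟩
  have hsub : ∀ u : X → X, range (u ∘ f) ⊆ range ((u ∘ pre (ann m)) ∘ p) := by
    rintro u _ ⟨x, rfl⟩; exact ⟨pre [false] x, rfl⟩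
  refine ⟨Bj, Mj, f, zf, m, H, le_max_right _ _, pre_mem_cyl _ _, ?_, inv_est hQ hI hj H⟩
  refine
  { hist := rfl, No_sub := empty_subset _, N_fin := hMjf.image _, N_R := ?_,
    disj := eN_disj hI H, base0 := ?_, baseOld := ?_, lam := ?_, close := ?_, dec1 := ?_,
    dec2 := ?_, st1 := st1_est hI H, lvlmono := ?_ }
  · rintro _ ⟨u, hu, rfl⟩
    exact C.R_comp _ (hMjR hu) _ hfR
  · rintro _ ⟨u, hu, rfl⟩ _ ⟨v, hv, rfl⟩ ⟨x, hx⟩
    have l1 := H.loc hv x
    have hx' : v (f x) = u zf := hx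
    rw [hx'] at l1
    obtain ⟨-, -, -, rfl, h⟩ := hI.uniq (u zf) _ _ _ _ _ _ _ _ _ _ l1 ⟨hcj, hu, H.zB, rfl⟩
    exact hzf_ne ⟨x, h⟩
  · rintro m' hm' q hq _ ⟨u, hu, rfl⟩ h
    refine hAv _ (hGu u hu) q.2 ?_ (hsub u h)
    simp only [hPr, mem_iUnion]
    exact ⟨m', hm', q, hq, rfl⟩
  · rintro m' hm' q hq _ ⟨u, hu, rfl⟩
    rcases hI.old m' hm' q hq _ _ _ hcj u hu with h | h
    · left
      refine ⟨?_, h (mem_range_self _)⟩
      rintro _ ⟨x, rfl⟩
      exact h (mem_range_self _)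
    · right
      refine ⟨h.mono_left ?_, fun hz => Set.disjoint_left.1 h ⟨zf, H.zB, rfl⟩ hz⟩
      rintro _ ⟨x, rfl⟩
      exact ⟨f x, H.rB (mem_range_self _), rfl⟩
  · rintro _ ⟨u, hu, rfl⟩ x i hi
    exact hSm _ (hGu u hu) (pre [false] x) (pre [true] oo) i hi
  · rintro _ ⟨u, hu, rfl⟩ i hi hz
    rcases hDec _ (hGu u hu) i hi with h | h
    · exact absurd (h ⟨pre [true] oo, rfl⟩) hz
    · exact h.mono_left (hsub u)
  · rintro _ ⟨u, hu, rfl⟩ _ i hi hz
    rcases hDec _ (hGu u hu) i hi with h | h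
    · exact (hsub u).trans h
    · exact absurd hz (Set.disjoint_left.1 h ⟨pre [true] oo, rfl⟩)
  · intro i
    change S.lvl i ≤ Function.update S.lvl j (m + 1) i
    by_cases hi : i = j
    · subst hi
      rw [Function.update_self]
      have : S.lvl i ≤ m := le_max_right _ _
      omega
    · rw [Function.update_of_ne hi]

end

end TuringBaire.Con
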