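import Pool.Agent.TuringBaire.Links

/-!
# Every nonempty open set contains a clopen copy of the space
-/

namespace TuringBaire.Con

open Set Topology

variable {C : Ctx} {Q Bs : ℕ → Set X}

theorem op_univ : Op Q (univ : Set X) := @isOpen_univ X (tau Q)

theorem op_compl_biUnion {ι : Type*} {s : Set ι} (hs : s.Finite) (G : ι → Set X)
    (h : ∀ i ∈ s, Op Q (G i)ᶜ) : Op Q (⋃ i ∈ s, G i)ᶜ := by
  induction s, hs using Set.Finite.induction_on with
  | empty => simpa using op_univ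
  | @insert a s _ _ ih =>
    rw [biUnion_insert, compl_union]
    exact (h a (mem_insert _ _)).inter (ih fun i hi => h i (mem_insert_of_mem _ hi))

namespace Run

variable {R : Run C Q Bs} {F : ℕ → Set X}

/-! ### the end containing a piece of type `o` -/

theorem No_task {n : ℕ} {p : Pc} (hp : p ∈ R.No n) :
    TaskO C Bs n (R.S n) (R.S (n + 1)) (R.N n) (R.No n) := by
  rcases (R.trans n).2 with hO | ⟨Bj, Mj, f, zf, m, hE⟩ | hA
  · exact hO
  · rw [hE.hNo] at hp; exact absurd hp (notMem_empty _)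
  · rw [hA.hNo] at hp; exact absurd hp (notMem_empty _)

theorem task_E (R : Run C Q Bs) {n : ℕ} (h0 : (pos n).2 ≠ 0) (h1 : (pos n).2 ≤ (pos n).1) :
    ∃ Bj Mj f zf m, TaskE C n (R.S n) (R.S (n + 1)) (R.N n) (R.No n) Bj Mj f zf m := by
  rcases (R.trans n).2 with hO | hE | hA
  · have := hO.hp; omega
  · exact hE
  · exact absurd hA.hp h0

theorem task_A (R : Run C Q Bs) {n : ℕ} (h0 : (pos n).2 = 0) :
    TaskA n (R.S n) (R.S (n + 1)) (R.N n) (R.No n) := by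
  rcases (R.trans n).2 with hO | ⟨Bj, Mj, f, zf, m, hE⟩ | hA
  · have := hO.hp; omega
  · exact absurd h0 hE.hp0
  · exact hA

/-- the end `s`, activated at time `a`, contains the chart `p.1` -/
structure EndD (R : Run C Q Bs) (b : ℕ) (p : Pc) (s a : ℕ) (Ms : Set (X → X)) : Prop where
  hp : p ∈ R.N b
  hba : b < a
  hpos : pos a = (s, 0)
  hg : p.1 ∈ Ms
  cl : ∀ t > a, ∃ B, (R.S t).Cl (some s) = {(B, Ms)}

theorem exists_end {b : ℕ} {p : Pc} (hp : p ∈ R.No b) : ∃ s a Ms, EndD R b p s a Ms := by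
  have hO := No_task hp
  obtain ⟨s, hs⟩ : ∃ s, s = (pos b).1 := ⟨_, rfl⟩
  have hpb : pos b = (s, s + 1) := by
    have h1 := hO.hp
    apply Prod.ext
    · exact hs.symm
    · rw [h1, ← hs]
  have hposj : ∀ j, j ≤ s → pos (b + 1 + j) = (s, s - j) := by
    intro j hj
    have := pos_down b (1 + j) (by rw [hpb]; simp only; omega)
    rw [← Nat.add_assoc] at this
    rw [this, hpb]
    simp only [Prod.mk.injEq, true_and]
    omega
  have hpend : ∀ j, j ≤ s → p.1 ∈ (R.S (b + 1 + j)).pend := by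
    intro j
    induction j with
    | zero =>
      intro _
      rw [Nat.add_zero, hO.hS]
      exact ⟨p, (R.step b).No_sub hp, rfl⟩
    | succ j ih =>
      intro hj
      have hpos := hposj j (by omega)
      obtain ⟨Bj, Mj, f, zf, m, hE⟩ := R.task_E (n := b + 1 + j)
        (by rw [hpos]; simp only; omega) (by rw [hpos]; simp only; omega)
      have h2 : R.S (b + 1 + (j + 1)) = _ := hE.hS
      rw [h2]
      exact Or.inl (ih (by omega))
  have hposa : pos (b + 1 + s) = (s, 0) := by rw [hposj s le_rfl, Nat.sub_self]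
  have hA := R.task_A (n := b + 1 + s) (by rw [hposa])
  refine ⟨s, b + 1 + s, (R.S (b + 1 + s)).pend, (R.step b).No_sub hp, by omega, hposa,
    hpend s le_rfl, ?_⟩
  intro t ht
  induction t, ht using Nat.le_induction with
  | base =>
    refine ⟨univ \ {oo}, ?_⟩
    have h3 : R.S (b + 1 + s).succ = _ := hA.hS
    rw [h3, hposa]
    exact act_self _ _
  | succ t ht ih =>
    obtain ⟨B, hB⟩ := ih
    rcases (R.trans t).2 with hO' | ⟨Bj, Mj, f, zf, m, hE⟩ | hA'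
    · rw [hO'.hS, carve_some, hB, image_singleton]
      exact ⟨_, rfl⟩
    · by_cases hj : s = (pos t).2 - 1
      · have hc := hE.hyp.cls
        have hS := hE.hS
        rw [← hj] at hc hS
        rw [hB, singleton_eq_singleton_iff, Prod.mk.injEq] at hc
        obtain ⟨rfl, rfl⟩ := hc
        rw [hS, est_self]
        exact ⟨_, rfl⟩
      · rw [hE.hS, est_ne hj]; exact ⟨B, hB⟩
    · refine ⟨B, ?_⟩
      rw [hA'.hS, act_ne, hB]
      intro hh
      have h4 : t = b + 1 + s := pos_inj (by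
        rw [hposa]
        exact Prod.ext hh.symm hA'.hp)
      omega

/-- the times at which the end `s` is processed -/
def IsE (s t : ℕ) : Prop := s < (pos t).1 ∧ (pos t).2 = s + 1

/-- the data of the `E`-step at time `t` -/
structure ED (R : Run C Q Bs) (s t : ℕ) (Ms : Set (X → X)) (B : Set X) (f : X → X) (zf : X)
    (m : ℕ) : Prop where
  hyp : EHyp C (R.S t) t s B Ms f zf m
  hl : (R.S t).lvl s ≤ m
  hzf : zf ∈ cyl (ann m)
  hS : R.S (t + 1) = (R.S t).est t s B Ms f zf m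
  hN : R.N t = eN Ms f zf

theorem IsE.lt {s t a : ℕ} (h : IsE s t) (ha : pos a = (s, 0)) : a < t :=
  lt_of_pos (by rw [ha]; exact h.1)

theorem EndD.ed {b : ℕ} {p : Pc} {s a : ℕ} {Ms : Set (X → X)} (D : EndD R b p s a Ms) {t : ℕ}
    (h : IsE s t) : ∃ B f zf m, ED R s t Ms B f zf m := by
  obtain ⟨h1, h2⟩ := h
  obtain ⟨Bj, Mj, f, zf, m, hE⟩ := R.task_E (n := t) (by omega) (by omega)
  have hj : (pos t).2 - 1 = s := by omega
  obtain ⟨B, hB⟩ := D.cl t (lt_of_pos (by rw [D.hpos]; exact h1))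
  have hc := hE.hyp
  have hS := hE.hS
  have hl := hE.hl
  rw [hj] at hc hS hl
  have hcc := hc.cls
  rw [hB, singleton_eq_singleton_iff, Prod.mk.injEq] at hcc
  obtain ⟨rfl, rfl⟩ := hcc
  exact ⟨B, f, zf, m, hc, hl, hE.hzf, hS, hE.hN⟩

/-! ### the region of ordinary points -/

/-- the points which are ordinary at time `t` -/
def Yt (R : Run C Q Bs) (t : ℕ) : Set X :=
  {x | ∃ B M v, (B, M) ∈ (R.S t).Cl none ∧ v ∈ M ∧ R.r t x ∈ v '' B}

theorem BA_Yt (hQ : QFam C Q) (hF : R.Fm F) (t : ℕ) : BA F (R.Yt t) := by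
  have he : R.Yt t = ⋃ c ∈ (R.S t).Cl none, ⋃ v ∈ c.2, R.r t ⁻¹' (v '' c.1) := by
    ext x
    simp only [Yt, mem_ofPred_eq, mem_iUnion, exists_prop]
    constructor
    · rintro ⟨B, M, v, h1, h2, h3⟩; exact ⟨(B, M), h1, v, h2, h3⟩
    · rintro ⟨⟨B, M⟩, h1, v, h2, h3⟩; exact ⟨B, M, v, h1, h2, h3⟩
  rw [he]
  refine hF.BA_fin hQ ((R.inv t).fin none) _ fun c hc => ?_
  refine hF.BA_fin hQ ((R.inv t).finM none c.1 c.2 hc) _ fun v hv => ?_
  exact hF.r_BA hQ t (BA.img hQ ((R.inv t).ba none c.1 c.2 hc) v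
    ((R.inv t).subR none c.1 c.2 hc hv))

section clone

variable {s t m : ℕ} {Ms : Set (X → X)} {B : Set X} {f : X → X} {zf : X}

theorem ord_next (E : ED R s t Ms B f zf m) {B' : Set X} {M' : Set (X → X)} {v : X → X}
    (hc : (B', M') ∈ (R.S t).Cl none) (hv : v ∈ M') (x : X) :
    R.r t x ∈ v '' B' ↔ R.r (t + 1) x ∈ v '' B' := by
  rw [← rho_r, E.hN]
  have hd := eN_disj (zf := zf) (R.inv t) E.hyp
  have hcs : (B, Ms) ∈ (R.S t).Cl (some s) := by rw [E.hyp.cls]; rfl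
  by_cases hW : R.r (t + 1) x ∈ WW (eN Ms f zf)
  · obtain ⟨a, ha, x0, hx0⟩ := mem_WW_eN.1 hW
    rw [rho_of_mem hd (p := (a ∘ f, a zf)) ⟨a, ha, rfl⟩ ⟨x0, hx0⟩]
    constructor
    · rintro ⟨y, hy, hy2⟩
      have := ((R.inv t).uniq _ _ _ _ _ _ _ _ _ _ _ ⟨hc, hv, hy, hy2⟩
        ⟨hcs, ha, E.hyp.zB, rfl⟩).1
      exact absurd this (by simp)
    · rintro ⟨y, hy, hy2⟩
      have := ((R.inv t).uniq _ _ _ _ _ _ _ _ _ _ _ ⟨hc, hv, hy, hy2⟩
        ⟨hcs, ha, E.hyp.rB (mem_range_self x0), hx0⟩).1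
      exact absurd this (by simp)
  · rw [rho_of_notMem (fun p hp hxp => hW (mem_WW.2 ⟨p, hp, hxp⟩))]

theorem clone_cls (E : ED R s t Ms B f zf m) {B' : Set X} {M' : Set (X → X)}
    (hc : (B', M') ∈ (R.S t).Cl none) :
    (B', M' ∪ clo Ms f M') ∈ (R.S (t + 1)).Cl none := by
  rw [E.hS]; exact est_mem_a hc

theorem clone_mem {g : X → X} (hg : g ∈ Ms) {M' : Set (X → X)} {v : X → X} (hv : v ∈ M') :
    g ∘ f ∘ v ∈ M' ∪ clo Ms f M' := Or.inr ⟨g, hg, v, hv, rfl⟩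

theorem tr_clone {g v : X → X} (hv : Function.Injective v) {x : X} (hx : x ∈ range v) :
    tr v (g ∘ f ∘ v) x = g (f x) := by
  obtain ⟨y, rfl⟩ := hx
  rw [tr_apply hv]
  rfl

variable (hQ : QFam C Q) (hF : R.Fm F) (E : ED R s t Ms B f zf m) {g : X → X} (hg : g ∈ Ms)

include hQ hF E hg in
theorem clone_nbhd {x : X} (hx : x ∈ R.Yt t) {P : Set X} (hP : BA F P) (hxP : g (f x) ∈ P) :
    ∃ P', BA F P' ∧ x ∈ P' ∧ ∀ z ∈ P', g (f z) ∈ P := by
  obtain ⟨B', M', v, h1, h2, h3⟩ := hx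
  rw [ord_next E h1 h2] at h3
  have hc := clone_cls E h1
  have hv : v ∈ M' ∪ clo Ms f M' := Or.inl h2
  have hcl := clone_mem (f := f) hg h2
  have hvi := C.R_inj v (R.Cl_R h1 h2)
  obtain ⟨P', a1, a2, a3⟩ := link_nbhd hQ hF (R.Cl_R hc hv) (R.Cl_R hc hcl)
    (lk_of_mem hc hv hcl h3) hP (by rw [tr_clone hvi (link_range hc hv hcl h3)]; exact hxP)
  refine ⟨P' ∩ R.r (t + 1) ⁻¹' (v '' B'), a1.inter (hF.r_BA hQ _
    (BA.img hQ ((R.inv _).ba _ _ _ h1) v (R.Cl_R h1 h2))), ⟨a2, h3⟩, ?_⟩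
  rintro z ⟨hz1, hz2⟩
  have := a3 z hz1 (lk_of_mem hc hv hcl hz2)
  rwa [tr_clone hvi (link_range hc hv hcl hz2)] at this

include E hg in
theorem clone_image (O : Set X) : (fun x => g (f x)) '' (O ∩ R.Yt t) =
    ⋃ c ∈ (R.S t).Cl none, ⋃ v ∈ c.2,
      tr v (g ∘ f ∘ v) '' (O ∩ R.r (t + 1) ⁻¹' (v '' c.1)) := by
  ext x
  simp only [mem_image, mem_iUnion, exists_prop]
  constructor
  · rintro ⟨z, ⟨hz, B', M', v, h1, h2, h3⟩, rfl⟩
    rw [ord_next E h1 h2] at h3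
    refine ⟨(B', M'), h1, v, h2, z, ⟨hz, h3⟩, ?_⟩
    exact tr_clone (C.R_inj v (R.Cl_R h1 h2)) (link_range (clone_cls E h1) (Or.inl h2)
      (clone_mem (f := f) hg h2) h3)
  · rintro ⟨⟨B', M'⟩, h1, v, h2, z, ⟨hz, h3⟩, rfl⟩
    refine ⟨z, ⟨hz, B', M', v, h1, h2, ?_⟩, ?_⟩
    · rw [ord_next E h1 h2]; exact h3
    · exact (tr_clone (C.R_inj v (R.Cl_R h1 h2)) (link_range (clone_cls E h1) (Or.inl h2)
        (clone_mem (f := f) hg h2) h3)).symm

include hQ hF E hg in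
theorem clone_open {O : Set X} (hO : Op F O) : Op F ((fun x => g (f x)) '' (O ∩ R.Yt t)) := by
  rw [clone_image E hg]
  refine op_iUnion fun c => op_iUnion fun hc => op_iUnion fun v => op_iUnion fun hv => ?_
  exact link_open hQ hF (clone_cls (B' := c.1) (M' := c.2) E hc) (Or.inl hv)
    (clone_mem (f := f) hg hv) hO

include hQ hF in
theorem link_closed {n : ℕ} {k : Option ℕ} {B : Set X} {M : Set (X → X)} {u u' : X → X}
    (hc : (B, M) ∈ (R.S n).Cl k) (hu : u ∈ M) (hu' : u' ∈ M) {O : Set X} (hO : Op F Oᶜ) :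
    Op F (tr u u' '' (O ∩ R.r n ⁻¹' (u '' B)))ᶜ := by
  have hR := R.Cl_R hc
  have hA' : BA F (R.r n ⁻¹' (u' '' B)) := hF.r_BA hQ n
    (BA.img hQ ((R.inv n).ba _ _ _ hc) u' (hR hu'))
  refine op_of_local ?_
  intro x hx
  by_cases hxA : x ∈ R.r n ⁻¹' (u' '' B)
  · have hco := link_coOn hQ hF hc hu' hu
    rw [coOn_iff_BA (hF.cyl hQ) (hF.cyl hQ)] at hco
    have hm := (link_maps hc hu' hu hxA).2
    have hi := link_inv hc hu' hu hxA
    have hxO : tr u' u x ∈ Oᶜ := fun h => hx ⟨_, ⟨h, hm⟩, hi⟩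
    obtain ⟨P, h1, h2, h3⟩ := (op_iff_BA (hF.cyl hQ) Oᶜ).1 hO _ hxO
    obtain ⟨P', h1', h2', h3'⟩ := hco x hxA P h1 h2
    refine ⟨P' ∩ R.r n ⁻¹' (u' '' B), ?_, (h1'.inter hA').op, h2', hxA⟩
    rintro z ⟨hz1, hz2⟩ ⟨w, ⟨hw1, hw2⟩, rfl⟩
    have := h3 (h3' _ hz1 hz2)
    rw [link_inv hc hu hu' hw2] at this
    exact this hw1
  · refine ⟨(R.r n ⁻¹' (u' '' B))ᶜ, ?_, hA'.compl.op, hxA⟩
    rintro z hz ⟨w, ⟨hw1, hw2⟩, rfl⟩
    exact hz (link_maps hc hu hu' hw2).2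

include hQ hF E hg in
theorem clone_closed {O : Set X} (hO : Op F Oᶜ) :
    Op F ((fun x => g (f x)) '' (O ∩ R.Yt t))ᶜ := by
  rw [clone_image E hg]
  refine op_compl_biUnion ((R.inv t).fin none) _ fun c hc => ?_
  refine op_compl_biUnion ((R.inv t).finM none c.1 c.2 hc) _ fun v hv => ?_
  exact link_closed hQ hF (clone_cls (B' := c.1) (M' := c.2) E hc) (Or.inl hv)
    (clone_mem (f := f) hg hv) hO

end clone

/-- the base point of a clone is in no piece born after the activation -/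
theorem EndD.nohit {b : ℕ} {p : Pc} {s a : ℕ} {Ms : Set (X → X)} (D : EndD R b p s a Ms)
    {t m : ℕ} {B : Set X} {f : X → X} {zf : X} (E : ED R s t Ms B f zf m) {m' : ℕ}
    (h1 : a + 1 ≤ m') : ¬ R.hit m' (p.1 zf) := by
  rintro ⟨q, hq, hz⟩
  have hN : (p.1 ∘ f, p.1 zf) ∈ R.N t := by rw [E.hN]; exact ⟨p.1, D.hg, rfl⟩
  rcases Nat.lt_or_ge m' t with h2 | h2
  · have hcs : (B, Ms) ∈ (R.S t).Cl (some s) := by rw [E.hyp.cls]; rfl
    rcases R.old h2 hq hcs D.hg with h | h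
    · have hbm : b < m' := by have := D.hba; omega
      rcases R.lam hbm D.hp hq with ⟨h3, h4⟩ | ⟨h3, h4⟩
      · exact R.base le_rfl hq hq (h h4)
      · exact Set.disjoint_left.1 h3 (h (mem_range_self oo)) (mem_range_self oo)
    · exact Set.disjoint_left.1 h ⟨zf, E.hyp.zB, rfl⟩ hz
  · exact R.base h2 hN hq hz

/-- the retraction of a clone -/
theorem EndD.ret {b : ℕ} {p : Pc} {s a : ℕ} {Ms : Set (X → X)} (D : EndD R b p s a Ms)
    {t m : ℕ} {B : Set X} {f : X → X} {zf : X} (E : ED R s t Ms B f zf m) (hat : a < t)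
    (x : X) : R.r (a + 1) (p.1 (f x)) = p.1 zf := by
  have hN : (p.1 ∘ f, p.1 zf) ∈ R.N t := by rw [E.hN]; exact ⟨p.1, D.hg, rfl⟩
  refine r_of_hit (p := (p.1 ∘ f, p.1 zf)) (by omega) ?_ hN ⟨x, rfl⟩
  rintro m' h1 h2 ⟨q, hq, hz⟩
  exact D.nohit E h1 ⟨q, hq, (mem_iff_base h2 hq hN ⟨x, rfl⟩).1 hz⟩

theorem oo_notMem_ann (m : ℕ) : oo ∉ cyl (ann m) := by
  intro h
  have := (mem_ann.1 h).2
  simp [oo] at this

theorem ann_inj {m m' : ℕ} {x : X} (h : x ∈ cyl (ann m)) (h' : x ∈ cyl (ann m')) : m = m' := by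
  rw [mem_ann] at h h'
  rcases lt_trichotomy m m' with h1 | h1 | h1
  · have := h'.1 m h1; rw [h.2] at this; exact absurd this (by simp)
  · exact h1
  · have := h.1 m' h1; rw [h'.2] at this; exact absurd this (by simp)

theorem ne_oo_mem_ann {x : X} (h : x ≠ oo) : ∃ m, x ∈ cyl (ann m) := by
  classical
  have h1 : ∃ i, x i = true := by
    by_contra hcon
    push Not at hcon
    apply h
    funext i
    have := hcon i
    simpa [oo] using this
  refine ⟨Nat.find h1, mem_ann.2 ⟨fun i hi => ?_, Nat.find_spec h1⟩⟩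
  have := Nat.find_min h1 hi
  simpa using this

/-- the main embedding -/
theorem exists_emb (hQ : QFam C Q) (hF : R.Fm F) {b : ℕ} {p : Pc} {s a : ℕ}
    {Ms : Set (X → X)} (D : EndD R b p s a Ms) :
    ∃ G : X → X, Function.Injective G ∧ (∀ x, G x ∈ range p.1) ∧ (∀ x, C.E x (G x)) ∧
      (∀ x P, BA F P → G x ∈ P → ∃ P', BA F P' ∧ x ∈ P' ∧ ∀ z ∈ P', G z ∈ P) ∧
      (∀ O, Op F O → Op F (G '' O)) ∧ Op F (range G)ᶜ := by
  classical
  have hed : ∀ t, IsE s t → ∃ B f zf m, ED R s t Ms B f zf m := fun t ht => D.ed ht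
  choose! Bt ft zt mt hE using hed
  have hgR : p.1 ∈ C.R := (R.step b).N_R p D.hp
  have hgi := C.R_inj _ hgR
  have hfi : ∀ t, IsE s t → Function.Injective (ft t) := fun t ht =>
    C.R_inj _ (hE t ht).hyp.fR
  -- the levels are increasing
  have hm : ∀ t t', IsE s t → IsE s t' → t < t' → mt t < mt t' := by
    intro t t' ht ht' h
    have h1 := (hE t' ht').hl
    have h2 : (R.S (t + 1)).lvl s ≤ (R.S t').lvl s := lvl_mono (by omega)
    have h3 : (R.S (t + 1)).lvl s = mt t + 1 := by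
      rw [(hE t ht).hS]
      exact Function.update_self _ _ _
    omega
  have hmi : ∀ t t', IsE s t → IsE s t' → mt t = mt t' → t = t' := by
    intro t t' ht ht' h
    rcases lt_trichotomy t t' with h1 | h1 | h1
    · have := hm t t' ht ht' h1; omega
    · exact h1
    · have := hm t' t ht' ht h1; omega
  -- the time of a point
  have hex : ∀ x, ∃ t, IsE s t ∧ x ∈ R.Yt t := by
    intro x
    obtain ⟨n, s', h1, h2, B, M, v, y, hL⟩ := ordinary_at (thread_r R x) s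
    refine ⟨n, ⟨by rw [h2]; exact h1, by rw [h2]⟩, B, M, v, hL.1, hL.2.1, y, hL.2.2.1, hL.2.2.2⟩
  let tt : X → ℕ := fun x => sInf {t | IsE s t ∧ x ∈ R.Yt t}
  have htt : ∀ x, IsE s (tt x) ∧ x ∈ R.Yt (tt x) := fun x => Nat.sInf_mem (hex x)
  have htmin : ∀ x t, t < tt x → IsE s t → x ∉ R.Yt t := by
    intro x t h1 h2 h3
    exact Nat.notMem_of_lt_sInf h1 ⟨h2, h3⟩
  have htu : ∀ x t, IsE s t → x ∈ R.Yt t → (∀ t' < t, IsE s t' → x ∉ R.Yt t') → tt x = t := by
    intro x t h1 h2 h3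
    rcases lt_trichotomy (tt x) t with h | h | h
    · exact absurd (htt x).2 (h3 _ h (htt x).1)
    · exact h
    · exact absurd h2 (htmin x t h h1)
  -- the layers
  let Xt : ℕ → Set X := fun t => {x | tt x = t}
  have hXt : ∀ t, IsE s t → BA F (Xt t) := by
    intro t ht
    have he : Xt t = R.Yt t \ ⋃ t' ∈ {t' | t' < t ∧ IsE s t'}, R.Yt t' := by
      ext x
      constructor
      · rintro rfl
        refine ⟨(htt x).2, ?_⟩
        intro hc
        simp only [mem_iUnion] at hc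
        obtain ⟨t', ⟨h1, h2⟩, h3⟩ := hc
        exact htmin x t' h1 h2 h3
      · rintro ⟨h1, h2⟩
        refine htu x t ht h1 fun t' h3 h4 h5 => h2 ?_
        simp only [mem_iUnion]
        exact ⟨t', ⟨h3, h4⟩, h5⟩
    rw [he]
    exact (BA_Yt hQ hF t).diff (hF.BA_fin hQ ((Set.finite_Iio t).subset fun t' h => h.1) _
      fun t' _ => BA_Yt hQ hF t')
  have hXY : ∀ t, Xt t ⊆ R.Yt t := by
    rintro t x rfl
    exact (htt x).2
  let G : X → X := fun x => p.1 (ft (tt x) x)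
  have hret : ∀ x, R.r (a + 1) (G x) = p.1 (zt (tt x)) := fun x =>
    D.ret (hE _ (htt x).1) ((htt x).1.lt D.hpos) x
  refine ⟨G, ?_, fun x => mem_range_self _, ?_, ?_, ?_, ?_⟩
  · -- injective
    intro x x' h
    have h1 : ft (tt x) x = ft (tt x') x' := hgi h
    have h2 : tt x = tt x' := by
      apply hmi _ _ (htt x).1 (htt x').1
      refine ann_inj ((hE _ (htt x).1).hyp.rf (mem_range_self x)) ?_
      rw [h1]
      exact (hE _ (htt x').1).hyp.rf (mem_range_self x')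
    rw [← h2] at h1
    exact hfi _ (htt x).1 h1
  · intro x
    exact C.equiv.trans (C.R_E _ (hE _ (htt x).1).hyp.fR x) (C.R_E _ hgR _)
  · -- continuity
    intro x P hP hxP
    obtain ⟨P', h1, h2, h3⟩ := clone_nbhd hQ hF (hE _ (htt x).1) D.hg (htt x).2 hP hxP
    refine ⟨P' ∩ Xt (tt x), h1.inter (hXt _ (htt x).1), ⟨h2, rfl⟩, ?_⟩
    rintro z ⟨hz1, hz2⟩
    have hz3 : tt z = tt x := hz2
    change p.1 (ft (tt z) z) ∈ P
    rw [hz3]
    exact h3 z hz1
  · -- open map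
    intro O hO
    refine op_of_local ?_
    rintro _ ⟨x, hx, rfl⟩
    refine ⟨(fun z => p.1 (ft (tt x) z)) '' ((O ∩ Xt (tt x)) ∩ R.Yt (tt x)), ?_,
      clone_open hQ hF (hE _ (htt x).1) D.hg (hO.inter (hXt _ (htt x).1).op),
      ⟨x, ⟨⟨hx, rfl⟩, (htt x).2⟩, rfl⟩⟩
    rintro _ ⟨z, ⟨⟨hz1, hz2⟩, -⟩, rfl⟩
    have hz3 : tt z = tt x := hz2
    refine ⟨z, hz1, ?_⟩
    change p.1 (ft (tt z) z) = _
    rw [hz3]
  · -- closed range
    refine op_of_local ?_
    intro x hx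
    by_cases hxp : x ∈ range p.1
    · have h1 : R.r (a + 1) x ∈ range p.1 := by
        have := D.hba
        exact (r_mem_iff (by omega) D.hp x).2 hxp
      obtain ⟨y, hy⟩ := h1
      by_cases hyo : y = oo
      · subst hyo
        refine ⟨R.r (a + 1) ⁻¹' (p.1 '' {oo}), ?_, (hF.r_BA hQ _
          (BA.img hQ (BA.pt hQ) _ hgR)).op, ⟨oo, rfl, hy⟩⟩
        rintro z ⟨y', hy', hz⟩ ⟨w, rfl⟩
        rw [hret w] at hz
        have h2 := hgi hz
        rw [mem_singleton_iff.1 hy'] at h2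
        have h3 := (hE _ (htt w).1).hzf
        rw [← h2] at h3
        exact oo_notMem_ann _ h3
      · obtain ⟨m, hym⟩ := ne_oo_mem_ann hyo
        have hP0 : BA F (R.r (a + 1) ⁻¹' (p.1 '' cyl (ann m))) :=
          hF.r_BA hQ _ (BA.img hQ (BA.ofCyl hQ _) _ hgR)
        have hlev : ∀ w, G w ∈ R.r (a + 1) ⁻¹' (p.1 '' cyl (ann m)) → mt (tt w) = m := by
          rintro w ⟨y', hy', hz⟩
          rw [hret w] at hz
          have h2 := hgi hz
          have h3 := (hE _ (htt w).1).hzf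
          rw [← h2] at h3
          exact ann_inj h3 hy'
        by_cases hex2 : ∃ t, IsE s t ∧ mt t = m
        · obtain ⟨t, ht, htm⟩ := hex2
          refine ⟨R.r (a + 1) ⁻¹' (p.1 '' cyl (ann m)) ∩
            ((fun z => p.1 (ft t z)) '' (Xt t ∩ R.Yt t))ᶜ, ?_,
            hP0.op.inter (clone_closed hQ hF (hE t ht) D.hg (hXt t ht).compl.op),
            ⟨y, hym, hy⟩, ?_⟩
          · rintro z ⟨hz1, hz2⟩ ⟨w, rfl⟩
            have h2 := hlev w hz1
            have h3 : tt w = t := hmi _ _ (htt w).1 ht (h2.trans htm.symm)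
            apply hz2
            refine ⟨w, ⟨h3, hXY t h3⟩, ?_⟩
            change _ = p.1 (ft (tt w) w)
            rw [h3]
          · rintro ⟨w, ⟨hw, -⟩, hwx⟩
            have h3 : tt w = t := hw
            apply hx
            refine ⟨w, ?_⟩
            change p.1 (ft (tt w) w) = _
            rw [h3]
            exact hwx
        · refine ⟨_, ?_, hP0.op, ⟨y, hym, hy⟩⟩
          rintro z hz1 ⟨w, rfl⟩
          exact hex2 ⟨tt w, (htt w).1, hlev w hz1⟩
    · refine ⟨(range p.1)ᶜ, ?_, (hF.BA_pc D.hp).compl.op, hxp⟩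
      rintro z hz ⟨w, rfl⟩
      exact hz (mem_range_self _)

/-- pieces are not compact -/
theorem not_cover (hQ : QFam C Q) (hF : R.Fm F) {b : ℕ} {p : Pc} {s a : ℕ}
    {Ms : Set (X → X)} (D : EndD R b p s a Ms) :
    ∃ U : ℕ → Set X, (∀ k, Op F (U k)) ∧ (∀ x ∈ range p.1, ∃ k, x ∈ U k) ∧
      (∀ k l, k ≤ l → U k ⊆ U l) ∧ ∀ k, ∃ x ∈ range p.1, x ∉ U k := by
  have hgR : p.1 ∈ C.R := (R.step b).N_R p D.hp
  have hgi := C.R_inj _ hgR
  refine ⟨fun k => R.r (a + 1) ⁻¹' (p.1 '' ((N0 k)ᶜ ∪ {oo})), ?_, ?_, ?_, ?_⟩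
  · intro k
    exact (hF.r_BA hQ _ (BA.img hQ ((BA.ofN0 hQ k).compl.union (BA.pt hQ)) _ hgR)).op
  · intro x hx
    have h1 : R.r (a + 1) x ∈ range p.1 := by
      have := D.hba
      exact (r_mem_iff (by omega) D.hp x).2 hx
    obtain ⟨y, hy⟩ := h1
    by_cases hyo : y = oo
    · exact ⟨0, y, Or.inr hyo, hy⟩
    · obtain ⟨m, hym⟩ := ne_oo_mem_ann hyo
      refine ⟨m + 1, y, Or.inl ?_, hy⟩
      intro h
      have h2 := h m (by omega)
      rw [(mem_ann.1 hym).2] at h2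
      exact absurd h2 (by simp)
  · intro k l hkl x hx
    obtain ⟨y, hy, hyx⟩ := hx
    refine ⟨y, ?_, hyx⟩
    rcases hy with hy | hy
    · exact Or.inl fun h => hy (N0_anti hkl h)
    · exact Or.inr hy
  · intro k
    obtain ⟨m, hm⟩ := lvl_unbounded (R := R) s k
    obtain ⟨t, ht⟩ := pos_all ((pos m).1 + s + 1) (s + 1) (by omega)
    have hmt : m < t := lt_of_pos (by rw [ht]; simp only; omega)
    have hEt : IsE s t := ⟨by rw [ht]; simp only; omega, by rw [ht]⟩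
    obtain ⟨B, f, zf, m', E⟩ := D.ed hEt
    refine ⟨p.1 zf, mem_range_self _, ?_⟩
    rintro ⟨y, hy, hyx⟩
    have hr : R.r (a + 1) (p.1 zf) = p.1 zf := r_of_nohit fun m1 h1 => D.nohit E h1
    rw [hr] at hyx
    have h2 := hgi hyx
    subst h2
    have h3 := (mem_ann.1 E.hzf).1
    have h4 := E.hl
    have h5 : (R.S m).lvl s ≤ (R.S t).lvl s := lvl_mono hmt.le
    rcases hy with hy | hy
    · exact hy (N0_anti (by omega) h3)
    · have h6 := E.hzf
      rw [mem_singleton_iff.1 hy] at h6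
      exact oo_notMem_ann _ h6

end Run

end TuringBaire.Con
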