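import Pool.Agent.TuringBaire.Seq

/-!
# Every thread is ordinary at some time at which a given end is processed
-/

namespace TuringBaire.Con

open Set Topology

namespace Run

variable {C : Ctx} {Q Bs : ℕ → Set X} (R : Run C Q Bs)

/-- a thread of the inverse system -/
def Thread (ξ : ℕ → X) : Prop := ∀ n, rho (R.N n) (ξ (n + 1)) = ξ n

variable {R}

/-- kinds go back, except at an activation -/
theorem kind_back {ξ : ℕ → X} (hξ : R.Thread ξ) {n i : ℕ} {u : X → X} {y : X}
    (h : AtC (R.S (n + 1)) (some i) u y (ξ (n + 1))) :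
    (pos n = (i, 0)) ∨ (AtC (R.S n) (some i) u y (ξ n) ∧ ξ n = ξ (n + 1)) := by
  rcases (R.trans n).2 with hO | ⟨Bj, Mj, f, zf, m, hE⟩ | hA
  · obtain ⟨h1, h2⟩ := hO.hk _ _ _ _ h
    rw [hξ n] at h2
    rw [← h2] at h1
    exact Or.inr ⟨h1, h2⟩
  · right
    obtain ⟨B, M, hL⟩ := h
    have hS := hE.hS
    rw [hS] at hL
    rcases est_loc_inv (R.inv n) hE.hyp hL with ⟨k0, B0, M0, a1, a2, a3⟩ |
        ⟨k0, B0, M0, v, a, a1, a2, a3, a4, rfl, a5⟩
    · have hx : rho (R.N n) (ξ (n + 1)) = ξ (n + 1) := by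
        rw [hE.hN]
        exact rho_of_notMem (fun p hp hxp => a2 (mem_WW.2 ⟨p, hp, hxp⟩))
      rw [hξ n] at hx
      refine ⟨?_, hx⟩
      rw [hx]
      cases k0 with
      | none =>
        have := congrArg Prod.fst a3
        simp [Fold] at this
      | some i0 =>
        have : i = i0 := by
          have h3 := congrArg Prod.fst a3
          simp only [Fold] at h3
          split_ifs at h3 with hi0 hy
          · simp only [Option.some.injEq] at h3
            rw [h3, hi0]
          · simp only [Option.some.injEq] at h3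
            exact h3
        subst this
        exact ⟨B0, M0, a1⟩
    · exfalso
      have h3 := congrArg Prod.fst a5
      unfold Fcl at h3
      cases k0 <;> simp at h3
  · have hx : rho (R.N n) (ξ (n + 1)) = ξ (n + 1) := by rw [hA.hN]; exact rho_empty _
    rw [hξ n] at hx
    by_cases hi : i = (pos n).1
    · left
      rw [hi, ← hA.hp]
    · right
      obtain ⟨B, M, h1, h2, h3, h4⟩ := h
      rw [hA.hS, act_ne _ hi] at h1
      exact ⟨⟨B, M, h1, h2, h3, by rw [hx]; exact h4⟩, hx⟩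

theorem kind_lt {n i : ℕ} {u : X → X} {y x : X} (h : AtC (R.S n) (some i) u y x) :
    i < (pos n).1 := by
  obtain ⟨B, M, h1, _⟩ := h
  by_contra hcon
  rw [(R.inv n).emp i (not_lt.1 hcon)] at h1
  exact notMem_empty _ h1

theorem kind_back_many {ξ : ℕ → X} (hξ : R.Thread ξ) {i a : ℕ} (ha : pos a = (i, 0))
    {u : X → X} {y : X} {m n : ℕ} (ham : a < m) (hmn : m ≤ n)
    (h : AtC (R.S n) (some i) u y (ξ n)) :
    AtC (R.S m) (some i) u y (ξ m) ∧ ξ m = ξ n := by
  induction n, hmn using Nat.le_induction with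
  | base => exact ⟨h, rfl⟩
  | succ n hn ih =>
    rcases kind_back hξ h with h1 | ⟨h1, h2⟩
    · have := pos_inj (h1.trans ha.symm)
      omega
    · obtain ⟨h3, h4⟩ := ih h1
      exact ⟨h3, h4.trans h2⟩

theorem AtC_uniq {n : ℕ} {k k' : Option ℕ} {u u' : X → X} {y y' x : X}
    (h : AtC (R.S n) k u y x) (h' : AtC (R.S n) k' u' y' x) : k = k' ∧ u = u' ∧ y = y' := by
  obtain ⟨B, M, h1⟩ := h
  obtain ⟨B', M', h1'⟩ := h'
  obtain ⟨a1, -, -, a4, a5⟩ := (R.inv n).uniq _ _ _ _ _ _ _ _ _ _ _ h1 h1'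
  exact ⟨a1, a4, a5⟩

/-- processing another end does not move a point out of an end -/
theorem kind_fwd {ξ : ℕ → X} (hξ : R.Thread ξ) {n i : ℕ} {u : X → X} {y : X}
    (h : AtC (R.S n) (some i) u y (ξ n)) (hp : (pos n).2 ≤ i) (hp0 : (pos n).2 ≠ 0) :
    ∃ u y, AtC (R.S (n + 1)) (some i) u y (ξ (n + 1)) := by
  have hi := kind_lt h
  rcases (R.trans n).2 with hO | ⟨Bj, Mj, f, zf, m, hE⟩ | hA
  · have := hO.hp; omega
  · obtain ⟨B, M, hL⟩ := h
    have hij : i ≠ (pos n).2 - 1 := by omega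
    have hW : ξ (n + 1) ∉ WW (eN Mj f zf) := by
      intro hW
      obtain ⟨a, ha, x0, hx0⟩ := mem_WW_eN.1 hW
      have hr := hξ n
      rw [hE.hN, rho_of_mem (eN_disj (R.inv n) hE.hyp) (p := (a ∘ f, a zf)) ⟨a, ha, rfl⟩
        ⟨x0, hx0⟩] at hr
      have hr' : a zf = ξ n := hr
      have := ((R.inv n).uniq _ _ _ _ _ _ _ _ _ _ _ hL
        ⟨(by rw [hE.hyp.cls]; rfl : (Bj, Mj) ∈ (R.S n).Cl (some ((pos n).2 - 1))), ha,
          hE.hyp.zB, hr'⟩).1
      exact hij (by simpa using this)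
    have hx : rho (R.N n) (ξ (n + 1)) = ξ (n + 1) := by
      rw [hE.hN]
      exact rho_of_notMem (fun p hp hxp => hW (mem_WW.2 ⟨p, hp, hxp⟩))
    rw [hξ n] at hx
    rw [hx] at hL
    have := est_loc_old (R.inv n) hE.hyp hL hW
    refine ⟨u, y, ?_⟩
    rw [hE.hS]
    unfold Fold at this
    simp only [if_neg hij] at this
    exact ⟨B, M, this⟩
  · exact absurd hA.hp hp0

theorem lvl_mono {i m n : ℕ} (h : m ≤ n) : (R.S m).lvl i ≤ (R.S n).lvl i := by
  induction n, h using Nat.le_induction with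
  | base => exact le_rfl
  | succ n _ ih => exact ih.trans ((R.step n).lvlmono i)

theorem lvl_unbounded (i k : ℕ) : ∃ m, k ≤ (R.S m).lvl i := by
  induction k with
  | zero => exact ⟨0, Nat.zero_le _⟩
  | succ k ih =>
    obtain ⟨m, hm⟩ := ih
    -- a block beyond `m` and `i`
    obtain ⟨n, hn⟩ := pos_all ((pos m).1 + i + 1) (i + 1) (by omega)
    have hmn : m < n := lt_of_pos (by rw [hn]; simp only; omega)
    refine ⟨n + 1, ?_⟩
    rcases (R.trans n).2 with hO | ⟨Bj, Mj, f, zf, m', hE⟩ | hA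
    · have := hO.hp; rw [hn] at this; simp only at this; omega
    · have hl := hE.hl
      have h2 := lvl_mono (R := R) (i := i) hmn.le
      rw [hE.hS]
      change k + 1 ≤ Function.update (R.S n).lvl ((pos n).2 - 1) (m' + 1) i
      have hj : (pos n).2 - 1 = i := by rw [hn]; simp
      rw [hj, Function.update_self]
      rw [hj] at hl
      omega
    · have := hA.hp; rw [hn] at this; simp at this

/-- every thread leaves every end -/
theorem exits {ξ : ℕ → X} (hξ : R.Thread ξ) (i : ℕ) :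
    ∃ m0, ∀ m ≥ m0, ∀ u y, ¬ AtC (R.S m) (some i) u y (ξ m) := by
  by_contra hcon
  push Not at hcon
  obtain ⟨a, ha⟩ := pos_all i 0 (by omega)
  obtain ⟨m1, hm1, u1, y1, h1⟩ := hcon (a + 1)
  obtain ⟨h2, -⟩ := kind_back_many hξ ha (lt_add_one a) hm1 h1
  have hy : ∀ k, y1 ∈ N0 k := by
    intro k
    obtain ⟨m, hm⟩ := lvl_unbounded (R := R) i k
    obtain ⟨m3, hm3, u3, y3, h3⟩ := hcon (max m (a + 1))
    obtain ⟨h4, -⟩ := kind_back_many hξ ha (lt_add_one a) (le_trans (le_max_right _ _) hm3) h3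
    obtain ⟨-, rfl, rfl⟩ := AtC_uniq h2 h4
    obtain ⟨B, M, hL⟩ := h3
    have := ((R.inv m3).endp i B M hL.1).2.2.2.1 hL.2.2.1
    exact N0_anti (hm.trans (lvl_mono (le_trans (le_max_left _ _) hm3))) this
  have hoo := eq_oo_of_mem hy
  obtain ⟨B, M, hL⟩ := h1
  exact ((R.inv m1).endp i B M hL.1).2.1 (hoo ▸ hL.2.2.1)

/-- (A1) -/
theorem ordinary_at {ξ : ℕ → X} (hξ : R.Thread ξ) (s : ℕ) :
    ∃ n s', s < s' ∧ pos n = (s', s + 1) ∧ ∃ B M v y, Loc (R.S n) none B M v y (ξ n) := by
  by_contra hcon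
  push Not at hcon
  -- times of the E(s)-steps
  have ht : ∀ s', s < s' → ∃ n, pos n = (s', s + 1) := fun s' hs => pos_all s' (s + 1) (by omega)
  choose! t htp using ht
  have hbad : ∀ s', s < s' → ∃ i, ∃ u y, AtC (R.S (t s')) (some i) u y (ξ (t s')) := by
    intro s' hs
    obtain ⟨k, B, M, u, y, hL⟩ := (R.inv (t s')).cover (ξ (t s'))
    cases k with
    | none => exact absurd hL (hcon (t s') s' hs (htp s' hs) B M u y)
    | some i => exact ⟨i, u, y, B, M, hL⟩
  choose! b hb using hbad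
  have hblt : ∀ s', s < s' → b s' < s' := by
    intro s' hs
    obtain ⟨u, y, h⟩ := hb s' hs
    have := kind_lt h
    rw [htp s' hs] at this
    exact this
  -- a change of the end
  have hchange : ∀ s', s < s' → ∃ s'', s' ≤ s'' ∧ b s'' ≠ b (s'' + 1) ∧ b s'' = b s' := by
    intro s' hs
    by_contra hc
    push Not at hc
    have hall : ∀ k, b (s' + k) = b s' := by
      intro k
      induction k with
      | zero => rfl
      | succ k ih =>
        by_contra hne
        exact hc (s' + k) (by omega) (by rw [ih]; exact fun h => hne h.symm) ih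
    obtain ⟨m0, hm0⟩ := exits hξ (b s')
    obtain ⟨u, y, h⟩ := hb (s' + ((pos m0).1 + 1)) (by omega)
    rw [hall] at h
    refine hm0 _ ?_ u y h
    apply le_of_lt
    apply lt_of_pos
    rw [htp _ (by omega)]
    simp only
    omega
  -- the new end is the last one
  have hnew : ∀ s', s < s' → b s' ≠ b (s' + 1) → b (s' + 1) = s' := by
    intro s' hs hne
    by_contra hcn
    have h1 := hblt (s' + 1) (by omega)
    have h2 : b (s' + 1) < s' := by omega
    obtain ⟨a, ha⟩ := pos_all (b (s' + 1)) 0 (by omega)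
    obtain ⟨u, y, h⟩ := hb (s' + 1) (by omega)
    have hlt : a < t s' := lt_of_pos (by rw [ha, htp s' hs]; exact h2)
    have hlt2 : t s' < t (s' + 1) := lt_of_pos (by
      rw [htp s' hs, htp (s' + 1) (by omega)]; simp)
    obtain ⟨h3, -⟩ := kind_back_many hξ ha hlt hlt2.le h
    obtain ⟨u', y', h'⟩ := hb s' hs
    have := (AtC_uniq h' h3).1
    exact hne (by simpa using this)
  obtain ⟨s1, hs1, hc1, -⟩ := hchange (s + 1) (by omega)
  have hb1 := hnew s1 (by omega) hc1
  obtain ⟨s2, hs2, hc2, hb2⟩ := hchange (s1 + 1) (by omega)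
  have hb3 := hnew s2 (by omega) hc2
  -- in block `s2`, the point is in end `s1 > s`
  have hb4 : b s2 = s1 := hb2.trans hb1
  obtain ⟨u, y, h⟩ := hb s2 (by omega)
  rw [hb4] at h
  have hstay : ∀ k, k ≤ s → ∃ u y, AtC (R.S (t s2 + k)) (some s1) u y (ξ (t s2 + k)) := by
    intro k
    induction k with
    | zero => intro _; exact ⟨u, y, h⟩
    | succ k ih =>
      intro hk
      obtain ⟨u', y', h'⟩ := ih (by omega)
      have hp : pos (t s2 + k) = (s2, s + 1 - k) := by
        rw [pos_down (t s2) k (by rw [htp s2 (by omega)]; simp only; omega), htp s2 (by omega)]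
      have q1 : (pos (t s2 + k)).2 ≤ s1 := by rw [hp]; simp only; omega
      have q2 : (pos (t s2 + k)).2 ≠ 0 := by rw [hp]; simp only; omega
      exact kind_fwd hξ h' q1 q2
  obtain ⟨u1, y1, h1⟩ := hstay s le_rfl
  have hp1 : pos (t s2 + s) = (s2, 1) := by
    rw [pos_down (t s2) s (by rw [htp s2 (by omega)]; simp only; omega), htp s2 (by omega)]
    simp
  obtain ⟨u2, y2, h2⟩ := kind_fwd hξ h1 (by rw [hp1]; simp only; omega) (by rw [hp1]; simp)
  have hp2 : pos (t s2 + s + 1) = (s2, 0) := by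
    rw [pos_succ_pos (by rw [hp1]; simp), hp1]
    rfl
  -- after the activation of end `s2` the point is in end `s2`
  obtain ⟨u3, y3, h3⟩ := hb (s2 + 1) (by omega)
  rw [hb3] at h3
  have hlt : t s2 + s + 1 < t (s2 + 1) := lt_of_pos (by
    rw [hp2, htp (s2 + 1) (by omega)]; simp)
  obtain ⟨h4, -⟩ := kind_back_many hξ hp2 (lt_add_one _) hlt h3
  -- and before it was ordinary
  obtain ⟨B, M, hL⟩ := h4
  rcases (R.trans (t s2 + s + 1)).2 with hO | ⟨Bj, Mj, f, zf, m', hE⟩ | hA
  · have := hO.hp; rw [hp2] at this; simp at this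
  · exact hE.hp0 (by rw [hp2])
  · have hx : rho (R.N (t s2 + s + 1)) (ξ (t s2 + s + 1 + 1)) = ξ (t s2 + s + 1 + 1) := by
      rw [hA.hN]; exact rho_empty _
    rw [hξ] at hx
    rw [hA.hS, hp2] at hL
    have hL1 := hL.1
    rw [act_self, mem_singleton_iff, Prod.mk.injEq] at hL1
    have hord : AtC (R.S (t s2 + s + 1)) none u3 y3 (ξ (t s2 + s + 1)) := by
      refine ⟨univ, _, hA.hpend, ?_, trivial, ?_⟩
      · rw [← hL1.2]; exact hL.2.1
      · rw [hx]; exact hL.2.2.2
    have := (AtC_uniq h2 hord).1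
    exact absurd this (by simp)

end Run

end TuringBaire.Con
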