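import Pool.Agent.TuringBaire.Defs

/-!
# MP_a48249_lc, module M4 : Knaster-Reichbach inside an equivalence relation
-/

namespace TuringBaire

open Set Topology

namespace Ext

variable {Y : Type*} [TopologicalSpace Y]

/-- the atom of the first `k` sets containing `y` -/
def At (U : ℕ → Set Y) (k : ℕ) (y : Y) : Set Y := {z | ∀ i < k, (z ∈ U i ↔ y ∈ U i)}

omit [TopologicalSpace Y] in
lemma self_mem_At (U : ℕ → Set Y) (k : ℕ) (y : Y) : y ∈ At U k y := fun _ _ => Iff.rfl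

lemma At_clopen {U : ℕ → Set Y} (hU : ∀ i, IsClopen (U i)) (k : ℕ) (y : Y) :
    IsClopen (At U k y) := by
  have : At U k y = ⋂ i ∈ Finset.range k, {z | z ∈ U i ↔ y ∈ U i} := by
    ext z
    simp [At]
  rw [this]
  refine isClopen_biInter_finset fun i _ => ?_
  by_cases h : y ∈ U i
  · simpa [h] using hU i
  · have h1 : {z | z ∈ U i ↔ y ∈ U i} = (U i)ᶜ := by
      ext z
      simp [h]
    rw [h1]
    exact (hU i).compl

omit [TopologicalSpace Y] in
lemma At_mono (U : ℕ → Set Y) {j k : ℕ} (h : j ≤ k) (y : Y) : At U k y ⊆ At U j y :=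
  fun _ hz i hi => hz i (lt_of_lt_of_le hi h)

omit [TopologicalSpace Y] in
lemma At_symm {U : ℕ → Set Y} {k : ℕ} {y z : Y} (h : z ∈ At U k y) : y ∈ At U k z :=
  fun i hi => (h i hi).symm

omit [TopologicalSpace Y] in
lemma At_trans {U : ℕ → Set Y} {k : ℕ} {x y z : Y} (h : x ∈ At U k y) (h' : y ∈ At U k z) :
    x ∈ At U k z :=
  fun i hi => (h i hi).trans (h' i hi)

omit [TopologicalSpace Y] in
lemma At_eq {U : ℕ → Set Y} {k : ℕ} {y z : Y} (h : z ∈ At U k y) : At U k z = At U k y :=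
  Set.ext fun _ => ⟨fun hx => At_trans hx h, fun hx => At_trans hx (At_symm h)⟩

/-- level of a point outside `P` -/
noncomputable def lv (U : ℕ → Set Y) (P : Set Y) (y : Y) : ℕ :=
  sInf {k | ∀ p ∈ P, p ∉ At U k y}

/-- basic hypotheses -/
structure Base (U : ℕ → Set Y) : Prop where
  clopen : ∀ i, IsClopen (U i)
  base : ∀ (O : Set Y) (y : Y), IsOpen O → y ∈ O →
      ∃ k : ℕ, ∀ z, (∀ i < k, (z ∈ U i ↔ y ∈ U i)) → z ∈ O

variable {U : ℕ → Set Y}

lemma Base.nhds (hB : Base U) {O : Set Y} {y : Y} (h : O ∈ 𝓝 y) : ∃ k, At U k y ⊆ O := by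
  obtain ⟨O', h1, h2, h3⟩ := mem_nhds_iff.1 h
  obtain ⟨k, hk⟩ := hB.base O' y h2 h3
  exact ⟨k, fun z hz => h1 (hk z hz)⟩

lemma Base.At_mem (hB : Base U) (k : ℕ) (y : Y) : At U k y ∈ 𝓝 y :=
  (At_clopen hB.clopen k y).isOpen.mem_nhds (self_mem_At U k y)

lemma lv_spec (hB : Base U) {P : Set Y} (hP : IsClosed P) {y : Y} (hy : y ∉ P) :
    ∀ p ∈ P, p ∉ At U (lv U P y) y := by
  have hne : {k | ∀ p ∈ P, p ∉ At U k y}.Nonempty := by
    obtain ⟨k, hk⟩ := hB.nhds (hP.isOpen_compl.mem_nhds hy)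
    exact ⟨k, fun p hp h => hk h hp⟩
  exact Nat.sInf_mem hne

omit [TopologicalSpace Y] in
lemma lv_min {P : Set Y} {y : Y} {k : ℕ} (hk : k < lv U P y) : ∃ p ∈ P, p ∈ At U k y := by
  by_contra hcon
  push Not at hcon
  exact absurd (Nat.sInf_le (s := {k | ∀ p ∈ P, p ∉ At U k y}) hcon) (not_le.2 hk)

lemma lt_lv (hB : Base U) {P : Set Y} (hP : IsClosed P) {y p : Y} (hy : y ∉ P) (hp : p ∈ P)
    {k : ℕ} (h : y ∈ At U k p) : k < lv U P y := by
  by_contra hcon
  exact lv_spec hB hP hy p hp (At_mono U (not_lt.1 hcon) y (At_symm h))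

lemma cell_spec (hB : Base U) {P : Set Y} (hP : IsClosed P) {y z : Y} (hy : y ∉ P)
    (hz : z ∈ At U (lv U P y) y) : z ∉ P ∧ lv U P z = lv U P y := by
  have h1 : z ∉ P := fun h => lv_spec hB hP hy z h hz
  refine ⟨h1, le_antisymm ?_ ?_⟩
  · refine Nat.sInf_le ?_
    intro p hp
    rw [At_eq hz]
    exact lv_spec hB hP hy p hp
  · by_contra hcon
    obtain ⟨p, hp, hp'⟩ := lv_min (not_le.1 hcon)
    refine lv_spec hB hP h1 p hp ?_
    exact At_trans hp' (At_symm (At_mono U (not_le.1 hcon).le y hz))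

open Classical in
/-- index of the cell of a point -/
noncomputable def Ix (U : ℕ → Set Y) (P : Set Y) (y : Y) : ℕ × Finset ℕ :=
  (lv U P y, (Finset.range (lv U P y)).filter (fun i => y ∈ U i))

lemma Ix_eq_iff (hB : Base U) {P : Set Y} (hP : IsClosed P) {y z : Y} (hy : y ∉ P) :
    Ix U P z = Ix U P y ∧ z ∉ P ↔ z ∈ At U (lv U P y) y := by
  classical
  constructor
  · rintro ⟨h, -⟩
    have h1 : lv U P z = lv U P y := congrArg Prod.fst h
    have h2 := congrArg Prod.snd h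
    simp only [Ix, h1] at h2
    intro i hi
    have := Finset.ext_iff.1 h2 i
    simpa [hi] using this
  · intro h
    obtain ⟨h1, h2⟩ := cell_spec hB hP hy h
    refine ⟨?_, h1⟩
    unfold Ix
    rw [h2]
    refine Prod.ext rfl ?_
    ext i
    simp only [Finset.mem_filter, Finset.mem_range]
    constructor
    · rintro ⟨hi, hz⟩
      exact ⟨hi, (h i hi).1 hz⟩
    · rintro ⟨hi, hz⟩
      exact ⟨hi, (h i hi).2 hz⟩

/-- data of one half of the back-and-forth -/
structure Half (U : ℕ → Set Y) (E : Y → Y → Prop) (P Q : Set Y) (f g : Y → Y)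
    (α : Y → Y) : Prop where
  maps : ∀ y ∉ P, α y ∉ Q
  E : ∀ y ∉ P, E y (α y)
  inj : InjOn α Pᶜ
  lvl : ∀ y ∉ P, lv U P y < lv U Q (α y)
  cont : ∀ y ∉ P, ContinuousAt α y
  opn : ∀ O : Set Y, IsOpen O → O ⊆ Pᶜ → IsOpen (α '' O)
  cls : ∀ K : Set Y, K ⊆ Pᶜ → IsClosed (K ∪ P) → IsClosed (α '' K ∪ Q)
  lim : ∀ p ∈ P, ∀ O ∈ 𝓝 (f p), ∀ᶠ y in 𝓝 p, y ∉ P → α y ∈ O
  lim' : ∀ q ∈ Q, ∀ O ∈ 𝓝 (g q), ∀ᶠ z in 𝓝 q, ∀ y ∉ P, α y = z → y ∈ O

theorem exists_half (hB : Base U) (E : Y → Y → Prop)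
    (emb : ∀ V : Set Y, IsClopen V → V.Nonempty → ∃ G : Y → Y,
      Topology.IsClosedEmbedding G ∧ IsOpenMap G ∧ (∀ y, G y ∈ V) ∧ ∀ y, E y (G y))
    (P Q : Set Y) (hP : IsClosed P) (hQ : IsClosed Q) (hPne : P.Nonempty)
    (hQ' : interior Q = ∅) (f g : Y → Y) (hf : ContinuousOn f P) (hg : ContinuousOn g Q)
    (hfm : MapsTo f P Q) (hgf : ∀ y ∈ P, g (f y) = y) :
    ∃ α, Half U E P Q f g α := by
  classical
  -- representatives of the cells
  let cell : ℕ × Finset ℕ → Prop := fun c => ∃ y, y ∉ P ∧ Ix U P y = c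
  have hlvpos : ∀ y ∉ P, 0 < lv U P y := by
    intro y hy
    obtain ⟨p, hp⟩ := hPne
    exact lt_lv hB hP hy hp (k := 0) (fun i hi => absurd hi (Nat.not_lt_zero i))
  have hpt : ∀ c, ∃ p, cell c → p ∈ P ∧ ∀ y, y ∉ P → Ix U P y = c → p ∈ At U (c.1 - 1) y := by
    intro c
    by_cases hc : cell c
    · obtain ⟨y, hy, hyc⟩ := hc
      have h1 : lv U P y = c.1 := congrArg Prod.fst hyc
      have h2 : c.1 - 1 < lv U P y := by have := hlvpos y hy; omega
      obtain ⟨p, hp, hp'⟩ := lv_min h2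
      refine ⟨p, fun _ => ⟨hp, fun z hz hzc => ?_⟩⟩
      have h3 : z ∈ At U (lv U P y) y := (Ix_eq_iff hB hP hy).1 ⟨hzc.trans hyc.symm, hz⟩
      exact At_trans hp' (At_symm (At_mono U (by omega) y h3))
    · obtain ⟨p, hp⟩ := hPne
      exact ⟨p, fun h => absurd h hc⟩
  choose pt hpt using hpt
  -- target cells
  have htar : ∀ n : ℕ, ∃ᶠ k in Filter.atTop, ∀ c, Encodable.encode c = n → cell c →
      ∃ t, t ∉ Q ∧ lv U Q t = k ∧ c.1 < k ∧ t ∈ At U c.1 (f (pt c)) := by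
    intro n
    rw [Filter.frequently_atTop]
    intro m
    by_cases hn : ∃ c, Encodable.encode c = n ∧ cell c
    · obtain ⟨c, hc, hcc⟩ := hn
      have hq : f (pt c) ∈ Q := hfm ((hpt c hcc).1)
      have : ¬ At U (max m c.1) (f (pt c)) ⊆ Q := by
        intro hsub
        have : f (pt c) ∈ interior Q :=
          mem_interior.2 ⟨_, hsub, (At_clopen hB.clopen _ _).isOpen, self_mem_At U _ _⟩
        rw [hQ'] at this
        exact this
      obtain ⟨t, ht, htQ⟩ := Set.not_subset.1 this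
      have hlt := lt_lv hB hQ htQ hq ht
      refine ⟨lv U Q t, by omega, ?_⟩
      intro c' hc' _
      have : c' = c := Encodable.encode_injective (hc'.trans hc.symm)
      subst this
      exact ⟨t, htQ, rfl, by omega, At_mono U (le_max_right _ _) _ ht⟩
    · exact ⟨m, le_rfl, fun c hc hcc => absurd ⟨c, hc, hcc⟩ hn⟩
  obtain ⟨φ, hφ, hφt⟩ := Filter.extraction_forall_of_frequently htar
  have htar' : ∀ c, ∃ t, cell c → t ∉ Q ∧ lv U Q t = φ (Encodable.encode c) ∧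
      c.1 < φ (Encodable.encode c) ∧ t ∈ At U c.1 (f (pt c)) := by
    intro c
    by_cases hc : cell c
    · obtain ⟨t, ht⟩ := hφt (Encodable.encode c) c rfl hc
      exact ⟨t, fun _ => ht⟩
    · obtain ⟨p, hp⟩ := hPne
      exact ⟨p, fun h => absurd h hc⟩
  choose t ht using htar'
  -- target sets
  let D : ℕ × Finset ℕ → Set Y := fun c => At U (lv U Q (t c)) (t c)
  have hDclopen : ∀ c, IsClopen (D c) := fun c => At_clopen hB.clopen _ _
  have hDQ : ∀ c, cell c → ∀ z ∈ D c, z ∉ Q ∧ lv U Q z = φ (Encodable.encode c) := by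
    intro c hc z hz
    obtain ⟨h1, h2⟩ := cell_spec hB hQ (ht c hc).1 hz
    exact ⟨h1, h2.trans (ht c hc).2.1⟩
  have hDf : ∀ c, cell c → D c ⊆ At U c.1 (f (pt c)) := by
    intro c hc z hz
    obtain ⟨-, h2, h3, h4⟩ := ht c hc
    refine At_trans (At_mono U ?_ _ hz) h4
    omega
  have hDinj : ∀ c c', cell c → cell c' → ∀ z, z ∈ D c → z ∈ D c' → c = c' := by
    intro c c' hc hc' z hz hz'
    have h1 := (hDQ c hc z hz).2
    have h2 := (hDQ c' hc' z hz').2
    exact Encodable.encode_injective (hφ.injective (h1.symm.trans h2))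
  have hG : ∀ c, ∃ G : Y → Y,
      Topology.IsClosedEmbedding G ∧ IsOpenMap G ∧ (∀ y, G y ∈ D c) ∧ ∀ y, E y (G y) :=
    fun c => emb (D c) (hDclopen c) ⟨t c, self_mem_At U _ _⟩
  choose G hGe hGo hGD hGE using hG
  have hcell : ∀ y ∉ P, cell (Ix U P y) := fun y hy => ⟨y, hy, rfl⟩
  refine ⟨fun y => G (Ix U P y) y, ?_⟩
  have hmem : ∀ y, G (Ix U P y) y ∈ D (Ix U P y) := fun y => hGD _ y
  constructor
  · intro y hy
    exact (hDQ _ (hcell y hy) _ (hmem y)).1
  · intro y hy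
    exact hGE _ y
  · intro y hy z hz hyz
    simp only at hyz
    have h1 : Ix U P y = Ix U P z :=
      hDinj _ _ (hcell y hy) (hcell z hz) _ (hmem y) (hyz ▸ hmem z)
    rw [h1] at hyz
    exact (hGe _).injective hyz
  · intro y hy
    have h1 := hDQ _ (hcell y hy) _ (hmem y)
    have h2 := (ht _ (hcell y hy)).2.2.1
    show lv U P y < lv U Q (G (Ix U P y) y)
    rw [h1.2]
    exact h2
  · intro y hy
    have h1 : (fun z => G (Ix U P z) z) =ᶠ[𝓝 y] G (Ix U P y) := by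
      filter_upwards [hB.At_mem (lv U P y) y] with z hz
      have := ((Ix_eq_iff hB hP hy).2 hz).1
      simp only [this]
    exact ((hGe _).continuous.continuousAt).congr h1.symm
  · intro O hO hOP
    rw [isOpen_iff_mem_nhds]
    rintro _ ⟨y, hy, rfl⟩
    have h1 : G (Ix U P y) '' (O ∩ At U (lv U P y) y) ∈ 𝓝 (G (Ix U P y) y) := by
      refine IsOpen.mem_nhds (hGo _ _ (hO.inter (At_clopen hB.clopen _ _).isOpen)) ?_
      exact ⟨y, ⟨hy, self_mem_At U _ _⟩, rfl⟩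
    refine Filter.mem_of_superset h1 ?_
    rintro _ ⟨z, ⟨hz, hz'⟩, rfl⟩
    refine ⟨z, hz, ?_⟩
    have := ((Ix_eq_iff hB hP (hOP hy)).2 hz').1
    simp only [this]
  · intro K hK hKP
    rw [← isOpen_compl_iff, isOpen_iff_mem_nhds]
    intro z hz
    have hzQ : z ∉ Q := fun h => hz (Or.inr h)
    have hzK : z ∉ (fun y => G (Ix U P y) y) '' K := fun h => hz (Or.inl h)
    have hcz : At U (lv U Q z) z ∈ 𝓝 z := hB.At_mem _ _
    by_cases hc : ∃ c, cell c ∧ z ∈ D c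
    · obtain ⟨c, hc, hzD⟩ := hc
      obtain ⟨y0, hy0, hy0c⟩ := hc
      have hc : cell c := ⟨y0, hy0, hy0c⟩
      have hcl : IsClosed (G c '' ((K ∪ P) ∩ At U (lv U P y0) y0)) :=
        (hGe c).isClosedMap _ (hKP.inter (At_clopen hB.clopen _ _).isClosed)
      have hzn : z ∉ G c '' ((K ∪ P) ∩ At U (lv U P y0) y0) := by
        rintro ⟨y, ⟨hy, hy'⟩, rfl⟩
        have h3 := (Ix_eq_iff hB hP hy0).2 hy'
        rcases hy with hy | hy
        · refine hzK ⟨y, hy, ?_⟩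
          simp only [h3.1, hy0c]
        · exact h3.2 hy
      filter_upwards [hcl.isOpen_compl.mem_nhds hzn, (hDclopen c).isOpen.mem_nhds hzD]
        with w hw1 hw2
      rintro (⟨y, hy, rfl⟩ | hw)
      · have h4 : Ix U P y = c := hDinj _ _ (hcell y (hK hy)) hc _ (hmem y) hw2
        refine hw1 ⟨y, ⟨Or.inl hy, ?_⟩, by simp only [h4]⟩
        exact (Ix_eq_iff hB hP hy0).1 ⟨h4.trans hy0c.symm, hK hy⟩
      · exact (hDQ c hc w hw2).1 hw
    · filter_upwards [hcz] with w hw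
      obtain ⟨h1, h2⟩ := cell_spec hB hQ hzQ hw
      rintro (⟨y, hy, rfl⟩ | hw)
      · refine hc ⟨Ix U P y, hcell y (hK hy), ?_⟩
        have h5 := (cell_spec hB hQ (ht _ (hcell y (hK hy))).1 (hmem y)).2
        have h6 := hmem y
        simp only [D] at h6 ⊢
        rw [← h5, h2] at h6 ⊢
        exact At_trans (At_symm hw) h6
      · exact h1 hw
  · intro p hp O hO
    obtain ⟨k, hk⟩ := hB.nhds hO
    have h1 : ∀ᶠ x in 𝓝[P] p, f x ∈ At U k (f p) := hf p hp (hB.At_mem k (f p))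
    obtain ⟨j, hj⟩ := hB.nhds (mem_nhdsWithin_iff_exists_mem_nhds_inter.1 h1).choose_spec.1
    have hj' : ∀ x ∈ P, x ∈ At U j p → f x ∈ At U k (f p) := fun x hx hx' =>
      (mem_nhdsWithin_iff_exists_mem_nhds_inter.1 h1).choose_spec.2 ⟨hj hx', hx⟩
    filter_upwards [hB.At_mem (max j k + 1) p] with y hy hyP
    have h2 := lt_lv hB hP hyP hp hy
    have hc := hcell y hyP
    obtain ⟨h3, h4⟩ := hpt _ hc
    have h5 := h4 y hyP rfl
    have h6 : pt (Ix U P y) ∈ At U j p :=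
      At_trans (At_mono U (show j ≤ (Ix U P y).1 - 1 by show j ≤ lv U P y - 1; omega) _ h5)
        (At_mono U (by omega) _ hy)
    have h7 := hj' _ h3 h6
    have h8 := hDf _ hc (hmem y)
    refine hk (At_trans (At_mono U (show k ≤ (Ix U P y).1 by show k ≤ lv U P y; omega) _ h8) h7)
  · intro q hq O hO
    obtain ⟨k, hk⟩ := hB.nhds hO
    have h1 : ∀ᶠ x in 𝓝[Q] q, g x ∈ At U k (g q) := hg q hq (hB.At_mem k (g q))
    obtain ⟨j, hj⟩ := hB.nhds (mem_nhdsWithin_iff_exists_mem_nhds_inter.1 h1).choose_spec.1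
    have hj' : ∀ x ∈ Q, x ∈ At U j q → g x ∈ At U k (g q) := fun x hx hx' =>
      (mem_nhdsWithin_iff_exists_mem_nhds_inter.1 h1).choose_spec.2 ⟨hj hx', hx⟩
    let F : Finset (ℕ × Finset ℕ) :=
      (Finset.range (max j k + 2)) ×ˢ (Finset.range (max j k + 2)).powerset
    have hF : ∀ᶠ z in 𝓝 q, ∀ c ∈ F, cell c → z ∉ D c := by
      rw [Filter.eventually_all_finset]
      intro c _
      by_cases hc : cell c
      · have : q ∉ D c := fun h => (hDQ c hc q h).1 hq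
        filter_upwards [(hDclopen c).compl.isOpen.mem_nhds this] with z hz _
        exact hz
      · exact Filter.Eventually.of_forall fun z h => absurd h hc
    filter_upwards [hF, hB.At_mem j q] with z hz1 hz2 y hyP hyz
    subst hyz
    have hc := hcell y hyP
    have h2 : Ix U P y ∉ F := fun h => hz1 _ h hc (hmem y)
    have h3 : max j k + 2 ≤ lv U P y := by
      by_contra hcon
      apply h2
      simp only [F, Finset.mem_product, Finset.mem_range, Finset.mem_powerset]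
      refine ⟨not_le.1 hcon, ?_⟩
      intro i hi
      have := (Finset.mem_filter.1 hi).1
      rw [Finset.mem_range] at this ⊢
      omega
    obtain ⟨h4, h5⟩ := hpt _ hc
    have h6 := h5 y hyP rfl
    have h8 := hDf _ hc (hmem y)
    have h9 : f (pt (Ix U P y)) ∈ At U j q := by
      refine At_trans (At_symm (At_mono U (show j ≤ (Ix U P y).1 by show j ≤ lv U P y; omega) _ h8)) hz2
    have h10 := hj' _ (hfm h4) h9
    rw [hgf _ h4] at h10
    refine hk (At_trans (At_symm ?_) h10)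
    exact At_mono U (show k ≤ (Ix U P y).1 - 1 by show k ≤ lv U P y - 1; omega) _ h6

/-- gluing lemma for continuity -/
lemma glue_cont {P Q : Set Y} {f g α β h : Y → Y} {E : Y → Y → Prop} (hQ : IsClosed Q)
    (hf : ContinuousOn f P) (hα : Half U E P Q f g α) (hβ : Half U E Q P g f β)
    (A B : Set Y) (hA : IsOpen A) (hB : IsOpen B) (hAP : A ⊆ Pᶜ)
    (hcov : ∀ y, y ∈ P ∨ y ∈ A ∨ y ∈ B)
    (hh1 : ∀ y ∈ P, h y = f y) (hh2 : ∀ y ∈ A, h y = α y)
    (hh3 : ∀ y ∈ B, h y ∉ Q ∧ β (h y) = y) : Continuous h := by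
  rw [continuous_iff_continuousAt]
  intro y
  rcases hcov y with hy | hy | hy
  · intro O hO
    rw [hh1 y hy] at hO
    have h1 : ∀ᶠ x in 𝓝[P] y, f x ∈ O := hf y hy hO
    rw [eventually_nhdsWithin_iff] at h1
    have h2 := hα.lim y hy O hO
    have h3 := hβ.lim' y hy O hO
    show ∀ᶠ x in 𝓝 y, h x ∈ O
    filter_upwards [h1, h2, h3] with x hx1 hx2 hx3
    rcases hcov x with hx | hx | hx
    · rw [hh1 x hx]
      exact hx1 hx
    · rw [hh2 x hx]
      exact hx2 (hAP hx)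
    · exact hx3 _ (hh3 x hx).1 (hh3 x hx).2
  · refine (hα.cont y (hAP hy)).congr ?_
    filter_upwards [hA.mem_nhds hy] with z hz
    exact (hh2 z hz).symm
  · intro O hO
    obtain ⟨O', h1, h2, h3⟩ := mem_nhds_iff.1 hO
    have h4 : IsOpen (β '' (O' ∩ Qᶜ)) := hβ.opn _ (h2.inter hQ.isOpen_compl) inter_subset_right
    have h5 : y ∈ β '' (O' ∩ Qᶜ) := ⟨h y, ⟨h3, (hh3 y hy).1⟩, (hh3 y hy).2⟩
    show ∀ᶠ x in 𝓝 y, h x ∈ O
    filter_upwards [h4.mem_nhds h5, hB.mem_nhds hy] with x hx1 hx2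
    obtain ⟨z, ⟨hz1, hz2⟩, hz3⟩ := hx1
    have h6 : h x = z := hβ.inj (hh3 x hx2).1 hz2 ((hh3 x hx2).2.trans hz3.symm)
    rw [h6]
    exact h1 hz1

end Ext

open Ext in
theorem extend {Y : Type*} [TopologicalSpace Y] (U : ℕ → Set Y) (hU : ∀ i, IsClopen (U i))
    (hbase : ∀ (O : Set Y) (y : Y), IsOpen O → y ∈ O →
      ∃ k : ℕ, ∀ z, (∀ i < k, (z ∈ U i ↔ y ∈ U i)) → z ∈ O)
    (E : Y → Y → Prop) (hE : Equivalence E)
    (emb : ∀ V : Set Y, IsClopen V → V.Nonempty → ∃ G : Y → Y,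
      Topology.IsClosedEmbedding G ∧ IsOpenMap G ∧ (∀ y, G y ∈ V) ∧ ∀ y, E y (G y))
    (P Q : Set Y) (hP : IsClosed P) (hQ : IsClosed Q) (hP' : interior P = ∅)
    (hQ' : interior Q = ∅) (f g : Y → Y) (hf : ContinuousOn f P) (hg : ContinuousOn g Q)
    (hfm : MapsTo f P Q) (hgm : MapsTo g Q P) (hgf : ∀ y ∈ P, g (f y) = y)
    (hfg : ∀ y ∈ Q, f (g y) = y) (hfE : ∀ y ∈ P, E y (f y)) :
    ∃ H : Y ≃ₜ Y, (∀ y ∈ P, H y = f y) ∧ ∀ y, E y (H y) := by
  classical
  have hB : Base U := ⟨hU, hbase⟩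
  rcases P.eq_empty_or_nonempty with hPe | hPne
  · exact ⟨Homeomorph.refl Y, fun y hy => by simp [hPe] at hy, fun y => hE.refl y⟩
  have hQne : Q.Nonempty := hPne.image f |>.mono (Set.image_subset_iff.2 hfm)
  obtain ⟨α, hα⟩ := exists_half hB E emb P Q hP hQ hPne hQ' f g hf hg hfm hgf
  obtain ⟨β, hβ⟩ := exists_half hB E emb Q P hQ hP hQne hP' g f hg hf hgm hfg
  -- the sets `T n`
  let T : ℕ → Set Y := fun n => Nat.rec (Pᶜ \ β '' Qᶜ) (fun _ S => β '' (α '' S)) n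
  have hT0 : T 0 = Pᶜ \ β '' Qᶜ := rfl
  have hTs : ∀ n, T (n + 1) = β '' (α '' T n) := fun _ => rfl
  have hTP : ∀ n, T n ⊆ Pᶜ := by
    intro n
    induction n with
    | zero => rw [hT0]; exact sdiff_subset
    | succ n ih =>
      rw [hTs]
      rintro _ ⟨_, ⟨y, hy, rfl⟩, rfl⟩
      exact hβ.maps _ (hα.maps _ (ih hy))
  have hTo : ∀ n, IsOpen (T n) := by
    intro n
    induction n with
    | zero =>
      have h1 := hβ.cls Qᶜ subset_rfl (by simp)
      have h2 : T 0 = (β '' Qᶜ ∪ P)ᶜ := by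
        rw [hT0]
        ext y
        simp only [mem_sdiff, mem_compl_iff, mem_union]
        tauto
      rw [h2]
      exact h1.isOpen_compl
    | succ n ih =>
      rw [hTs]
      refine hβ.opn _ (hα.opn _ ih (hTP n)) ?_
      rintro _ ⟨y, hy, rfl⟩
      exact hα.maps _ (hTP n hy)
  have hTc : ∀ n, IsClosed (T n ∪ P) := by
    intro n
    induction n with
    | zero =>
      have h1 := hβ.opn Qᶜ hQ.isOpen_compl subset_rfl
      have h2 : T 0 ∪ P = (β '' Qᶜ)ᶜ := by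
        rw [hT0]
        ext y
        simp only [mem_sdiff, mem_compl_iff, mem_union]
        constructor
        · rintro (h | h)
          · exact h.2
          · rintro ⟨z, hz, rfl⟩
            exact hβ.maps z hz h
        · intro h
          by_cases hy : y ∈ P
          · exact Or.inr hy
          · exact Or.inl ⟨hy, h⟩
      rw [h2]
      exact h1.isClosed_compl
    | succ n ih =>
      rw [hTs]
      refine hβ.cls _ ?_ (hα.cls _ (hTP n) ih)
      rintro _ ⟨y, hy, rfl⟩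
      exact hα.maps _ (hTP n hy)
  have hTl : ∀ n, ∀ y ∈ T n, n ≤ lv U P y := by
    intro n
    induction n with
    | zero => intro y _; exact Nat.zero_le _
    | succ n ih =>
      rw [hTs]
      rintro _ ⟨_, ⟨y, hy, rfl⟩, rfl⟩
      have h1 := ih y hy
      have h2 := hα.lvl y (hTP n hy)
      have h3 := hβ.lvl (α y) (hα.maps _ (hTP n hy))
      omega
  let S : Set Y := ⋃ n, T n
  have hSP : S ⊆ Pᶜ := iUnion_subset hTP
  have hSo : IsOpen S := isOpen_iUnion hTo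
  have hSc : IsClosed (S ∪ P) := by
    rw [← isOpen_compl_iff, isOpen_iff_mem_nhds]
    intro y hy
    have hyP : y ∉ P := fun h => hy (Or.inr h)
    have hyS : y ∉ S := fun h => hy (Or.inl h)
    have h1 : ∀ᶠ z in 𝓝 y, ∀ n ∈ Finset.range (lv U P y + 1), z ∉ T n := by
      rw [Filter.eventually_all_finset]
      intro n _
      have h2 : y ∉ T n ∪ P := by
        rintro (h | h)
        · exact hyS (mem_iUnion.2 ⟨n, h⟩)
        · exact hyP h
      filter_upwards [(hTc n).isOpen_compl.mem_nhds h2] with z hz h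
      exact hz (Or.inl h)
    filter_upwards [h1, hB.At_mem (lv U P y) y] with z hz1 hz2
    obtain ⟨h3, h4⟩ := cell_spec hB hP hyP hz2
    rintro (h | h)
    · obtain ⟨n, hn⟩ := mem_iUnion.1 h
      refine hz1 n ?_ hn
      have := hTl n z hn
      rw [Finset.mem_range]
      omega
    · exact h3 h
  -- `β` and `α` inverses
  have hbinv : ∀ y, ∃ z, y ∉ P → y ∉ S → z ∉ Q ∧ β z = y := by
    intro y
    by_cases h : y ∉ P ∧ y ∉ S
    · have h1 : y ∉ T 0 := fun h2 => h.2 (mem_iUnion.2 ⟨0, h2⟩)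
      rw [hT0] at h1
      by_cases h2 : y ∈ β '' Qᶜ
      · obtain ⟨z, hz, rfl⟩ := h2
        exact ⟨z, fun _ _ => ⟨hz, rfl⟩⟩
      · exact absurd ⟨h.1, h2⟩ h1
    · exact ⟨y, fun h1 h2 => absurd ⟨h1, h2⟩ h⟩
  choose bi hbi using hbinv
  have hainv : ∀ z, ∃ y, z ∈ α '' S → y ∈ S ∧ α y = z := by
    intro z
    by_cases h : z ∈ α '' S
    · obtain ⟨y, hy, rfl⟩ := h
      exact ⟨y, fun _ => ⟨hy, rfl⟩⟩
    · exact ⟨z, fun h1 => absurd h1 h⟩
  choose ai hai using hainv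
  have hβS : ∀ z, z ∉ Q → z ∉ α '' S → β z ∉ S := by
    intro z hz hzS h
    obtain ⟨n, hn⟩ := mem_iUnion.1 h
    cases n with
    | zero =>
      rw [hT0] at hn
      exact hn.2 ⟨z, hz, rfl⟩
    | succ n =>
      rw [hTs] at hn
      obtain ⟨_, ⟨y, hy, rfl⟩, hy'⟩ := hn
      have := hβ.inj (hα.maps _ (hTP n hy)) hz hy'
      exact hzS ⟨y, mem_iUnion.2 ⟨n, hy⟩, this⟩
  have hαS : ∀ z ∈ α '' S, z ∉ Q ∧ β z ∈ S := by
    rintro _ ⟨y, hy, rfl⟩
    refine ⟨hα.maps _ (hSP hy), ?_⟩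
    obtain ⟨n, hn⟩ := mem_iUnion.1 hy
    exact mem_iUnion.2 ⟨n + 1, by rw [hTs]; exact ⟨_, ⟨y, hn, rfl⟩, rfl⟩⟩
  let H : Y → Y := fun y => if y ∈ P then f y else if y ∈ S then α y else bi y
  let K : Y → Y := fun z => if z ∈ Q then g z else if z ∈ α '' S then ai z else β z
  have hH1 : ∀ y ∈ P, H y = f y := fun y hy => by simp only [H, if_pos hy]
  have hH2 : ∀ y ∈ S, H y = α y := fun y hy => by
    simp only [H, if_neg (hSP hy), if_pos hy]
  have hH3 : ∀ y, y ∉ P → y ∉ S → H y = bi y := fun y h1 h2 => by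
    simp only [H, if_neg h1, if_neg h2]
  have hK1 : ∀ y ∈ Q, K y = g y := fun y hy => by simp only [K, if_pos hy]
  have hK2 : ∀ y ∈ α '' S, K y = ai y := fun y hy => by
    simp only [K, if_neg (hαS y hy).1, if_pos hy]
  have hK3 : ∀ y, y ∉ Q → y ∉ α '' S → K y = β y := fun y h1 h2 => by
    simp only [K, if_neg h1, if_neg h2]
  have hKH : ∀ y, K (H y) = y := by
    intro y
    by_cases hy : y ∈ P
    · rw [hH1 y hy, hK1 _ (hfm hy), hgf y hy]
    · by_cases hyS : y ∈ S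
      · have h1 : α y ∈ α '' S := ⟨y, hyS, rfl⟩
        rw [hH2 y hyS, hK2 _ h1]
        exact hα.inj (hSP (hai _ h1).1) hy (hai _ h1).2
      · obtain ⟨h1, h2⟩ := hbi y hy hyS
        have h3 : bi y ∉ α '' S := fun h => hyS (h2 ▸ (hαS _ h).2)
        rw [hH3 y hy hyS, hK3 _ h1 h3, h2]
  have hHK : ∀ y, H (K y) = y := by
    intro y
    by_cases hy : y ∈ Q
    · rw [hK1 y hy, hH1 _ (hgm hy), hfg y hy]
    · by_cases hyS : y ∈ α '' S
      · rw [hK2 y hyS, hH2 _ (hai _ hyS).1]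
        exact (hai _ hyS).2
      · have h1 := hβ.maps y hy
        have h2 := hβS y hy hyS
        obtain ⟨h3, h4⟩ := hbi (β y) h1 h2
        rw [hK3 y hy hyS, hH3 _ h1 h2]
        exact hβ.inj h3 hy h4
  have hHc : Continuous H := by
    refine glue_cont hQ hf hα hβ S (S ∪ P)ᶜ hSo hSc.isOpen_compl hSP ?_ hH1 hH2 ?_
    · intro y
      simp only [mem_compl_iff, mem_union]
      tauto
    · intro y hy
      have h1 : y ∉ P := fun h => hy (Or.inr h)
      have h2 : y ∉ S := fun h => hy (Or.inl h)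
      rw [hH3 y h1 h2]
      exact hbi y h1 h2
  have hKc : Continuous K := by
    refine glue_cont hP hg hβ hα (α '' S ∪ Q)ᶜ (α '' S) ?_ ?_ ?_ ?_ hK1 ?_ ?_
    · exact (hα.cls S hSP hSc).isOpen_compl
    · exact hα.opn S hSo hSP
    · intro y hy h
      exact hy (Or.inr h)
    · intro y
      simp only [mem_compl_iff, mem_union]
      tauto
    · intro y hy
      exact hK3 y (fun h => hy (Or.inr h)) (fun h => hy (Or.inl h))
    · intro y hy
      rw [hK2 y hy]
      exact ⟨hSP (hai _ hy).1, (hai _ hy).2⟩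
  refine ⟨⟨⟨H, K, hKH, hHK⟩, hHc, hKc⟩, hH1, ?_⟩
  intro y
  show E y (H y)
  by_cases hy : y ∈ P
  · rw [hH1 y hy]; exact hfE y hy
  · by_cases hyS : y ∈ S
    · rw [hH2 y hyS]; exact hα.E y hy
    · obtain ⟨h1, h2⟩ := hbi y hy hyS
      rw [hH3 y hy hyS]
      have := hβ.E _ h1
      rw [h2] at this
      exact hE.symm this

end TuringBaire
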