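import Pool.Agent.TuringBaire.Defs

/-!
# MP_a48249_lc, module M5: local homeomorphisms inside an equivalence relation are covered by
countably many homeomorphisms; a countable family of homeomorphisms gives a countable group.
-/

namespace TuringBaire

open Set Topology

section Swap

variable {Y : Type*} [TopologicalSpace Y]

open Classical in
/-- the involution exchanging `W` and `f '' W = {z ∈ B | g z ∈ W}` -/
noncomputable def swapFun (B W : Set Y) (f g : Y → Y) (z : Y) : Y :=
  if z ∈ W then f z else if z ∈ B ∧ g z ∈ W then g z else z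

omit [TopologicalSpace Y] in
theorem swapFun_invol {A B W : Set Y} {f g : Y → Y} (hW : W ⊆ A)
    (hfm : MapsTo f A B) (hgf : ∀ y ∈ A, g (f y) = y)
    (hfg : ∀ y ∈ B, f (g y) = y) (hd : ∀ z ∈ W, f z ∉ W) (z : Y) :
    swapFun B W f g (swapFun B W f g z) = z := by
  by_cases h1 : z ∈ W
  · have e1 : swapFun B W f g z = f z := by simp [swapFun, h1]
    have h2 : f z ∉ W := hd z h1
    have h3 : f z ∈ B ∧ g (f z) ∈ W := ⟨hfm (hW h1), by rw [hgf z (hW h1)]; exact h1⟩
    rw [e1]
    simp only [swapFun, h2, if_false, h3, and_self, if_true]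
    exact hgf z (hW h1)
  · by_cases h2 : z ∈ B ∧ g z ∈ W
    · have e1 : swapFun B W f g z = g z := by
        simp only [swapFun, h1, if_false, h2, and_self, if_true]
      rw [e1]
      simp only [swapFun, h2.2, if_true]
      exact hfg z h2.1
    · have e1 : swapFun B W f g z = z := by
        simp only [swapFun, h1, if_false, h2]
      rw [e1, e1]

theorem swapFun_cont {A B W : Set Y} {f g : Y → Y} (hA : IsClopen A) (hB : IsClopen B)
    (hWc : IsClopen W) (hW : W ⊆ A) (hf : ContinuousOn f A) (hg : ContinuousOn g B) :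
    Continuous (swapFun B W f g) := by
  have hW2 : IsOpen {z | z ∈ B ∧ g z ∈ W} := hg.isOpen_inter_preimage hB.isOpen hWc.isOpen
  have hW3 : IsOpen {z | z ∈ B ∧ g z ∈ Wᶜ} :=
    hg.isOpen_inter_preimage hB.isOpen hWc.compl.isOpen
  rw [continuous_iff_continuousAt]
  intro z
  by_cases h1 : z ∈ W
  · have hev : swapFun B W f g =ᶠ[𝓝 z] f := by
      filter_upwards [hWc.isOpen.mem_nhds h1] with y hy
      simp [swapFun, hy]
    exact (hf.continuousAt (hA.isOpen.mem_nhds (hW h1))).congr hev.symm
  · by_cases h2 : z ∈ B ∧ g z ∈ W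
    · have hev : swapFun B W f g =ᶠ[𝓝 z] g := by
        filter_upwards [hWc.compl.isOpen.mem_nhds h1, hW2.mem_nhds h2] with y hy hy2
        have hy' : y ∉ W := hy
        have hy2' : y ∈ B ∧ g y ∈ W := hy2
        simp only [swapFun, hy', if_false, hy2', and_self, if_true]
      exact (hg.continuousAt (hB.isOpen.mem_nhds h2.1)).congr hev.symm
    · have hev : swapFun B W f g =ᶠ[𝓝 z] id := by
        by_cases h3 : z ∈ B
        · have h4 : g z ∈ Wᶜ := fun h => h2 ⟨h3, h⟩
          filter_upwards [hWc.compl.isOpen.mem_nhds h1, hW3.mem_nhds ⟨h3, h4⟩] with y hy hy2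
          have hy' : y ∉ W := hy
          have hy2' : ¬ (y ∈ B ∧ g y ∈ W) := fun h => hy2.2 h.2
          simp only [swapFun, hy', if_false, hy2', id]
        · filter_upwards [hWc.compl.isOpen.mem_nhds h1, hB.compl.isOpen.mem_nhds h3] with y hy hy2
          have hy' : y ∉ W := hy
          have hy2' : ¬ (y ∈ B ∧ g y ∈ W) := fun h => hy2 h.1
          simp only [swapFun, hy', if_false, hy2', id]
      exact continuousAt_id.congr hev.symm

/-- two points agreeing on all `U i` are in the same open sets -/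
theorem agree_open {U : ℕ → Set Y}
    (hbase : ∀ (O : Set Y) (y : Y), IsOpen O → y ∈ O →
      ∃ k : ℕ, ∀ z, (∀ i < k, (z ∈ U i ↔ y ∈ U i)) → z ∈ O)
    {y z : Y} (h : ∀ i, (z ∈ U i ↔ y ∈ U i)) {O : Set Y} (hO : IsOpen O) : z ∈ O ↔ y ∈ O := by
  constructor
  · intro hz
    obtain ⟨k, hk⟩ := hbase O z hO hz
    exact hk y fun i _ => (h i).symm
  · intro hy
    obtain ⟨k, hk⟩ := hbase O y hO hy
    exact hk z fun i _ => h i

theorem clopen_cover (U : ℕ → Set Y) (hU : ∀ i, IsClopen (U i))
    (hbase : ∀ (O : Set Y) (y : Y), IsOpen O → y ∈ O →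
      ∃ k : ℕ, ∀ z, (∀ i < k, (z ∈ U i ↔ y ∈ U i)) → z ∈ O)
    (E : Y → Y → Prop) (hE : Equivalence E)
    (A B : Set Y) (hA : IsClopen A) (hB : IsClopen B) (f g : Y → Y) (hf : ContinuousOn f A)
    (hg : ContinuousOn g B)
    (hfm : MapsTo f A B) (hgm : MapsTo g B A) (hgf : ∀ y ∈ A, g (f y) = y)
    (hfg : ∀ y ∈ B, f (g y) = y) (hfE : ∀ y ∈ A, E y (f y)) :
    ∃ H : ℕ → Y ≃ₜ Y, (∀ i y, E y (H i y)) ∧ ∀ y ∈ A, ∃ i, H i y = f y := by
  classical
  -- the swap homeomorphisms
  have hswap : ∀ W : Set Y, IsClopen W → W ⊆ A → (∀ z ∈ W, f z ∉ W) →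
      ∃ H : Y ≃ₜ Y, (∀ y, E y (H y)) ∧ ∀ y ∈ W, H y = f y := by
    intro W hWc hW hd
    refine ⟨{ toFun := swapFun B W f g
              invFun := swapFun B W f g
              left_inv := swapFun_invol hW hfm hgf hfg hd
              right_inv := swapFun_invol hW hfm hgf hfg hd
              continuous_toFun := swapFun_cont hA hB hWc hW hf hg
              continuous_invFun := swapFun_cont hA hB hWc hW hf hg }, ?_, ?_⟩
    · intro y
      change E y (swapFun B W f g y)
      unfold swapFun
      split_ifs with h1 h2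
      · exact hfE y (hW h1)
      · have := hfE (g y) (hgm h2.1)
        rw [hfg y h2.1] at this
        exact hE.symm this
      · exact hE.refl y
    · intro y hy
      change swapFun B W f g y = f y
      simp [swapFun, hy]
  -- the homeomorphism for the points not separated from their image
  let Z : Set Y := {y | y ∈ A ∧ ∀ O : Set Y, IsOpen O → (f y ∈ O ↔ y ∈ O)}
  have hZB : ∀ y ∈ Z, y ∈ B := fun y hy => (hy.2 B hB.isOpen).1 (hfm hy.1)
  have hfZ : ∀ y ∈ Z, f y ∈ Z := by
    intro y hy
    have hfyA : f y ∈ A := (hy.2 A hA.isOpen).2 hy.1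
    refine ⟨hfyA, fun O hO => ?_⟩
    have hO' : IsOpen (A ∩ f ⁻¹' O) := hf.isOpen_inter_preimage hA.isOpen hO
    have := hy.2 _ hO'
    constructor
    · intro h
      exact (this.1 ⟨hfyA, h⟩).2
    · intro h
      exact (this.2 ⟨hy.1, h⟩).2
  have hgZ : ∀ y ∈ Z, g y ∈ Z := by
    intro y hy
    have hyB := hZB y hy
    refine ⟨hgm hyB, fun O hO => ?_⟩
    rw [hfg y hyB]
    have hO' : IsOpen (B ∩ g ⁻¹' O) := hg.isOpen_inter_preimage hB.isOpen hO
    have := hy.2 _ hO'
    constructor
    · intro h
      exact (this.1 ⟨hfm hy.1, by simpa [hgf y hy.1] using h⟩).2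
    · intro h
      have h2 := (this.2 ⟨hyB, h⟩).2
      simpa [hgf y hy.1] using h2
  have hZhomeo : ∃ H : Y ≃ₜ Y, (∀ y, E y (H y)) ∧ ∀ y ∈ Z, H y = f y := by
    have hop : ∀ (u : Y → Y), (∀ y, ∀ O : Set Y, IsOpen O → (u y ∈ O ↔ y ∈ O)) →
        Continuous u := by
      intro u hu
      refine continuous_def.2 fun O hO => ?_
      have : u ⁻¹' O = O := by
        ext y
        exact hu y O hO
      rw [this]
      exact hO
    refine ⟨{ toFun := fun y => if y ∈ Z then f y else y
              invFun := fun y => if y ∈ Z then g y else y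
              left_inv := ?_
              right_inv := ?_
              continuous_toFun := ?_
              continuous_invFun := ?_ }, ?_, ?_⟩
    · intro y
      by_cases hy : y ∈ Z
      · simp only [hy, if_true, hfZ y hy]
        exact hgf y hy.1
      · simp only [hy, if_false]
    · intro y
      by_cases hy : y ∈ Z
      · simp only [hy, if_true, hgZ y hy]
        exact hfg y (hZB y hy)
      · simp only [hy, if_false]
    · refine hop _ fun y O hO => ?_
      by_cases hy : y ∈ Z
      · simp only [hy, if_true]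
        exact hy.2 O hO
      · simp only [hy, if_false]
    · refine hop _ fun y O hO => ?_
      by_cases hy : y ∈ Z
      · simp only [hy, if_true]
        have := (hgZ y hy).2 O hO
        rw [hfg y (hZB y hy)] at this
        exact this.symm
      · simp only [hy, if_false]
    · intro y
      change E y (if y ∈ Z then f y else y)
      split_ifs with hy
      · exact hfE y hy.1
      · exact hE.refl y
    · intro y hy
      change (if y ∈ Z then f y else y) = f y
      simp [hy]
  obtain ⟨H0, hH0E, hH0⟩ := hZhomeo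
  -- the pattern sets
  let W : ℕ × Finset ℕ → Set Y := fun p => {z | ∀ i < p.1, (z ∈ U i ↔ i ∈ p.2)}
  have hWc : ∀ p, IsClopen (W p) := by
    rintro ⟨k, s⟩
    have : W (k, s) = ⋂ i ∈ Finset.range k, (if i ∈ s then U i else (U i)ᶜ) := by
      ext z
      simp only [W, mem_ofPred_eq, mem_iInter, Finset.mem_range]
      refine forall₂_congr fun i _ => ?_
      by_cases hi : i ∈ s
      · simp [hi]
      · simp [hi]
    rw [this]
    refine isClopen_biInter_finset fun i _ => ?_
    split_ifs
    · exact hU i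
    · exact (hU i).compl
  have hH1 : ∀ p : ℕ × Finset ℕ, ∃ H : Y ≃ₜ Y, (∀ y, E y (H y)) ∧
      ((W p ⊆ A ∧ ∀ z ∈ W p, f z ∉ W p) → ∀ y ∈ W p, H y = f y) := by
    intro p
    by_cases hp : W p ⊆ A ∧ ∀ z ∈ W p, f z ∉ W p
    · obtain ⟨H, h1, h2⟩ := hswap (W p) (hWc p) hp.1 hp.2
      exact ⟨H, h1, fun _ => h2⟩
    · exact ⟨Homeomorph.refl Y, fun y => hE.refl y, fun h => absurd h hp⟩
  choose H1 hH1E hH1f using hH1
  obtain ⟨e, he⟩ := exists_surjective_nat (Option (ℕ × Finset ℕ))
  refine ⟨fun n => match e n with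
    | none => H0
    | some p => H1 p, ?_, ?_⟩
  · intro i y
    cases h : e i with
    | none => simpa [h] using hH0E y
    | some p => simpa [h] using hH1E p y
  · intro y hy
    by_cases hyZ : y ∈ Z
    · obtain ⟨n, hn⟩ := he none
      exact ⟨n, by simpa [hn] using hH0 y hyZ⟩
    · -- separate
      have h1 : ¬ ∀ i, (f y ∈ U i ↔ y ∈ U i) := by
        intro h
        exact hyZ ⟨hy, fun O hO => agree_open hbase h hO⟩
      push Not at h1
      obtain ⟨i, hi⟩ := h1
      have h2 : ∃ S : Set Y, IsClopen S ∧ y ∈ S ∧ f y ∉ S := by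
        by_cases hyi : y ∈ U i
        · refine ⟨U i, hU i, hyi, fun h => ?_⟩
          rcases hi with hi | hi
          · exact hi.2 hyi
          · exact hi.1 h
        · refine ⟨(U i)ᶜ, (hU i).compl, hyi, fun h => ?_⟩
          rcases hi with hi | hi
          · exact h hi.1
          · exact hyi hi.2
      obtain ⟨S, hS, hyS, hfS⟩ := h2
      have hO : IsOpen (S ∩ (A ∩ f ⁻¹' Sᶜ)) :=
        hS.isOpen.inter (hf.isOpen_inter_preimage hA.isOpen hS.compl.isOpen)
      obtain ⟨k, hk⟩ := hbase _ y hO ⟨hyS, hy, hfS⟩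
      let p : ℕ × Finset ℕ := (k, (Finset.range k).filter (fun i => y ∈ U i))
      have hyW : y ∈ W p := by
        intro i hi
        have hi' : i < k := hi
        simp [p, hi']
      have hWsub : W p ⊆ S ∩ (A ∩ f ⁻¹' Sᶜ) := by
        intro z hz
        refine hk z fun i hi => ?_
        have := hz i hi
        simpa [p, hi] using this
      obtain ⟨n, hn⟩ := he (some p)
      refine ⟨n, ?_⟩
      have := hH1f p ⟨fun z hz => (hWsub hz).2.1, fun z hz hz' =>
        (hWsub hz).2.2 (hWsub hz').1⟩ y hyW
      simpa [hn] using this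

end Swap

section Grp

theorem group_of_homeos {Y : Type} [TopologicalSpace Y] (π : X ≃ Y) (φ : Y ≃ₜ (ℕ → ℕ))
    (hF : ∀ U : Set Y, IsOpen U → Fsig (π ⁻¹' U))
    {E : X → X → Prop} (hE : Equivalence E)
    (H : ℕ → Y ≃ₜ Y) (hH : ∀ i x, E x (π.symm (H i (π x))))
    (hcov : ∀ x y, E x y → ∃ i, π.symm (H i (π x)) = y) :
    ∃ (Γ : Type) (_ : Group Γ) (_ : MulAction Γ (ℕ → ℕ)), Countable Γ ∧
      (∀ γ : Γ, Continuous fun u : ℕ → ℕ => γ • u) ∧
      ∃ Φ : X → ℕ → ℕ, Function.Bijective Φ ∧ (∀ V : Set (ℕ → ℕ), IsOpen V → Fsig (Φ ⁻¹' V)) ∧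
        ∀ x y, E x y ↔ ∃ γ : Γ, γ • Φ x = Φ y := by
  classical
  -- the group of homeomorphisms of the Baire space
  let G := (ℕ → ℕ) ≃ₜ (ℕ → ℕ)
  let gen : ℕ → G := fun i => (φ.symm.trans (H i)).trans φ
  let L : FreeGroup ℕ →* G := FreeGroup.lift gen
  let act : MulAction (FreeGroup ℕ) (ℕ → ℕ) :=
    { smul := fun γ u => L γ u
      one_smul := fun u => by
        change L 1 u = u
        rw [map_one]
        rfl
      mul_smul := fun a b u => by
        change L (a * b) u = L a (L b u)
        rw [map_mul]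
        rfl }
  refine ⟨FreeGroup ℕ, inferInstance, act, ?_, fun γ => (L γ).continuous,
    fun x => φ (π x), ?_, ?_, ?_⟩
  · unfold FreeGroup
    infer_instance
  · exact φ.bijective.comp π.bijective
  · intro V hV
    exact hF (φ ⁻¹' V) (φ.continuous.isOpen_preimage V hV)
  · -- orbits
    let S : Subgroup G :=
      { carrier := {h | ∀ x, E x (π.symm (φ.symm (h (φ (π x)))))}
        one_mem' := fun x => by
          change E x (π.symm (φ.symm (φ (π x))))
          simpa using hE.refl x
        mul_mem' := fun {a b} ha hb x => by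
          change E x (π.symm (φ.symm (a (b (φ (π x))))))
          have h1 := hb x
          have h2 := ha (π.symm (φ.symm (b (φ (π x)))))
          simp only [Equiv.apply_symm_apply, Homeomorph.apply_symm_apply] at h2
          exact hE.trans h1 h2
        inv_mem' := fun {a} ha x => by
          change E x (π.symm (φ.symm (a.symm (φ (π x)))))
          have h2 := ha (π.symm (φ.symm (a.symm (φ (π x)))))
          have h3 : a (a.symm (φ (π x))) = φ (π x) := a.apply_symm_apply _
          simp only [Equiv.apply_symm_apply, Homeomorph.apply_symm_apply, h3] at h2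
          simp only [Homeomorph.symm_apply_apply, Equiv.symm_apply_apply] at h2
          exact hE.symm h2 }
    have hrange : ∀ γ, L γ ∈ S := by
      intro γ
      have : L.range ≤ S := by
        refine FreeGroup.range_lift_le ?_
        rintro _ ⟨i, rfl⟩
        intro x
        change E x (π.symm (φ.symm (φ (H i (φ.symm (φ (π x)))))))
        simpa using hH i x
      exact this ⟨γ, rfl⟩
    intro x y
    constructor
    · intro h
      obtain ⟨i, hi⟩ := hcov x y h
      refine ⟨FreeGroup.of i, ?_⟩
      change L (FreeGroup.of i) (φ (π x)) = φ (π y)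
      have : L (FreeGroup.of i) = gen i := by
        simp [L]
      rw [this]
      change φ (H i (φ.symm (φ (π x)))) = φ (π y)
      rw [Homeomorph.symm_apply_apply, ← hi, Equiv.apply_symm_apply]
    · rintro ⟨γ, hγ⟩
      have h1 := hrange γ x
      have h2 : L γ (φ (π x)) = φ (π y) := hγ
      change E x (π.symm (φ.symm (L γ (φ (π x))))) at h1
      rw [h2] at h1
      simpa using h1

end Grp

end TuringBaire
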