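import Pool.Agent.TuringBaire.Emb
import Pool.Agent.TuringBaire.Baire
import Pool.Agent.TuringBaire.Extend
import Pool.Agent.TuringBaire.Group

/-!
# The main theorem for an abstract context
-/

namespace TuringBaire.Con

open Set Topology

variable {C : Ctx} {Q Bs : ℕ → Set X}

namespace Run

variable {R : Run C Q Bs} {F : ℕ → Set X}

/-- the part of the domain of `h e` away from the late pieces of type `o` -/
def PP (R : Run C Q Bs) (e T : ℕ) : Set X :=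
  {x | x ∈ R.CTs T ∧ x ∈ C.D e ∧ C.h e x ∈ R.CTs T}

theorem PP_closed (hQ : QFam C Q) (hF : R.Fm F) (e T : ℕ) : Op F (R.PP e T)ᶜ := by
  refine op_of_local ?_
  intro x hx
  by_cases h1 : x ∈ R.CTs T
  · by_cases h2 : x ∈ C.D e
    · have h3 : C.h e x ∈ (R.CTs T)ᶜ := fun h3 => hx ⟨h1, h2, h3⟩
      obtain ⟨P, a1, a2, a3⟩ := (op_iff_BA hQ.cyl _).1 (hF.sig_open hQ (op_compl_CTs hF T)) _ h3
      obtain ⟨P', b1, b2⟩ := h_BA hQ e a1
      obtain ⟨P'', c1, c2⟩ := CTs_BA hF T b1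
      refine ⟨P'', ?_, c1.op, (c2 x h1).1 ((b2 x h2).1 a2)⟩
      rintro z hz ⟨d1, d2, d3⟩
      exact a3 ((b2 z d2).2 ((c2 z d1).2 hz)) d3
    · obtain ⟨P, a1, a2, a3⟩ := (op_iff_BA hQ.cyl _).1 (op_compl_dom hQ e) x h2
      obtain ⟨P', b1, b2⟩ := CTs_BA hF T a1
      refine ⟨P', ?_, b1.op, (b2 x h1).1 a2⟩
      rintro z hz ⟨d1, d2, d3⟩
      exact a3 ((b2 z d1).2 hz) d2
  · exact ⟨(R.CTs T)ᶜ, fun z hz hc => hz hc.1, op_compl_CTs hF T, h1⟩

theorem PP_coOn (hQ : QFam C Q) (hF : R.Fm F) (e T : ℕ) : CoOn F F (C.h e) (R.PP e T) := by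
  rw [coOn_iff_BA (hF.cyl hQ) (hF.cyl hQ)]
  rintro x ⟨d1, d2, d3⟩ P hP hxP
  obtain ⟨P0, a1, a2, a3⟩ := (op_iff_BA hQ.cyl _).1 (hF.sig_and hQ hP).1 _ hxP
  obtain ⟨P', b1, b2⟩ := h_BA hQ e a1
  obtain ⟨P'', c1, c2⟩ := CTs_BA hF T b1
  refine ⟨P'', c1, (c2 x d1).1 ((b2 x d2).1 a2), ?_⟩
  rintro z hz ⟨d1', d2', d3'⟩
  exact a3 ((b2 z d2').2 ((c2 z d1').2 hz))

theorem PP_int (hQ : QFam C Q) (hF : R.Fm F) (hBs : BsOK Q Bs) (e T : ℕ) {U : Set X}
    (hU : Op F U) (hsub : U ⊆ R.PP e T) : U = ∅ := by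
  by_contra hne
  obtain ⟨x, hx⟩ := nonempty_iff_ne_empty.2 hne
  obtain ⟨n, hn, p, hp, hpU⟩ := dense_o hQ hF hBs hU hx T
  exact (hsub (hpU (mem_range_self oo))).1 n hn p hp (mem_range_self oo)

theorem ct_emb (hQ : QFam C Q) (hF : R.Fm F) (hBs : BsOK Q Bs) (V : Set (CT F))
    (hV : IsClopen V) (hne : V.Nonempty) : ∃ G : CT F → CT F,
      Topology.IsClosedEmbedding G ∧ IsOpenMap G ∧ (∀ y, G y ∈ V) ∧ ∀ y, C.E y (G y) := by
  obtain ⟨x, hx⟩ := hne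
  obtain ⟨n, -, p, hp, hpV⟩ := dense_o hQ hF hBs (U := V) hV.2 hx 0
  obtain ⟨s, a, Ms, D⟩ := exists_end hp
  obtain ⟨G, g1, g2, g3, g4, g5, g6⟩ := exists_emb hQ hF D
  have hco : CoOn F F G univ := by
    rw [coOn_iff_BA (hF.cyl hQ) (hF.cyl hQ)]
    intro x _ P hP hxP
    obtain ⟨P', h1, h2, h3⟩ := g4 x P hP hxP
    exact ⟨P', h1, h2, fun z hz _ => h3 z hz⟩
  have hcont : @Continuous (CT F) (CT F) _ _ G :=
    (@continuousOn_univ X X (tau F) (tau F) G).1 hco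
  have hopen : @IsOpenMap (CT F) (CT F) _ _ G := fun O hO => g5 O hO
  have hcl : @IsClosed (CT F) _ (range G) := ⟨g6⟩
  have hoe : @Topology.IsOpenEmbedding (CT F) (CT F) _ _ G :=
    Topology.IsOpenEmbedding.of_continuous_injective_isOpenMap hcont g1 hopen
  exact ⟨G, ⟨hoe.isEmbedding, hcl⟩, hopen, fun y => hpV (g2 y), g3⟩

theorem ct_noncompact (hQ : QFam C Q) (hF : R.Fm F) (hBs : BsOK Q Bs) (V : Set (CT F))
    (hV : IsOpen V) (hc : IsCompact V) : V = ∅ := by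
  by_contra hne
  obtain ⟨x, hx⟩ := nonempty_iff_ne_empty.2 hne
  obtain ⟨n, -, p, hp, hpV⟩ := dense_o hQ hF hBs (U := V) hV hx 0
  obtain ⟨s, a, Ms, D⟩ := exists_end hp
  obtain ⟨U, u1, u2, u3, u4⟩ := not_cover hQ hF D
  have hclp : @IsClosed (CT F) _ (range p.1) := ⟨(hF.BA_pc D.hp).compl.op⟩
  have hcp : @IsCompact (CT F) _ (range p.1) := hc.of_isClosed_subset hclp hpV
  obtain ⟨k, hk⟩ := @IsCompact.elim_directed_cover (CT F) _ (range p.1) ℕ _ hcp U u1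
    (fun x hx => mem_iUnion.2 (u2 x hx)) (directed_of_isDirected_le u3)
  obtain ⟨x, hx1, hx2⟩ := u4 k
  exact hx2 (hk hx1)

/-- extension of `h e` on the sets `PP e T` -/
theorem ct_ext (hQ : QFam C Q) (hF : R.Fm F) (hBs : BsOK Q Bs) (e T : ℕ) :
    ∃ H : CT F ≃ₜ CT F, (∀ y ∈ R.PP e T, H y = C.h e y) ∧ ∀ y, C.E y (H y) := by
  obtain ⟨U, hU, hbase⟩ := ct_base F (hF.closed hQ)
  obtain ⟨e', he1, he2⟩ := C.h_inv e
  have hcl : ∀ e, @IsClosed (CT F) _ (R.PP e T) := fun e => ⟨PP_closed hQ hF e T⟩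
  have hint : ∀ e, @interior (CT F) _ (R.PP e T) = ∅ := fun e =>
    PP_int hQ hF hBs e T (U := @interior (CT F) _ (R.PP e T)) (@isOpen_interior (CT F) _ _)
      (@interior_subset (CT F) _ _)
  exact extend (Y := CT F) U hU hbase C.E C.equiv (fun V hV hne => ct_emb hQ hF hBs V hV hne)
    (R.PP e T) (R.PP e' T) (hcl e) (hcl e') (hint e) (hint e') (C.h e) (C.h e')
    (PP_coOn hQ hF e T) (PP_coOn hQ hF e' T)
    (fun x hx => ⟨hx.2.2, (he1 x hx.2.1).1, by rw [(he1 x hx.2.1).2]; exact hx.1⟩)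
    (fun x hx => ⟨hx.2.2, (he2 x hx.2.1).1, by rw [(he2 x hx.2.1).2]; exact hx.1⟩)
    (fun x hx => (he1 x hx.2.1).2) (fun x hx => (he2 x hx.2.1).2) (fun x hx => C.h_E e x hx.2.1)

/-- the homeomorphisms matching the pieces born at an `O`-step -/
theorem ct_match (hQ : QFam C Q) (hF : R.Fm F) {n : ℕ}
    (hO : TaskO C Bs n (R.S n) (R.S (n + 1)) (R.N n) (R.No n)) {p q : Pc} (hp : p ∈ R.N n)
    (hq : q ∈ R.N n) :
    ∃ H : ℕ → CT F ≃ₜ CT F, (∀ i y, C.E y (H i y)) ∧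
      ∀ y, ∃ i, H i (p.1 y) = q.1 y := by
  obtain ⟨U, hU, hbase⟩ := ct_base F (hF.closed hQ)
  have hc : (univ, Prod.fst '' R.N n) ∈ (R.S (n + 1)).Cl none := by
    rw [hO.hS, carve_none]; exact Or.inr rfl
  have hpm : p.1 ∈ Prod.fst '' R.N n := ⟨p, hp, rfl⟩
  have hqm : q.1 ∈ Prod.fst '' R.N n := ⟨q, hq, rfl⟩
  have hset : ∀ p ∈ R.N n, R.r (n + 1) ⁻¹' (p.1 '' univ) = range p.1 := by
    intro p hp
    ext x
    rw [image_univ, mem_preimage]
    exact r_mem_iff (Nat.lt_succ_self n) hp x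
  have hclo : ∀ p ∈ R.N n, @IsClopen (CT F) _ (range p.1) := fun p hp =>
    ⟨⟨(hF.BA_pc hp).compl.op⟩, (hF.BA_pc hp).op⟩
  have hpi := C.R_inj _ ((R.step n).N_R p hp)
  have hqi := C.R_inj _ ((R.step n).N_R q hq)
  have hco : ∀ p ∈ R.N n, ∀ q ∈ R.N n, CoOn F F (tr p.1 q.1) (range p.1) := by
    intro p hp q hq
    rw [← hset p hp]
    exact link_coOn hQ hF hc ⟨p, hp, rfl⟩ ⟨q, hq, rfl⟩
  obtain ⟨H, h1, h2⟩ := clopen_cover (Y := CT F) U hU hbase C.E C.equiv (range p.1) (range q.1)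
    (hclo p hp) (hclo q hq) (tr p.1 q.1) (tr q.1 p.1) (hco p hp q hq) (hco q hq p hp)
    (by rintro _ ⟨x, rfl⟩; rw [tr_apply hpi]; exact mem_range_self _)
    (by rintro _ ⟨x, rfl⟩; rw [tr_apply hqi]; exact mem_range_self _)
    (by rintro _ ⟨x, rfl⟩; rw [tr_apply hpi, tr_apply hqi])
    (by rintro _ ⟨x, rfl⟩; rw [tr_apply hqi, tr_apply hpi])
    (by
      rintro _ ⟨x, rfl⟩
      rw [tr_apply hpi]
      exact C.equiv.trans (C.equiv.symm (C.R_E _ ((R.step n).N_R p hp) x))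
        (C.R_E _ ((R.step n).N_R q hq) x))
  refine ⟨H, h1, fun y => ?_⟩
  obtain ⟨i, hi⟩ := h2 (p.1 y) (mem_range_self y)
  exact ⟨i, by rw [hi, tr_apply hpi]⟩

/-- the countable family of homeomorphisms -/
theorem exists_homeos (hQ : QFam C Q) (hF : R.Fm F) (hBs : BsOK Q Bs) :
    ∃ H : ℕ → CT F ≃ₜ CT F, (∀ i y, C.E y (H i y)) ∧
      ∀ x y : X, C.E x y → ∃ i, H i x = y := by
  classical
  choose HA ha1 ha2 using fun (c : ℕ × ℕ) => ct_ext hQ hF hBs c.1 c.2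
  have hB : ∀ (n : ℕ) (p q : Pc), ∃ K : ℕ → CT F ≃ₜ CT F, (∀ i y, C.E y (K i y)) ∧
      (TaskO C Bs n (R.S n) (R.S (n + 1)) (R.N n) (R.No n) → p ∈ R.N n → q ∈ R.N n →
        ∀ y, ∃ i, K i (p.1 y) = q.1 y) := by
    intro n p q
    by_cases h : TaskO C Bs n (R.S n) (R.S (n + 1)) (R.N n) (R.No n) ∧ p ∈ R.N n ∧ q ∈ R.N n
    · obtain ⟨K, k1, k2⟩ := ct_match hQ hF h.1 h.2.1 h.2.2
      exact ⟨K, k1, fun _ _ _ => k2⟩
    · exact ⟨fun _ => Homeomorph.refl _, fun _ y => C.equiv.refl y,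
        fun h1 h2 h3 => absurd ⟨h1, h2, h3⟩ h⟩
  choose HB hb1 hb2 using hB
  have hcount : (range HA ∪ ⋃ n, ⋃ p ∈ R.N n, ⋃ q ∈ R.N n, range (HB n p q)).Countable := by
    refine (countable_range _).union (countable_iUnion fun n => ?_)
    refine (R.step n).N_fin.countable.biUnion fun p _ => ?_
    exact (R.step n).N_fin.countable.biUnion fun q _ => countable_range _
  obtain ⟨H, hH⟩ := hcount.exists_eq_range ⟨HA (0, 0), Or.inl (mem_range_self _)⟩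
  have hmemA : ∀ c, ∃ i, H i = HA c := by
    intro c
    have : HA c ∈ range H := by rw [← hH]; exact Or.inl (mem_range_self _)
    exact this
  have hmemB : ∀ n, ∀ p ∈ R.N n, ∀ q ∈ R.N n, ∀ j, ∃ i, H i = HB n p q j := by
    intro n p hp q hq j
    have : HB n p q j ∈ range H := by
      rw [← hH]
      refine Or.inr ?_
      simp only [mem_iUnion]
      exact ⟨n, p, hp, q, hq, mem_range_self _⟩
    exact this
  refine ⟨H, ?_, ?_⟩
  · intro i y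
    have : H i ∈ range H := mem_range_self i
    rw [← hH] at this
    rcases this with ⟨c, hc⟩ | h
    · rw [← hc]; exact ha2 c y
    · simp only [mem_iUnion] at h
      obtain ⟨n, p, hp, q, hq, j, hj⟩ := h
      rw [← hj]; exact hb1 n p q j y
  · intro x y hxy
    obtain ⟨e, hxe, hexy⟩ := C.h_cover x y hxy
    obtain ⟨e', he1, he2⟩ := C.h_inv e
    by_cases hx : ∃ T, x ∈ R.CTs T
    · by_cases hy : ∃ T, y ∈ R.CTs T
      · obtain ⟨T1, h1⟩ := hx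
        obtain ⟨T2, h2⟩ := hy
        obtain ⟨i, hi⟩ := hmemA (e, max T1 T2)
        refine ⟨i, ?_⟩
        rw [hi, ha1 (e, max T1 T2) x ⟨CTs_mono (le_max_left _ _) h1, hxe, by
          rw [hexy]; exact CTs_mono (le_max_right _ _) h2⟩]
        exact hexy
      · -- `y` lies in infinitely many pieces of type `o`
        have hyT : y ∉ R.CTs e' := fun h => hy ⟨e', h⟩
        have hyT' : ¬ ∀ n ≥ e', ∀ p ∈ R.No n, y ∉ range p.1 := hyT
        push Not at hyT'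
        obtain ⟨n, hn, p, hp, y0, hy0⟩ := hyT'
        have hye : y ∈ C.D e' := by rw [← hexy]; exact (he1 x hxe).1
        have hyx : C.h e' y = x := by rw [← hexy]; exact (he1 x hxe).2
        have hO := No_task hp
        rcases hO.hm p hp e' hn with h | ⟨h3, h4⟩
        · exact absurd hye (by rw [← hy0]; exact h y0)
        · obtain ⟨q, hq, hqe⟩ := h4
          obtain ⟨j, hj⟩ := hb2 n q p hO hq ((R.step n).No_sub hp) y0
          obtain ⟨i, hi⟩ := hmemB n q hq p ((R.step n).No_sub hp) j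
          refine ⟨i, ?_⟩
          have h5 : q.1 y0 = x := by
            rw [hqe]
            change C.h e' (p.1 y0) = x
            rw [hy0, hyx]
          rw [hi, ← h5, hj, hy0]
    · -- `x` lies in infinitely many pieces of type `o`
      have hxT : x ∉ R.CTs e := fun h => hx ⟨e, h⟩
      have hxT' : ¬ ∀ n ≥ e, ∀ p ∈ R.No n, x ∉ range p.1 := hxT
      push Not at hxT'
      obtain ⟨n, hn, p, hp, x0, hx0⟩ := hxT'
      have hO := No_task hp
      rcases hO.hm p hp e hn with h | ⟨h3, h4⟩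
      · exact absurd hxe (by rw [← hx0]; exact h x0)
      · obtain ⟨q, hq, hqe⟩ := h4
        obtain ⟨j, hj⟩ := hb2 n p q hO ((R.step n).No_sub hp) hq x0
        obtain ⟨i, hi⟩ := hmemB n p ((R.step n).No_sub hp) q hq j
        refine ⟨i, ?_⟩
        have h5 : q.1 x0 = y := by
          rw [hqe]
          change C.h e (p.1 x0) = y
          rw [hx0, hexy]
        rw [hi, ← hx0, hj, h5]

end Run

end TuringBaire.Con

namespace TuringBaire

open Set Topology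

/-- The main theorem for an abstract context. -/
theorem main (C : Ctx) : ∃ (Γ : Type) (_ : Group Γ) (_ : MulAction Γ (ℕ → ℕ)), Countable Γ ∧
      (∀ γ : Γ, Continuous fun u : ℕ → ℕ => γ • u) ∧
      ∃ Φ : X → ℕ → ℕ, Function.Bijective Φ ∧ (∀ V : Set (ℕ → ℕ), IsOpen V → Fsig (Φ ⁻¹' V)) ∧
        ∀ x y, C.E x y ↔ ∃ γ : Γ, γ • Φ x = Φ y := by
  obtain ⟨Q, hQ⟩ := Con.exists_qfam C
  obtain ⟨Bs, hBs⟩ := Con.Run.exists_Bs Q
  obtain ⟨R⟩ := Con.exists_run hQ Bs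
  obtain ⟨F, hF⟩ := R.exists_fm
  obtain ⟨c, hc⟩ := ct_closedEmbedding F (hF.closed hQ)
  have : Nonempty (CT F) := ⟨fun _ => false⟩
  obtain ⟨φ⟩ := homeo_baire (Y := CT F) c hc
    (fun U hU hK => Con.Run.ct_noncompact hQ hF hBs U hU hK)
  obtain ⟨H, h1, h2⟩ := Con.Run.exists_homeos hQ hF hBs
  exact group_of_homeos (Y := CT F) (Equiv.refl X) φ
    (fun U hU => ct_open_Fsig F (hF.closed hQ) U hU) C.equiv H h1 h2

end TuringBaire
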