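import Pool.Agent.TuringBaire.Ends

/-!
# The limit retractions and the links
-/

namespace TuringBaire.Con

open Set Topology

theorem not_hit_of_rho {N : Set Pc}
    (hd : ∀ p ∈ N, ∀ q ∈ N, p ≠ q → Disjoint (range p.1) (range q.1))
    (hb : ∀ p ∈ N, ∀ q ∈ N, p.2 ∉ range q.1) {z : X} (h : rho N z = z) :
    ∀ p ∈ N, z ∉ range p.1 := by
  intro p hp hz
  rw [rho_of_mem hd hp hz] at h
  exact hb p hp p hp (h ▸ hz)

namespace Run

variable {C : Ctx} {Q Bs : ℕ → Set X} (R : Run C Q Bs)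

/-- `x` lies in a piece born at time `m` -/
def hit (m : ℕ) (x : X) : Prop := ∃ p ∈ R.N m, x ∈ range p.1

open Classical in
/-- the retraction: collapse the first piece containing `x` born at a time `≥ n` -/
noncomputable def r (n : ℕ) (x : X) : X :=
  if ∃ m, n ≤ m ∧ R.hit m x then rho (R.N (sInf {m | n ≤ m ∧ R.hit m x})) x else x

variable {R}

theorem r_of_nohit {n : ℕ} {x : X} (h : ∀ m ≥ n, ¬ R.hit m x) : R.r n x = x := by
  unfold r
  rw [if_neg]
  rintro ⟨m, hm, hh⟩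
  exact h m hm hh

theorem r_of_hit {n m : ℕ} {x : X} (hnm : n ≤ m) (hmin : ∀ m', n ≤ m' → m' < m → ¬ R.hit m' x)
    {p : Pc} (hp : p ∈ R.N m) (hx : x ∈ range p.1) : R.r n x = p.2 := by
  have hh : R.hit m x := ⟨p, hp, hx⟩
  have h : ∃ m, n ≤ m ∧ R.hit m x := ⟨m, hnm, hh⟩
  have hf : sInf {m | n ≤ m ∧ R.hit m x} = m := by
    have hne : {m | n ≤ m ∧ R.hit m x}.Nonempty := h
    have h1 := Nat.sInf_mem hne
    have h2 : sInf {m | n ≤ m ∧ R.hit m x} ≤ m := Nat.sInf_le ⟨hnm, hh⟩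
    rcases Nat.lt_or_ge (sInf {m | n ≤ m ∧ R.hit m x}) m with h3 | h3
    · exact absurd h1.2 (hmin _ h1.1 h3)
    · omega
  unfold r
  rw [if_pos h, hf]
  exact rho_of_mem (R.disj m) hp hx

/-- either no piece born at time `≥ n` contains `x`, or there is a first one -/
theorem r_cases (R : Run C Q Bs) (n : ℕ) (x : X) :
    ((∀ m ≥ n, ¬ R.hit m x) ∧ R.r n x = x) ∨
    ∃ m ≥ n, (∀ m', n ≤ m' → m' < m → ¬ R.hit m' x) ∧ ∃ p ∈ R.N m, x ∈ range p.1 ∧
      R.r n x = p.2 := by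
  classical
  by_cases h : ∃ m, n ≤ m ∧ R.hit m x
  · right
    obtain ⟨h1, h2⟩ := Nat.find_spec h
    have hmin : ∀ m', n ≤ m' → m' < Nat.find h → ¬ R.hit m' x := by
      intro m' hm' hlt hh
      exact Nat.find_min h hlt ⟨hm', hh⟩
    obtain ⟨p, hp, hx⟩ := h2
    exact ⟨Nat.find h, h1, hmin, p, hp, hx, r_of_hit h1 hmin hp hx⟩
  · left
    push Not at h
    exact ⟨fun m hm => h m hm, r_of_nohit fun m hm => h m hm⟩

/-- a point and the base point of a later piece containing it lie in the same older pieces -/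
theorem mem_iff_base {m n : ℕ} (h : m < n) {p q : Pc} (hp : p ∈ R.N m) (hq : q ∈ R.N n) {x : X}
    (hx : x ∈ range q.1) : x ∈ range p.1 ↔ q.2 ∈ range p.1 := by
  rcases R.lam h hp hq with ⟨h1, h2⟩ | ⟨h1, h2⟩
  · exact ⟨fun _ => h2, fun _ => h1 hx⟩
  · exact ⟨fun h3 => absurd h3 (Set.disjoint_left.1 h1 hx), fun h3 => absurd h3 h2⟩

theorem r_mem_iff {m n : ℕ} (h : m < n) {p : Pc} (hp : p ∈ R.N m) (x : X) :
    R.r n x ∈ range p.1 ↔ x ∈ range p.1 := by
  rcases r_cases R n x with ⟨-, h1⟩ | ⟨m', hm', -, q, hq, hx, h1⟩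
  · rw [h1]
  · rw [h1]
    exact (mem_iff_base (by omega) hp hq hx).symm

theorem r_hit_iff {m n : ℕ} (h : m < n) (x : X) : R.hit m (R.r n x) ↔ R.hit m x := by
  constructor
  · rintro ⟨p, hp, hx⟩
    exact ⟨p, hp, (r_mem_iff h hp x).1 hx⟩
  · rintro ⟨p, hp, hx⟩
    exact ⟨p, hp, (r_mem_iff h hp x).2 hx⟩

theorem rho_nohit {m : ℕ} {x : X} (h : ¬ R.hit m x) : rho (R.N m) x = x :=
  rho_of_notMem fun p hp hx => h ⟨p, hp, hx⟩

theorem nohit_of_rho {m : ℕ} {x : X} (h : rho (R.N m) x = x) : ¬ R.hit m x := by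
  rintro ⟨p, hp, hx⟩
  exact not_hit_of_rho (R.disj m) (fun p hp q hq => R.base le_rfl hp hq) h p hp hx

theorem rho_r (R : Run C Q Bs) (n : ℕ) (x : X) : rho (R.N n) (R.r (n + 1) x) = R.r n x := by
  by_cases hh : R.hit n x
  · obtain ⟨p, hp, hx⟩ := hh
    rw [r_of_hit le_rfl (by intros; omega) hp hx]
    exact rho_of_mem (R.disj n) hp ((r_mem_iff (Nat.lt_succ_self n) hp x).2 hx)
  · rw [rho_nohit (fun h => hh ((r_hit_iff (Nat.lt_succ_self n) x).1 h))]
    rcases r_cases R (n + 1) x with ⟨h1, h2⟩ | ⟨m, hm, hmin, p, hp, hx, h2⟩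
    · rw [h2, r_of_nohit]
      intro m hm
      rcases Nat.eq_or_lt_of_le hm with rfl | h
      · exact hh
      · exact h1 m h
    · rw [h2]
      refine (r_of_hit (by omega) ?_ hp hx).symm
      intro m' h3 h4
      rcases Nat.eq_or_lt_of_le h3 with rfl | h
      · exact hh
      · exact hmin m' h h4

theorem thread_r (R : Run C Q Bs) (x : X) : R.Thread fun n => R.r n x := fun n => rho_r R n x

theorem r_close (R : Run C Q Bs) (n : ℕ) (x : X) {i : ℕ} (hi : i < n) : R.r n x i = x i := by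
  rcases r_cases R n x with ⟨-, h⟩ | ⟨m, hm, -, p, hp, ⟨x0, hx⟩, h⟩
  · rw [h]
  · rw [h, ← hx]
    exact ((R.step m).close p hp x0 i (by omega)).symm

/-- the values of `r n` are in no later piece -/
theorem nohit_r (R : Run C Q Bs) {n m : ℕ} (h : n ≤ m) (x : X) : ¬ R.hit m (R.r n x) := by
  rcases r_cases R n x with ⟨h1, h2⟩ | ⟨m1, hm1, hmin, q, hq, hx, h2⟩
  · rw [h2]; exact h1 m h
  · rw [h2]
    rintro ⟨p, hp, hz⟩
    rcases Nat.lt_or_ge m m1 with h3 | h3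
    · exact hmin m h h3 ⟨p, hp, (mem_iff_base h3 hp hq hx).2 hz⟩
    · exact R.base h3 hq hp hz

theorem r_of_r (R : Run C Q Bs) {n m : ℕ} (h : n ≤ m) (x : X) : R.r m (R.r n x) = R.r n x :=
  r_of_nohit fun _ hm' => nohit_r R (by omega) x

/-! ### links -/

/-- the map `u y ↦ u' y` -/
noncomputable def tr (u u' : X → X) (x : X) : X := u' (Function.invFun u x)

theorem tr_apply {u u' : X → X} (hu : Function.Injective u) (y : X) : tr u u' (u y) = u' y := by
  unfold tr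
  rw [Function.leftInverse_invFun hu y]

/-- generalised links -/
def Lk (R : Run C Q Bs) (n : ℕ) (u u' : X → X) (x : X) : Prop :=
  ∃ k B M w y, (B, M) ∈ (R.S n).Cl k ∧ u ∘ w ∈ M ∧ u' ∘ w ∈ M ∧ y ∈ B ∧ x = u (w y)

theorem Lk.mem_range {n : ℕ} {u u' : X → X} {x : X} (h : Lk R n u u' x) : x ∈ range u := by
  obtain ⟨k, B, M, w, y, -, -, -, -, rfl⟩ := h
  exact mem_range_self _

theorem Lk.symm {n : ℕ} {u u' : X → X} (hu : Function.Injective u) {x : X} (h : Lk R n u u' x) :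
    Lk R n u' u (tr u u' x) := by
  obtain ⟨k, B, M, w, y, h1, h2, h3, h4, rfl⟩ := h
  rw [tr_apply hu]
  exact ⟨k, B, M, w, y, h1, h3, h2, h4, rfl⟩

/-- one step forward -/
theorem Lk.step {n : ℕ} {u u' : X → X} (hu : Function.Injective u) {x : X}
    (h : Lk R n u u' (rho (R.N n) x)) :
    Lk R (n + 1) u u' x ∧ rho (R.N n) (tr u u' x) = tr u u' (rho (R.N n) x) := by
  obtain ⟨k, B, M, w, y, h1, h2, h3, h4, h5⟩ := h
  obtain ⟨k', B', M', w', y', b1, b2, b3, b4, b5, b6⟩ :=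
    (R.step n).st1 k B M h1 (u ∘ w) h2 (u' ∘ w) h3 y h4 x h5
  have hx : x = u ((w ∘ w') y') := b5
  refine ⟨⟨k', B', M', w ∘ w', y', b1, b2, b3, b4, hx⟩, ?_⟩
  rw [hx, tr_apply hu, ← hx, h5, tr_apply hu]
  exact b6

theorem Lk.fwd {n m : ℕ} (hnm : n ≤ m) {u u' : X → X} (hu : Function.Injective u) {x : X}
    (h : Lk R n u u' (R.r n x)) : Lk R m u u' (R.r m x) := by
  induction m, hnm using Nat.le_induction with
  | base => exact h
  | succ m _ ih =>
    rw [← rho_r] at ih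
    exact (Lk.step hu ih).1

/-- if `z` is fixed by `rho` and linked then so is its image -/
theorem Lk.nohit {n : ℕ} {u u' : X → X} (hu : Function.Injective u) {z : X}
    (h : Lk R n u u' z) (hz : ¬ R.hit n z) : ¬ R.hit n (tr u u' z) := by
  have h1 : rho (R.N n) z = z := rho_nohit hz
  rw [← h1] at h
  have h2 := (Lk.step hu h).2
  rw [h1] at h2
  exact nohit_of_rho h2

/-- the key lemma: links commute with all later retractions -/
theorem key {n : ℕ} {u u' : X → X} (hu : Function.Injective u) (hu' : Function.Injective u')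
    {x : X} (h : Lk R n u u' (R.r n x)) {m : ℕ} (hnm : n ≤ m) :
    x ∈ range u ∧ R.r m (tr u u' x) = tr u u' (R.r m x) := by
  rcases r_cases R m x with ⟨h1, h2⟩ | ⟨m1, hm1, hmin, q, hq, hx, h2⟩
  · have hL : ∀ m2 ≥ m, Lk R m2 u u' x := by
      intro m2 hm2
      have := Lk.fwd (m := m2) (by omega) hu h
      rwa [r_of_nohit (fun m3 hm3 => h1 m3 (by omega))] at this
    refine ⟨(hL m le_rfl).mem_range, ?_⟩
    rw [h2]
    exact r_of_nohit fun m2 hm2 => Lk.nohit hu (hL m2 hm2) (h1 m2 hm2)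
  · -- `x` is in the piece `q`, first one after `m`
    have hr : ∀ m2, m ≤ m2 → m2 ≤ m1 → R.r m2 x = q.2 := by
      intro m2 h3 h4
      exact r_of_hit h4 (fun m' h5 h6 => hmin m' (by omega) h6) hq hx
    have hL : ∀ m2, m ≤ m2 → m2 ≤ m1 → Lk R m2 u u' q.2 := by
      intro m2 h3 h4
      have := Lk.fwd (m := m2) (by omega) hu h
      rwa [hr m2 h3 h4] at this
    have hrho : rho (R.N m1) x = q.2 := rho_of_mem (R.disj m1) hq hx
    have hL1 := hL m1 hm1 le_rfl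
    rw [← hrho] at hL1
    obtain ⟨hs1, hs2⟩ := Lk.step hu hL1
    rw [hrho] at hs2
    have hxr := hs1.mem_range
    refine ⟨hxr, ?_⟩
    -- the image is hit at time `m1`
    have hhit : R.hit m1 (tr u u' x) := by
      by_contra hno
      rw [rho_nohit hno] at hs2
      obtain ⟨x0, rfl⟩ := hxr
      obtain ⟨z0, hz0⟩ := (hL m1 hm1 le_rfl).mem_range
      rw [← hz0, tr_apply hu, tr_apply hu] at hs2
      have := hu' hs2
      rw [this, hz0] at hx
      exact R.base le_rfl hq hq hx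
    obtain ⟨p, hp, hxp⟩ := hhit
    rw [rho_of_mem (R.disj m1) hp hxp] at hs2
    rw [h2, ← hs2]
    refine r_of_hit hm1 ?_ hp hxp
    rintro m2 h3 h4 ⟨p', hp', hxp'⟩
    have h5 : p.2 ∈ range p'.1 := (mem_iff_base h4 hp' hp hxp).1 hxp'
    rw [hs2] at h5
    have h6 : ¬ R.hit m2 q.2 := by
      rintro ⟨q', hq', hz⟩
      exact hmin m2 h3 h4 ⟨q', hq', (mem_iff_base h4 hq' hq hx).2 hz⟩
    exact Lk.nohit hu (hL m2 h3 h4.le) h6 ⟨p', hp', h5⟩

end Run

end TuringBaire.Con
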