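import Pool.Agent.TuringBaire.Topo

/-!
# Links are homeomorphisms, the maps `h e`, the sets `CTs T`, density of the pieces of type `o`
-/

namespace TuringBaire.Con

open Set Topology

variable {C : Ctx} {Q Bs : ℕ → Set X}

/-! ### the maps `h e` for `σ` -/

theorem op_compl_dom (hQ : QFam C Q) (e : ℕ) : Op Q (C.D e)ᶜ := by
  obtain ⟨k, hk⟩ := hQ.dom e
  rw [hk]
  exact op_iUnion fun n => (BA.base (k n)).op

theorem h_BA (hQ : QFam C Q) (e : ℕ) {P : Set X} (hP : BA Q P) :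
    ∃ P', BA Q P' ∧ ∀ x ∈ C.D e, (C.h e x ∈ P ↔ x ∈ P') := by
  induction hP with
  | base i =>
    obtain ⟨j, hj⟩ := hQ.clo e i
    refine ⟨Q j, BA.base j, fun x hx => ⟨fun h => ?_, fun h => ?_⟩⟩
    · rw [hj]; exact subset_closure ⟨h, hx⟩
    · rw [hj] at h
      have h1 : ContinuousWithinAt (C.h e) (C.D e) x := C.h_cont e x hx
      have h2 : x ∈ closure (C.D e ∩ C.h e ⁻¹' Q i) := by rwa [inter_comm] at h
      by_contra hcon
      have h3 : C.h e ⁻¹' (Q i)ᶜ ∈ 𝓝[C.D e] x :=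
        h1 ((hQ.closed i).isOpen_compl.mem_nhds hcon)
      obtain ⟨U, hU, hxU, hsub⟩ := mem_nhdsWithin.1 h3
      obtain ⟨z, hz1, hz2, hz3⟩ := mem_closure_iff.1 h2 U hU hxU
      exact hsub ⟨hz1, hz2⟩ hz3
  | @compl S _ ih =>
    obtain ⟨P', h1, h2⟩ := ih
    exact ⟨P'ᶜ, h1.compl, fun x hx => not_congr (h2 x hx)⟩
  | @inter S T _ _ ihS ihT =>
    obtain ⟨P', h1, h2⟩ := ihS
    obtain ⟨P'', h1', h2'⟩ := ihT
    exact ⟨P' ∩ P'', h1.inter h1', fun x hx => and_congr (h2 x hx) (h2' x hx)⟩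

namespace Run

variable {R : Run C Q Bs} {F : ℕ → Set X}

/-! ### links -/

section links

variable (hQ : QFam C Q) (hF : R.Fm F)

include hQ hF in
theorem link_nbhd {n : ℕ} {u u' : X → X} (hu : u ∈ C.R) (hu' : u' ∈ C.R) {x : X}
    (h : Lk R n u u' (R.r n x)) {P : Set X} (hP : BA F P) (hx : tr u u' x ∈ P) :
    ∃ P', BA F P' ∧ x ∈ P' ∧ ∀ z ∈ P', Lk R n u u' (R.r n z) → tr u u' z ∈ P := by
  obtain ⟨m0, hm0⟩ := hF.stab hP
  have hk := (key (C.R_inj u hu) (C.R_inj u' hu') h (le_max_right m0 n)).2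
  have h1 : tr u u' (R.r (max m0 n) x) ∈ P := by
    rw [← hk]; exact (hm0 _ (le_max_left _ _) _).2 hx
  obtain ⟨P1, a1, a2, a3⟩ := (op_iff_BA hQ.cyl P).1 (hF.sig_and hQ hP).1 _ h1
  have hLm : Lk R (max m0 n) u u' (R.r (max m0 n) x) :=
    Lk.fwd (le_max_right _ _) (C.R_inj u hu) h
  refine ⟨R.r (max m0 n) ⁻¹' (u '' (u' ⁻¹' P1)),
    hF.r_BA hQ _ (BA.img hQ (BA.pimg hQ a1 u' hu') u hu), ?_, ?_⟩
  · obtain ⟨y, hy⟩ := hLm.mem_range
    refine ⟨y, ?_, hy⟩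
    rw [mem_preimage, ← tr_apply (u' := u') (C.R_inj u hu) y, hy]
    exact a2
  · rintro z ⟨y, hy, hyz⟩ hL
    have hkz := (key (C.R_inj u hu) (C.R_inj u' hu') hL (le_max_right m0 n)).2
    rw [← hm0 _ (le_max_left m0 n), hkz, ← hyz, tr_apply (C.R_inj u hu)]
    exact a3 hy

variable {n : ℕ} {k : Option ℕ} {B : Set X} {M : Set (X → X)} {u u' : X → X}
  (hc : (B, M) ∈ (R.S n).Cl k) (hu : u ∈ M) (hu' : u' ∈ M)

include hc hu hu' in
theorem lk_of_mem {x : X} (hx : R.r n x ∈ u '' B) : Lk R n u u' (R.r n x) := by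
  obtain ⟨y, hy, e⟩ := hx
  exact ⟨k, B, M, id, y, hc, hu, hu', hy, e.symm⟩

include hc hu hu' in
theorem link_maps {x : X} (hx : R.r n x ∈ u '' B) :
    R.r n (tr u u' x) = tr u u' (R.r n x) ∧ R.r n (tr u u' x) ∈ u' '' B := by
  have hR := R.Cl_R hc
  have h1 := (key (C.R_inj u (hR hu)) (C.R_inj u' (hR hu')) (lk_of_mem hc hu hu' hx) le_rfl).2
  refine ⟨h1, ?_⟩
  rw [h1]
  obtain ⟨y, hy, e⟩ := hx
  rw [← e, tr_apply (C.R_inj u (hR hu))]
  exact ⟨y, hy, rfl⟩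

include hc hu hu' in
theorem link_range {x : X} (hx : R.r n x ∈ u '' B) : x ∈ range u := by
  have hR := R.Cl_R hc
  exact (key (C.R_inj u (hR hu)) (C.R_inj u' (hR hu')) (lk_of_mem hc hu hu' hx) le_rfl).1

include hc hu hu' in
theorem link_inv {x : X} (hx : R.r n x ∈ u '' B) : tr u' u (tr u u' x) = x := by
  have hR := R.Cl_R hc
  obtain ⟨y, rfl⟩ := link_range hc hu hu' hx
  rw [tr_apply (C.R_inj u (hR hu)), tr_apply (C.R_inj u' (hR hu'))]

include hQ hF hc hu hu' in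
theorem link_coOn : CoOn F F (tr u u') (R.r n ⁻¹' (u '' B)) := by
  rw [coOn_iff_BA (hF.cyl hQ) (hF.cyl hQ)]
  intro x hx P hP hxP
  obtain ⟨P', h1, h2, h3⟩ := link_nbhd hQ hF (R.Cl_R hc hu) (R.Cl_R hc hu')
    (lk_of_mem hc hu hu' hx) hP hxP
  exact ⟨P', h1, h2, fun z hz hzA => h3 z hz (lk_of_mem hc hu hu' hzA)⟩

include hQ hF hc hu hu' in
theorem link_open {O : Set X} (hO : Op F O) :
    Op F (tr u u' '' (O ∩ R.r n ⁻¹' (u '' B))) := by
  have hR := R.Cl_R hc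
  refine op_of_local ?_
  rintro _ ⟨x, ⟨hxO, hxA⟩, rfl⟩
  have hco := link_coOn hQ hF hc hu' hu
  rw [coOn_iff_BA (hF.cyl hQ) (hF.cyl hQ)] at hco
  obtain ⟨P, h1, h2, h3⟩ := (op_iff_BA (hF.cyl hQ) O).1 hO x hxO
  have hm := (link_maps hc hu hu' hxA).2
  have hi := link_inv hc hu hu' hxA
  obtain ⟨P', h1', h2', h3'⟩ := hco (tr u u' x) hm P h1 (by rw [hi]; exact h2)
  refine ⟨P' ∩ R.r n ⁻¹' (u' '' B), ?_, (h1'.inter (hF.r_BA hQ n
    (BA.img hQ ((R.inv n).ba _ _ _ hc) u' (hR hu')))).op, h2', hm⟩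
  rintro z ⟨hz1, hz2⟩
  exact ⟨tr u' u z, ⟨h3 (h3' z hz1 hz2), (link_maps hc hu' hu hz2).2⟩,
    link_inv hc hu' hu hz2⟩

end links

/-! ### points in no late piece of type `o` -/

/-- the points in no piece of type `o` born at a time `≥ T` -/
def CTs (R : Run C Q Bs) (T : ℕ) : Set X := {x | ∀ n ≥ T, ∀ p ∈ R.No n, x ∉ range p.1}

theorem CTs_mono {T T' : ℕ} (h : T ≤ T') : R.CTs T ⊆ R.CTs T' :=
  fun _ hx n hn => hx n (by omega)

theorem op_compl_CTs (hF : R.Fm F) (T : ℕ) : Op F (R.CTs T)ᶜ := by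
  refine op_of_local ?_
  intro x hx
  have hx' : ¬ ∀ n ≥ T, ∀ p ∈ R.No n, x ∉ range p.1 := hx
  push Not at hx'
  obtain ⟨n, hn, p, hp, hxp⟩ := hx'
  exact ⟨range p.1, fun z hz hc => hc n hn p hp hz, (hF.BA_pc ((R.step n).No_sub hp)).op, hxp⟩

theorem CTs_dec {T : ℕ} {x : X} (hx : x ∈ R.CTs T) {i N : ℕ} (hi : i < N) (hT : T ≤ N) :
    R.r N x ∈ Q i ↔ x ∈ Q i := by
  refine ⟨fun h => ?_, r_mem_Q hi⟩
  rcases r_cases R N x with ⟨-, h1⟩ | ⟨m, hm, -, p, hp, hxp, h1⟩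
  · rw [h1] at h; exact h
  · rw [h1] at h
    have hpo : p ∉ R.No m := fun hpo => hx m (by omega) p hpo hxp
    exact (R.step m).dec2 p hp hpo i (by omega) h hxp

theorem CTs_BA (hF : R.Fm F) (T : ℕ) {P : Set X} (hP : BA Q P) :
    ∃ P', BA F P' ∧ ∀ x ∈ R.CTs T, (x ∈ P ↔ x ∈ P') := by
  induction hP with
  | base i =>
    obtain ⟨j, hj⟩ := hF.ret (max (i + 1) T) i (by omega)
    refine ⟨F j, BA.base j, fun x hx => ?_⟩
    rw [hj, mem_preimage, CTs_dec hx (by omega) (by omega)]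
  | @compl S _ ih =>
    obtain ⟨P', h1, h2⟩ := ih
    exact ⟨P'ᶜ, h1.compl, fun x hx => not_congr (h2 x hx)⟩
  | @inter S T _ _ ihS ihT =>
    obtain ⟨P', h1, h2⟩ := ihS
    obtain ⟨P'', h1', h2'⟩ := ihT
    exact ⟨P' ∩ P'', h1.inter h1', fun x hx => and_congr (h2 x hx) (h2' x hx)⟩

/-! ### density of the pieces of type `o` -/

/-- the list of basic sets -/
def BsOK (Q Bs : ℕ → Set X) : Prop :=
  ∀ (k : ℕ) (f : Finset ℕ), ∃ b, Bs b = {z | ∀ i < k, (z ∈ Q i ↔ i ∈ f)}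

theorem exists_Bs (Q : ℕ → Set X) : ∃ Bs, BsOK Q Bs := by
  obtain ⟨g, hg⟩ := exists_surjective_nat (ℕ × Finset ℕ)
  refine ⟨fun b => {z | ∀ i < (g b).1, (z ∈ Q i ↔ i ∈ (g b).2)}, fun k f => ?_⟩
  obtain ⟨b, hb⟩ := hg (k, f)
  exact ⟨b, by simp only [hb]⟩

theorem BA_pattern {P : Set X} (hP : BA Q P) :
    ∃ k, ∀ z z', (∀ i < k, (z ∈ Q i ↔ z' ∈ Q i)) → (z ∈ P ↔ z' ∈ P) := by
  induction hP with
  | base i => exact ⟨i + 1, fun z z' h => h i (by omega)⟩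
  | @compl S _ ih =>
    obtain ⟨k, h⟩ := ih
    exact ⟨k, fun z z' h' => not_congr (h z z' h')⟩
  | @inter S T _ _ ihS ihT =>
    obtain ⟨k, h⟩ := ihS
    obtain ⟨k', h'⟩ := ihT
    exact ⟨max k k', fun z z' hz => and_congr (h z z' fun i hi => hz i (by omega))
      (h' z z' fun i hi => hz i (by omega))⟩

theorem exists_Bs_mem (hBs : BsOK Q Bs) {P : Set X} (hP : BA Q P) {z : X} (hz : z ∈ P) :
    ∃ b, z ∈ Bs b ∧ Bs b ⊆ P := by
  classical
  obtain ⟨k, hk⟩ := BA_pattern hP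
  obtain ⟨b, hb⟩ := hBs k ((Finset.range k).filter fun i => z ∈ Q i)
  refine ⟨b, ?_, ?_⟩
  · rw [hb]
    intro i hi
    simp [hi]
  · rw [hb]
    intro z' hz'
    refine (hk z z' fun i hi => ?_).1 hz
    have := hz' i hi
    rw [this]
    simp [hi]

theorem pos_le_self (n : ℕ) : (pos n).1 ≤ n := by
  induction n with
  | zero => simp [pos]
  | succ n ih =>
    by_cases hn : (pos n).2 = 0
    · rw [pos_succ_zero hn]; simp only; omega
    · rw [pos_succ_pos hn]; simp only; omega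

theorem dense_o (hQ : QFam C Q) (hF : R.Fm F) (hBs : BsOK Q Bs) {U : Set X} (hU : Op F U)
    {x : X} (hx : x ∈ U) (n0 : ℕ) : ∃ n ≥ n0, ∃ p ∈ R.No n, range p.1 ⊆ U := by
  obtain ⟨V, hV, hxV, hVU⟩ := (op_iff_BA (hF.cyl hQ) U).1 hU x hx
  obtain ⟨m0, hm0⟩ := hF.stab hV
  set m := max m0 n0 with hm
  have hrm : R.r m x ∈ V := (hm0 m (le_max_left _ _) x).2 hxV
  obtain ⟨P, a1, a2, a3⟩ := (op_iff_BA hQ.cyl V).1 (hF.sig_and hQ hV).1 _ hrm
  obtain ⟨b, hb1, hb2⟩ := exists_Bs_mem hBs a1 a2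
  -- a block with the right requirement
  set s := Nat.pair (Nat.pair m b) m with hs
  obtain ⟨n, hn⟩ := pos_block s
  have hsn : s ≤ n := by
    have := pos_le_self n
    rw [hn] at this
    exact this
  have hms : m ≤ s := by rw [hs]; exact Nat.right_le_pair _ _
  have hun : (Nat.unpair (Nat.unpair (pos n).1).1) = (m, b) := by
    rw [hn, hs]; simp
  rcases (R.trans n).2 with hO | ⟨Bj, Mj, f, zf, m', hE⟩ | hA
  · obtain ⟨p, hp, hpz⟩ := hO.hz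
    have hex : ∃ z, z ∈ Bs (Nat.unpair (Nat.unpair (pos n).1).1).2 ∧
        ∀ m, (Nat.unpair (Nat.unpair (pos n).1).1).1 ≤ m → m < n →
          ∀ p ∈ (R.S n).hist m, z ∉ range p.1 := by
      rw [hun]
      refine ⟨R.r m x, hb1, fun m1 h1 h2 q hq hzq => ?_⟩
      rw [R.hist_eq n m1 h2] at hq
      exact nohit_r R h1 x ⟨q, hq, hzq⟩
    obtain ⟨c1, c2⟩ := zreq_spec hex
    rw [← hpz, hun] at c1
    refine ⟨n, by omega, p, hp, ?_⟩
    intro z hz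
    apply hVU
    rw [← hm0 m (le_max_left _ _)]
    have hpN := (R.step n).No_sub hp
    have hr : R.r m z = p.2 := by
      refine r_of_hit (by omega) ?_ hpN hz
      rintro m' h1 h2 ⟨q, hq, hzq⟩
      have h3 := (mem_iff_base h2 hq hpN hz).1 hzq
      have h4 := c2 m' (by rw [hun]; exact h1) h2 q (by rw [R.hist_eq n m' h2]; exact hq)
      rw [← hpz] at h4
      exact h4 h3
    rw [hr]
    exact a3 (hb2 c1)
  · have := hE.hp
    rw [hn] at this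
    simp at this
  · have := hA.hp
    rw [hn] at this
    simp at this

end Run

end TuringBaire.Con
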