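import Pool.Agent.TuringBaire.Carve

/-!
# The O-step: attaching an original piece near a given point
-/

namespace TuringBaire.Con

open Set Topology

section

variable {C : Ctx} {Q : ℕ → Set X} {n s : ℕ} {S : St}

theorem charts_finite (hI : Inv C Q n s S) :
    {q : Set X × (X → X) | ∃ k M, (q.1, M) ∈ S.Cl k ∧ q.2 ∈ M}.Finite := by
  have hK : (insert none (Option.some '' Set.Iio s) : Set (Option ℕ)).Finite :=
    ((Set.finite_Iio s).image _).insert _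
  have : {q : Set X × (X → X) | ∃ k M, (q.1, M) ∈ S.Cl k ∧ q.2 ∈ M} ⊆
      ⋃ k ∈ (insert none (Option.some '' Set.Iio s) : Set (Option ℕ)), ⋃ c ∈ S.Cl k,
        (fun v => (c.1, v)) '' c.2 := by
    rintro ⟨B, v⟩ ⟨k, M, h1, h2⟩
    have hk : k ∈ (insert none (Option.some '' Set.Iio s) : Set (Option ℕ)) := by
      cases k with
      | none => exact mem_insert _ _
      | some i =>
        refine mem_insert_of_mem _ ⟨i, ?_, rfl⟩
        by_contra hi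
        rw [hI.emp i (not_lt.1 hi)] at h1
        exact notMem_empty _ h1
    simp only [mem_iUnion]
    exact ⟨k, hk, (B, M), h1, v, h2, rfl⟩
  refine Set.Finite.subset ?_ this
  exact hK.biUnion fun k _ => (hI.fin k).biUnion fun c hc => (hI.finM k c.1 c.2 hc).image _

theorem exists_region (hQ : QFam C Q) (hI : Inv C Q n s S) {g : X → X} (hg : g ∈ C.R) :
    ∃ p ∈ C.R, ∃ k B M v, (B, M) ∈ S.Cl k ∧ v ∈ M ∧ range (g ∘ p) ⊆ v '' B := by
  have hd : HD C fun p => ∀ q ∈ {q : Set X × (X → X) | ∃ k M, (q.1, M) ∈ S.Cl k ∧ q.2 ∈ M},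
      range (g ∘ p) ⊆ q.2 '' q.1 ∨ Disjoint (range (g ∘ p)) (q.2 '' q.1) := by
    refine HD.ball (charts_finite hI) ?_
    rintro ⟨B, v⟩ ⟨k, M, h1, h2⟩
    exact HD.decAt hQ (BA.img hQ (hI.ba _ _ _ h1) v (hI.subR _ _ _ h1 h2)) hg
  obtain ⟨p, hp, hh⟩ := hd.dense id C.R_id
  refine ⟨p, hp, ?_⟩
  obtain ⟨k, B, M, v, y, h1, h2, h3, h4⟩ := hI.cover (g (p oo))
  refine ⟨k, B, M, v, h1, h2, ?_⟩
  rcases hh (B, v) ⟨k, M, h1, h2⟩ with h | h
  · exact h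
  · exact absurd (Set.disjoint_left.1 h ⟨oo, rfl⟩ ⟨y, h3, h4⟩) id

/-- the property required of the treatment of `h e` on `u ∘ w ∘ p` -/
def Treat (C : Ctx) (S : St) (g : X → X) (e : ℕ) (p : X → X) : Prop :=
  (∀ x, g (p x) ∉ C.D e) ∨ ((∀ x, g (p x) ∈ C.D e) ∧ C.h e ∘ g ∘ p ∈ C.R ∧
    ∃ k B M v, (B, M) ∈ S.Cl k ∧ v ∈ M ∧ range (C.h e ∘ g ∘ p) ⊆ v '' B)

theorem treat_HD (hQ : QFam C Q) (hI : Inv C Q n s S) {g : X → X} (hg : g ∈ C.R) (e : ℕ) :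
    HD C (Treat C S g e) where
  her p hp h q hq := by
    rcases h with h | ⟨h1, h2, k, B, M, v, h3, h4, h5⟩
    · exact Or.inl fun x => h (q x)
    · refine Or.inr ⟨fun x => h1 (q x), C.R_comp _ h2 q hq, k, B, M, v, h3, h4, ?_⟩
      rintro _ ⟨x, rfl⟩
      exact h5 ⟨q x, rfl⟩
  dense p hp := by
    obtain ⟨q, hq, h⟩ := C.R_h (g ∘ p) (C.R_comp g hg p hp) e
    rcases h with h | ⟨h1, h2⟩
    · exact ⟨q, hq, Or.inl h⟩
    · obtain ⟨r, hr, k, B, M, v, h3, h4, h5⟩ := exists_region hQ hI h2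
      refine ⟨q ∘ r, C.R_comp q hq r hr, Or.inr ⟨fun x => h1 (r x), C.R_comp _ h2 r hr,
        k, B, M, v, h3, h4, h5⟩⟩

theorem exists_O (hQ : QFam C Q) (hI : Inv C Q n s S) (z : X) :
    ∃ N No : Set Pc, Step C Q n S (S.carve n N) N No ∧ Inv C Q (n + 1) s (S.carve n N) ∧
      (∃ p ∈ No, p.2 = z) ∧
      (∀ p ∈ No, ∀ e ≤ n, (∀ x, p.1 x ∉ C.D e) ∨
        ((∀ x, p.1 x ∈ C.D e) ∧ C.h e ∘ p.1 ∈ Prod.fst '' N)) ∧
      (∀ x i u y, AtC (S.carve n N) (some i) u y x → AtC S (some i) u y x ∧ rho N x = x) := by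
  classical
  obtain ⟨k0, B0, M0, g0, y0, hc0, hg0, hy0, hz⟩ := hI.cover z
  have hM0f := hI.finM _ _ _ hc0
  have hM0R := hI.subR _ _ _ hc0
  -- phase 0
  have hnb : ∀ u ∈ M0, ∃ k B M, (B, M) ∈ S.Cl k ∧ u ∈ M ∧ M ⊆ M0 ∧ B ∪ {y0} ∈ 𝓝 y0 :=
    fun u hu => hI.nbr _ _ _ hc0 u hu y0 hy0
  choose! kl Bl Ml hl1 hl2 hl3 hl4 using hnb
  have hO : (⋂ u ∈ M0, ((Bl u ∪ {y0}) ∩ ({y | ∀ i ∈ Set.Iio n, u y0 ∉ Q i → u y ∉ Q i} ∩
      u ⁻¹' cyl (tk (u y0) n)))) ∈ 𝓝 y0 := by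
    rw [Filter.biInter_mem hM0f]
    intro u hu
    refine Filter.inter_mem (hl4 u hu) (Filter.inter_mem ?_ ?_)
    · have : {y | ∀ i ∈ Set.Iio n, u y0 ∉ Q i → u y ∉ Q i} =
          ⋂ i ∈ Set.Iio n, {y | u y0 ∉ Q i → u y ∉ Q i} := by
        ext y; simp
      rw [this, Filter.biInter_mem (Set.finite_Iio n)]
      intro i _
      by_cases hi : u y0 ∈ Q i
      · refine Filter.mem_of_superset Filter.univ_mem ?_
        intro y _ h
        exact absurd hi h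
      · refine Filter.mem_of_superset
          ((((hQ.closed i).isOpen_compl).preimage (C.R_cont u (hM0R hu))).mem_nhds
            (x := y0) hi) ?_
        intro y hy _
        exact hy
    · exact ((isOpen_cyl _).preimage (C.R_cont u (hM0R hu))).mem_nhds (self_mem_cyl_tk _ _)
  obtain ⟨t, ht1, ht2⟩ := exists_cyl_punctured hO
  have hw0R : pre t ∈ C.R := C.R_pre t
  have hin : ∀ x, ∀ u ∈ M0, pre t x ∈ Bl u ∧ (∀ i < n, u y0 ∉ Q i → u (pre t x) ∉ Q i) ∧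
      ∀ i < n, u (pre t x) i = u y0 i := by
    intro x u hu
    have h1 := ht1 (pre_mem_cyl t x)
    rw [mem_iInter₂] at h1
    obtain ⟨h2, h3, h4⟩ := h1 u hu
    refine ⟨?_, h3, mem_cyl_tk.1 h4⟩
    rcases h2 with h2 | h2
    · exact h2
    · rw [mem_singleton_iff] at h2
      exact absurd (h2 ▸ pre_mem_cyl t x) ht2
  -- phase 1
  have hT : HD C fun p => ∀ u ∈ M0, ∀ e ∈ Set.Iic n, Treat C S (u ∘ pre t) e p :=
    HD.ball hM0f fun u hu => HD.ball (Set.finite_Iic n) fun e _ =>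
      treat_HD hQ hI (C.R_comp u (hM0R hu) _ hw0R) e
  obtain ⟨p1, hp1, hT1⟩ := hT.dense id C.R_id
  have hT1' : ∀ u ∈ M0, ∀ e ∈ Set.Iic n, Treat C S (u ∘ pre t) e p1 := hT1
  clear hT1
  set w1 : X → X := pre t ∘ p1 with hw1
  have hw1R : w1 ∈ C.R := C.R_comp _ hw0R _ hp1
  set A : Set (X → X) := {a | ∃ u ∈ M0, ∃ e ∈ Set.Iic n, (∀ x, u (w1 x) ∈ C.D e) ∧
    a = C.h e ∘ u ∘ w1} with hA
  have hAf : A.Finite := by
    have : A ⊆ ⋃ u ∈ M0, (fun e : ℕ => C.h e ∘ u ∘ w1) '' Set.Iic n := by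
      rintro a ⟨u, hu, e, he, -, rfl⟩
      simp only [mem_iUnion]
      exact ⟨u, hu, e, he, rfl⟩
    exact (hM0f.biUnion fun u _ => (Set.finite_Iic n).image _).subset this
  have hAd : ∀ a ∈ A, ∃ k B M v w, (B, M) ∈ S.Cl k ∧ v ∈ M ∧ w ∈ C.R ∧ a = v ∘ w ∧
      range w ⊆ B := by
    rintro a ⟨u, hu, e, he, hD, rfl⟩
    rcases hT1' u hu e he with h | ⟨h1, h2, k, B, M, v, h3, h4, h5⟩
    · exact absurd (hD oo) (h oo)
    · have hvR := hI.subR _ _ _ h3 h4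
      have h2' : C.h e ∘ u ∘ w1 ∈ C.R := h2
      obtain ⟨w, hw, hvw⟩ := C.R_div v hvR _ h2' (h5.trans (image_subset_range _ _))
      refine ⟨k, B, M, v, w, h3, h4, hw, hvw, ?_⟩
      rintro _ ⟨x, rfl⟩
      obtain ⟨b, hb, hbx⟩ := h5 ⟨x, rfl⟩
      have h6 : v b = v (w x) := hbx.trans (congrFun hvw x)
      rw [← C.R_inj v hvR h6]
      exact hb
  choose! kk BB MM vv ww ha1 ha2 ha3 ha4 ha5 using hAd
  -- phase 2
  set G : Set (X → X) := (fun u : X → X => u ∘ w1) '' M0 ∪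
    ⋃ a ∈ A, (fun v : X → X => v ∘ ww a) '' MM a with hG
  have hGf : G.Finite := (hM0f.image _).union
    (hAf.biUnion fun a ha => (hI.finM _ _ _ (ha1 a ha)).image _)
  have hGo : ∀ u ∈ M0, u ∘ w1 ∈ G := fun u hu => Or.inl ⟨u, hu, rfl⟩
  have hGc : ∀ a ∈ A, ∀ v ∈ MM a, v ∘ ww a ∈ G := by
    intro a ha v hv
    refine Or.inr ?_
    simp only [mem_iUnion]
    exact ⟨a, ha, v, hv, rfl⟩
  have hGR : G ⊆ C.R := by
    rintro g (⟨u, hu, rfl⟩ | hg)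
    · exact C.R_comp _ (hM0R hu) _ hw1R
    · simp only [mem_iUnion] at hg
      obtain ⟨a, ha, v, hv, rfl⟩ := hg
      exact C.R_comp _ (hI.subR _ _ _ (ha1 a ha) hv) _ (ha3 a ha)
  set Pr : Set X := (⋃ m ∈ Set.Iio n, Prod.snd '' S.hist m) ∪ (fun u : X → X => u y0) '' M0
    with hPr
  have hPrf : Pr.Finite :=
    ((Set.finite_Iio n).biUnion fun m _ => (hI.histfin m).image _).union (hM0f.image _)
  obtain ⟨p2, hp2, hE, hDec, hAv, hSm⟩ := exists_shrink hQ G hGf hGR Pr hPrf n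
  -- the families
  set f0 : X → X := p2 ∘ pre [false] with hf0
  have hf0R : f0 ∈ C.R := C.R_comp _ hp2 _ (C.R_pre _)
  set x1 : X := p2 (pre [true] oo) with hx1
  have hx1f : ∀ x, x1 ≠ f0 x := by
    intro x hx
    have := C.R_inj _ hp2 hx
    have h0 := congrFun this 0
    simp [pre_cons_zero] at h0
  set φ0 : Fam := ⟨k0, B0, M0, y0, w1 ∘ f0⟩ with hφ0
  set φc : (X → X) → Fam := fun a => ⟨kk a, BB a, MM a, ww a x1, ww a ∘ f0⟩ with hφc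
  set A' : Set (X → X) := {a ∈ A | ∀ u ∈ M0, vv a ∘ ww a ∘ p2 ≠ u ∘ w1 ∘ p2} with hA'
  set Φ : Set Fam := insert φ0 (φc '' A') with hΦdef
  have hΦf : Φ.Finite := ((hAf.subset (sep_subset _ _)).image _).insert _
  have hΦ : ∀ φ ∈ Φ, FamOK C S φ := by
    rintro φ (rfl | ⟨a, ha, rfl⟩)
    · refine ⟨hc0, hy0, C.R_comp _ hw1R _ hf0R, fun u hu => ⟨kl u, Bl u, Ml u, hl1 u hu,
        hl2 u hu, hl3 u hu, ?_⟩⟩
      rintro _ ⟨x, rfl⟩
      exact (hin _ u hu).1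
    · refine ⟨ha1 a ha.1, ha5 a ha.1 (mem_range_self _), C.R_comp _ (ha3 a ha.1) _ hf0R,
        fun u hu => ⟨kk a, BB a, MM a, ha1 a ha.1, hu, subset_rfl, ?_⟩⟩
      rintro _ ⟨x, rfl⟩
      exact ha5 a ha.1 (mem_range_self _)
  -- description of the pieces
  have hdesc : ∀ p ∈ pcs Φ, (∃ u ∈ M0, p = (u ∘ w1 ∘ f0, u y0)) ∨
      ∃ a ∈ A', ∃ v ∈ MM a, p = (v ∘ ww a ∘ f0, v (ww a x1)) := by
    rintro p ⟨φ, (rfl | ⟨a, ha, rfl⟩), u, hu, rfl⟩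
    · exact Or.inl ⟨u, hu, rfl⟩
    · exact Or.inr ⟨a, ha, u, hu, rfl⟩
  have hoc : ∀ u ∈ M0, ∀ a ∈ A', ∀ v ∈ MM a, (u ∘ w1) ∘ p2 ≠ (v ∘ ww a) ∘ p2 := by
    intro u hu a ha v hv heq
    have hloc : ∀ x, kl u = kk a ∧ Bl u = BB a ∧ Ml u = MM a ∧ u = v ∧
        w1 (p2 x) = ww a (p2 x) := by
      intro x
      refine hI.uniq (u (w1 (p2 x))) _ _ _ _ _ _ _ _ _ _
        ⟨hl1 u hu, hl2 u hu, (hin (p1 (p2 x)) u hu).1, rfl⟩
        ⟨ha1 a ha.1, hv, ha5 a ha.1 (mem_range_self _), (congrFun heq x).symm⟩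
    obtain ⟨-, -, hMe, rfl, -⟩ := hloc oo
    have hvM : vv a ∈ M0 := by
      apply hl3 u hu
      rw [hMe]; exact ha2 a ha.1
    apply ha.2 (vv a) hvM
    funext x
    change vv a (ww a (p2 x)) = vv a (w1 (p2 x))
    rw [(hloc x).2.2.2.2]
  have hoo' : ∀ u ∈ M0, ∀ v ∈ M0, (u ∘ w1) ∘ p2 = (v ∘ w1) ∘ p2 → u = v := by
    intro u hu v hv heq
    obtain ⟨-, -, -, h, -⟩ := hI.uniq (u (w1 (p2 oo))) _ _ _ _ _ _ _ _ _ _
        ⟨hl1 u hu, hl2 u hu, (hin (p1 (p2 oo)) u hu).1, rfl⟩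
        ⟨hl1 v hv, hl2 v hv, (hin (p1 (p2 oo)) v hv).1, (congrFun heq oo).symm⟩
    exact h
  -- every piece is `g ∘ f0` with `g ∈ G`
  have hpg : ∀ p ∈ pcs Φ, ∃ g ∈ G, p.1 = g ∘ f0 := by
    intro p hp
    rcases hdesc p hp with ⟨u, hu, rfl⟩ | ⟨a, ha, v, hv, rfl⟩
    · exact ⟨_, hGo u hu, rfl⟩
    · exact ⟨_, hGc a ha.1 v hv, rfl⟩
  have hsubr : ∀ g : X → X, range (g ∘ f0) ⊆ range (g ∘ p2) := by
    rintro g _ ⟨x, rfl⟩; exact ⟨pre [false] x, rfl⟩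
  have hd : ∀ p ∈ pcs Φ, ∀ q ∈ pcs Φ, p ≠ q → Disjoint (range p.1) (range q.1) := by
    intro p hp q hq hpq
    rcases hdesc p hp with ⟨u, hu, rfl⟩ | ⟨a, ha, v, hv, rfl⟩ <;>
      rcases hdesc q hq with ⟨u', hu', rfl⟩ | ⟨a', ha', v', hv', rfl⟩
    · rcases hE _ (hGo u hu) _ (hGo u' hu') with h | h
      · exact absurd (by rw [hoo' u hu u' hu' h]) hpq
      · exact h.mono (hsubr (u ∘ w1)) (hsubr (u' ∘ w1))
    · rcases hE _ (hGo u hu) _ (hGc a' ha'.1 v' hv') with h | h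
      · exact absurd h (hoc u hu a' ha' v' hv')
      · exact h.mono (hsubr (u ∘ w1)) (hsubr (v' ∘ ww a'))
    · rcases hE _ (hGo u' hu') _ (hGc a ha.1 v hv) with h | h
      · exact absurd h (hoc u' hu' a ha v hv)
      · exact (h.mono (hsubr (u' ∘ w1)) (hsubr (v ∘ ww a))).symm
    · rcases hE _ (hGc a ha.1 v hv) _ (hGc a' ha'.1 v' hv') with h | h
      · refine absurd ?_ hpq
        have h1 : v ∘ ww a ∘ f0 = v' ∘ ww a' ∘ f0 := by
          funext x; exact congrFun h (pre [false] x)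
        have h2 : v (ww a x1) = v' (ww a' x1) := congrFun h (pre [true] oo)
        rw [h1, h2]
      · exact h.mono (hsubr (v ∘ ww a)) (hsubr (v' ∘ ww a'))
  set No : Set Pc := (fun u : X → X => ((u ∘ w1 ∘ f0, u y0) : Pc)) '' M0 with hNo
  have hNosub : No ⊆ pcs Φ := by
    rintro _ ⟨u, hu, rfl⟩
    exact ⟨φ0, mem_insert _ _, u, hu, rfl⟩
  refine ⟨pcs Φ, No, ?_, inv_carve hQ hI hΦ hΦf hd, ?_, ?_, ?_⟩
  · refine step_carve hI hΦ hΦf hd hNosub ?_ ?_ ?_ ?_ ?_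
    · -- base0
      intro p hp q hq
      obtain ⟨g', hg', hq1⟩ := hpg q hq
      rw [hq1]
      rcases hdesc p hp with ⟨u, hu, rfl⟩ | ⟨a, ha, v, hv, rfl⟩
      · exact fun h => hAv g' hg' (u y0) (Or.inr ⟨u, hu, rfl⟩) (hsubr g' h)
      · intro h
        rcases hE _ (hGc a ha.1 v hv) _ hg' with h1 | h1
        · obtain ⟨x, hx⟩ := h
          have h2 : g' (p2 (pre [true] oo)) = v (ww a x1) := (congrFun h1 (pre [true] oo)).symm
          have h3 : g' (f0 x) = g' x1 := hx.trans h2.symm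
          exact hx1f x (C.R_inj g' (hGR hg') h3).symm
        · exact Set.disjoint_left.1 h1 ⟨pre [true] oo, rfl⟩ (hsubr g' h)
    · -- baseOld
      intro m hm p hp q hq
      obtain ⟨g', hg', hq1⟩ := hpg q hq
      rw [hq1]
      refine fun h => hAv g' hg' p.2 (Or.inl ?_) (hsubr g' h)
      simp only [mem_iUnion]
      exact ⟨m, hm, p, hp, rfl⟩
    · -- close
      intro p hp x i hi
      rcases hdesc p hp with ⟨u, hu, rfl⟩ | ⟨a, ha, v, hv, rfl⟩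
      · exact (hin _ u hu).2.2 i hi
      · exact hSm _ (hGc a ha.1 v hv) (pre [false] x) (pre [true] oo) i hi
    · -- dec1
      intro p hp i hi hz1
      rcases hdesc p hp with ⟨u, hu, rfl⟩ | ⟨a, ha, v, hv, rfl⟩
      · rw [Set.disjoint_left]
        rintro _ ⟨x, rfl⟩
        exact (hin _ u hu).2.1 i hi hz1
      · rcases hDec _ (hGc a ha.1 v hv) i hi with h | h
        · exact absurd (h ⟨pre [true] oo, rfl⟩) hz1
        · exact h.mono_left (hsubr (v ∘ ww a))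
    · -- dec2
      intro p hp hpo i hi hz1
      rcases hdesc p hp with ⟨u, hu, rfl⟩ | ⟨a, ha, v, hv, rfl⟩
      · exact absurd ⟨u, hu, rfl⟩ hpo
      · rcases hDec _ (hGc a ha.1 v hv) i hi with h | h
        · exact (hsubr (v ∘ ww a)).trans h
        · exact absurd hz1 (Set.disjoint_left.1 h ⟨pre [true] oo, rfl⟩)
  · exact ⟨_, ⟨g0, hg0, rfl⟩, hz⟩
  · rintro p ⟨u, hu, rfl⟩ e he
    rcases hT1' u hu e he with h | ⟨h1, h2, h3⟩
    · exact Or.inl fun x => h (f0 x)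
    · refine Or.inr ⟨fun x => h1 (f0 x), ?_⟩
      have haA : C.h e ∘ u ∘ w1 ∈ A := ⟨u, hu, e, he, h1, rfl⟩
      have hcomp := ha4 _ haA
      by_cases haA' : C.h e ∘ u ∘ w1 ∈ A'
      · refine ⟨(vv (C.h e ∘ u ∘ w1) ∘ ww (C.h e ∘ u ∘ w1) ∘ f0,
          vv (C.h e ∘ u ∘ w1) (ww (C.h e ∘ u ∘ w1) x1)), ?_, ?_⟩
        · exact ⟨φc _, mem_insert_of_mem _ ⟨_, haA', rfl⟩, _, ha2 _ haA, rfl⟩
        · funext x
          exact (congrFun hcomp (f0 x)).symm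
      · have : ∃ u' ∈ M0, vv (C.h e ∘ u ∘ w1) ∘ ww (C.h e ∘ u ∘ w1) ∘ p2 = u' ∘ w1 ∘ p2 := by
          by_contra hcon
          push Not at hcon
          exact haA' ⟨haA, hcon⟩
        obtain ⟨u', hu', he'⟩ := this
        refine ⟨(u' ∘ w1 ∘ f0, u' y0), hNosub ⟨u', hu', rfl⟩, ?_⟩
        funext x
        have h4 := congrFun he' (pre [false] x)
        have h5 := congrFun hcomp (f0 x)
        exact (h5.trans h4).symm
  · rintro x i u y ⟨B, M, h1, h2, h3, h4⟩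
    rcases carve_src h1 with ⟨hi, _, _⟩ | ⟨B1, hb1, rfl⟩
    · exact absurd hi (by simp)
    · refine ⟨⟨B1, M, hb1, h2, h3.1, h4⟩, ?_⟩
      apply rho_of_notMem
      intro p hp hxp
      apply h3.2 u h2
      rw [h4]
      exact mem_WW.2 ⟨p, hp, hxp⟩

end

end TuringBaire.Con
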