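import Pool.Agent.TuringBaire.OStep
import Pool.Agent.TuringBaire.EStep

/-!
# The infinite run of the construction
-/

namespace TuringBaire.Con

open Set Topology

/-- the schedule: block number and position inside the block -/
def pos : ℕ → ℕ × ℕ
  | 0 => (0, 1)
  | n + 1 => if (pos n).2 = 0 then ((pos n).1 + 1, (pos n).1 + 2) else ((pos n).1, (pos n).2 - 1)

theorem pos_zero : pos 0 = (0, 1) := rfl

theorem pos_succ_zero {n : ℕ} (h : (pos n).2 = 0) : pos (n + 1) = ((pos n).1 + 1, (pos n).1 + 2) :=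
  if_pos h

theorem pos_succ_pos {n : ℕ} (h : (pos n).2 ≠ 0) : pos (n + 1) = ((pos n).1, (pos n).2 - 1) :=
  if_neg h

theorem pos_le (n : ℕ) : (pos n).2 ≤ (pos n).1 + 1 := by
  induction n with
  | zero => simp [pos]
  | succ n ih =>
    by_cases h : (pos n).2 = 0
    · rw [pos_succ_zero h]
    · rw [pos_succ_pos h]
      simp only
      omega

/-- within a block one walks down to any position -/
theorem pos_down (n k : ℕ) (h : k ≤ (pos n).2) : pos (n + k) = ((pos n).1, (pos n).2 - k) := by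
  induction k with
  | zero => simp
  | succ k ih =>
    have ih' := ih (by omega)
    rw [← Nat.add_assoc, pos_succ_pos (by rw [ih']; simp only; omega), ih']
    rfl

/-- the first position of every block is reached -/
theorem pos_block (s : ℕ) : ∃ n, pos n = (s, s + 1) := by
  induction s with
  | zero => exact ⟨0, rfl⟩
  | succ s ih =>
    obtain ⟨n, hn⟩ := ih
    refine ⟨n + (s + 1) + 1, ?_⟩
    have h1 : pos (n + (s + 1)) = (s, 0) := by
      rw [pos_down n (s + 1) (by rw [hn]), hn]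
      simp
    rw [pos_succ_zero (by rw [h1]), h1]

theorem pos_all (s c : ℕ) (h : c ≤ s + 1) : ∃ n, pos n = (s, c) := by
  obtain ⟨n, hn⟩ := pos_block s
  refine ⟨n + (s + 1 - c), ?_⟩
  rw [pos_down n (s + 1 - c) (by rw [hn]; simp only; omega), hn]
  simp only [Prod.mk.injEq, true_and]
  omega

theorem pos_mono {m n : ℕ} (h : m ≤ n) : (pos m).1 ≤ (pos n).1 := by
  induction n, h using Nat.le_induction with
  | base => exact le_rfl
  | succ n _ ih =>
    by_cases hn : (pos n).2 = 0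
    · rw [pos_succ_zero hn]; exact ih.trans (Nat.le_succ _)
    · rw [pos_succ_pos hn]; exact ih

/-- positions are compared lexicographically (second coordinate decreasing) -/
theorem pos_lt {m n : ℕ} (h : m < n) :
    (pos m).1 < (pos n).1 ∨ ((pos m).1 = (pos n).1 ∧ (pos n).2 < (pos m).2) := by
  induction n, h using Nat.le_induction with
  | base =>
    by_cases hn : (pos m).2 = 0
    · rw [Nat.succ_eq_add_one, pos_succ_zero hn]; left; simp
    · rw [Nat.succ_eq_add_one, pos_succ_pos hn]; right; simp only [true_and]; omega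
  | succ n _ ih =>
    by_cases hn : (pos n).2 = 0
    · rw [pos_succ_zero hn]; left; simp only; omega
    · rw [pos_succ_pos hn]; simp only; omega

theorem pos_inj {m n : ℕ} (h : pos m = pos n) : m = n := by
  rcases lt_trichotomy m n with h1 | h1 | h1
  · have := pos_lt h1; rw [h] at this; omega
  · exact h1
  · have := pos_lt h1; rw [h] at this; omega

theorem lt_of_pos {m n : ℕ} (h : (pos m).1 < (pos n).1) : m < n := by
  by_contra hcon
  have := pos_mono (not_lt.1 hcon)
  omega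

open Classical in
/-- the point to be treated by the O-step at time `n` -/
noncomputable def zreq (Bs : ℕ → Set X) (n : ℕ) (H : ℕ → Set Pc) : X :=
  if h : ∃ z, z ∈ Bs (Nat.unpair (Nat.unpair (pos n).1).1).2 ∧
    ∀ m, (Nat.unpair (Nat.unpair (pos n).1).1).1 ≤ m → m < n → ∀ p ∈ H m, z ∉ range p.1
  then Classical.choose h else oo

theorem zreq_spec {Bs : ℕ → Set X} {n : ℕ} {H : ℕ → Set Pc}
    (h : ∃ z, z ∈ Bs (Nat.unpair (Nat.unpair (pos n).1).1).2 ∧
    ∀ m, (Nat.unpair (Nat.unpair (pos n).1).1).1 ≤ m → m < n → ∀ p ∈ H m, z ∉ range p.1) :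
    zreq Bs n H ∈ Bs (Nat.unpair (Nat.unpair (pos n).1).1).2 ∧
    ∀ m, (Nat.unpair (Nat.unpair (pos n).1).1).1 ≤ m → m < n →
      ∀ p ∈ H m, zreq Bs n H ∉ range p.1 := by
  unfold zreq
  rw [dif_pos h]
  exact Classical.choose_spec h

/-- the three kinds of tasks -/
structure TaskO (C : Ctx) (Bs : ℕ → Set X) (n : ℕ) (S S' : St) (N No : Set Pc) : Prop where
  hp : (pos n).2 = (pos n).1 + 1
  hS : S' = S.carve n N
  hz : ∃ p ∈ No, p.2 = zreq Bs n S.hist
  hm : ∀ p ∈ No, ∀ e ≤ n, (∀ x, p.1 x ∉ C.D e) ∨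
        ((∀ x, p.1 x ∈ C.D e) ∧ C.h e ∘ p.1 ∈ Prod.fst '' N)
  hk : ∀ x i u y, AtC S' (some i) u y x → AtC S (some i) u y x ∧ rho N x = x

structure TaskE (C : Ctx) (n : ℕ) (S S' : St) (N No : Set Pc) (Bj : Set X) (Mj : Set (X → X))
    (f : X → X) (zf : X) (m : ℕ) : Prop where
  hp : (pos n).2 ≤ (pos n).1
  hp0 : (pos n).2 ≠ 0
  hyp : EHyp C S n ((pos n).2 - 1) Bj Mj f zf m
  hl : S.lvl ((pos n).2 - 1) ≤ m
  hzf : zf ∈ cyl (ann m)
  hS : S' = S.est n ((pos n).2 - 1) Bj Mj f zf m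
  hN : N = eN Mj f zf
  hNo : No = ∅

structure TaskA (n : ℕ) (S S' : St) (N No : Set Pc) : Prop where
  hp : (pos n).2 = 0
  hpend : (univ, S.pend) ∈ S.Cl none
  hS : S' = S.act (pos n).1
  hN : N = ∅
  hNo : No = ∅

/-- the transition relation -/
def Trans (C : Ctx) (Q Bs : ℕ → Set X) (n : ℕ) (S S' : St) (N No : Set Pc) : Prop :=
  Step C Q n S S' N No ∧ (TaskO C Bs n S S' N No ∨
    (∃ Bj Mj f zf m, TaskE C n S S' N No Bj Mj f zf m) ∨ TaskA n S S' N No)

/-- good states -/
structure Good (C : Ctx) (Q : ℕ → Set X) (n : ℕ) (S : St) : Prop where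
  inv : Inv C Q n (pos n).1 S
  pend : (pos n).2 ≤ (pos n).1 → (univ, S.pend) ∈ S.Cl none
  emp : ∀ m, n ≤ m → S.hist m = ∅

theorem good_step {C : Ctx} {Q Bs : ℕ → Set X} (hQ : QFam C Q) {n : ℕ} {S : St}
    (hG : Good C Q n S) : ∃ S' N No, Trans C Q Bs n S S' N No ∧ Good C Q (n + 1) S' := by
  have hle := pos_le n
  by_cases h0 : (pos n).2 = 0
  · have hp := hG.pend (by omega)
    refine ⟨S.act (pos n).1, ∅, ∅, ⟨step_act hG.inv (hG.emp n le_rfl) hp,
      Or.inr (Or.inr ⟨h0, hp, rfl, rfl, rfl⟩)⟩, ?_, ?_, ?_⟩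
    · rw [pos_succ_zero h0]; exact inv_act hQ hG.inv (hG.emp n le_rfl) hp
    · rw [pos_succ_zero h0]; intro h; simp only at h; omega
    · intro m hm; exact hG.emp m (by omega)
  · by_cases h1 : (pos n).2 = (pos n).1 + 1
    · obtain ⟨N, No, a1, a2, a3, a4, a5⟩ := exists_O hQ hG.inv (zreq Bs n S.hist)
      refine ⟨S.carve n N, N, No, ⟨a1, Or.inl ⟨h1, rfl, a3, a4, a5⟩⟩, ?_, ?_, ?_⟩
      · rw [pos_succ_pos h0]; exact a2
      · intro _
        rw [carve_none]; exact Or.inr rfl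
      · intro m hm
        change Function.update S.hist n N m = ∅
        rw [Function.update_of_ne (by omega)]
        exact hG.emp m (by omega)
    · have hj : (pos n).2 - 1 < (pos n).1 := by omega
      obtain ⟨Bj, Mj, f, zf, m, a1, a2, a3, a4, a5⟩ := exists_E hQ hG.inv hj
      refine ⟨S.est n ((pos n).2 - 1) Bj Mj f zf m, eN Mj f zf, ∅, ⟨a4, Or.inr (Or.inl
        ⟨Bj, Mj, f, zf, m, by omega, h0, a1, a2, a3, rfl, rfl, rfl⟩)⟩, ?_, ?_, ?_⟩
      · rw [pos_succ_pos h0]; exact a5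
      · intro _
        exact est_mem_a (hG.pend (by omega))
      · intro m' hm
        change Function.update S.hist n (eN Mj f zf) m' = ∅
        rw [Function.update_of_ne (by omega)]
        exact hG.emp m' (by omega)

/-- the run of the construction -/
structure Run (C : Ctx) (Q Bs : ℕ → Set X) where
  S : ℕ → St
  N : ℕ → Set Pc
  No : ℕ → Set Pc
  good : ∀ n, Good C Q n (S n)
  trans : ∀ n, Trans C Q Bs n (S n) (S (n + 1)) (N n) (No n)
  S0 : S 0 = St.init

theorem exists_run {C : Ctx} {Q : ℕ → Set X} (hQ : QFam C Q) (Bs : ℕ → Set X) :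
    Nonempty (Run C Q Bs) := by
  classical
  have h0 : Good C Q 0 St.init := by
    refine ⟨inv_init hQ, fun h => ?_, fun m _ => rfl⟩
    rw [pos_zero] at h
    exact absurd h (by decide)
  have hstep : ∀ n (S : {S : St // Good C Q n S}), ∃ S' : {S : St // Good C Q (n + 1) S},
      ∃ N No, Trans C Q Bs n S.1 S'.1 N No := by
    rintro n ⟨S, hS⟩
    obtain ⟨S', N, No, h1, h2⟩ := good_step (Bs := Bs) hQ hS
    exact ⟨⟨S', h2⟩, N, No, h1⟩
  choose nxt hnxt using hstep
  let F : (n : ℕ) → {S : St // Good C Q n S} := fun n => Nat.rec ⟨St.init, h0⟩ (fun n S => nxt n S) n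
  have hF : ∀ n, ∃ N No, Trans C Q Bs n (F n).1 (F (n + 1)).1 N No := fun n => hnxt n (F n)
  choose N No hN using hF
  exact ⟨⟨fun n => (F n).1, N, No, fun n => (F n).2, hN, rfl⟩⟩

namespace Run

variable {C : Ctx} {Q Bs : ℕ → Set X} (R : Run C Q Bs)

theorem inv (n : ℕ) : Inv C Q n (pos n).1 (R.S n) := (R.good n).inv

theorem step (n : ℕ) : Step C Q n (R.S n) (R.S (n + 1)) (R.N n) (R.No n) := (R.trans n).1

theorem hist_eq (n m : ℕ) (h : m < n) : (R.S n).hist m = R.N m := by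
  induction n with
  | zero => omega
  | succ n ih =>
    rw [(R.step n).hist]
    by_cases hm : m = n
    · subst hm; rw [Function.update_self]
    · rw [Function.update_of_ne hm]; exact ih (by omega)

theorem disj (n : ℕ) : ∀ p ∈ R.N n, ∀ q ∈ R.N n, p ≠ q → Disjoint (range p.1) (range q.1) :=
  (R.step n).disj

theorem base {m n : ℕ} (h : m ≤ n) {p q : Pc} (hp : p ∈ R.N m) (hq : q ∈ R.N n) :
    p.2 ∉ range q.1 := by
  rcases h.lt_or_eq with h | rfl
  · refine (R.step n).baseOld m h p ?_ q hq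
    rw [R.hist_eq n m h]; exact hp
  · exact (R.step m).base0 p hp q hq

theorem lam {m n : ℕ} (h : m < n) {p q : Pc} (hp : p ∈ R.N m) (hq : q ∈ R.N n) :
    (range q.1 ⊆ range p.1 ∧ q.2 ∈ range p.1) ∨
    (Disjoint (range q.1) (range p.1) ∧ q.2 ∉ range p.1) := by
  refine (R.step n).lam m h p ?_ q hq
  rw [R.hist_eq n m h]; exact hp

theorem old {m n : ℕ} (h : m < n) {q : Pc} (hq : q ∈ R.N m) {k : Option ℕ} {B : Set X}
    {M : Set (X → X)} (hc : (B, M) ∈ (R.S n).Cl k) {u : X → X} (hu : u ∈ M) :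
    range u ⊆ range q.1 ∨ Disjoint (u '' B) (range q.1) := by
  refine (R.inv n).old m h q ?_ _ _ _ hc u hu
  rw [R.hist_eq n m h]; exact hq

theorem Cl_R {n : ℕ} {k : Option ℕ} {B : Set X} {M : Set (X → X)}
    (h : (B, M) ∈ (R.S n).Cl k) : M ⊆ C.R := (R.inv n).subR _ _ _ h

end Run

end TuringBaire.Con
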