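import Pool.Agent.TuringBaire.Basic

/-!
# Systems, invariants, retractions
-/

namespace TuringBaire.Con

open Set Topology

/-- a class: base set (coordinates) and the finite set of charts -/
abbrev Cls := Set X × Set (X → X)

/-- a piece: its embedding and its base point -/
abbrev Pc := (X → X) × X

open Classical in
/-- the retraction collapsing the pieces of `N` to their base points -/
noncomputable def rho (N : Set Pc) (x : X) : X :=
  if h : ∃ p ∈ N, x ∈ range p.1 then (Classical.choose h).2 else x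

theorem rho_of_notMem {N : Set Pc} {x : X} (h : ∀ p ∈ N, x ∉ range p.1) : rho N x = x := by
  unfold rho
  rw [dif_neg]
  rintro ⟨p, hp, hx⟩
  exact h p hp hx

theorem rho_of_mem {N : Set Pc} (hd : ∀ p ∈ N, ∀ q ∈ N, p ≠ q → Disjoint (range p.1) (range q.1))
    {x : X} {p : Pc} (hp : p ∈ N) (hx : x ∈ range p.1) : rho N x = p.2 := by
  unfold rho
  have h : ∃ p ∈ N, x ∈ range p.1 := ⟨p, hp, hx⟩
  rw [dif_pos h]
  have h2 := Classical.choose_spec h
  by_contra hne
  have hne' : Classical.choose h ≠ p := fun he => hne (by rw [he])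
  exact Set.disjoint_left.1 (hd _ h2.1 _ hp hne') h2.2 hx

/-- the state of the construction at a finite stage -/
structure St where
  Cl : Option ℕ → Set Cls
  hist : ℕ → Set Pc
  lvl : ℕ → ℕ
  pend : Set (X → X)

/-- location of a point -/
def Loc (S : St) (k : Option ℕ) (B : Set X) (M : Set (X → X)) (u : X → X) (y x : X) : Prop :=
  (B, M) ∈ S.Cl k ∧ u ∈ M ∧ y ∈ B ∧ u y = x

/-- the point `x` is in a class of kind `k`, through chart `u` with coordinate `y` -/
def AtC (S : St) (k : Option ℕ) (u : X → X) (y x : X) : Prop := ∃ B M, Loc S k B M u y x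

/-- the invariants at time `n` with `s` active ends -/
structure Inv (C : Ctx) (Q : ℕ → Set X) (n s : ℕ) (S : St) : Prop where
  fin : ∀ k, (S.Cl k).Finite
  finM : ∀ k B M, (B, M) ∈ S.Cl k → M.Finite
  subR : ∀ k B M, (B, M) ∈ S.Cl k → M ⊆ C.R
  emp : ∀ i, s ≤ i → S.Cl (some i) = ∅
  endU : ∀ i < s, ∃ c, S.Cl (some i) = {c}
  cover : ∀ x, ∃ k B M u y, Loc S k B M u y x
  uniq : ∀ x k B M u y k' B' M' u' y', Loc S k B M u y x → Loc S k' B' M' u' y' x →
    k = k' ∧ B = B' ∧ M = M' ∧ u = u' ∧ y = y'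
  ba : ∀ k B M, (B, M) ∈ S.Cl k → BA Q B
  nbr : ∀ k B M, (B, M) ∈ S.Cl k → ∀ u ∈ M, ∀ y ∈ B, ∃ k' B' M', (B', M') ∈ S.Cl k' ∧ u ∈ M' ∧
    M' ⊆ M ∧ B' ∪ {y} ∈ 𝓝 y
  endp : ∀ i B M, (B, M) ∈ S.Cl (some i) → IsOpen B ∧ oo ∉ B ∧ B ∪ {oo} ∈ 𝓝 oo ∧
    B ⊆ N0 (S.lvl i) ∧ ∃ Ms, ({oo}, Ms) ∈ S.Cl none ∧ M ⊆ Ms
  lvl0 : ∀ i, s ≤ i → S.lvl i = 0
  histfin : ∀ m, (S.hist m).Finite
  old : ∀ m < n, ∀ p ∈ S.hist m, ∀ k B M, (B, M) ∈ S.Cl k → ∀ u ∈ M,
    range u ⊆ range p.1 ∨ Disjoint (u '' B) (range p.1)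

/-- what a single step guarantees -/
structure Step (C : Ctx) (Q : ℕ → Set X) (n : ℕ) (S S' : St) (N No : Set Pc) : Prop where
  hist : S'.hist = Function.update S.hist n N
  No_sub : No ⊆ N
  N_fin : N.Finite
  N_R : ∀ p ∈ N, p.1 ∈ C.R
  disj : ∀ p ∈ N, ∀ q ∈ N, p ≠ q → Disjoint (range p.1) (range q.1)
  base0 : ∀ p ∈ N, ∀ q ∈ N, p.2 ∉ range q.1
  baseOld : ∀ m < n, ∀ p ∈ S.hist m, ∀ q ∈ N, p.2 ∉ range q.1
  lam : ∀ m < n, ∀ p ∈ S.hist m, ∀ q ∈ N, (range q.1 ⊆ range p.1 ∧ q.2 ∈ range p.1) ∨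
    (Disjoint (range q.1) (range p.1) ∧ q.2 ∉ range p.1)
  close : ∀ p ∈ N, ∀ x, ∀ i < n, p.1 x i = p.2 i
  dec1 : ∀ p ∈ N, ∀ i < n, p.2 ∉ Q i → Disjoint (range p.1) (Q i)
  dec2 : ∀ p ∈ N, p ∉ No → ∀ i < n, p.2 ∈ Q i → range p.1 ⊆ Q i
  st1 : ∀ k B M, (B, M) ∈ S.Cl k → ∀ u ∈ M, ∀ u' ∈ M, ∀ y ∈ B, ∀ x, rho N x = u y →
    ∃ k' B' M' w y', (B', M') ∈ S'.Cl k' ∧ u ∘ w ∈ M' ∧ u' ∘ w ∈ M' ∧ y' ∈ B' ∧
      x = u (w y') ∧ rho N (u' (w y')) = u' y
  lvlmono : ∀ i, S.lvl i ≤ S'.lvl i

/-! ### the initial state -/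

/-- the initial state -/
def St.init : St where
  Cl k := match k with
    | none => {(univ, {id})}
    | some _ => ∅
  hist _ := ∅
  lvl _ := 0
  pend := ∅

theorem init_none : St.init.Cl none = {(univ, {id})} := rfl
theorem init_some (i : ℕ) : St.init.Cl (some i) = ∅ := rfl

theorem inv_init {C : Ctx} {Q : ℕ → Set X} (hQ : QFam C Q) : Inv C Q 0 0 St.init where
  fin k := by
    cases k with
    | none => exact finite_singleton _
    | some i => exact finite_empty
  finM k B M h := by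
    cases k with
    | none => rw [init_none, mem_singleton_iff, Prod.mk.injEq] at h; rw [h.2]; exact finite_singleton _
    | some i => exact absurd h (notMem_empty _)
  subR k B M h := by
    cases k with
    | none =>
      rw [init_none, mem_singleton_iff, Prod.mk.injEq] at h
      rw [h.2, singleton_subset_iff]; exact C.R_id
    | some i => exact absurd h (notMem_empty _)
  emp i _ := rfl
  endU i hi := absurd hi (by omega)
  cover x := ⟨none, univ, {id}, id, x, rfl, rfl, trivial, rfl⟩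
  uniq := by
    rintro x k B M u y k' B' M' u' y' ⟨h1, h2, h3, h4⟩ ⟨h1', h2', h3', h4'⟩
    cases k with
    | some i => exact absurd h1 (notMem_empty _)
    | none =>
      cases k' with
      | some i => exact absurd h1' (notMem_empty _)
      | none =>
        rw [init_none, mem_singleton_iff, Prod.mk.injEq] at h1 h1'
        obtain ⟨rfl, rfl⟩ := h1
        obtain ⟨rfl, rfl⟩ := h1'
        rw [mem_singleton_iff] at h2 h2'
        subst h2 h2'
        simp only [id] at h4 h4'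
        exact ⟨rfl, rfl, rfl, rfl, h4.trans h4'.symm⟩
  ba k B M h := by
    cases k with
    | none => rw [init_none, mem_singleton_iff, Prod.mk.injEq] at h; rw [h.1]; exact BA.univ hQ
    | some i => exact absurd h (notMem_empty _)
  nbr k B M h u hu y hy := by
    cases k with
    | none =>
      refine ⟨none, B, M, h, hu, subset_rfl, ?_⟩
      rw [init_none, mem_singleton_iff, Prod.mk.injEq] at h
      rw [h.1, univ_union]; exact Filter.univ_mem
    | some i => exact absurd h (notMem_empty _)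
  endp i B M h := absurd h (notMem_empty _)
  lvl0 i _ := rfl
  histfin m := finite_empty
  old m hm := absurd hm (by omega)

/-! ### activation of an end -/

/-- the state after activation -/
def St.act (S : St) (s : ℕ) : St where
  Cl k := match k with
    | none => (S.Cl none \ {(univ, S.pend)}) ∪ {({oo}, S.pend)}
    | some i => if i = s then {(univ \ {oo}, S.pend)} else S.Cl (some i)
  hist := S.hist
  lvl := S.lvl
  pend := S.pend

theorem act_none (S : St) (s : ℕ) :
    (S.act s).Cl none = (S.Cl none \ {(univ, S.pend)}) ∪ {({oo}, S.pend)} := rfl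
theorem act_self (S : St) (s : ℕ) : (S.act s).Cl (some s) = {(univ \ {oo}, S.pend)} := if_pos rfl
theorem act_ne (S : St) {s i : ℕ} (h : i ≠ s) : (S.act s).Cl (some i) = S.Cl (some i) := if_neg h

/-- every class of the activated system comes from a class of the old one -/
theorem act_src {C : Ctx} {Q : ℕ → Set X} {n s : ℕ} {S : St} (hI : Inv C Q n s S)
    (hp : (univ, S.pend) ∈ S.Cl none) {k : Option ℕ} {B : Set X} {M : Set (X → X)}
    (h : (B, M) ∈ (S.act s).Cl k) :
    (k = some s ∧ B = univ \ {oo} ∧ M = S.pend) ∨ (k = none ∧ B = {oo} ∧ M = S.pend) ∨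
    (k ≠ some s ∧ (B, M) ∈ S.Cl k ∧ ¬ (k = none ∧ (B, M) = (univ, S.pend))) := by
  cases k with
  | none =>
    rw [act_none] at h
    rcases h with h | h
    · exact Or.inr (Or.inr ⟨by simp, h.1, fun h' => h.2 h'.2⟩)
    · rw [mem_singleton_iff, Prod.mk.injEq] at h
      exact Or.inr (Or.inl ⟨rfl, h.1, h.2⟩)
  | some i =>
    by_cases hi : i = s
    · subst hi
      rw [act_self, mem_singleton_iff, Prod.mk.injEq] at h
      exact Or.inl ⟨rfl, h.1, h.2⟩
    · rw [act_ne S hi] at h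
      exact Or.inr (Or.inr ⟨by simpa using hi, h, by simp⟩)

theorem oo_ne_true : ∃ x : X, x ≠ oo := ⟨fun _ => true, fun h => by
  have := congrFun h 0; simp [oo] at this⟩

/-- old location of a new location -/
theorem act_loc {C : Ctx} {Q : ℕ → Set X} {n s : ℕ} {S : St} (hI : Inv C Q n s S)
    (hp : (univ, S.pend) ∈ S.Cl none) {k : Option ℕ} {B : Set X} {M : Set (X → X)}
    {u : X → X} {y x : X} (h : Loc (S.act s) k B M u y x) :
    (Loc S none univ S.pend u y x ∧ ((k = some s ∧ B = univ \ {oo} ∧ M = S.pend ∧ y ≠ oo) ∨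
      (k = none ∧ B = {oo} ∧ M = S.pend ∧ y = oo))) ∨
    (Loc S k B M u y x ∧ ¬ (k = none ∧ (B, M) = (univ, S.pend))) := by
  obtain ⟨h1, h2, h3, h4⟩ := h
  rcases act_src hI hp h1 with ⟨rfl, rfl, rfl⟩ | ⟨rfl, rfl, rfl⟩ | ⟨hk, h5, h6⟩
  · exact Or.inl ⟨⟨hp, h2, trivial, h4⟩, Or.inl ⟨rfl, rfl, rfl, h3.2⟩⟩
  · exact Or.inl ⟨⟨hp, h2, trivial, h4⟩, Or.inr ⟨rfl, rfl, rfl, h3⟩⟩
  · exact Or.inr ⟨⟨h5, h2, h3, h4⟩, h6⟩

theorem inv_act {C : Ctx} {Q : ℕ → Set X} (hQ : QFam C Q) {n s : ℕ} {S : St}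
    (hI : Inv C Q n s S) (hh : S.hist n = ∅) (hp : (univ, S.pend) ∈ S.Cl none) :
    Inv C Q (n + 1) (s + 1) (S.act s) where
  fin k := by
    cases k with
    | none => exact ((hI.fin none).subset sdiff_subset).union (finite_singleton _)
    | some i =>
      by_cases hi : i = s
      · subst hi; rw [act_self]; exact finite_singleton _
      · rw [act_ne S hi]; exact hI.fin _
  finM k B M h := by
    rcases act_src hI hp h with ⟨_, _, rfl⟩ | ⟨_, _, rfl⟩ | ⟨_, h5, _⟩
    · exact hI.finM _ _ _ hp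
    · exact hI.finM _ _ _ hp
    · exact hI.finM _ _ _ h5
  subR k B M h := by
    rcases act_src hI hp h with ⟨_, _, rfl⟩ | ⟨_, _, rfl⟩ | ⟨_, h5, _⟩
    · exact hI.subR _ _ _ hp
    · exact hI.subR _ _ _ hp
    · exact hI.subR _ _ _ h5
  emp i hi := by
    rw [act_ne S (by omega)]; exact hI.emp i (by omega)
  endU i hi := by
    by_cases his : i = s
    · subst his; exact ⟨_, act_self S i⟩
    · rw [act_ne S his]; exact hI.endU i (by omega)
  cover x := by
    obtain ⟨k, B, M, u, y, h1, h2, h3, h4⟩ := hI.cover x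
    by_cases hc : k = none ∧ (B, M) = (univ, S.pend)
    · obtain ⟨rfl, hBM⟩ := hc
      rw [Prod.mk.injEq] at hBM
      obtain ⟨rfl, rfl⟩ := hBM
      by_cases hy : y = oo
      · refine ⟨none, {oo}, S.pend, u, y, ?_, h2, hy, h4⟩
        rw [act_none]; exact Or.inr rfl
      · refine ⟨some s, univ \ {oo}, S.pend, u, y, ?_, h2, ⟨trivial, hy⟩, h4⟩
        rw [act_self]; rfl
    · refine ⟨k, B, M, u, y, ?_, h2, h3, h4⟩
      cases k with
      | none =>
        rw [act_none]
        refine Or.inl ⟨h1, fun h => hc ⟨rfl, h⟩⟩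
      | some i =>
        rw [act_ne S]
        · exact h1
        · rintro rfl
          rw [hI.emp i le_rfl] at h1
          exact notMem_empty _ h1
  uniq := by
    intro x k B M u y k' B' M' u' y' h h'
    rcases act_loc hI hp h with ⟨ha, hb⟩ | ⟨ha, hb⟩ <;>
      rcases act_loc hI hp h' with ⟨ha', hb'⟩ | ⟨ha', hb'⟩
    · obtain ⟨-, -, -, rfl, rfl⟩ := hI.uniq _ _ _ _ _ _ _ _ _ _ _ ha ha'
      rcases hb with ⟨rfl, rfl, rfl, hy⟩ | ⟨rfl, rfl, rfl, hy⟩ <;>
        rcases hb' with ⟨rfl, rfl, rfl, hy'⟩ | ⟨rfl, rfl, rfl, hy'⟩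
      · exact ⟨rfl, rfl, rfl, rfl, rfl⟩
      · exact absurd hy' hy
      · exact absurd hy hy'
      · exact ⟨rfl, rfl, rfl, rfl, rfl⟩
    · obtain ⟨h1, h2, h3, -, -⟩ := hI.uniq _ _ _ _ _ _ _ _ _ _ _ ha ha'
      exact absurd ⟨h1.symm, by rw [← h2, ← h3]⟩ hb'
    · obtain ⟨h1, h2, h3, -, -⟩ := hI.uniq _ _ _ _ _ _ _ _ _ _ _ ha ha'
      exact absurd ⟨h1, by rw [h2, h3]⟩ hb
    · exact hI.uniq _ _ _ _ _ _ _ _ _ _ _ ha ha'
  ba k B M h := by
    rcases act_src hI hp h with ⟨_, rfl, _⟩ | ⟨_, rfl, _⟩ | ⟨_, h5, _⟩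
    · exact (BA.univ hQ).diff (BA.pt hQ)
    · exact BA.pt hQ
    · exact hI.ba _ _ _ h5
  nbr k B M h u hu y hy := by
    rcases act_src hI hp h with ⟨rfl, rfl, rfl⟩ | ⟨rfl, rfl, rfl⟩ | ⟨hk, h5, h6⟩
    · refine ⟨some s, _, _, h, hu, subset_rfl, ?_⟩
      rw [union_eq_self_of_subset_right (singleton_subset_iff.2 hy)]
      refine IsOpen.mem_nhds ?_ hy
      rw [← compl_eq_univ_sdiff]
      exact isOpen_compl_singleton
    · refine ⟨some s, univ \ {oo}, S.pend, by rw [act_self]; rfl, hu, subset_rfl, ?_⟩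
      rw [mem_singleton_iff.1 hy, sdiff_union_self, univ_union]
      exact Filter.univ_mem
    · obtain ⟨k', B', M', h1, h2, h3, h4⟩ := hI.nbr _ _ _ h5 u hu y hy
      refine ⟨k', B', M', ?_, h2, h3, h4⟩
      cases k' with
      | none =>
        rw [act_none]
        refine Or.inl ⟨h1, fun hc => h6 ?_⟩
        rw [mem_singleton_iff, Prod.mk.injEq] at hc
        obtain ⟨rfl, rfl⟩ := hc
        obtain ⟨e1, e2, e3, -, -⟩ := hI.uniq (u y) k B M u y none univ S.pend u y
          ⟨h5, hu, hy, rfl⟩ ⟨h1, h2, trivial, rfl⟩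
        exact ⟨e1, by rw [e2, e3]⟩
      | some i =>
        rw [act_ne S]
        · exact h1
        · rintro rfl
          rw [hI.emp i le_rfl] at h1
          exact notMem_empty _ h1
  endp i B M h := by
    rcases act_src hI hp h with ⟨hi, rfl, rfl⟩ | ⟨hi, _, _⟩ | ⟨hk, h5, h6⟩
    · rw [Option.some.injEq] at hi
      subst hi
      refine ⟨?_, fun h => h.2 rfl, ?_, ?_, S.pend, ?_, subset_rfl⟩
      · rw [← compl_eq_univ_sdiff]
        exact isOpen_compl_singleton
      · rw [sdiff_union_self, univ_union]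
        exact Filter.univ_mem
      · have : (S.act i).lvl i = 0 := hI.lvl0 i le_rfl
        rw [this]
        intro x _ j hj
        omega
      · rw [act_none]; exact Or.inr rfl
    · exact absurd hi (by simp)
    · obtain ⟨a1, a2, a3, a4, Ms, a5, a6⟩ := hI.endp i B M h5
      refine ⟨a1, a2, a3, a4, Ms, ?_, a6⟩
      rw [act_none]
      refine Or.inl ⟨a5, fun hc => ?_⟩
      rw [mem_singleton_iff, Prod.mk.injEq] at hc
      obtain ⟨x, hx⟩ := oo_ne_true
      have : x ∈ ({oo} : Set X) := by rw [hc.1]; trivial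
      exact hx this
  lvl0 i hi := hI.lvl0 i (by omega)
  histfin := hI.histfin
  old m hm p hpm k B M h u hu := by
    have hm' : m < n := by
      rcases Nat.lt_succ_iff_lt_or_eq.1 hm with h | rfl
      · exact h
      · have : p ∈ S.hist m := hpm
        rw [hh] at this
        exact absurd this (notMem_empty _)
    rcases act_src hI hp h with ⟨rfl, rfl, rfl⟩ | ⟨rfl, rfl, rfl⟩ | ⟨hk, h5, h6⟩
    · rcases hI.old m hm' p hpm _ _ _ hp u hu with h | h
      · exact Or.inl h
      · exact Or.inr (h.mono_left (image_mono (subset_univ _)))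
    · rcases hI.old m hm' p hpm _ _ _ hp u hu with h | h
      · exact Or.inl h
      · exact Or.inr (h.mono_left (image_mono (subset_univ _)))
    · exact hI.old m hm' p hpm _ _ _ h5 u hu

theorem rho_empty (x : X) : rho ∅ x = x := rho_of_notMem fun _ h => absurd h (notMem_empty _)

theorem step_act {C : Ctx} {Q : ℕ → Set X} {n s : ℕ} {S : St}
    (hI : Inv C Q n s S) (hh : S.hist n = ∅) (hp : (univ, S.pend) ∈ S.Cl none) :
    Step C Q n S (S.act s) ∅ ∅ where
  hist := by
    change S.hist = _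
    rw [← hh, Function.update_eq_self]
  No_sub := subset_rfl
  N_fin := finite_empty
  N_R p h := absurd h (notMem_empty _)
  disj p h := absurd h (notMem_empty _)
  base0 p h := absurd h (notMem_empty _)
  baseOld m hm p hp q h := absurd h (notMem_empty _)
  lam m hm p hp q h := absurd h (notMem_empty _)
  close p h := absurd h (notMem_empty _)
  dec1 p h := absurd h (notMem_empty _)
  dec2 p h := absurd h (notMem_empty _)
  st1 := by
    intro k B M h u hu u' hu' y hy x hx
    rw [rho_empty] at hx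
    by_cases hc : k = none ∧ (B, M) = (univ, S.pend)
    · obtain ⟨rfl, hBM⟩ := hc
      rw [Prod.mk.injEq] at hBM
      obtain ⟨rfl, rfl⟩ := hBM
      by_cases hyo : y = oo
      · refine ⟨none, {oo}, S.pend, id, y, ?_, hu, hu', hyo, hx, rho_empty _⟩
        rw [act_none]; exact Or.inr rfl
      · refine ⟨some s, univ \ {oo}, S.pend, id, y, ?_, hu, hu', ⟨trivial, hyo⟩, hx, rho_empty _⟩
        rw [act_self]; rfl
    · refine ⟨k, B, M, id, y, ?_, hu, hu', hy, hx, rho_empty _⟩
      cases k with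
      | none =>
        rw [act_none]
        refine Or.inl ⟨h, fun h => hc ⟨rfl, h⟩⟩
      | some i =>
        rw [act_ne S]
        · exact h
        · rintro rfl
          rw [hI.emp i le_rfl] at h
          exact notMem_empty _ h
  lvlmono i := le_rfl

end TuringBaire.Con
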