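import Pool.Agent.TuringBaire.Limit
import Pool.Agent.TuringBaire.Clopenize

/-!
# The limit topology
-/

namespace TuringBaire.Con

open Set Topology

section General

/-- the topology of `CT Q`, on `X` -/
@[instance_reducible] def tau (Q : ℕ → Set X) : TopologicalSpace X :=
  TopologicalSpace.generateFrom ({S | ∃ i, S = Q i ∨ S = (Q i)ᶜ} ∪ {S | ∃ s, S = cyl s})

/-- open for `tau Q` -/
def Op (Q : ℕ → Set X) (S : Set X) : Prop := IsOpen[tau Q] S

variable {Q : ℕ → Set X}

theorem Op.inter {S T : Set X} (hS : Op Q S) (hT : Op Q T) : Op Q (S ∩ T) :=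
  @IsOpen.inter X (tau Q) S T hS hT

theorem Op.union {S T : Set X} (hS : Op Q S) (hT : Op Q T) : Op Q (S ∪ T) :=
  @IsOpen.union X S T (tau Q) hS hT

theorem op_of_local {T : Set X} (h : ∀ x ∈ T, ∃ U ⊆ T, Op Q U ∧ x ∈ U) : Op Q T :=
  (@isOpen_iff_forall_mem_open X (tau Q) T).2 h

theorem op_iUnion {ι : Sort*} {S : ι → Set X} (h : ∀ i, Op Q (S i)) : Op Q (⋃ i, S i) :=
  @isOpen_iUnion X ι (tau Q) S h

theorem BA.op_and {P : Set X} (h : BA Q P) : Op Q P ∧ Op Q Pᶜ := by
  induction h with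
  | base i => exact ⟨ct_isOpen_C Q i, ct_isOpen_Cc Q i⟩
  | @compl S _ ih => exact ⟨ih.2, by rw [compl_compl]; exact ih.1⟩
  | @inter S T _ _ ihS ihT =>
    refine ⟨ihS.1.inter ihT.1, ?_⟩
    rw [compl_inter]
    exact ihS.2.union ihT.2

theorem BA.op {P : Set X} (h : BA Q P) : Op Q P := h.op_and.1

/-- open sets are unions of Boolean combinations -/
theorem op_iff_BA (hcyl : ∀ s, ∃ i, Q i = cyl s) (T : Set X) :
    Op Q T ↔ ∀ x ∈ T, ∃ P : Set X, BA Q P ∧ x ∈ P ∧ P ⊆ T := by
  constructor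
  · intro h
    have h' : TopologicalSpace.GenerateOpen
      ({S | ∃ i, S = Q i ∨ S = (Q i)ᶜ} ∪ {S | ∃ s, S = cyl s}) T := h
    clear h
    induction h' with
    | basic S hS =>
      intro x hx
      rcases hS with ⟨i, rfl | rfl⟩ | ⟨s, rfl⟩
      · exact ⟨Q i, BA.base i, hx, subset_rfl⟩
      · exact ⟨(Q i)ᶜ, (BA.base i).compl, hx, subset_rfl⟩
      · obtain ⟨i, hi⟩ := hcyl s
        exact ⟨Q i, BA.base i, by rw [hi]; exact hx, hi.subset⟩
    | univ =>
      intro x _
      obtain ⟨i, hi⟩ := hcyl []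
      exact ⟨Q i, BA.base i, by rw [hi, cyl_nil]; trivial, subset_univ _⟩
    | inter S S' _ _ ih ih' =>
      intro x hx
      obtain ⟨P, h1, h2, h3⟩ := ih x hx.1
      obtain ⟨P', h1', h2', h3'⟩ := ih' x hx.2
      exact ⟨P ∩ P', h1.inter h1', ⟨h2, h2'⟩, inter_subset_inter h3 h3'⟩
    | sUnion 𝒮 _ ih =>
      rintro x ⟨S, hS, hx⟩
      obtain ⟨P, h1, h2, h3⟩ := ih S hS x hx
      exact ⟨P, h1, h2, h3.trans (subset_sUnion_of_mem hS)⟩
  · intro h
    refine op_of_local ?_
    intro x hx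
    obtain ⟨P, h1, h2, h3⟩ := h x hx
    exact ⟨P, h3, h1.op, h2⟩

theorem op_of_rho {T : Set X} (hT : IsOpen T) : Op Q T := by
  refine op_of_local ?_
  intro x hx
  obtain ⟨k, hk⟩ := isOpen_iff_cyl.1 hT x hx
  exact ⟨_, hk, ct_isOpen_cyl Q _, self_mem_cyl_tk x k⟩

/-- continuity on a set, from `tau Q` to `tau Q'` -/
def CoOn (Q Q' : ℕ → Set X) (f : X → X) (A : Set X) : Prop :=
  @ContinuousOn X X (tau Q) (tau Q') f A

/-- a convenient criterion for continuity on a set -/
theorem coOn_iff_BA {Q' : ℕ → Set X} (hcyl : ∀ s, ∃ i, Q i = cyl s)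
    (hcyl' : ∀ s, ∃ i, Q' i = cyl s) (f : X → X) (A : Set X) :
    CoOn Q Q' f A ↔
      ∀ x ∈ A, ∀ P, BA Q' P → f x ∈ P → ∃ P', BA Q P' ∧ x ∈ P' ∧ ∀ z ∈ P', z ∈ A → f z ∈ P := by
  unfold CoOn
  rw [@_root_.continuousOn_iff X X (tau Q) (tau Q')]
  constructor
  · intro h x hx P hP hfx
    obtain ⟨U, hU, hxU, hsub⟩ := h x hx P hP.op hfx
    obtain ⟨P', h1, h2, h3⟩ := (op_iff_BA hcyl U).1 hU x hxU
    exact ⟨P', h1, h2, fun z hz hzA => hsub ⟨h3 hz, hzA⟩⟩
  · intro h x hx T hT hfx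
    obtain ⟨P, h1, h2, h3⟩ := (op_iff_BA hcyl' T).1 hT (f x) hfx
    obtain ⟨P', h1', h2', h3'⟩ := h x hx P h1 h2
    exact ⟨P', h1'.op, h2', fun z hz => h3 (h3' z hz.1 hz.2)⟩

end General

variable {C : Ctx} {Q Bs : ℕ → Set X}

namespace Run

variable (R : Run C Q Bs)

/-- the family of closed sets which is made clopen -/
structure Fm (F : ℕ → Set X) : Prop where
  src : ∀ i, (∃ N j, j < N ∧ F i = R.r N ⁻¹' Q j) ∨ (∃ m, ∃ p ∈ R.N m, F i = range p.1)
  ret : ∀ N j, j < N → ∃ i, F i = R.r N ⁻¹' Q j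
  pc : ∀ m, ∀ p ∈ R.N m, ∃ i, F i = range p.1

theorem exists_fm : ∃ F, R.Fm F := by
  have h1 : (⋃ m, R.N m).Countable := countable_iUnion fun m => (R.step m).N_fin.countable
  have hS : ((fun p : ℕ × ℕ => R.r (p.2 + p.1 + 1) ⁻¹' Q p.2) '' univ ∪
      (fun p : Pc => range p.1) '' (⋃ m, R.N m)).Countable :=
    (countable_univ.image _).union (h1.image _)
  obtain ⟨F, hF⟩ := hS.exists_eq_range ⟨_, Or.inl ⟨(0, 0), trivial, rfl⟩⟩
  refine ⟨F, ?_, ?_, ?_⟩
  · intro i
    have : F i ∈ range F := mem_range_self i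
    rw [← hF] at this
    rcases this with ⟨p, -, hp⟩ | ⟨p, hp, hp'⟩
    · exact Or.inl ⟨p.2 + p.1 + 1, p.2, by omega, hp.symm⟩
    · obtain ⟨m, hm⟩ := mem_iUnion.1 hp
      exact Or.inr ⟨m, p, hm, hp'.symm⟩
  · intro N j hj
    have : R.r N ⁻¹' Q j ∈ range F := by
      rw [← hF]
      refine Or.inl ⟨(N - j - 1, j), trivial, ?_⟩
      have : j + (N - j - 1) + 1 = N := by omega
      simp only [this]
    exact this
  · intro m p hp
    have : range p.1 ∈ range F := by
      rw [← hF]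
      exact Or.inr ⟨p, mem_iUnion.2 ⟨m, hp⟩, rfl⟩
    exact this

variable {R}

theorem r_mem_Q {N i : ℕ} (h : i < N) {x : X} (hx : x ∈ Q i) : R.r N x ∈ Q i := by
  rcases r_cases R N x with ⟨-, h1⟩ | ⟨m, hm, -, p, hp, hxp, h1⟩
  · rw [h1]; exact hx
  · rw [h1]
    by_contra hcon
    exact Set.disjoint_left.1 ((R.step m).dec1 p hp i (by omega) hcon) hxp hx

theorem finite_early (R : Run C Q Bs) (k : ℕ) : (⋃ m ∈ Set.Iio k, R.N m).Finite :=
  (Set.finite_Iio k).biUnion fun m _ => (R.step m).N_fin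

theorem isClosed_r_preimage (hQ : QFam C Q) {N i : ℕ} (h : i < N) :
    IsClosed (R.r N ⁻¹' Q i) := by
  rw [← isOpen_compl_iff, isOpen_iff_mem_nhds]
  intro x hx
  have hxQ : x ∉ Q i := fun hc => hx (r_mem_Q h hc)
  obtain ⟨k, hk⟩ := exists_cyl_subset ((hQ.closed i).isOpen_compl.mem_nhds hxQ)
  set Ps : Set Pc := {p ∈ ⋃ m ∈ Set.Iio k, R.N m | x ∉ range p.1} with hPs
  have hfin : Ps.Finite := (finite_early R k).subset (sep_subset _ _)
  have hcl : IsClosed (⋃ p ∈ Ps, range p.1) := by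
    refine hfin.isClosed_biUnion fun p hp => ?_
    have h1 := hp.1
    simp only [mem_iUnion] at h1
    obtain ⟨m, -, hm⟩ := h1
    exact isClosed_range_R ((R.step m).N_R p hm)
  have hxc : x ∉ ⋃ p ∈ Ps, range p.1 := by
    intro hc
    simp only [mem_iUnion] at hc
    obtain ⟨p, hp, hxp⟩ := hc
    exact hp.2 hxp
  refine Filter.mem_of_superset (Filter.inter_mem (cyl_mem_nhds x k)
    (hcl.isOpen_compl.mem_nhds hxc)) ?_
  rintro z ⟨hz1, hz2⟩
  have hz1' := mem_cyl_tk.1 hz1
  have hfar : R.r N z ∈ cyl (tk x k) → z ∈ (R.r N ⁻¹' Q i)ᶜ := fun h3 h4 => hk h3 h4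
  rcases r_cases R N z with ⟨-, h1⟩ | ⟨m, hm, hmin, p, hp, hzp, h1⟩
  · exact hfar (by rw [h1]; exact hz1)
  · rcases Nat.lt_or_ge m k with hmk | hmk
    · -- an early piece: it contains `x`
      have hxp : x ∈ range p.1 := by
        by_contra hxp
        apply hz2
        simp only [mem_iUnion]
        refine ⟨p, ⟨?_, hxp⟩, hzp⟩
        simp only [mem_iUnion]
        exact ⟨m, hmk, hp⟩
      have hxr : R.r N x = p.2 := by
        refine r_of_hit hm ?_ hp hxp
        rintro m' h3 h4 ⟨q, hq, hxq⟩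
        exact hmin m' h3 h4 ⟨q, hq, (mem_iff_base h4 hq hp hzp).2
          ((mem_iff_base h4 hq hp hxp).1 hxq)⟩
      intro h3
      apply hx
      change R.r N x ∈ Q i
      rw [hxr, ← h1]
      exact h3
    · apply hfar
      rw [h1, mem_cyl_tk]
      intro j hj
      obtain ⟨z0, hz0⟩ := hzp
      rw [← (R.step m).close p hp z0 j (by omega), hz0]
      exact hz1' j hj

namespace Fm

variable {F : ℕ → Set X} (hF : R.Fm F)

include hF

theorem closed (hQ : QFam C Q) (i : ℕ) : IsClosed (F i) := by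
  rcases hF.src i with ⟨N, j, hj, h⟩ | ⟨m, p, hp, h⟩
  · rw [h]; exact isClosed_r_preimage hQ hj
  · rw [h]; exact isClosed_range_R ((R.step m).N_R p hp)

theorem cyl (hQ : QFam C Q) (s : List Bool) : ∃ i, F i = cyl s := by
  obtain ⟨j, hj⟩ := hQ.cyl s
  obtain ⟨i, hi⟩ := hF.ret (max (j + 1) s.length) j (by omega)
  refine ⟨i, ?_⟩
  rw [hi, hj]
  ext x
  rw [mem_preimage, mem_cyl, mem_cyl]
  constructor
  · intro h k hk
    rw [← h k hk, r_close R _ _ (by omega)]
  · intro h k hk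
    rw [← h k hk, r_close R _ _ (by omega)]

theorem BA_pc {m : ℕ} {p : Pc} (hp : p ∈ R.N m) : BA F (range p.1) := by
  obtain ⟨i, hi⟩ := hF.pc m p hp
  rw [← hi]; exact BA.base i

theorem BA_univ (hQ : QFam C Q) : BA F (univ : Set X) := by
  obtain ⟨i, hi⟩ := hF.cyl hQ []
  rw [← cyl_nil, ← hi]; exact BA.base i

theorem BA_empty (hQ : QFam C Q) : BA F (∅ : Set X) := by
  have := (hF.BA_univ hQ).compl
  rwa [compl_univ] at this

theorem BA_fin (hQ : QFam C Q) {ι : Type*} {s : Set ι} (hs : s.Finite) (G : ι → Set X)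
    (h : ∀ i ∈ s, BA F (G i)) : BA F (⋃ i ∈ s, G i) := by
  induction s, hs using Set.Finite.induction_on with
  | empty => simpa using hF.BA_empty hQ
  | @insert a s _ _ ih =>
    rw [biUnion_insert]
    exact (h a (mem_insert _ _)).union (ih fun i hi => h i (mem_insert_of_mem _ hi))

/-- the retractions are continuous into `σ` -/
theorem r_base (hQ : QFam C Q) (i : ℕ) : ∀ k n, i < n + k → BA F (R.r n ⁻¹' Q i) := by
  intro k
  induction k with
  | zero =>
    intro n h
    obtain ⟨j, hj⟩ := hF.ret n i (by omega)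
    rw [← hj]; exact BA.base j
  | succ k ih =>
    intro n h
    have ih' := ih (n + 1) (by omega)
    have hW : BA F (WW (R.N n)) := hF.BA_fin hQ (R.step n).N_fin _ fun p hp => hF.BA_pc hp
    have hU : BA F (⋃ p ∈ {p ∈ R.N n | p.2 ∈ Q i}, range p.1) :=
      hF.BA_fin hQ ((R.step n).N_fin.subset (sep_subset _ _)) _ fun p hp => hF.BA_pc hp.1
    have he : R.r n ⁻¹' Q i = (⋃ p ∈ {p ∈ R.N n | p.2 ∈ Q i}, range p.1) ∪
        (R.r (n + 1) ⁻¹' Q i \ WW (R.N n)) := by
      ext x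
      by_cases hx : ∃ p ∈ R.N n, x ∈ range p.1
      · obtain ⟨p, hp, hxp⟩ := hx
        have hr : R.r n x = p.2 := r_of_hit le_rfl (by intros; omega) hp hxp
        rw [mem_preimage, hr]
        constructor
        · intro h
          refine Or.inl ?_
          simp only [mem_iUnion]
          exact ⟨p, ⟨hp, h⟩, hxp⟩
        · rintro (h | h)
          · simp only [mem_iUnion] at h
            obtain ⟨q, ⟨hq, hqi⟩, hxq⟩ := h
            by_cases hpq : p = q
            · rw [hpq]; exact hqi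
            · exact absurd hxq (Set.disjoint_left.1 (R.disj n p hp q hq hpq) hxp)
          · exact absurd (mem_WW.2 ⟨p, hp, hxp⟩) h.2
      · have hr : R.r n x = R.r (n + 1) x := by
          rw [← rho_r]
          refine rho_nohit fun hh => hx ((r_hit_iff (Nat.lt_succ_self n) x).1 hh)
        rw [mem_preimage, hr]
        constructor
        · intro h
          exact Or.inr ⟨h, fun hW => hx (mem_WW.1 hW)⟩
        · rintro (h | h)
          · simp only [mem_iUnion] at h
            obtain ⟨q, ⟨hq, hqi⟩, hxq⟩ := h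
            exact absurd ⟨q, hq, hxq⟩ hx
          · exact h.1
    rw [he]
    exact hU.union (ih'.diff hW)

theorem r_BA (hQ : QFam C Q) (n : ℕ) {P : Set X} (hP : BA Q P) : BA F (R.r n ⁻¹' P) := by
  induction hP with
  | base i => exact hF.r_base hQ i (i + 1) n (by omega)
  | @compl S _ ih => exact ih.compl
  | @inter S T _ _ ihS ihT => exact ihS.inter ihT

/-- the new topology is coarser than `σ` -/
theorem sig_and (hQ : QFam C Q) {P : Set X} (hP : BA F P) : Op Q P ∧ Op Q Pᶜ := by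
  induction hP with
  | base i =>
    refine ⟨?_, op_of_rho (hF.closed hQ i).isOpen_compl⟩
    rcases hF.src i with ⟨N, j, hj, h⟩ | ⟨m, p, hp, h⟩
    · rw [h, op_iff_BA hQ.cyl]
      intro x hx
      by_cases hxQ : x ∈ Q j
      · exact ⟨Q j, BA.base j, hxQ, fun z hz => r_mem_Q hj hz⟩
      · rcases r_cases R N x with ⟨-, h1⟩ | ⟨m, hm, hmin, p, hp, hxp, h1⟩
        · rw [mem_preimage, h1] at hx
          exact absurd hx hxQ
        · rw [mem_preimage, h1] at hx
          refine ⟨range p.1 \ ⋃ q ∈ {q ∈ ⋃ m' ∈ Set.Iio m, R.N m' | x ∉ range q.1}, range q.1, ?_,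
            ?_, ?_⟩
          · refine (BA.ofRange hQ ((R.step m).N_R p hp)).diff (BA.finUnion hQ
              ((finite_early R m).subset (sep_subset _ _)) _ fun q hq => ?_)
            have h2 := hq.1
            simp only [mem_iUnion] at h2
            obtain ⟨m', -, hm'⟩ := h2
            exact BA.ofRange hQ ((R.step m').N_R q hm')
          · refine ⟨hxp, ?_⟩
            intro hc
            simp only [mem_iUnion] at hc
            obtain ⟨q, hq, hxq⟩ := hc
            exact hq.2 hxq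
          · rintro z ⟨hz1, hz2⟩
            rw [mem_preimage]
            have : R.r N z = p.2 := by
              refine r_of_hit hm ?_ hp hz1
              rintro m' h3 h4 ⟨q, hq, hzq⟩
              exact hmin m' h3 h4 ⟨q, hq, (mem_iff_base h4 hq hp hxp).2
                ((mem_iff_base h4 hq hp hz1).1 hzq)⟩
            rw [this]; exact hx
    · rw [h]
      exact (BA.ofRange hQ ((R.step m).N_R p hp)).op
  | @compl S _ ih => exact ⟨ih.2, by rw [compl_compl]; exact ih.1⟩
  | @inter S T _ _ ihS ihT =>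
    refine ⟨ihS.1.inter ihT.1, ?_⟩
    rw [compl_inter]
    exact ihS.2.union ihT.2

theorem sig_open (hQ : QFam C Q) {T : Set X} (hT : Op F T) : Op Q T := by
  rw [op_iff_BA (hF.cyl hQ)] at hT
  refine op_of_local ?_
  intro x hx
  obtain ⟨P, h1, h2, h3⟩ := hT x hx
  exact ⟨P, h3, (hF.sig_and hQ h1).1, h2⟩

/-- every Boolean combination is eventually invariant -/
theorem stab {P : Set X} (hP : BA F P) : ∃ m0, ∀ m ≥ m0, ∀ z, R.r m z ∈ P ↔ z ∈ P := by
  induction hP with
  | base i =>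
    rcases hF.src i with ⟨N, j, hj, h⟩ | ⟨m, p, hp, h⟩
    · refine ⟨N, fun m hm z => ?_⟩
      have hc : R.r N (R.r m z) = R.r N z := by
        rcases r_cases R m z with ⟨-, h1⟩ | ⟨m', hm', hmin, p, hp, hzp, h1⟩
        · rw [h1]
        · rw [h1]
          rcases r_cases R N z with ⟨h2, -⟩ | ⟨m2, hm2, hmin2, q, hq, hzq, h2⟩
          · exact absurd ⟨p, hp, hzp⟩ (h2 m' (by omega))
          · rw [h2]
            have hle : m2 ≤ m' := by
              by_contra hcon
              exact hmin2 m' (by omega) (by omega) ⟨p, hp, hzp⟩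
            rcases hle.lt_or_eq with hlt | rfl
            · refine r_of_hit hm2 ?_ hq ((mem_iff_base hlt hq hp hzp).1 hzq)
              rintro m3 h3 h4 ⟨q', hq', hb⟩
              exact hmin2 m3 h3 h4 ⟨q', hq', (mem_iff_base (h4.trans hlt) hq' hp hzp).2 hb⟩
            · have hpq : p = q := by
                by_contra hne
                exact Set.disjoint_left.1 (R.disj _ p hp q hq hne) hzp hzq
              subst hpq
              apply r_of_nohit
              rintro m3 h3 ⟨q', hq', hb⟩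
              rcases Nat.lt_or_ge m3 m2 with h4 | h4
              · exact hmin2 m3 h3 h4 ⟨q', hq', (mem_iff_base h4 hq' hp hzp).2 hb⟩
              · exact R.base h4 hp hq' hb
      rw [h, mem_preimage, mem_preimage, hc]
    · refine ⟨m + 1, fun m' hm' z => ?_⟩
      rw [h]
      exact r_mem_iff (by omega) hp z
  | @compl S _ ih =>
    obtain ⟨m0, h⟩ := ih
    exact ⟨m0, fun m hm z => not_congr (h m hm z)⟩
  | @inter S T _ _ ihS ihT =>
    obtain ⟨m0, h⟩ := ihS
    obtain ⟨m1, h'⟩ := ihT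
    exact ⟨max m0 m1, fun m hm z => and_congr (h m (le_trans (le_max_left _ _) hm) z)
      (h' m (le_trans (le_max_right _ _) hm) z)⟩

end Fm

end Run

end TuringBaire.Con
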